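import Mathlib

/-!
# The rhombus algebra of fourth order correlations
-/

set_option autoImplicit false

namespace Pool.Agent.H486.QM

/-- A symmetric function of four integer indices killed by the raising sum on indices of total
`-1` and by the lowering sum on indices of total `1`. -/
structure Rh (M : ℤ → ℤ → ℤ → ℤ → ℂ) : Prop where
  s12 : ∀ a b c d, M a b c d = M b a c d
  s23 : ∀ a b c d, M a b c d = M a c b d
  s34 : ∀ a b c d, M a b c d = M a b d c
  up : ∀ a b c d, a + b + c + d = -1 →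
    M (a + 1) b c d + M a (b + 1) c d + M a b (c + 1) d + M a b c (d + 1) = 0
  down : ∀ a b c d, a + b + c + d = 1 →
    M (a - 1) b c d + M a (b - 1) c d + M a b (c - 1) d + M a b c (d - 1) = 0

variable {M : ℤ → ℤ → ℤ → ℤ → ℂ}

/-- the wave equation -/
theorem Rh.wave (h : Rh M) (i j : ℤ) :
    M (i + 1) (-(i + 1)) j (-j) + M (i - 1) (-(i - 1)) j (-j) =
      M i (-i) (j + 1) (-(j + 1)) + M i (-i) (j - 1) (-(j - 1)) := by
  have h1 := h.up (i - 1) (-i) j (-j) (by ring)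
  have h2 := h.up i (-i - 1) j (-j) (by ring)
  have h3 := h.down i (-i) (j + 1) (-j) (by ring)
  have h4 := h.down i (-i) j (-j + 1) (by ring)
  have e1 : -(i + 1) = -i - 1 := by ring
  have e2 : -(i - 1) = -i + 1 := by ring
  have e3 : -(j + 1) = -j - 1 := by ring
  have e4 : -(j - 1) = -j + 1 := by ring
  have e5 : i - 1 + 1 = i := by ring
  have e6 : -i - 1 + 1 = -i := by ring
  have e7 : j + 1 - 1 = j := by ring
  have e8 : -j + 1 - 1 = -j := by ring
  rw [e1, e2, e3, e4]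
  rw [e5] at h1
  rw [e6] at h2
  rw [e7] at h3
  rw [e8] at h4
  linear_combination h1 + h2 - h3 - h4

/-- the basic sequence -/
def DD (M : ℤ → ℤ → ℤ → ℤ → ℂ) (n : ℤ) : ℂ := M 0 0 n (-n)

theorem Rh.DD_neg (h : Rh M) (n : ℤ) : DD M (-n) = DD M n := by
  rw [DD, DD, neg_neg, h.s34]

theorem Rh.pair_neg (h : Rh M) (i j : ℤ) : M (-i) (- -i) j (-j) = M i (-i) j (-j) := by
  rw [neg_neg, h.s12]

theorem Rh.nn_aux (h : Rh M) (n : ℕ) : ∀ j : ℤ,
    (M n (-n) j (-j) = (DD M (n + j) + DD M (n - j)) / 2) ∧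
    (M (n + 1 : ℤ) (-(n + 1 : ℤ)) j (-j) = (DD M (n + 1 + j) + DD M (n + 1 - j)) / 2) := by
  induction n with
  | zero =>
    intro j
    constructor
    · have : (((0 : ℕ) : ℤ)) = 0 := rfl
      rw [this, neg_zero, zero_add, zero_sub, h.DD_neg, DD]
      ring
    · have h1 := h.wave 0 j
      have e0 : ((0 : ℕ) : ℤ) = 0 := rfl
      rw [e0]
      have e1 : M (0 - 1) (-(0 - 1)) j (-j) = M (0 + 1) (-(0 + 1)) j (-j) := by
        have := h.pair_neg 1 j
        simpa using this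
      rw [e1] at h1
      have e2 : M 0 (-0) (j + 1) (-(j + 1)) = DD M (0 + 1 + j) := by
        rw [DD, neg_zero]; congr 1 <;> ring
      have e3 : M 0 (-0) (j - 1) (-(j - 1)) = DD M (0 + 1 - j) := by
        rw [← h.DD_neg, DD, neg_zero]; congr 1 <;> ring
      rw [e2, e3] at h1
      linear_combination h1 / 2
  | succ n ih =>
    intro j
    refine ⟨?_, ?_⟩
    · have := (ih j).2
      push_cast
      exact this
    · have h1 := h.wave (n + 1 : ℤ) j
      have h2 := (ih (j + 1)).2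
      have h3 := (ih (j - 1)).2
      have h4 := (ih j).1
      have e1 : ((n : ℤ) + 1 - 1) = n := by ring
      rw [e1] at h1
      rw [h2, h3, h4] at h1
      push_cast
      have e2 : (n : ℤ) + 1 + (j + 1) = n + 1 + 1 + j := by ring
      have e3 : (n : ℤ) + 1 - (j + 1) = n - j := by ring
      have e4 : (n : ℤ) + 1 + (j - 1) = n + j := by ring
      have e5 : (n : ℤ) + 1 - (j - 1) = n + 1 + 1 - j := by ring
      rw [e2, e3, e4, e5] at h1
      linear_combination h1

/-- d'Alembert -/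
theorem Rh.nn (h : Rh M) (i j : ℤ) : M i (-i) j (-j) = (DD M (i + j) + DD M (i - j)) / 2 := by
  rcases le_total 0 i with hi | hi
  · obtain ⟨n, rfl⟩ := Int.eq_ofNat_of_zero_le hi
    exact (h.nn_aux n j).1
  · obtain ⟨n, hn⟩ := Int.eq_ofNat_of_zero_le (neg_nonneg.2 hi)
    have e : i = -(n : ℤ) := by omega
    rw [e, h.pair_neg, (h.nn_aux n j).1]
    have e1 : -(n : ℤ) + j = -(n - j) := by ring
    have e2 : -(n : ℤ) - j = -(n + j) := by ring
    rw [e1, e2, h.DD_neg, h.DD_neg]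
    ring

theorem Rh.uu (h : Rh M) (k : ℕ) (j : ℤ) :
    M k (-k - 1) (j + 1) (-j) + M (-k - 1) k (j + 1) (-j) = -(DD M (j + k + 1) + DD M (j - k)) := by
  induction k with
  | zero =>
    have h1 := h.down 0 0 (j + 1) (-j) (by ring)
    have e0 : ((0 : ℕ) : ℤ) = 0 := rfl
    have e1 : j + 1 - 1 = j := by ring
    rw [e0]
    rw [e1] at h1
    have e2 : M 0 0 (j + 1) (-j - 1) = DD M (j + 0 + 1) := by
      rw [DD]; congr 1 <;> ring
    have e3 : M 0 0 j (-j) = DD M (j - 0) := by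
      rw [DD]; congr 1 <;> ring
    rw [e2, e3] at h1
    simp only [neg_zero]
    linear_combination h1
  | succ k ih =>
    have h1 := h.down (k + 1 : ℤ) (-(k + 1 : ℤ)) (j + 1) (-j) (by ring)
    have h2 := h.down (-(k + 1 : ℤ)) (k + 1 : ℤ) (j + 1) (-j) (by ring)
    have e1 : j + 1 - 1 = j := by ring
    have e2 : (k : ℤ) + 1 - 1 = k := by ring
    rw [e1, e2] at h1 h2
    have e3 : -j - 1 = -(j + 1) := by ring
    rw [e3] at h1 h2
    have n1 := h.nn (k + 1 : ℤ) j
    have n2 := h.nn (k + 1 : ℤ) (j + 1)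
    have n3 : M (-(k + 1 : ℤ)) (k + 1 : ℤ) j (-j) = M (k + 1 : ℤ) (-(k + 1 : ℤ)) j (-j) := by
      rw [h.s12]
    have n4 : M (-(k + 1 : ℤ)) (k + 1 : ℤ) (j + 1) (-(j + 1)) =
        M (k + 1 : ℤ) (-(k + 1 : ℤ)) (j + 1) (-(j + 1)) := by
      rw [h.s12]
    rw [n3, n4] at h2
    rw [n1, n2] at h1 h2
    push_cast
    have e4 : -((k : ℤ) + 1) - 1 = -(k : ℤ) - 1 - 1 := by ring
    have e5 : -((k : ℤ) + 1) = -(k : ℤ) - 1 := by ring
    rw [e5] at h1 h2
    have d1 : DD M ((k : ℤ) + 1 + j) = DD M (j + k + 1) := by congr 1; ring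
    have d2 : DD M ((k : ℤ) + 1 - j) = DD M (j - (k + 1)) := by
      rw [← h.DD_neg]; congr 1; ring
    have d3 : DD M ((k : ℤ) + 1 + (j + 1)) = DD M (j + (k + 1) + 1) := by congr 1; ring
    have d4 : DD M ((k : ℤ) + 1 - (j + 1)) = DD M (j - k) := by
      rw [← h.DD_neg]; congr 1; ring
    rw [d1, d2, d3, d4] at h1 h2
    rw [e5]
    linear_combination h1 + h2 - ih

/-- odd terms -/
theorem Rh.odd (h : Rh M) (k : ℕ) : DD M (2 * k + 1) = -(DD M 0) / 3 := by
  have gen : ∀ k : ℕ, 2 * DD M (2 * k + 1) + DD M 1 + DD M 0 = 0 := by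
    intro k
    have h1 := h.uu k k
    have h2 := h.nn k (k + 1)
    have e1 : M (k : ℤ) (-k - 1) (k + 1) (-k) = M k (-k) (k + 1) (-(k + 1)) := by
      have e : -((k : ℤ) + 1) = -k - 1 := by ring
      rw [e, h.s34 _ _ (k + 1 : ℤ), h.s23, h.s34, h.s23]
    have e2 : M (-(k : ℤ) - 1) k (k + 1) (-k) = M k (-k - 1) (k + 1) (-k) := by
      rw [h.s12]
    rw [e2, e1, h2] at h1
    have d1 : DD M ((k : ℤ) + (k + 1)) = DD M (2 * k + 1) := by congr 1; ring
    have d2 : DD M ((k : ℤ) - (k + 1)) = DD M 1 := by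
      rw [← h.DD_neg]; congr 1; ring
    have d3 : DD M ((k : ℤ) + k + 1) = DD M (2 * k + 1) := by congr 1; ring
    have d4 : DD M ((k : ℤ) - k) = DD M 0 := by congr 1; ring
    rw [d1, d2, d3, d4] at h1
    linear_combination h1
  have h0 := gen 0
  have hk := gen k
  simp only [Nat.cast_zero, mul_zero, zero_add] at h0
  linear_combination hk / 2 - h0 / 6

end Pool.Agent.H486.QM
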