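import Mathlib

/-!
# Fourth order correlations of all weights: uniqueness
-/

set_option autoImplicit false

namespace Pool.Agent.H486.QM

/-- A symmetric function of four integer indices killed by the raising and the lowering sums. -/
structure Rf (M : ℤ → ℤ → ℤ → ℤ → ℂ) : Prop where
  s12 : ∀ a b c d, M a b c d = M b a c d
  s23 : ∀ a b c d, M a b c d = M a c b d
  s34 : ∀ a b c d, M a b c d = M a b d c
  up : ∀ a b c d,
    M (a + 1) b c d + M a (b + 1) c d + M a b (c + 1) d + M a b c (d + 1) = 0
  down : ∀ a b c d,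
    M (a - 1) b c d + M a (b - 1) c d + M a b (c - 1) d + M a b c (d - 1) = 0

variable {M : ℤ → ℤ → ℤ → ℤ → ℂ}

/-- pair sums -/
def UU (M : ℤ → ℤ → ℤ → ℤ → ℂ) (a b c d : ℤ) : ℂ := M (a + 1) b c d + M a (b + 1) c d

theorem Rf.sw (h : Rf M) (a b c d : ℤ) : M a b c d = M c d a b := by
  rw [h.s23, h.s12, h.s34, h.s23]

theorem Rf.ab (h : Rf M) (a b c d : ℤ) : UU M a b c d = UU M b a c d := by
  rw [UU, UU, h.s12 (a + 1), h.s12 a]
  ring

theorem Rf.cd (h : Rf M) (a b c d : ℤ) : UU M a b c d = UU M a b d c := by
  rw [UU, UU, h.s34 (a + 1), h.s34 a]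

theorem Rf.anti (h : Rf M) (a b c d : ℤ) : UU M a b c d = -UU M c d a b := by
  have h1 := h.up a b c d
  rw [UU, UU, h.sw (c + 1), h.sw c]
  linear_combination h1

theorem Rf.shift1 (h : Rf M) (a b c d : ℤ) :
    UU M a b c d = UU M (a - 1) (b - 1) (c + 1) (d + 1) := by
  have h1 := h.up a b c d
  have h2 := h.down a b (c + 1) (d + 1)
  have e1 : a - 1 + 1 = a := by ring
  have e2 : b - 1 + 1 = b := by ring
  have e3 : c + 1 - 1 = c := by ring
  have e4 : d + 1 - 1 = d := by ring
  rw [e3, e4] at h2
  rw [UU, UU, e1, e2]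
  linear_combination h1 - h2

theorem Rf.shift (h : Rf M) (t : ℤ) (a b c d : ℤ) :
    UU M a b c d = UU M (a - t) (b - t) (c + t) (d + t) := by
  induction t using Int.induction_on with
  | zero => simp
  | succ t ih =>
    rw [ih, h.shift1]
    congr 1 <;> ring
  | pred t ih =>
    have h1 := h.shift1 (a - (-(t : ℤ) - 1)) (b - (-(t : ℤ) - 1)) (c + (-(t : ℤ) - 1))
      (d + (-(t : ℤ) - 1))
    rw [ih, h1]
    congr 1 <;> ring

theorem Rf.wave (h : Rf M) (a b c d : ℤ) :
    UU M a b (c + 1) d + UU M a b c (d + 1) + UU M (a + 1) b c d + UU M a (b + 1) c d = 0 := by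
  have h1 := h.up (a + 1) b c d
  have h2 := h.up a (b + 1) c d
  simp only [UU]
  linear_combination h1 + h2

theorem Rf.oddc (h : Rf M) (s : ℕ) : ∀ n : ℕ, ∀ a b c d : ℤ, a - b = n → c - d = n + 2 * s →
    UU M a b c d = 0 := by
  induction s with
  | zero =>
    intro n a b c d h1 h2
    have e := h.shift (a - c) a b c d
    have e1 : a - (a - c) = c := by ring
    have e2 : b - (a - c) = d := by push_cast at h2; linarith
    have e3 : c + (a - c) = a := by ring
    have e4 : d + (a - c) = b := by push_cast at h2; linarith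
    rw [e1, e2, e3, e4] at e
    have e5 := h.anti a b c d
    have e6 : UU M a b c d = -UU M a b c d := by
      rw [← e] at e5
      exact e5
    have e7 : (2 : ℂ) * UU M a b c d = 0 := by linear_combination e6
    simpa using e7
  | succ s ih =>
    intro n
    induction n with
    | zero =>
      intro a b c d h1 h2
      have hab : a = b := by push_cast at h1; linarith
      subst hab
      have w := h.wave a a (c - 1) d
      have e1 : c - 1 + 1 = c := by ring
      rw [e1] at w
      have z1 : UU M a a (c - 1) (d + 1) = 0 := ih 0 _ _ _ _ (by push_cast; ring) (by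
        push_cast at h2 ⊢; linarith)
      have z2 : UU M (a + 1) a (c - 1) d = 0 := ih 1 _ _ _ _ (by push_cast; ring) (by
        push_cast at h2 ⊢; linarith)
      have z3 : UU M a (a + 1) (c - 1) d = 0 := by rw [h.ab, z2]
      rw [z1, z2, z3] at w
      linear_combination w
    | succ n ihn =>
      intro a b c d h1 h2
      have w := h.wave a b (c - 1) d
      have e1 : c - 1 + 1 = c := by ring
      rw [e1] at w
      have z1 : UU M a b (c - 1) (d + 1) = 0 := ih (n + 1) _ _ _ _ (by
        push_cast at h1 ⊢; linarith) (by push_cast at h2 ⊢; linarith)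
      have z2 : UU M (a + 1) b (c - 1) d = 0 := ih (n + 2) _ _ _ _ (by
        push_cast at h1 ⊢; linarith) (by push_cast at h2 ⊢; linarith)
      have z3 : UU M a (b + 1) (c - 1) d = 0 := ihn _ _ _ _ (by
        push_cast at h1 ⊢; linarith) (by push_cast at h2 ⊢; linarith)
      rw [z1, z2, z3] at w
      linear_combination w

theorem Rf.dbl (h : Rf M) (j c d : ℤ) : UU M j j c d = 2 * M (j + 1) j c d := by
  rw [UU, h.s12 j]
  ring

theorem Rf.evn (h : Rf M) (h0 : ∀ l j, M l l j j = 0) (n : ℕ) :
    ∀ l j : ℤ, M (l - n) (l + n) j j = 0 := by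
  induction n with
  | zero => intro l j; simpa using h0 l j
  | succ n ih =>
    intro l j
    have hX : ∀ l j : ℤ, UU M (l - n - 1) (l + n) j j = M (l - n - 1) (l + n + 1) j j := by
      intro l j
      have e1 : l - n - 1 + 1 = l - n := by ring
      rw [UU, e1, ih l j, zero_add]
    have key : ∀ t : ℤ, 2 * M (j + t + 1) (j + t) (l - t - n - 1) (l - t + n) =
        -M (l - n - 1) (l + n + 1) j j := by
      intro t
      rw [← h.dbl, ← hX, h.shift t (l - n - 1), h.anti]
      congr 2 <;> ring
    have goal' : M (l - n - 1) (l + n + 1) j j = 0 := by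
      rcases Int.even_or_odd' (l - j - n - 1) with ⟨t, ht | ht⟩
      · have k := key t
        have e1 : l - t - n - 1 = j + t := by linarith
        have e2 : l - t + n = (j + t + 1 + n) + n := by linarith
        rw [e1, e2] at k
        have z := ih (j + t + 1 + n) (j + t)
        have e3 : j + t + 1 + n - n = j + t + 1 := by ring
        rw [e3] at z
        have e4 : M (j + t + 1) (j + t) (j + t) (j + t + 1 + n + n) =
            M (j + t + 1) (j + t + 1 + n + n) (j + t) (j + t) := by
          rw [h.s34, h.s23]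
        rw [e4, z] at k
        linear_combination k
      · have k := key t
        have e1 : l - t - n - 1 = j + t + 1 := by linarith
        have e2 : l - t + n = (j + t + n + 1) + n + 1 := by linarith
        rw [e1, e2] at k
        have e4 : M (j + t + 1) (j + t) (j + t + 1) (j + t + n + 1 + n + 1) =
            M (j + t) (j + t + n + 1 + n + 1) (j + t + 1) (j + t + 1) := by
          rw [h.s12, h.s34, h.s23]
        have e5 : M (j + t) (j + t + n + 1 + n + 1) (j + t + 1) (j + t + 1) =
            M (l - n - 1) (l + n + 1) j j := by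
          have g1 := hX (j + t + n + 1) (j + t + 1)
          have g2 := hX l j
          have g3 := h.shift (l - (j + t + n + 1)) (l - n - 1) (l + n) j j
          have f1 : j + t + n + 1 - n - 1 = j + t := by ring
          have f2 : l - n - 1 - (l - (j + t + n + 1)) = j + t := by ring
          have f3 : l + n - (l - (j + t + n + 1)) = j + t + n + 1 + n := by ring
          have f4 : j + (l - (j + t + n + 1)) = j + t + 1 := by linarith
          rw [f1] at g1
          rw [f2, f3, f4] at g3
          rw [← g1, ← g3, g2]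
        rw [e4, e5] at k
        linear_combination k / 3
    have e1 : l - ((n + 1 : ℕ) : ℤ) = l - n - 1 := by push_cast; ring
    have e2 : l + ((n + 1 : ℕ) : ℤ) = l + n + 1 := by push_cast; ring
    rw [e1, e2]
    exact goal'

theorem Rf.evn' (h : Rf M) (h0 : ∀ l j, M l l j j = 0) {a b : ℤ} (hab : Even (a + b)) (j : ℤ) :
    M a b j j = 0 := by
  obtain ⟨l, hl⟩ := hab
  rcases le_total a b with h1 | h1
  · obtain ⟨n, hn⟩ := Int.eq_ofNat_of_zero_le (sub_nonneg.2 h1)
    have h2 : a = l - (l - a) := by ring
    obtain ⟨k, hk⟩ := Int.eq_ofNat_of_zero_le (show 0 ≤ l - a by linarith)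
    have e1 : a = l - k := by linarith
    have e2 : b = l + k := by linarith
    rw [e1, e2]
    exact h.evn h0 k l j
  · obtain ⟨k, hk⟩ := Int.eq_ofNat_of_zero_le (show 0 ≤ l - b by linarith)
    have e1 : b = l - k := by linarith
    have e2 : a = l + k := by linarith
    rw [h.s12, e1, e2]
    exact h.evn h0 k l j

theorem Rf.dg (h : Rf M) (h0 : ∀ l j, M l l j j = 0) (j c d : ℤ) : UU M j j c d = 0 := by
  rcases Int.even_or_odd (c - d) with he | ho
  · have key : ∀ c d : ℤ, Even (c - d) → d ≤ c → UU M j j c d = 0 := by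
      intro c d hcd hle
      obtain ⟨s, hs⟩ := hcd
      obtain ⟨k, hk⟩ := Int.eq_ofNat_of_zero_le (show 0 ≤ s by linarith)
      refine h.oddc k 0 j j c d (by simp) ?_
      rw [hs, hk]
      push_cast
      ring
    rcases le_total d c with h1 | h1
    · exact key c d he h1
    · rw [h.cd]
      refine key d c ?_ h1
      have : d - c = -(c - d) := by ring
      rw [this]
      exact he.neg
  · rw [h.anti, UU, h.evn' h0, h.evn' h0]
    · ring
    · obtain ⟨s, hs⟩ := ho
      exact ⟨d + s + 1, by linarith⟩
    · obtain ⟨s, hs⟩ := ho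
      exact ⟨d + s + 1, by linarith⟩

theorem Rf.all (h : Rf M) (h0 : ∀ l j, M l l j j = 0) (n : ℕ) :
    (∀ a b c d : ℤ, a - b = n → UU M a b c d = 0) ∧
    (∀ a b c d : ℤ, a - b = n + 1 → UU M a b c d = 0) := by
  induction n with
  | zero =>
    have z : ∀ a b c d : ℤ, a - b = ((0 : ℕ) : ℤ) → UU M a b c d = 0 := by
      intro a b c d hab
      have : a = b := by push_cast at hab; linarith
      rw [this]
      exact h.dg h0 _ _ _
    refine ⟨z, fun a b c d hab => ?_⟩
    have w := h.wave b b c d
    rw [h.dg h0, h.dg h0, h.ab b (b + 1)] at w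
    have e : a = b + 1 := by push_cast at hab; linarith
    rw [e]
    linear_combination w / 2
  | succ n ih =>
    refine ⟨fun a b c d hab => ih.2 a b c d (by push_cast at hab; linarith),
      fun a b c d hab => ?_⟩
    have w := h.wave (a - 1) b c d
    have e : a - 1 + 1 = a := by ring
    rw [e, ih.2 (a - 1) b (c + 1) d (by push_cast at hab; linarith),
      ih.2 (a - 1) b c (d + 1) (by push_cast at hab; linarith),
      ih.1 (a - 1) (b + 1) c d (by push_cast at hab; linarith)] at w
    linear_combination w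

theorem Rf.UU_zero (h : Rf M) (h0 : ∀ l j, M l l j j = 0) (a b c d : ℤ) : UU M a b c d = 0 := by
  rcases le_total b a with h1 | h1
  · obtain ⟨n, hn⟩ := Int.eq_ofNat_of_zero_le (sub_nonneg.2 h1)
    exact (h.all h0 n).1 _ _ _ _ hn
  · obtain ⟨n, hn⟩ := Int.eq_ofNat_of_zero_le (sub_nonneg.2 h1)
    rw [h.ab]
    exact (h.all h0 n).1 _ _ _ _ hn

/-- uniqueness -/
theorem Rf.zero (h : Rf M) (h0 : ∀ l j, M l l j j = 0) (a b c d : ℤ) : M a b c d = 0 := by
  have h1 := h.UU_zero h0 (a - 1) b c d
  have h2 : M (a - 1) (b + 1) c d + M (a - 1) b (c + 1) d = 0 := by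
    have := h.UU_zero h0 b c (a - 1) d
    rw [UU] at this
    have e1 : M (b + 1) c (a - 1) d = M (a - 1) (b + 1) c d := by
      rw [h.s23, h.s12]
    have e2 : M b (c + 1) (a - 1) d = M (a - 1) b (c + 1) d := by
      rw [h.s23, h.s12]
    rw [e1, e2] at this
    exact this
  have h3 : M a b c d + M (a - 1) b (c + 1) d = 0 := by
    have := h.UU_zero h0 (a - 1) c b d
    rw [UU] at this
    have e0 : a - 1 + 1 = a := by ring
    have e1 : M a c b d = M a b c d := h.s23 _ _ _ _
    have e2 : M (a - 1) (c + 1) b d = M (a - 1) b (c + 1) d := h.s23 _ _ _ _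
    rw [e0, e1, e2] at this
    exact this
  rw [UU] at h1
  have e0 : a - 1 + 1 = a := by ring
  rw [e0] at h1
  linear_combination (h1 - h2 + h3) / 2

end Pool.Agent.H486.QM
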