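import Pool.Agent.H486.QM.AlgB

/-!
# Fourth order correlations of all weights: determination
-/

set_option autoImplicit false

namespace Pool.Agent.H486.QM

noncomputable section

variable {M : ℤ → ℤ → ℤ → ℤ → ℂ}

/-- signs -/
def sg (k : ℤ) : ℂ := (-1) ^ k

theorem sg_add (a b : ℤ) : sg (a + b) = sg a * sg b := zpow_add₀ (by norm_num) _ _

theorem sg_one : sg 1 = -1 := by simp [sg]

theorem sg_zero : sg 0 = 1 := by simp [sg]

theorem sg_succ (a : ℤ) : sg (a + 1) = -sg a := by rw [sg_add, sg_one]; ring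

theorem sg_pred (a : ℤ) : sg (a - 1) = -sg a := by
  have := sg_succ (a - 1)
  rw [sub_add_cancel] at this
  rw [this, neg_neg]

theorem sg_sq (a : ℤ) : sg a * sg a = 1 := by
  rw [← sg_add, sg]
  exact Even.neg_one_zpow ⟨a, rfl⟩

theorem sg_neg (a : ℤ) : sg (-a) = sg a := by
  rw [sg, sg, zpow_neg, ← inv_zpow]; norm_num

theorem sg_cases (a : ℤ) : sg a = 1 ∨ sg a = -1 := by
  rcases Int.even_or_odd a with h | h
  · exact Or.inl h.neg_one_zpow
  · exact Or.inr h.neg_one_zpow

/-- pair covariance -/
def pr (a b : ℤ) : ℂ := if a + b = 0 then sg a else 0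

theorem pr_comm (a b : ℤ) : pr a b = pr b a := by
  rw [pr, pr, add_comm b a]
  by_cases h : a + b = 0
  · rw [if_pos h, if_pos h]
    have : a = -b := by linarith
    rw [this, sg_neg]
  · rw [if_neg h, if_neg h]

theorem pr_up (a b : ℤ) : pr (a + 1) b + pr a (b + 1) = 0 := by
  have e : a + (b + 1) = a + 1 + b := by ring
  rw [pr, pr, e]
  by_cases h : a + 1 + b = 0
  · rw [if_pos h, if_pos h, sg_succ]; ring
  · rw [if_neg h, if_neg h]; ring

theorem pr_down (a b : ℤ) : pr (a - 1) b + pr a (b - 1) = 0 := by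
  have e : a + (b - 1) = a - 1 + b := by ring
  rw [pr, pr, e]
  by_cases h : a - 1 + b = 0
  · rw [if_pos h, if_pos h, sg_pred]; ring
  · rw [if_neg h, if_neg h]; ring

/-- the Gaussian value -/
def Wk (a b c d : ℤ) : ℂ := pr a b * pr c d + pr a c * pr b d + pr a d * pr b c

/-- the plane wave value -/
def ee (a b c d : ℤ) : ℂ :=
  (sg a * sg b + sg a * sg c + sg a * sg d + sg b * sg c + sg b * sg d + sg c * sg d) / 6

/-- the model functional -/
def mdl (v : ℂ) (C : ℤ → ℂ) (a b c d : ℤ) : ℂ := v * Wk a b c d + C (a + b + c + d) * ee a b c d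

theorem rf_mdl (v : ℂ) (C : ℤ → ℂ) : Rf (mdl v C) := by
  refine ⟨fun a b c d => ?_, fun a b c d => ?_, fun a b c d => ?_, fun a b c d => ?_,
    fun a b c d => ?_⟩
  · have e : b + a + c + d = a + b + c + d := by ring
    simp only [mdl, Wk, ee, e, pr_comm b a]
    ring
  · have e : a + c + b + d = a + b + c + d := by ring
    simp only [mdl, Wk, ee, e, pr_comm c b]
    ring
  · have e : a + b + d + c = a + b + c + d := by ring
    simp only [mdl, Wk, ee, e, pr_comm d c]
    ring
  · have e1 : a + 1 + b + c + d = a + b + c + d + 1 := by ring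
    have e2 : a + (b + 1) + c + d = a + b + c + d + 1 := by ring
    have e3 : a + b + (c + 1) + d = a + b + c + d + 1 := by ring
    have e4 : a + b + c + (d + 1) = a + b + c + d + 1 := by ring
    simp only [mdl, Wk, ee, e1, e2, e3, e4, sg_succ]
    linear_combination (v * pr c d) * pr_up a b + (v * pr b d) * pr_up a c +
      (v * pr b c) * pr_up a d + (v * pr a b) * pr_up c d + (v * pr a c) * pr_up b d +
      (v * pr a d) * pr_up b c
  · have e1 : a - 1 + b + c + d = a + b + c + d - 1 := by ring
    have e2 : a + (b - 1) + c + d = a + b + c + d - 1 := by ring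
    have e3 : a + b + (c - 1) + d = a + b + c + d - 1 := by ring
    have e4 : a + b + c + (d - 1) = a + b + c + d - 1 := by ring
    simp only [mdl, Wk, ee, e1, e2, e3, e4, sg_pred]
    linear_combination (v * pr c d) * pr_down a b + (v * pr b d) * pr_down a c +
      (v * pr b c) * pr_down a d + (v * pr a b) * pr_down c d + (v * pr a c) * pr_down b d +
      (v * pr a d) * pr_down b c

theorem Rf.sub {M' : ℤ → ℤ → ℤ → ℤ → ℂ} (h : Rf M) (h' : Rf M') :
    Rf (fun a b c d => M a b c d - M' a b c d) := by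
  refine ⟨fun a b c d => ?_, fun a b c d => ?_, fun a b c d => ?_, fun a b c d => ?_,
    fun a b c d => ?_⟩
  · rw [h.s12, h'.s12]
  · rw [h.s23, h'.s23]
  · rw [h.s34, h'.s34]
  · linear_combination h.up a b c d - h'.up a b c d
  · linear_combination h.down a b c d - h'.down a b c d

/-- determination of the correlations -/
theorem Rf.det (h : Rf M) {v m : ℂ} {T : ℤ → ℂ} (h00 : M 0 0 0 0 = m)
    (hl : ∀ l, l ≠ 0 → M l l (-l) (-l) = m - v)
    (hT : ∀ l j, l + j ≠ 0 → M l l j j = T (l + j)) :
    ∃ C : ℤ → ℂ, C 0 = m - 3 * v ∧ ∀ a b c d, M a b c d = mdl v C a b c d := by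
  refine ⟨fun K => if K = 0 then m - 3 * v else 3 / (1 + 2 * sg (K / 2)) * T (K / 2), by simp,
    fun a b c d => ?_⟩
  refine sub_eq_zero.1 ((h.sub (rf_mdl v _)).zero ?_ a b c d)
  intro l j
  have eK : l + l + j + j = 2 * (l + j) := by ring
  have eK2 : (2 * (l + j)) / 2 = l + j := by omega
  have hee : ee l l j j = (1 + 2 * sg (l + j)) / 3 := by
    rw [ee, sg_add]
    have h1 := sg_sq l
    have h2 := sg_sq j
    linear_combination (h1 + h2) / 6
  simp only [mdl, eK, eK2, hee]
  by_cases hlj : l + j = 0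
  · have hj : j = -l := by linarith
    subst hj
    have e0 : l + -l = 0 := by ring
    simp only [e0, mul_zero, if_true, sg_zero]
    have hp : pr l (-l) = sg l := by rw [pr, e0, if_pos rfl]
    rw [Wk, hp]
    have hs := sg_sq l
    by_cases h0 : l = 0
    · subst h0
      simp only [neg_zero, pr, add_zero, if_true, sg_zero, h00]
      ring
    · have hp1 : pr l l = 0 := by rw [pr, if_neg (by omega)]
      rw [hp1, hl l h0]
      linear_combination (-2 * v) * hs
  · have hp : pr l j = 0 := by rw [pr, if_neg hlj]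
    have hp2 : pr l l * pr j j = 0 := by
      by_cases h0 : l = 0
      · have : pr j j = 0 := by rw [pr, if_neg (by omega)]
        rw [this, mul_zero]
      · have : pr l l = 0 := by rw [pr, if_neg (by omega)]
        rw [this, zero_mul]
    have h2 : ¬ (2 * (l + j) = 0) := by omega
    rw [Wk, hp, hp2, if_neg h2, hT l j hlj]
    have h3 : (1 + 2 * sg (l + j)) ≠ 0 := by
      rcases sg_cases (l + j) with h | h <;> rw [h] <;> norm_num
    field_simp
    ring

theorem ee_top (k : ℤ) : ee k 0 0 0 = (1 + sg k) / 2 := by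
  rw [ee, sg_zero]; ring

end

end Pool.Agent.H486.QM
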