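import Pool.Agent.H486.QM.Eig

/-!
# Fourth power bounds for the scaled derivatives
-/

set_option autoImplicit false

open MeasureTheory Complex Filter Topology Set Metric
open scoped ContDiff ComplexConjugate

namespace Pool.Agent.H486.QM

noncomputable section

/-- affine substitution -/
def aff (z0 : ℂ) (κ : ℝ) (F : ℂ → ℂ) (w : ℂ) : ℂ := F (z0 + κ * w)

theorem Sm.aff {F : ℂ → ℂ} (hF : Sm F) (z0 : ℂ) (κ : ℝ) : Sm (aff z0 κ F) :=
  ContDiff.comp hF (contDiff_const.add (contDiff_const.mul contDiff_id))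

theorem fderiv_aff {F : ℂ → ℂ} (hF : Sm F) (z0 : ℂ) (κ : ℝ) (w v : ℂ) :
    fderiv ℝ (aff z0 κ F) w v = κ * fderiv ℝ F (z0 + κ * w) v := by
  have h1 : HasFDerivAt (fun w : ℂ => z0 + κ * w)
      ((κ : ℝ) • (ContinuousLinearMap.id ℝ ℂ)) w := by
    have h0 := ((hasFDerivAt_id (𝕜 := ℝ) w).const_smul κ).const_add z0
    have e : (fun w : ℂ => z0 + κ * w) = fun x => z0 + (κ • id) x := by
      ext x
      simp
    rw [e]
    exact h0
  have h2 := ((hF.diff (z0 + κ * w)).hasFDerivAt.comp w h1).fderiv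
  have h3 : fderiv ℝ (aff z0 κ F) w = _ := h2
  rw [h3]
  simp

theorem dz_aff {F : ℂ → ℂ} (hF : Sm F) (z0 : ℂ) (κ : ℝ) :
    dz (aff z0 κ F) = fun w => κ * aff z0 κ (dz F) w := by
  ext w
  simp only [dz, fderiv_aff hF, aff]
  ring

theorem dzb_aff {F : ℂ → ℂ} (hF : Sm F) (z0 : ℂ) (κ : ℝ) :
    dzb (aff z0 κ F) = fun w => κ * aff z0 κ (dzb F) w := by
  ext w
  simp only [dzb, fderiv_aff hF, aff]
  ring

theorem iter_aff {F : ℂ → ℂ} (hF : Sm F) (z0 : ℂ) (κ : ℝ) (j : ℕ) :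
    dz^[j] (aff z0 κ F) = fun w => (κ : ℂ) ^ j * aff z0 κ (dz^[j] F) w := by
  induction j with
  | zero => ext w; simp [Function.iterate_zero]
  | succ j ih =>
    rw [Function.iterate_succ_apply', ih, Function.iterate_succ_apply']
    ext w
    rw [dz_cmul _ ((hF.iter j).aff z0 κ), dz_aff (hF.iter j)]
    ring

theorem shift_le {F : ℂ → ℝ} (hF : Continuous F) (h0 : ∀ z, 0 ≤ F z) {K K' : Set ℂ}
    (hK' : IsCompact K') {c : ℂ} (h : ∀ z ∈ K, z + c ∈ K') :
    ∫ z in K, F (z + c) ≤ ∫ z in K', F z := by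
  have hp : MeasurePreserving (fun z : ℂ => z + c) volume volume :=
    measurePreserving_add_right volume c
  have he : MeasurableEmbedding (fun z : ℂ => z + c) := measurableEmbedding_addRight c
  rw [← hp.setIntegral_preimage_emb he F K']
  refine setIntegral_mono_set ?_ (ae_of_all _ fun z => h0 _) (ae_of_all _ h)
  exact (hp.integrableOn_comp_preimage he).2 (hF.continuousOn.integrableOn_compact hK')

/-- scaled derivative -/
def Gk (κ : ℝ) (f : ℂ → ℂ) (k : ℕ) (w : ℂ) : ℂ := (κ : ℂ) ^ k * (dz^[k] f) w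

theorem Sm.gk {f : ℂ → ℂ} (hf : Sm f) (κ : ℝ) (k : ℕ) : Sm (Gk κ f k) :=
  (hf.iter k).cmul _

theorem l4_point {V K : Set ℂ} (hV : IsOpen V) (hK : IsCompact K) (hKV : K ⊆ V) {β : ℂ → ℂ}
    (hβ : Sm β) (m : ℕ) : ∃ (K' : Set ℂ) (C : ℝ), IsCompact K' ∧ K' ⊆ V ∧ 0 ≤ C ∧
      ∀ (κ : ℝ) (f : ℂ → ℂ), 0 < κ → κ ≤ 1 → Sm f →
      (∀ w ∈ V, (κ : ℂ) ^ 2 * dz (dzb f) w = -(β w * f w)) →
      ∫ w in K, ‖Gk κ f m w‖ ^ 4 ≤ C * ∫ w in K', ‖f w‖ ^ 4 := by
  obtain ⟨δ, hδ, hsub⟩ := hK.exists_cthickening_subset_open hV hKV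
  have hK' : IsCompact (cthickening δ K) := hK.cthickening
  have hbd : ∀ i : ℕ, ∃ M : ℝ, 0 ≤ M ∧ ∀ w ∈ cthickening δ K, ‖(dz^[i] β) w‖ ≤ M := by
    intro i
    obtain ⟨M, hM⟩ := hK'.exists_bound_of_continuousOn (hβ.iter i).cont.continuousOn
    exact ⟨max M 0, le_max_right _ _, fun w hw => (hM w hw).trans (le_max_left _ _)⟩
  choose Mi hMi0 hMi using hbd
  set M := ∑ i ∈ Finset.range (m + 1), Mi i with hM
  have hMle : ∀ i ≤ m, Mi i ≤ M := fun i hi =>
    Finset.single_le_sum (f := Mi) (fun j _ => hMi0 j) (Finset.mem_range.2 (by omega))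
  obtain ⟨C, hC0, hC⟩ := ell (M := M) m hδ
  refine ⟨cthickening δ K, C ^ 2 * ((Real.pi * δ ^ 2) * (Real.pi * δ ^ 2)), hK', hsub,
    by positivity, fun κ f hκ0 hκ1 hf heq => ?_⟩
  have hmem : ∀ z0 ∈ K, ∀ w ∈ ball (0 : ℂ) δ, z0 + κ * w ∈ cthickening δ K := by
    intro z0 hz0 w hw
    refine mem_cthickening_of_dist_le _ z0 δ K hz0 ?_
    rw [dist_eq_norm, add_sub_cancel_left, norm_mul, norm_real, Real.norm_of_nonneg hκ0.le]
    have := mem_ball_zero_iff.1 hw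
    nlinarith [norm_nonneg w]
  have : IsFiniteMeasure (volume.restrict (ball (0 : ℂ) δ)) :=
    ⟨by rw [Measure.restrict_apply_univ]; exact measure_ball_lt_top⟩
  have hvol : (volume.restrict (ball (0 : ℂ) δ)).real univ = Real.pi * δ ^ 2 := by
    rw [measureReal_restrict_apply MeasurableSet.univ, univ_inter, measureReal_def,
      Complex.volume_ball]
    rw [ENNReal.toReal_mul, ENNReal.toReal_pow, ENNReal.toReal_ofReal hδ.le]
    simp only [ENNReal.coe_toReal, NNReal.coe_real_pi]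
    ring
  have hpt : ∀ z0 ∈ K, ‖Gk κ f m z0‖ ^ 4 ≤
      C ^ 2 * (Real.pi * δ ^ 2) * ∫ w in ball (0 : ℂ) δ, ‖f (z0 + κ * w)‖ ^ 4 := by
    intro z0 hz0
    have had : Ad m δ M (aff z0 κ β) (aff z0 κ f) := by
      refine ⟨hβ.aff z0 κ, hf.aff z0 κ, fun i hi w hw => ?_, fun w hw => ?_⟩
      · rw [iter_aff hβ, norm_mul, norm_pow, norm_real, Real.norm_of_nonneg hκ0.le]
        have h1 : κ ^ i ≤ 1 := pow_le_one₀ hκ0.le hκ1
        have h2 := hMi i _ (hmem z0 hz0 w hw)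
        have h3 : ‖aff z0 κ (dz^[i] β) w‖ ≤ M := h2.trans (hMle i hi)
        calc κ ^ i * ‖aff z0 κ (dz^[i] β) w‖ ≤ 1 * M :=
              mul_le_mul h1 h3 (norm_nonneg _) zero_le_one
          _ = M := one_mul M
      · rw [dzb_aff hf]
        rw [dz_cmul _ (hf.db.aff z0 κ), dz_aff hf.db]
        have h1 := heq _ (hsub (hmem z0 hz0 w hw))
        simp only [aff]
        rw [← h1]
        ring
    have h1 := hC _ _ had
    have e1 : (dz^[m] (aff z0 κ f)) 0 = Gk κ f m z0 := by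
      rw [iter_aff hf]
      simp [aff, Gk]
    rw [e1] at h1
    have hcont : Continuous (fun w : ℂ => ‖f (z0 + κ * w)‖) :=
      (hf.cont.comp (continuous_const.add (continuous_const.mul continuous_id))).norm
    have hio : ∀ n : ℕ, IntegrableOn (fun w : ℂ => ‖f (z0 + κ * w)‖ ^ n) (ball (0 : ℂ) δ) :=
      fun n => ((hcont.pow n).continuousOn.integrableOn_compact
        (isCompact_closedBall 0 δ)).mono_set ball_subset_closedBall
    have h2 := sq_int_le (volume.restrict (ball (0 : ℂ) δ)) (fun w => ‖f (z0 + κ * w)‖ ^ 2)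
      (hio 2) (by
        have h := hio (2 * 2)
        simp only [pow_mul] at h
        exact h)
    rw [hvol] at h2
    have e2 : N2 δ (aff z0 κ f) = ∫ w in ball (0 : ℂ) δ, ‖f (z0 + κ * w)‖ ^ 2 := rfl
    have e3 : ∫ w in ball (0 : ℂ) δ, (‖f (z0 + κ * w)‖ ^ 2) ^ 2 =
        ∫ w in ball (0 : ℂ) δ, ‖f (z0 + κ * w)‖ ^ 4 := by
      simp only [← pow_mul]
    rw [e3, ← e2] at h2
    have h3 := pow_le_pow_left₀ (sq_nonneg _) h1 2
    calc ‖Gk κ f m z0‖ ^ 4 = (‖Gk κ f m z0‖ ^ 2) ^ 2 := by ring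
      _ ≤ (C * N2 δ (aff z0 κ f)) ^ 2 := h3
      _ = C ^ 2 * N2 δ (aff z0 κ f) ^ 2 := by ring
      _ ≤ C ^ 2 * (Real.pi * δ ^ 2 * ∫ w in ball (0 : ℂ) δ, ‖f (z0 + κ * w)‖ ^ 4) :=
          mul_le_mul_of_nonneg_left h2 (sq_nonneg C)
      _ = _ := by ring
  set F4 : ℂ → ℝ := fun w => ‖f w‖ ^ 4 with hF4
  have hF4c : Continuous F4 := hf.cont.norm.pow 4
  have hprod : Integrable (fun p : ℂ × ℂ => F4 (p.1 + κ * p.2))
      ((volume.restrict K).prod (volume.restrict (ball (0 : ℂ) δ))) := by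
    rw [Measure.prod_restrict]
    have hc2 : Continuous (fun p : ℂ × ℂ => F4 (p.1 + κ * p.2)) :=
      hF4c.comp (continuous_fst.add (continuous_const.mul continuous_snd))
    exact (hc2.continuousOn.integrableOn_compact
      (hK.prod (isCompact_closedBall 0 δ))).mono_set (prod_mono le_rfl ball_subset_closedBall)
  have hGi : IntegrableOn (fun w => ‖Gk κ f m w‖ ^ 4) K :=
    ((hf.gk κ m).cont.norm.pow 4).continuousOn.integrableOn_compact hK
  calc ∫ w in K, ‖Gk κ f m w‖ ^ 4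
      ≤ ∫ z0 in K, C ^ 2 * (Real.pi * δ ^ 2) * ∫ w in ball (0 : ℂ) δ, F4 (z0 + κ * w) :=
        setIntegral_mono_on hGi (hprod.integral_prod_left.const_mul _) hK.measurableSet hpt
    _ = C ^ 2 * (Real.pi * δ ^ 2) * ∫ z0 in K, ∫ w in ball (0 : ℂ) δ, F4 (z0 + κ * w) :=
        integral_const_mul _ _
    _ = C ^ 2 * (Real.pi * δ ^ 2) * ∫ w in ball (0 : ℂ) δ, ∫ z0 in K, F4 (z0 + κ * w) := by
        rw [integral_integral_swap]
        exact hprod
    _ ≤ C ^ 2 * (Real.pi * δ ^ 2) * ∫ w in ball (0 : ℂ) δ, ∫ z0 in cthickening δ K, F4 z0 := by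
        refine mul_le_mul_of_nonneg_left ?_ (by positivity)
        refine setIntegral_mono_on hprod.integral_prod_right (integrable_const _)
          measurableSet_ball fun w hw => ?_
        exact shift_le hF4c (fun z => by positivity) hK' (fun z hz => hmem z hz w hw)
    _ = C ^ 2 * (Real.pi * δ ^ 2 * (Real.pi * δ ^ 2)) * ∫ w in cthickening δ K, ‖f w‖ ^ 4 := by
        rw [integral_const, hvol, smul_eq_mul]
        ring

end

end Pool.Agent.H486.QM
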