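import Pool.Agent.H486.QM.Pars
import Pool.Agent.H486.QM.LFour

/-!
# The comparison inequality for solutions of a first order equation
-/

set_option autoImplicit false

open MeasureTheory Complex Filter Topology Set Metric
open scoped ContDiff ComplexConjugate

namespace Pool.Agent.H486.QM

noncomputable section

theorem sm_ch (n : Fin 2 → ℤ) : Sm (ch n) := by
  unfold Sm ch
  have h1 : ContDiff ℝ ∞ (fun z : ℂ => (z.re : ℂ)) := ofRealCLM.contDiff.comp reCLM.contDiff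
  have h2 : ContDiff ℝ ∞ (fun z : ℂ => (z.im : ℂ)) := ofRealCLM.contDiff.comp imCLM.contDiff
  exact ((contDiff_const.mul ((contDiff_const.mul h1).add (contDiff_const.mul h2))).neg).cexp

theorem fderiv_ch (n : Fin 2 → ℤ) (w v : ℂ) :
    fderiv ℝ (ch n) w v = -(2 * Real.pi * I * ((n 0 : ℂ) * v.re + (n 1 : ℂ) * v.im)) * ch n w := by
  have h1 : HasFDerivAt (fun z : ℂ => (z.re : ℂ)) (ofRealCLM.comp reCLM) w :=
    (ofRealCLM.comp reCLM).hasFDerivAt
  have h2 : HasFDerivAt (fun z : ℂ => (z.im : ℂ)) (ofRealCLM.comp imCLM) w :=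
    (ofRealCLM.comp imCLM).hasFDerivAt
  have h3 := ((((h1.const_mul (n 0 : ℂ)).add (h2.const_mul (n 1 : ℂ))).const_mul
    (2 * Real.pi * I : ℂ)).neg).cexp
  have h4 : fderiv ℝ (ch n) w = _ := h3.fderiv
  rw [h4]
  simp [ch]
  ring

/-- the frequency -/
def nu (n : Fin 2 → ℤ) : ℂ := (n 0 : ℂ) + (n 1 : ℂ) * I

theorem dzb_ch (n : Fin 2 → ℤ) (w : ℂ) : dzb (ch n) w = -(Real.pi * I * nu n) * ch n w := by
  rw [dzb, fderiv_ch, fderiv_ch, nu]
  simp
  ring

theorem dz_ch (n : Fin 2 → ℤ) (w : ℂ) : dz (ch n) w = -(Real.pi * I * conj (nu n)) * ch n w := by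
  rw [dz, fderiv_ch, fderiv_ch, nu]
  simp
  ring

theorem cs_of_SQ {P : ℂ → ℂ} (hs : ∀ z, z ∉ SQ → P z = 0) : HasCompactSupport P := by
  refine HasCompactSupport.of_support_subset_isCompact isCompact_SQ ?_
  intro z hz
  by_contra h
  exact hz (hs z (fun h' => h (subset_closure h')))

theorem cf_dzb {P : ℂ → ℂ} (hP : Sm P) (hc : HasCompactSupport P) (n : Fin 2 → ℤ) :
    cf (dzb P) n = Real.pi * I * nu n * cf P n := by
  have h := ibp_dzb hP (sm_ch n) hc
  simp only [dzb_ch] at h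
  have e1 : ∫ w, P w * (-(Real.pi * I * nu n) * ch n w) = -(Real.pi * I * nu n) * cf P n := by
    rw [cf, ← integral_const_mul]
    refine integral_congr_ae (ae_of_all _ fun w => ?_)
    simp only
    ring
  have e2 : ∫ w, dzb P w * ch n w = cf (dzb P) n := by
    rw [cf]
    refine integral_congr_ae (ae_of_all _ fun w => ?_)
    simp only
    ring
  rw [e1, e2] at h
  linear_combination h

theorem cf_dz {P : ℂ → ℂ} (hP : Sm P) (hc : HasCompactSupport P) (n : Fin 2 → ℤ) :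
    cf (dz P) n = Real.pi * I * conj (nu n) * cf P n := by
  have h := ibp_dz hP (sm_ch n) hc
  simp only [dz_ch] at h
  have e1 : ∫ w, P w * (-(Real.pi * I * conj (nu n)) * ch n w) =
      -(Real.pi * I * conj (nu n)) * cf P n := by
    rw [cf, ← integral_const_mul]
    refine integral_congr_ae (ae_of_all _ fun w => ?_)
    simp only
    ring
  have e2 : ∫ w, dz P w * ch n w = cf (dz P) n := by
    rw [cf]
    refine integral_congr_ae (ae_of_all _ fun w => ?_)
    simp only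
    ring
  rw [e1, e2] at h
  linear_combination h

theorem cf_add {P Q : ℂ → ℂ} (hP : Sm P) (hc : HasCompactSupport P) (hQ : Sm Q)
    (hc' : HasCompactSupport Q) (n : Fin 2 → ℤ) :
    cf (fun w => P w + Q w) n = cf P n + cf Q n := by
  rw [cf, cf, cf, ← integral_add]
  · refine integral_congr_ae (ae_of_all _ fun w => ?_)
    simp only
    ring
  · exact ((sm_ch n).mul hP).int (hc.mul_left)
  · exact ((sm_ch n).mul hQ).int (hc'.mul_left)

/-- the box of frequencies -/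
def box (R : ℕ) : Finset (Fin 2 → ℤ) := Finset.Icc (fun _ => -(R : ℤ)) (fun _ => (R : ℤ))

theorem le_nu {R : ℕ} {n : Fin 2 → ℤ} (h : n ∉ box R) : (R : ℝ) ≤ ‖nu n‖ := by
  have h1 : (R : ℤ) < |n 0| ∨ (R : ℤ) < |n 1| := by
    by_contra hc
    push Not at hc
    apply h
    rw [box, Finset.mem_Icc]
    constructor
    · intro i
      fin_cases i
      · exact (abs_le.1 hc.1).1
      · exact (abs_le.1 hc.2).1
    · intro i
      fin_cases i
      · exact (abs_le.1 hc.1).2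
      · exact (abs_le.1 hc.2).2
  have hre : (nu n).re = n 0 := by simp [nu]
  have him : (nu n).im = n 1 := by simp [nu]
  rcases h1 with h1 | h1
  · have h2 : ((R : ℤ) : ℝ) < ((|n 0| : ℤ) : ℝ) := by exact_mod_cast h1
    rw [Int.cast_natCast, Int.cast_abs] at h2
    have h3 := Complex.abs_re_le_norm (nu n)
    rw [hre] at h3
    linarith
  · have h2 : ((R : ℤ) : ℝ) < ((|n 1| : ℤ) : ℝ) := by exact_mod_cast h1
    rw [Int.cast_natCast, Int.cast_abs] at h2
    have h3 := Complex.abs_im_le_norm (nu n)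
    rw [him] at h3
    linarith

theorem beur {P Q E : ℂ → ℂ} (hP : Sm P) (hQ : Sm Q) (hE : Sm E) (sP : ∀ z, z ∉ SQ → P z = 0)
    (sQ : ∀ z, z ∉ SQ → Q z = 0) (sE : ∀ z, z ∉ SQ → E z = 0)
    (heq : ∀ z, dzb P z + dz Q z = E z) (R : ℕ) (hR : 0 < R) (ε : ℝ) (hε : 0 < ε) :
    ∫ z, ‖P z‖ ^ 2 ≤ (∑ n ∈ box R, ‖cf P n‖ ^ 2) + (1 + ε) * (∫ z, ‖Q z‖ ^ 2) +
      (1 + 1 / ε) / (R : ℝ) ^ 2 * ∫ z, ‖E z‖ ^ 2 := by
  have h1 := parseval hP.cont sP
  have h2 := parseval hQ.cont sQ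
  have h3 := parseval hE.cont sE
  have cP := cs_of_SQ sP
  have cQ := cs_of_SQ sQ
  classical
  have h4 : HasSum (fun n => if n ∈ box R then ‖cf P n‖ ^ 2 else 0)
      (∑ n ∈ box R, ‖cf P n‖ ^ 2) := by
    have h40 : HasSum (fun n => if n ∈ box R then ‖cf P n‖ ^ 2 else 0)
        (∑ n ∈ box R, if n ∈ box R then ‖cf P n‖ ^ 2 else 0) :=
      hasSum_sum_of_ne_finset_zero (fun n hn => if_neg hn)
    have h41 : (∑ n ∈ box R, if n ∈ box R then ‖cf P n‖ ^ 2 else 0) =
        ∑ n ∈ box R, ‖cf P n‖ ^ 2 := Finset.sum_congr rfl fun n hn => if_pos hn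
    rwa [h41] at h40
  have h5 := (h4.add (h2.mul_left (1 + ε))).add (h3.mul_left ((1 + 1 / ε) / (R : ℝ) ^ 2))
  refine hasSum_le (fun n => ?_) h1 h5
  have hR' : (0 : ℝ) < R := by exact_mod_cast hR
  by_cases hn : n ∈ box R
  · simp only [if_pos hn]
    have : 0 ≤ (1 + ε) * ‖cf Q n‖ ^ 2 := by positivity
    have : 0 ≤ (1 + 1 / ε) / (R : ℝ) ^ 2 * ‖cf E n‖ ^ 2 := by positivity
    linarith
  · simp only [if_neg hn, zero_add]
    have hnu := le_nu hn
    have hnu0 : 0 < ‖nu n‖ := hR'.trans_le hnu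
    have hrel : cf E n = Real.pi * I * (nu n * cf P n + conj (nu n) * cf Q n) := by
      have e1 : E = fun z => dzb P z + dz Q z := funext fun z => (heq z).symm
      rw [e1, cf_add hP.db (cs_dzb cP) hQ.d (cs_dz cQ), cf_dzb hP cP, cf_dz hQ cQ]
      ring
    have hpi : (1 : ℝ) ≤ Real.pi := by linarith [Real.pi_gt_three]
    have h6 : ‖nu n‖ * ‖cf P n‖ ≤ ‖nu n‖ * ‖cf Q n‖ + ‖cf E n‖ := by
      have e2 : ‖cf E n‖ = Real.pi * ‖nu n * cf P n + conj (nu n) * cf Q n‖ := by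
        rw [hrel, norm_mul, norm_mul, norm_I, mul_one, norm_real,
          Real.norm_of_nonneg Real.pi_pos.le]
      have e3 : ‖nu n * cf P n‖ ≤ ‖nu n * cf P n + conj (nu n) * cf Q n‖ +
          ‖conj (nu n) * cf Q n‖ := by
        have := norm_sub_le (nu n * cf P n + conj (nu n) * cf Q n) (conj (nu n) * cf Q n)
        simpa using this
      rw [norm_mul, norm_mul, RCLike.norm_conj] at e3
      have e4 : ‖nu n * cf P n + conj (nu n) * cf Q n‖ ≤ ‖cf E n‖ := by
        rw [e2]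
        exact le_mul_of_one_le_left (norm_nonneg _) hpi
      linarith
    have h7 : ‖cf P n‖ ≤ ‖cf Q n‖ + ‖cf E n‖ / R := by
      have h8 : ‖cf P n‖ ≤ ‖cf Q n‖ + ‖cf E n‖ / ‖nu n‖ := by
        rw [← sub_le_iff_le_add', le_div_iff₀ hnu0]
        nlinarith
      have h9 : ‖cf E n‖ / ‖nu n‖ ≤ ‖cf E n‖ / R :=
        div_le_div_of_nonneg_left (norm_nonneg _) hR' hnu
      linarith
    have h10 := pow_le_pow_left₀ (norm_nonneg _) h7 2
    have h11 : (‖cf Q n‖ + ‖cf E n‖ / R) ^ 2 ≤ (1 + ε) * ‖cf Q n‖ ^ 2 +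
        (1 + 1 / ε) * (‖cf E n‖ / R) ^ 2 := by
      set x := ‖cf Q n‖
      set y := ‖cf E n‖ / R
      have h12 : 0 ≤ (ε * x - y) ^ 2 / ε := by positivity
      have e : (ε * x - y) ^ 2 / ε = ε * x ^ 2 - 2 * x * y + 1 / ε * y ^ 2 := by
        field_simp
        ring
      rw [e] at h12
      nlinarith
    calc ‖cf P n‖ ^ 2 ≤ _ := h10.trans h11
      _ = _ := by ring

end

end Pool.Agent.H486.QM
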