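import Pool.Agent.H486.QM.Core

/-!
# The chain of norm inequalities
-/

set_option autoImplicit false

open MeasureTheory Complex Filter Topology Set Metric
open scoped ContDiff ComplexConjugate

namespace Pool.Agent.H486.QM

noncomputable section

universe u

variable {ι : Type u} {D : Dat ι}

theorem Dat.Te.mul {χ g : ℂ → ℂ} (hχ : D.Te χ) (hg : Sm g) : D.Te (fun w => χ w * g w) := by
  refine ⟨hχ.sm.mul hg, hχ.cs.mul_right, ?_⟩
  exact (closure_mono (Function.support_mul_subset_left χ g)).trans hχ.sub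

theorem Dat.Te.mul' {χ g : ℂ → ℂ} (hχ : D.Te χ) (hg : Sm g) : D.Te (fun w => g w * χ w) := by
  have h := hχ.mul hg
  have e : (fun w => χ w * g w) = fun w => g w * χ w := by ext w; ring
  rwa [e] at h

/-- square integrals of products -/
theorem l2_bd {X Y : ι → ℂ → ℂ} (hX : D.Bd X) (hY : D.Bd Y) {g : ℂ → ℂ} {K : Set ℂ}
    (hK : IsCompact K) (hKV : K ⊆ D.V) (hg : Continuous g) (h0 : ∀ w, w ∉ K → g w = 0) :
    ∃ C : ℝ, ∀ i, ∫ w, ‖g w * (X i w * Y i w)‖ ^ 2 ≤ C := by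
  obtain ⟨C, hC⟩ := q4_bd hX hY hX.cj hY.cj hK hKV (χ := fun w => g w * conj (g w))
    (hg.mul (continuous_conj.comp hg)) (fun w hw => by rw [h0 w hw, zero_mul])
  refine ⟨C, fun i => ?_⟩
  have h1 : ((∫ w, ‖g w * (X i w * Y i w)‖ ^ 2 : ℝ) : ℂ) =
      q4 (fun w => g w * conj (g w)) X Y (fun i w => conj (X i w)) (fun i w => conj (Y i w)) i := by
    rw [← integral_complex_ofReal, q4]
    refine integral_congr_ae (ae_of_all _ fun w => ?_)
    simp only [sq_eq, map_mul]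
    ring
  have h2 := hC i
  rw [← h1, norm_real] at h2
  exact (le_abs_self _).trans h2

/-- the functions `γ^l G_l^2` -/
def Dat.W (D : Dat ι) (l : ℕ) (i : ι) (w : ℂ) : ℂ := D.γ w ^ l * (D.G l i w * D.G l i w)

theorem Dat.W_sm (l : ℕ) (i : ι) : Sm (D.W l i) :=
  (D.hγ.pow l).mul (((Dat.Bd.G l).1 i).mul ((Dat.Bd.G l).1 i))

/-- the limit functional computes the square norms -/
theorem W_q4 {χ : ℂ → ℂ} (hr : ∀ w, conj (χ w) = χ w) (l : ℕ) (i : ι) :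
    ((∫ w, ‖χ w * D.W l i w‖ ^ 2 : ℝ) : ℂ) =
      q4 (fun w => χ w * χ w) (D.H l) (D.H (-l)) (D.H l) (D.H (-l)) i := by
  rw [← integral_complex_ofReal, q4]
  refine integral_congr_ae (ae_of_all _ fun w => ?_)
  simp only [sq_eq, map_mul, hr, Dat.H_nat, Dat.H_neg, Dat.Hn, Dat.W, map_pow, D.γreal]
  have e : ((-1 : ℂ) ^ l) * (-1) ^ l = 1 := by rw [← mul_pow]; simp
  linear_combination (-(χ w * χ w * D.γ w ^ l * D.γ w ^ l * D.G l i w * D.G l i w *
    conj (D.G l i w) * conj (D.G l i w))) * e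

theorem eq_E (k : ℕ) (c : ℂ) {χ : ℂ → ℂ} (hχ : D.Te χ) : ∃ C : ℝ, ∀ i,
    ∫ w, ‖dzb (fun w => χ w * D.W (k + 1) i w) w +
      dz (fun w => χ w * (D.W k i w - c)) w‖ ^ 2 ≤ C := by
  obtain ⟨E, hE, hlow⟩ := Dat.lower (D := D) k
  set K := tsupport χ with hK
  have hKc : IsCompact K := hχ.cs
  set g1 : ℂ → ℂ := fun w => dzb (fun w => χ w * D.γ w ^ (k + 1)) w with hg1
  set g2 : ℂ → ℂ := fun w => 2 * (χ w * D.γ w ^ (k + 1)) with hg2
  set g3 : ℂ → ℂ := fun w => dz (fun w => χ w * D.γ w ^ k) w with hg3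
  set g4 : ℂ → ℂ := fun w => -c * dz χ w with hg4
  have s1 : Sm (fun w => χ w * D.γ w ^ (k + 1)) := hχ.sm.mul (D.hγ.pow _)
  have s3 : Sm (fun w => χ w * D.γ w ^ k) := hχ.sm.mul (D.hγ.pow _)
  have z1 : ∀ w, w ∉ K → g1 w = 0 := fun w hw =>
    (dz_notMem (χ := fun w => χ w * D.γ w ^ (k + 1)) (fun h => hw
      (closure_mono (Function.support_mul_subset_left χ _) h))).2
  have z2 : ∀ w, w ∉ K → g2 w = 0 := fun w hw => by
    simp only [hg2, image_eq_zero_of_notMem_tsupport hw, zero_mul, mul_zero]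
  have z3 : ∀ w, w ∉ K → g3 w = 0 := fun w hw =>
    (dz_notMem (χ := fun w => χ w * D.γ w ^ k) (fun h => hw
      (closure_mono (Function.support_mul_subset_left χ _) h))).1
  have z4 : ∀ w, w ∉ K → g4 w = 0 := fun w hw => by
    simp only [hg4, (dz_notMem hw).1, mul_zero]
  have hGk1 := Dat.Bd.G (D := D) (k + 1)
  have hGk := Dat.Bd.G (D := D) k
  obtain ⟨C1, h1⟩ := l2_bd hGk1 hGk1 hKc hχ.sub (g := g1) s1.db.cont z1
  obtain ⟨C2, h2⟩ := l2_bd hGk1 hE.bd hKc hχ.sub (g := g2) (s1.cmul 2).cont z2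
  obtain ⟨C3, h3⟩ := l2_bd hGk hGk hKc hχ.sub (g := g3) s3.d.cont z3
  obtain ⟨C4, h4⟩ := l2_bd (Dat.Bd.const (D := D) 1) (Dat.Bd.const 1) hKc hχ.sub (g := g4)
    (hχ.sm.d.cmul (-c)).cont z4
  refine ⟨4 * C1 + 4 * C2 + 4 * C3 + 4 * C4, fun i => ?_⟩
  have key : ∀ w, dzb (fun w => χ w * D.W (k + 1) i w) w +
      dz (fun w => χ w * (D.W k i w - c)) w =
      g1 w * (D.G (k + 1) i w * D.G (k + 1) i w) + g2 w * (D.G (k + 1) i w * E i w) +
      g3 w * (D.G k i w * D.G k i w) + g4 w * (1 * 1) := by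
    intro w
    have e1 : (fun w => χ w * D.W (k + 1) i w) =
        fun w => (χ w * D.γ w ^ (k + 1)) * (D.G (k + 1) i w * D.G (k + 1) i w) := by
      ext w; rw [Dat.W]; ring
    have e2 : (fun w => χ w * (D.W k i w - c)) =
        fun w => (χ w * D.γ w ^ k) * (D.G k i w * D.G k i w) - c * χ w := by
      ext w; rw [Dat.W]; ring
    rw [e1, e2, dzb_mul s1 ((hGk1.1 i).mul (hGk1.1 i)), dzb_mul (hGk1.1 i) (hGk1.1 i),
      dz_sub (s3.mul ((hGk.1 i).mul (hGk.1 i))) (hχ.sm.cmul c), dz_cmul c hχ.sm,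
      dz_mul s3 ((hGk.1 i).mul (hGk.1 i)), dz_mul (hGk.1 i) (hGk.1 i)]
    have hk : (D.κ i : ℂ) ≠ 0 := by exact_mod_cast (D.κpos i).ne'
    by_cases hw : w ∈ D.V
    · have a1 := hlow i w hw
      have a2 := Dat.der_G (D := D) k i w
      have a3 : dzb (D.G (k + 1) i) w = (-(D.β w * D.G k i w) + D.κ i * E i w) / D.κ i := by
        rw [← a1]; field_simp
      have a4 : dz (D.G k i) w = D.G (k + 1) i w / D.κ i := by
        rw [← a2]; field_simp
      rw [a3, a4]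
      simp only [hg1, hg2, hg3, hg4]
      have e3 := D.βγ w
      rw [pow_succ]
      field_simp
      linear_combination (-2 * χ w * D.γ w ^ k * D.G k i w * D.G (k + 1) i w) * e3
    · have hw' : w ∉ K := fun h => hw (hχ.sub h)
      rw [z1 w hw', z2 w hw', z3 w hw', z4 w hw']
      have y1 : dzb (fun w => χ w * D.γ w ^ (k + 1)) w = 0 := z1 w hw'
      have y3 : dz (fun w => χ w * D.γ w ^ k) w = 0 := z3 w hw'
      rw [y1, y3, image_eq_zero_of_notMem_tsupport hw', (dz_notMem hw').1]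
      ring
  have i1 : Integrable (fun w => ‖g1 w * (D.G (k + 1) i w * D.G (k + 1) i w)‖ ^ 2) :=
    int_sq (s1.db.mul ((hGk1.1 i).mul (hGk1.1 i)))
      (HasCompactSupport.intro hKc fun w hw => by rw [z1 w hw, zero_mul])
  have i2 : Integrable (fun w => ‖g2 w * (D.G (k + 1) i w * E i w)‖ ^ 2) :=
    int_sq ((s1.cmul 2).mul ((hGk1.1 i).mul (hE.bd.1 i)))
      (HasCompactSupport.intro hKc fun w hw => by rw [z2 w hw, zero_mul])
  have i3 : Integrable (fun w => ‖g3 w * (D.G k i w * D.G k i w)‖ ^ 2) :=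
    int_sq (s3.d.mul ((hGk.1 i).mul (hGk.1 i)))
      (HasCompactSupport.intro hKc fun w hw => by rw [z3 w hw, zero_mul])
  have i4 : Integrable (fun w => ‖g4 w * (1 * 1)‖ ^ 2) :=
    int_sq ((hχ.sm.d.cmul (-c)).mul (Sm.const (1 * 1)))
      (HasCompactSupport.intro hKc fun w hw => by rw [z4 w hw, zero_mul])
  have j1 : Integrable (fun w => 4 * ‖g1 w * (D.G (k + 1) i w * D.G (k + 1) i w)‖ ^ 2 +
      4 * ‖g2 w * (D.G (k + 1) i w * E i w)‖ ^ 2) := (i1.const_mul 4).add (i2.const_mul 4)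
  have j2 : Integrable (fun w => 4 * ‖g1 w * (D.G (k + 1) i w * D.G (k + 1) i w)‖ ^ 2 +
      4 * ‖g2 w * (D.G (k + 1) i w * E i w)‖ ^ 2 + 4 * ‖g3 w * (D.G k i w * D.G k i w)‖ ^ 2) :=
    j1.add (i3.const_mul 4)
  calc ∫ w, ‖dzb (fun w => χ w * D.W (k + 1) i w) w +
        dz (fun w => χ w * (D.W k i w - c)) w‖ ^ 2
      ≤ ∫ w, (4 * ‖g1 w * (D.G (k + 1) i w * D.G (k + 1) i w)‖ ^ 2 +
        4 * ‖g2 w * (D.G (k + 1) i w * E i w)‖ ^ 2 + 4 * ‖g3 w * (D.G k i w * D.G k i w)‖ ^ 2 +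
        4 * ‖g4 w * (1 * 1)‖ ^ 2) := by
        refine integral_mono_of_nonneg (ae_of_all _ fun w => sq_nonneg _)
          (j2.add (i4.const_mul 4)) (ae_of_all _ fun w => ?_)
        simp only
        rw [key w]
        set a := g1 w * (D.G (k + 1) i w * D.G (k + 1) i w)
        set b := g2 w * (D.G (k + 1) i w * E i w)
        set d := g3 w * (D.G k i w * D.G k i w)
        set e := g4 w * (1 * 1)
        have t1 := norm_add_le (a + b + d) e
        have t2 := norm_add_le (a + b) d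
        have t3 := norm_add_le a b
        have t4 : ‖a + b + d + e‖ ≤ ‖a‖ + ‖b‖ + ‖d‖ + ‖e‖ := by linarith
        have t5 := pow_le_pow_left₀ (norm_nonneg _) t4 2
        nlinarith [sq_nonneg (‖a‖ - ‖b‖), sq_nonneg (‖a‖ - ‖d‖), sq_nonneg (‖a‖ - ‖e‖),
          sq_nonneg (‖b‖ - ‖d‖), sq_nonneg (‖b‖ - ‖e‖), sq_nonneg (‖d‖ - ‖e‖)]
    _ = 4 * (∫ w, ‖g1 w * (D.G (k + 1) i w * D.G (k + 1) i w)‖ ^ 2) +
        4 * (∫ w, ‖g2 w * (D.G (k + 1) i w * E i w)‖ ^ 2) +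
        4 * (∫ w, ‖g3 w * (D.G k i w * D.G k i w)‖ ^ 2) +
        4 * ∫ w, ‖g4 w * (1 * 1)‖ ^ 2 := by
        rw [integral_add j2 (i4.const_mul 4), integral_add j1 (i3.const_mul 4),
          integral_add (i1.const_mul 4) (i2.const_mul 4)]
        simp only [integral_const_mul]
    _ ≤ _ := by linarith [h1 i, h2 i, h3 i, h4 i]

/-- comparison of consecutive norms -/
theorem chain_step {𝒰 : Filter ι} [NeBot 𝒰] {χ : ℂ → ℂ} (hχ : D.Te χ) (k : ℕ) (c : ℂ)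
    (hq : ∀ θ : ℂ → ℂ, D.Te θ →
      Tendsto (fun i => ∫ w, θ w * (D.G (k + 1) i w * D.G (k + 1) i w)) 𝒰 (𝓝 0))
    {p q : ℝ} (hp : Tendsto (fun i => ∫ w, ‖χ w * D.W (k + 1) i w‖ ^ 2) 𝒰 (𝓝 p))
    (hq' : Tendsto (fun i => ∫ w, ‖χ w * (D.W k i w - c)‖ ^ 2) 𝒰 (𝓝 q)) : p ≤ q := by
  obtain ⟨C, hC⟩ := eq_E k c hχ
  have sP : ∀ i, Sm (fun w => χ w * D.W (k + 1) i w) := fun i => hχ.sm.mul (Dat.W_sm _ i)
  have sQ : ∀ i, Sm (fun w => χ w * (D.W k i w - c)) := fun i =>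
    hχ.sm.mul ((Dat.W_sm _ i).sub (Sm.const c))
  have z : ∀ (x w : ℂ), w ∉ tsupport χ → χ w * x = 0 := fun x w hw => by
    rw [image_eq_zero_of_notMem_tsupport hw, zero_mul]
  have hsupp : ∀ g : ℂ → ℂ, tsupport (fun w => χ w * g w) ⊆ tsupport χ := fun g =>
    closure_mono (Function.support_mul_subset_left χ g)
  refine comp_lim 𝒰 hχ.cs _ _ (fun i w => dzb (fun w => χ w * D.W (k + 1) i w) w +
      dz (fun w => χ w * (D.W k i w - c)) w) sP sQ (fun i => (sP i).db.add (sQ i).d)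
    (fun i w hw => z _ w hw) (fun i w hw => z _ w hw) (fun i w hw => ?_) (fun i w => rfl) C hC
    (fun θ hθ _ => ?_) hp hq'
  · rw [(dz_notMem fun h => hw (hsupp _ h)).2, (dz_notMem fun h => hw (hsupp _ h)).1, add_zero]
  · have h1 := hq (fun w => χ w * (θ w * D.γ w ^ (k + 1))) (hχ.mul (hθ.mul (D.hγ.pow _)))
    refine h1.congr fun i => ?_
    refine integral_congr_ae (ae_of_all _ fun w => ?_)
    simp only [Dat.W]
    ring

end

end Pool.Agent.H486.QM
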