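import Pool.Agent.H486.QM.Beur

/-!
# The comparison inequality in the limit
-/

set_option autoImplicit false

open MeasureTheory Complex Filter Topology Set Metric
open scoped ContDiff ComplexConjugate

namespace Pool.Agent.H486.QM

noncomputable section

theorem int_aff {E : Type*} [NormedAddCommGroup E] [NormedSpace ℝ E] (F : ℂ → E) (z0 : ℂ) {κ : ℝ}
    (hκ : 0 < κ) : ∫ w : ℂ, F (z0 + κ * w) = (κ ^ 2)⁻¹ • ∫ w, F w := by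
  have h1 := Measure.integral_comp_smul (volume : Measure ℂ) (fun w => F (z0 + w)) κ
  have h2 : ∫ w : ℂ, F (z0 + w) = ∫ w, F w := integral_add_left_eq_self F z0
  rw [h2, Complex.finrank_real_complex, abs_of_pos (by positivity)] at h1
  simpa using h1

theorem exists_test {S : Set ℂ} (hS : IsCompact S) : ∃ θ : ℂ → ℂ, Sm θ ∧ HasCompactSupport θ ∧
    ∀ w ∈ S, θ w = 1 := by
  obtain ⟨r, hr0, hr⟩ := hS.isBounded.subset_closedBall_lt 0 0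
  obtain ⟨θ, h1, h2, -, -, h3, -⟩ := exists_cut hr0 (lt_add_one r)
  exact ⟨θ, h1, h2, fun w hw => h3 w (hr hw)⟩

theorem exists_frame {S : Set ℂ} (hS : IsCompact S) : ∃ (κ : ℝ) (c : ℂ), 0 < κ ∧
    ∀ w, w ∉ SQ → c + κ * w ∉ S := by
  obtain ⟨r, hr0, hr⟩ := hS.isBounded.subset_closedBall_lt 0 0
  refine ⟨2 * (r + 1), -(((r + 1 : ℝ) : ℂ) + ((r + 1 : ℝ) : ℂ) * I), by positivity, ?_⟩
  intro w hw hmem
  apply hw
  have h1 := hr hmem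
  rw [mem_closedBall_zero_iff] at h1
  have h2 := (Complex.abs_re_le_norm _).trans h1
  have h3 := (Complex.abs_im_le_norm _).trans h1
  have e1 : (-(((r + 1 : ℝ) : ℂ) + ((r + 1 : ℝ) : ℂ) * I) + ((2 * (r + 1) : ℝ) : ℂ) * w).re =
      -(r + 1) + 2 * (r + 1) * w.re := by simp
  have e2 : (-(((r + 1 : ℝ) : ℂ) + ((r + 1 : ℝ) : ℂ) * I) + ((2 * (r + 1) : ℝ) : ℂ) * w).im =
      -(r + 1) + 2 * (r + 1) * w.im := by simp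
  rw [e1] at h2
  rw [e2] at h3
  have h4 := abs_le.1 h2
  have h5 := abs_le.1 h3
  refine ⟨?_, ?_, ?_, ?_⟩
  · by_contra h; push Not at h; nlinarith [h4.1]
  · by_contra h; push Not at h; nlinarith [h4.2]
  · by_contra h; push Not at h; nlinarith [h5.1]
  · by_contra h; push Not at h; nlinarith [h5.2]

theorem cf_aff_eq {S : Set ℂ} {κ : ℝ} {c : ℂ} (hκ0 : 0 < κ) {θ : ℂ → ℂ}
    (hθ1 : ∀ w ∈ S, θ w = 1) {P : ℂ → ℂ} (sP : ∀ z, z ∉ S → P z = 0) (n : Fin 2 → ℤ) :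
    cf (aff c κ P) n =
      ((κ ^ 2)⁻¹ : ℝ) • ∫ z, (aff (-c / κ) (1 / κ) (ch n) z * θ z) * P z := by
  rw [← int_aff (fun z => (aff (-c / κ) (1 / κ) (ch n) z * θ z) * P z) c hκ0, cf]
  refine integral_congr_ae (ae_of_all _ fun w => ?_)
  have hk : (κ : ℂ) ≠ 0 := by exact_mod_cast hκ0.ne'
  have e : -c / κ + ((1 / κ : ℝ) : ℂ) * (c + κ * w) = w := by
    push_cast
    field_simp
    ring
  simp only [aff]
  rw [e]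
  by_cases hz : c + κ * w ∈ S
  · rw [hθ1 _ hz, mul_one]
  · rw [sP _ hz, mul_zero, mul_zero]

theorem comp_step {S : Set ℂ} {κ : ℝ} {c : ℂ} (hκ0 : 0 < κ)
    (hsq : ∀ w, w ∉ SQ → c + κ * w ∉ S) {P Q E : ℂ → ℂ} (hP : Sm P) (hQ : Sm Q) (hE : Sm E)
    (sP : ∀ z, z ∉ S → P z = 0) (sQ : ∀ z, z ∉ S → Q z = 0)
    (sE : ∀ z, z ∉ S → E z = 0) (heq : ∀ z, dzb P z + dz Q z = E z)
    {C : ℝ} (hC : ∫ z, ‖E z‖ ^ 2 ≤ C) (R : ℕ) (hR : 0 < R) (ε : ℝ) (hε : 0 < ε) :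
    (κ ^ 2)⁻¹ * (∫ z, ‖P z‖ ^ 2) ≤ (∑ n ∈ box R, ‖cf (aff c κ P) n‖ ^ 2) +
        (1 + ε) * ((κ ^ 2)⁻¹ * ∫ z, ‖Q z‖ ^ 2) + (1 + 1 / ε) / (R : ℝ) ^ 2 * C := by
  have h2 := beur (P := aff c κ P) (Q := aff c κ Q)
    (E := fun w => κ * aff c κ E w) (hP.aff _ _) (hQ.aff _ _)
    ((hE.aff c κ).cmul κ) (fun z hz => sP _ (hsq z hz)) (fun z hz => sQ _ (hsq z hz))
    (fun z hz => by simp only [aff, sE _ (hsq z hz), mul_zero])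
    (fun z => by
      rw [dzb_aff hP, dz_aff hQ]
      simp only [aff, ← heq]
      ring) R hR ε hε
  have e1 : ∫ z, ‖aff c κ P z‖ ^ 2 = (κ ^ 2)⁻¹ * ∫ z, ‖P z‖ ^ 2 :=
    int_aff (fun z => ‖P z‖ ^ 2) c hκ0
  have e2 : ∫ z, ‖aff c κ Q z‖ ^ 2 = (κ ^ 2)⁻¹ * ∫ z, ‖Q z‖ ^ 2 :=
    int_aff (fun z => ‖Q z‖ ^ 2) c hκ0
  have e3 : ∫ z, ‖(κ : ℂ) * aff c κ E z‖ ^ 2 = ∫ z, ‖E z‖ ^ 2 := by
    have e4 : ∀ z, ‖(κ : ℂ) * aff c κ E z‖ ^ 2 = κ ^ 2 * ‖aff c κ E z‖ ^ 2 := by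
      intro z
      rw [norm_mul, norm_real, Real.norm_of_nonneg hκ0.le, mul_pow]
    have e5 : ∫ z, ‖aff c κ E z‖ ^ 2 = (κ ^ 2)⁻¹ * ∫ z, ‖E z‖ ^ 2 :=
      int_aff (fun z => ‖E z‖ ^ 2) c hκ0
    have hk : κ ^ 2 ≠ 0 := by positivity
    rw [integral_congr_ae (ae_of_all _ e4), integral_const_mul, e5, ← mul_assoc,
      mul_inv_cancel₀ hk, one_mul]
  rw [e1, e2, e3] at h2
  have h3 : (1 + 1 / ε) / (R : ℝ) ^ 2 * ∫ z, ‖E z‖ ^ 2 ≤ (1 + 1 / ε) / (R : ℝ) ^ 2 * C :=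
    mul_le_mul_of_nonneg_left hC (by positivity)
  linarith

theorem comp_lim {ι : Type*} (𝒰 : Filter ι) [NeBot 𝒰] {S : Set ℂ} (hS : IsCompact S)
    (P Q E : ι → ℂ → ℂ) (hP : ∀ i, Sm (P i)) (hQ : ∀ i, Sm (Q i)) (hE : ∀ i, Sm (E i))
    (sP : ∀ i, ∀ z, z ∉ S → P i z = 0) (sQ : ∀ i, ∀ z, z ∉ S → Q i z = 0)
    (sE : ∀ i, ∀ z, z ∉ S → E i z = 0) (heq : ∀ i z, dzb (P i) z + dz (Q i) z = E i z)
    (C : ℝ) (hC : ∀ i, ∫ z, ‖E i z‖ ^ 2 ≤ C)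
    (hw : ∀ χ : ℂ → ℂ, Sm χ → HasCompactSupport χ →
      Tendsto (fun i => ∫ z, χ z * P i z) 𝒰 (𝓝 0)) {p q : ℝ}
    (hp : Tendsto (fun i => ∫ z, ‖P i z‖ ^ 2) 𝒰 (𝓝 p))
    (hq : Tendsto (fun i => ∫ z, ‖Q i z‖ ^ 2) 𝒰 (𝓝 q)) : p ≤ q := by
  obtain ⟨κ, c, hκ0, hsq⟩ := exists_frame hS
  obtain ⟨θ, hθ, hθc, hθ1⟩ := exists_test hS
  have hcf : ∀ n, Tendsto (fun i => ‖cf (aff c κ (P i)) n‖ ^ 2) 𝒰 (𝓝 0) := by
    intro n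
    have h1 := hw (fun z => aff (-c / κ) (1 / κ) (ch n) z * θ z) (((sm_ch n).aff _ _).mul hθ)
      hθc.mul_left
    have h3 := h1.const_smul ((κ ^ 2)⁻¹ : ℝ)
    rw [smul_zero] at h3
    have h4 : Tendsto (fun i => cf (aff c κ (P i)) n) 𝒰 (𝓝 0) :=
      h3.congr (fun i => (cf_aff_eq hκ0 hθ1 (sP i) n).symm)
    have h5 := h4.norm.pow 2
    rw [norm_zero, zero_pow two_ne_zero] at h5
    exact h5
  have hfin : ∀ (R : ℕ), 0 < R → ∀ ε : ℝ, 0 < ε →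
      (κ ^ 2)⁻¹ * p ≤ (1 + ε) * ((κ ^ 2)⁻¹ * q) + (1 + 1 / ε) / (R : ℝ) ^ 2 * C := by
    intro R hR ε hε
    have h1 := fun i => comp_step hκ0 hsq (hP i) (hQ i) (hE i) (sP i) (sQ i) (sE i) (heq i)
      (hC i) R hR ε hε
    have h2 : Tendsto (fun i => (∑ n ∈ box R, ‖cf (aff c κ (P i)) n‖ ^ 2) +
        (1 + ε) * ((κ ^ 2)⁻¹ * ∫ z, ‖Q i z‖ ^ 2) + (1 + 1 / ε) / (R : ℝ) ^ 2 * C) 𝒰
        (𝓝 ((∑ n ∈ box R, (0 : ℝ)) + (1 + ε) * ((κ ^ 2)⁻¹ * q) +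
          (1 + 1 / ε) / (R : ℝ) ^ 2 * C)) := by
      refine Tendsto.add (Tendsto.add ?_ ((hq.const_mul _).const_mul _)) tendsto_const_nhds
      exact tendsto_finsetSum _ fun n _ => hcf n
    have h3 := le_of_tendsto_of_tendsto' (hp.const_mul ((κ ^ 2)⁻¹)) h2 h1
    rw [Finset.sum_const_zero, zero_add] at h3
    exact h3
  have h4 : ∀ ε : ℝ, 0 < ε → (κ ^ 2)⁻¹ * p ≤ (1 + ε) * ((κ ^ 2)⁻¹ * q) := by
    intro ε hε
    have hlim : Tendsto (fun R : ℕ => (1 + ε) * ((κ ^ 2)⁻¹ * q) + (1 + 1 / ε) / (R : ℝ) ^ 2 * C)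
        atTop (𝓝 ((1 + ε) * ((κ ^ 2)⁻¹ * q) + 0 * C)) := by
      refine tendsto_const_nhds.add (Tendsto.mul_const _ ?_)
      exact tendsto_const_nhds.div_atTop
        ((tendsto_pow_atTop two_ne_zero).comp tendsto_natCast_atTop_atTop)
    rw [zero_mul, add_zero] at hlim
    refine ge_of_tendsto hlim ?_
    filter_upwards [eventually_gt_atTop 0] with R hR
    exact hfin R hR ε hε
  have h5 : (κ ^ 2)⁻¹ * p ≤ (κ ^ 2)⁻¹ * q := by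
    have hlim : Tendsto (fun ε : ℝ => (1 + ε) * ((κ ^ 2)⁻¹ * q)) (𝓝[>] 0)
        (𝓝 ((1 + 0) * ((κ ^ 2)⁻¹ * q))) := by
      refine Tendsto.mono_left ?_ nhdsWithin_le_nhds
      exact ((continuous_const.add continuous_id).mul continuous_const).tendsto 0
    rw [add_zero, one_mul] at hlim
    refine ge_of_tendsto hlim ?_
    filter_upwards [self_mem_nhdsWithin] with ε hε
    exact h4 ε hε
  exact le_of_mul_le_mul_left h5 (by positivity)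

end

end Pool.Agent.H486.QM
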