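import Pool.Agent.H486.QM.Dat

/-!
# Limits of fourth order correlations
-/

set_option autoImplicit false

open MeasureTheory Complex Filter Topology Set Metric
open scoped ContDiff ComplexConjugate

namespace Pool.Agent.H486.QM

noncomputable section

universe u

variable {ι : Type u} {D : Dat ι}

/-- test functions supported in the open set -/
structure Dat.Te (D : Dat ι) (χ : ℂ → ℂ) : Prop where
  sm : Sm χ
  cs : HasCompactSupport χ
  sub : tsupport χ ⊆ D.V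

/-- fourth order integrals -/
def q4 (χ : ℂ → ℂ) (X Y Z W : ι → ℂ → ℂ) (i : ι) : ℂ :=
  ∫ w, χ w * (X i w * Y i w * (Z i w * W i w))

theorem intg4 {F1 F2 F3 F4 : ℂ → ℂ} (h1 : Integrable F1) (h2 : Integrable F2)
    (h3 : Integrable F3) (h4 : Integrable F4) :
    Integrable (fun w => F1 w + F2 w + F3 w + F4 w) := ((h1.add h2).add h3).add h4

theorem int_add4 {F1 F2 F3 F4 : ℂ → ℂ} (h1 : Integrable F1) (h2 : Integrable F2)
    (h3 : Integrable F3) (h4 : Integrable F4) :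
    ∫ w, (F1 w + F2 w + F3 w + F4 w) = (∫ w, F1 w) + (∫ w, F2 w) + (∫ w, F3 w) + ∫ w, F4 w := by
  have j1 : Integrable (fun w => F1 w + F2 w) := h1.add h2
  have j2 : Integrable (fun w => F1 w + F2 w + F3 w) := j1.add h3
  rw [integral_add j2 h4, integral_add j1 h3, integral_add h1 h2]

theorem four_le (a b c d : ℝ) (hc : 0 ≤ c) (hd : 0 ≤ d) :
    a * b * (c * d) ≤ a ^ 4 + b ^ 4 + c ^ 4 + d ^ 4 := by
  have h1 : a * b ≤ (a ^ 2 + b ^ 2) / 2 := by nlinarith [sq_nonneg (a - b)]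
  have h2 : c * d ≤ (c ^ 2 + d ^ 2) / 2 := by nlinarith [sq_nonneg (c - d)]
  have h3 : a * b * (c * d) ≤ ((a ^ 2 + b ^ 2) / 2) * ((c ^ 2 + d ^ 2) / 2) :=
    mul_le_mul h1 h2 (mul_nonneg hc hd) (by positivity)
  nlinarith [sq_nonneg (a ^ 2 - b ^ 2), sq_nonneg (c ^ 2 - d ^ 2),
    sq_nonneg (a ^ 2 + b ^ 2 - c ^ 2 - d ^ 2), sq_nonneg (a ^ 2 + b ^ 2), sq_nonneg (a ^ 2),
    sq_nonneg (b ^ 2), sq_nonneg (c ^ 2), sq_nonneg (d ^ 2)]

theorem q4_bd {X Y Z W : ι → ℂ → ℂ} (hX : D.Bd X) (hY : D.Bd Y) (hZ : D.Bd Z) (hW : D.Bd W)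
    {χ : ℂ → ℂ} {K : Set ℂ} (hK : IsCompact K) (hKV : K ⊆ D.V) (hχ : Continuous χ)
    (h0 : ∀ w, w ∉ K → χ w = 0) : ∃ C : ℝ, ∀ i, ‖q4 χ X Y Z W i‖ ≤ C := by
  obtain ⟨M, hM⟩ := hK.exists_bound_of_continuousOn hχ.continuousOn
  obtain ⟨C1, h1⟩ := hX.2 K hK hKV
  obtain ⟨C2, h2⟩ := hY.2 K hK hKV
  obtain ⟨C3, h3⟩ := hZ.2 K hK hKV
  obtain ⟨C4, h4⟩ := hW.2 K hK hKV
  refine ⟨|M| * (C1 + C2 + C3 + C4), fun i => ?_⟩
  have i1 := (hX.1 i).intOn4 hK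
  have i2 := (hY.1 i).intOn4 hK
  have i3 := (hZ.1 i).intOn4 hK
  have i4 := (hW.1 i).intOn4 hK
  have e : ∫ w, ‖χ w * (X i w * Y i w * (Z i w * W i w))‖ =
      ∫ w in K, ‖χ w * (X i w * Y i w * (Z i w * W i w))‖ :=
    (setIntegral_eq_integral_of_forall_compl_eq_zero fun w hw => by
      rw [h0 w hw, zero_mul, norm_zero]).symm
  have hc : Continuous fun w => ‖χ w * (X i w * Y i w * (Z i w * W i w))‖ :=
    (hχ.mul (((hX.1 i).cont.mul (hY.1 i).cont).mul ((hZ.1 i).cont.mul (hW.1 i).cont))).norm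
  have j1 : IntegrableOn (fun w => ‖X i w‖ ^ 4 + ‖Y i w‖ ^ 4) K := i1.add i2
  have j2 : IntegrableOn (fun w => ‖X i w‖ ^ 4 + ‖Y i w‖ ^ 4 + ‖Z i w‖ ^ 4) K := j1.add i3
  have j3 : IntegrableOn (fun w => ‖X i w‖ ^ 4 + ‖Y i w‖ ^ 4 + ‖Z i w‖ ^ 4 + ‖W i w‖ ^ 4) K :=
    j2.add i4
  calc ‖q4 χ X Y Z W i‖ ≤ ∫ w, ‖χ w * (X i w * Y i w * (Z i w * W i w))‖ :=
        norm_integral_le_integral_norm _
    _ = ∫ w in K, ‖χ w * (X i w * Y i w * (Z i w * W i w))‖ := e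
    _ ≤ ∫ w in K, |M| * (‖X i w‖ ^ 4 + ‖Y i w‖ ^ 4 + ‖Z i w‖ ^ 4 + ‖W i w‖ ^ 4) := by
        refine setIntegral_mono_on (hc.continuousOn.integrableOn_compact hK)
          (j3.const_mul _) hK.measurableSet fun w hw => ?_
        rw [norm_mul, norm_mul, norm_mul, norm_mul]
        refine mul_le_mul ((hM w hw).trans (le_abs_self _))
          (four_le _ _ _ _ (norm_nonneg _) (norm_nonneg _))
          (by positivity) (abs_nonneg _)
    _ = |M| * ((∫ w in K, ‖X i w‖ ^ 4) + (∫ w in K, ‖Y i w‖ ^ 4) + (∫ w in K, ‖Z i w‖ ^ 4) +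
          ∫ w in K, ‖W i w‖ ^ 4) := by
        rw [integral_const_mul, integral_add j2 i4, integral_add j1 i3, integral_add i1 i2]
    _ ≤ _ := by
        refine mul_le_mul_of_nonneg_left ?_ (abs_nonneg _)
        linarith [h1 i, h2 i, h3 i, h4 i]

theorem Dat.Te.bd {χ : ℂ → ℂ} (hχ : D.Te χ) {X Y Z W : ι → ℂ → ℂ} (hX : D.Bd X) (hY : D.Bd Y)
    (hZ : D.Bd Z) (hW : D.Bd W) : ∃ C : ℝ, ∀ i, ‖q4 χ X Y Z W i‖ ≤ C :=
  q4_bd hX hY hZ hW hχ.cs hχ.sub hχ.sm.cont fun _ hw => image_eq_zero_of_notMem_tsupport hw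

theorem dz_notMem {χ : ℂ → ℂ} {w : ℂ} (hw : w ∉ tsupport χ) : dz χ w = 0 ∧ dzb χ w = 0 := by
  have h : χ =ᶠ[𝓝 w] fun _ => (0 : ℂ) := by
    filter_upwards [(isClosed_tsupport χ).isOpen_compl.mem_nhds hw] with u hu
    exact image_eq_zero_of_notMem_tsupport hu
  exact ⟨by rw [dz_congr h, dz_const], by rw [dzb_congr h, dzb_const]⟩

theorem Sm.four {X Y Z W : ℂ → ℂ} (hX : Sm X) (hY : Sm Y) (hZ : Sm Z) (hW : Sm W) :
    Sm (fun w => X w * Y w * (Z w * W w)) := (hX.mul hY).mul (hZ.mul hW)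

/-- the basic relation -/
theorem raise_lim {𝒰 : Filter ι} (hκ : Tendsto D.κ 𝒰 (𝓝 0)) {χ : ℂ → ℂ} (hχ : D.Te χ)
    {X Y Z W X' Y' Z' W' : ι → ℂ → ℂ} (hX : D.Bd X) (hY : D.Bd Y) (hZ : D.Bd Z) (hW : D.Bd W)
    (hX' : D.Bd X') (hY' : D.Bd Y') (hZ' : D.Bd Z') (hW' : D.Bd W')
    (dX : D.Der X X') (dY : D.Der Y Y') (dZ : D.Der Z Z') (dW : D.Der W W') :
    Tendsto (fun i => q4 χ X' Y Z W i + q4 χ X Y' Z W i + q4 χ X Y Z' W i + q4 χ X Y Z W' i)
      𝒰 (𝓝 0) := by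
  obtain ⟨RX, bX, eX⟩ := dX
  obtain ⟨RY, bY, eY⟩ := dY
  obtain ⟨RZ, bZ, eZ⟩ := dZ
  obtain ⟨RW, bW, eW⟩ := dW
  obtain ⟨C0, h0⟩ := q4_bd hX hY hZ hW hχ.cs hχ.sub hχ.sm.d.cont
    (fun w hw => (dz_notMem hw).1)
  obtain ⟨C1, h1⟩ := hχ.bd bX hY hZ hW
  obtain ⟨C2, h2⟩ := hχ.bd hX bY hZ hW
  obtain ⟨C3, h3⟩ := hχ.bd hX hY bZ hW
  obtain ⟨C4, h4⟩ := hχ.bd hX hY hZ bW
  have key : ∀ i, q4 χ X' Y Z W i + q4 χ X Y' Z W i + q4 χ X Y Z' W i + q4 χ X Y Z W' i =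
      -(D.κ i * (q4 (dz χ) X Y Z W i + q4 χ RX Y Z W i + q4 χ X RY Z W i + q4 χ X Y RZ W i +
        q4 χ X Y Z RW i)) := by
    intro i
    have sT := Sm.four (hX.1 i) (hY.1 i) (hZ.1 i) (hW.1 i)
    have hI := ibp_dz hχ.sm sT hχ.cs
    have hint : ∀ {A B C E : ι → ℂ → ℂ}, D.Bd A → D.Bd B → D.Bd C → D.Bd E →
        Integrable (fun w => χ w * (A i w * B i w * (C i w * E i w))) :=
      fun hA hB hC hE => (hχ.sm.mul (Sm.four (hA.1 i) (hB.1 i) (hC.1 i) (hE.1 i))).int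
        hχ.cs.mul_right
    have e1 : ∀ w, (D.κ i : ℂ) * (χ w * dz (fun w => X i w * Y i w * (Z i w * W i w)) w) =
        (χ w * (X' i w * Y i w * (Z i w * W i w)) + χ w * (X i w * Y' i w * (Z i w * W i w)) +
        χ w * (X i w * Y i w * (Z' i w * W i w)) + χ w * (X i w * Y i w * (Z i w * W' i w))) +
        D.κ i * (χ w * (RX i w * Y i w * (Z i w * W i w)) +
          χ w * (X i w * RY i w * (Z i w * W i w)) +
          χ w * (X i w * Y i w * (RZ i w * W i w)) + χ w * (X i w * Y i w * (Z i w * RW i w))) := by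
      intro w
      by_cases hw : w ∈ D.V
      · rw [dz_mul ((hX.1 i).mul (hY.1 i)) ((hZ.1 i).mul (hW.1 i)), dz_mul (hX.1 i) (hY.1 i),
          dz_mul (hZ.1 i) (hW.1 i)]
        linear_combination (χ w * Y i w * (Z i w * W i w)) * eX i w hw +
          (χ w * X i w * (Z i w * W i w)) * eY i w hw +
          (χ w * (X i w * Y i w) * W i w) * eZ i w hw +
          (χ w * (X i w * Y i w) * Z i w) * eW i w hw
      · have hw' : w ∉ tsupport χ := fun h => hw (hχ.sub h)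
        rw [image_eq_zero_of_notMem_tsupport hw']
        ring
    have e2 : (D.κ i : ℂ) * ∫ w, χ w * dz (fun w => X i w * Y i w * (Z i w * W i w)) w =
        (q4 χ X' Y Z W i + q4 χ X Y' Z W i + q4 χ X Y Z' W i + q4 χ X Y Z W' i) +
        D.κ i * (q4 χ RX Y Z W i + q4 χ X RY Z W i + q4 χ X Y RZ W i + q4 χ X Y Z RW i) := by
      rw [← integral_const_mul, integral_congr_ae (ae_of_all _ e1)]
      have a1 := hint hX' hY hZ hW
      have a2 := hint hX hY' hZ hW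
      have a3 := hint hX hY hZ' hW
      have a4 := hint hX hY hZ hW'
      have b1 := hint bX hY hZ hW
      have b2 := hint hX bY hZ hW
      have b3 := hint hX hY bZ hW
      have b4 := hint hX hY hZ bW
      rw [integral_add (intg4 a1 a2 a3 a4) ((intg4 b1 b2 b3 b4).const_mul _),
        integral_const_mul, int_add4 a1 a2 a3 a4, int_add4 b1 b2 b3 b4]
      rfl
    have e3 : ∫ w, dz χ w * (X i w * Y i w * (Z i w * W i w)) = q4 (dz χ) X Y Z W i := rfl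
    rw [e3] at hI
    rw [hI] at e2
    linear_combination -e2
  simp only [key]
  have hb : ∀ i, ‖q4 (dz χ) X Y Z W i + q4 χ RX Y Z W i + q4 χ X RY Z W i + q4 χ X Y RZ W i +
        q4 χ X Y Z RW i‖ ≤ C0 + C1 + C2 + C3 + C4 := by
    intro i
    refine (norm_add_le _ _).trans (add_le_add ?_ (h4 i))
    refine (norm_add_le _ _).trans (add_le_add ?_ (h3 i))
    refine (norm_add_le _ _).trans (add_le_add ?_ (h2 i))
    exact (norm_add_le _ _).trans (add_le_add (h0 i) (h1 i))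
  rw [← neg_zero]
  refine Tendsto.neg ?_
  refine squeeze_zero_norm (a := fun i => D.κ i * (C0 + C1 + C2 + C3 + C4)) (fun i => ?_) ?_
  · rw [norm_mul, norm_real, Real.norm_of_nonneg (D.κpos i).le]
    exact mul_le_mul_of_nonneg_left (hb i) (D.κpos i).le
  · simpa using hκ.mul_const (C0 + C1 + C2 + C3 + C4)

/-- bounded families converge along an ultrafilter -/
theorem ulim (𝒰 : Ultrafilter ι) {x : ι → ℂ} {C : ℝ} (h : ∀ i, ‖x i‖ ≤ C) :
    ∃ y, Tendsto x 𝒰 (𝓝 y) := by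
  have hc : IsCompact (closedBall (0 : ℂ) C) := isCompact_closedBall 0 C
  have he : ∀ᶠ i in (𝒰 : Filter ι), x i ∈ closedBall (0 : ℂ) C :=
    Eventually.of_forall fun i => by simpa using h i
  obtain ⟨y, -, hy⟩ := hc.ultrafilter_le_nhds (𝒰.map x) (le_principal_iff.2 he)
  exact ⟨y, hy⟩

/-- the limit functional -/
theorem exists_M (𝒰 : Ultrafilter ι) {χ : ℂ → ℂ} (hχ : D.Te χ) :
    ∃ M : ℤ → ℤ → ℤ → ℤ → ℂ, ∀ a b c d,
      Tendsto (q4 χ (D.H a) (D.H b) (D.H c) (D.H d)) 𝒰 (𝓝 (M a b c d)) := by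
  have h : ∀ a b c d : ℤ, ∃ y, Tendsto (q4 χ (D.H a) (D.H b) (D.H c) (D.H d)) 𝒰 (𝓝 y) := by
    intro a b c d
    obtain ⟨C, hC⟩ := hχ.bd (Dat.Bd.H a) (Dat.Bd.H b) (Dat.Bd.H c) (Dat.Bd.H d)
    exact ulim 𝒰 hC
  choose M hM using h
  exact ⟨M, hM⟩

theorem conj_q4 {χ : ℂ → ℂ} (hr : ∀ w, conj (χ w) = χ w) {a b c d : ℤ} (h : a + b + c + d = 0)
    (i : ι) : conj (q4 χ (D.H a) (D.H b) (D.H c) (D.H d) i) =
      q4 χ (D.H (-a)) (D.H (-b)) (D.H (-c)) (D.H (-d)) i := by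
  rw [q4, q4, ← integral_conj]
  refine integral_congr_ae (ae_of_all _ fun w => ?_)
  simp only [map_mul, hr, Dat.conj_H]
  have h1 : (-D.β w) ≠ 0 := by
    intro h
    have h2 := D.βγ w
    rw [neg_eq_zero.1 h, zero_mul] at h2
    exact zero_ne_one h2
  have e : (-D.β w) ^ a * (-D.β w) ^ b * ((-D.β w) ^ c * (-D.β w) ^ d) = 1 := by
    rw [← zpow_add₀ h1, ← zpow_add₀ h1, ← zpow_add₀ h1, ← add_assoc, h, zpow_zero]
  linear_combination (χ w * (D.H (-a) i w * D.H (-b) i w * (D.H (-c) i w * D.H (-d) i w))) * e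

theorem rh_of_lim {𝒰 : Ultrafilter ι} (hκ : Tendsto D.κ 𝒰 (𝓝 0)) {χ : ℂ → ℂ} (hχ : D.Te χ)
    (hr : ∀ w, conj (χ w) = χ w) {M : ℤ → ℤ → ℤ → ℤ → ℂ}
    (hM : ∀ a b c d, Tendsto (q4 χ (D.H a) (D.H b) (D.H c) (D.H d)) 𝒰 (𝓝 (M a b c d))) :
    Rh M := by
  have up : ∀ a b c d,
      M (a + 1) b c d + M a (b + 1) c d + M a b (c + 1) d + M a b c (d + 1) = 0 := by
    intro a b c d
    have h1 := raise_lim hκ hχ (Dat.Bd.H a) (Dat.Bd.H b) (Dat.Bd.H c) (Dat.Bd.H d)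
      (Dat.Bd.H (a + 1)) (Dat.Bd.H (b + 1)) (Dat.Bd.H (c + 1)) (Dat.Bd.H (d + 1))
      (Dat.der_H a) (Dat.der_H b) (Dat.der_H c) (Dat.der_H d)
    have h2 := ((((hM (a + 1) b c d).add (hM a (b + 1) c d)).add (hM a b (c + 1) d)).add
      (hM a b c (d + 1)))
    exact tendsto_nhds_unique h2 h1
  have cj : ∀ a b c d, a + b + c + d = 0 → M a b c d = conj (M (-a) (-b) (-c) (-d)) := by
    intro a b c d h
    have h1 := (continuous_conj.tendsto _).comp (hM (-a) (-b) (-c) (-d))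
    refine tendsto_nhds_unique (hM a b c d) (h1.congr fun i => ?_)
    have h2 := conj_q4 (D := D) hr (a := -a) (b := -b) (c := -c) (d := -d) (by omega) i
    simp only [neg_neg] at h2
    exact h2
  refine ⟨fun a b c d => ?_, fun a b c d => ?_, fun a b c d => ?_, fun a b c d _ => up a b c d,
    fun a b c d h => ?_⟩
  · refine tendsto_nhds_unique (hM a b c d) ((hM b a c d).congr fun i => ?_)
    rw [q4, q4]
    exact integral_congr_ae (ae_of_all _ fun w => by simp only; ring)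
  · refine tendsto_nhds_unique (hM a b c d) ((hM a c b d).congr fun i => ?_)
    rw [q4, q4]
    exact integral_congr_ae (ae_of_all _ fun w => by simp only; ring)
  · refine tendsto_nhds_unique (hM a b c d) ((hM a b d c).congr fun i => ?_)
    rw [q4, q4]
    exact integral_congr_ae (ae_of_all _ fun w => by simp only; ring)
  · rw [cj (a - 1) b c d (by omega), cj a (b - 1) c d (by omega), cj a b (c - 1) d (by omega),
      cj a b c (d - 1) (by omega), ← map_add, ← map_add, ← map_add]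
    have h1 := up (-a) (-b) (-c) (-d)
    have e1 : -(a - 1) = -a + 1 := by ring
    have e2 : -(b - 1) = -b + 1 := by ring
    have e3 : -(c - 1) = -c + 1 := by ring
    have e4 : -(d - 1) = -d + 1 := by ring
    rw [e1, e2, e3, e4, h1, map_zero]

end

end Pool.Agent.H486.QM
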