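import Pool.Agent.H486.QM.Comp
import Pool.Agent.H486.QM.Alg

/-!
# Families of eigenfunctions and their scaled derivatives
-/

set_option autoImplicit false

open MeasureTheory Complex Filter Topology Set Metric
open scoped ContDiff ComplexConjugate

namespace Pool.Agent.H486.QM

noncomputable section

universe u

/-- A family of real eigenfunctions in an open set, bounded in the fourth power norm. -/
structure Dat (ι : Type u) where
  κ : ι → ℝ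
  f : ι → ℂ → ℂ
  β : ℂ → ℂ
  γ : ℂ → ℂ
  V : Set ℂ
  hV : IsOpen V
  κpos : ∀ i, 0 < κ i
  κle : ∀ i, κ i ≤ 1
  hf : ∀ i, Sm (f i)
  freal : ∀ i w, conj (f i w) = f i w
  hβ : Sm β
  hγ : Sm γ
  βreal : ∀ w, conj (β w) = β w
  γreal : ∀ w, conj (γ w) = γ w
  βγ : ∀ w, β w * γ w = 1
  eq : ∀ i, ∀ w ∈ V, (κ i : ℂ) ^ 2 * dz (dzb (f i)) w = -(β w * f i w)
  bd : ∀ K : Set ℂ, IsCompact K → K ⊆ V → ∃ C : ℝ, ∀ i, ∫ w in K, ‖f i w‖ ^ 4 ≤ C

variable {ι : Type u} (D : Dat ι)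

/-- families of smooth functions bounded in the fourth power norm on compact sets -/
def Dat.Bd (X : ι → ℂ → ℂ) : Prop :=
  (∀ i, Sm (X i)) ∧ ∀ K : Set ℂ, IsCompact K → K ⊆ D.V → ∃ C : ℝ, ∀ i, ∫ w in K, ‖X i w‖ ^ 4 ≤ C

variable {D}

theorem Sm.intOn4 {F : ℂ → ℂ} (hF : Sm F) {K : Set ℂ} (hK : IsCompact K) :
    IntegrableOn (fun w => ‖F w‖ ^ 4) K :=
  (hF.cont.norm.pow 4).continuousOn.integrableOn_compact hK

theorem Dat.Bd.add {X Y : ι → ℂ → ℂ} (hX : D.Bd X) (hY : D.Bd Y) :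
    D.Bd (fun i w => X i w + Y i w) := by
  refine ⟨fun i => (hX.1 i).add (hY.1 i), fun K hK hKV => ?_⟩
  obtain ⟨C1, h1⟩ := hX.2 K hK hKV
  obtain ⟨C2, h2⟩ := hY.2 K hK hKV
  refine ⟨8 * C1 + 8 * C2, fun i => ?_⟩
  have i1 := (hX.1 i).intOn4 hK
  have i2 := (hY.1 i).intOn4 hK
  calc ∫ w in K, ‖X i w + Y i w‖ ^ 4 ≤ ∫ w in K, (8 * ‖X i w‖ ^ 4 + 8 * ‖Y i w‖ ^ 4) := by
        refine setIntegral_mono_on (((hX.1 i).add (hY.1 i)).intOn4 hK)
          ((i1.const_mul 8).add (i2.const_mul 8)) hK.measurableSet fun w _ => ?_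
        have h3 := norm_add_le (X i w) (Y i w)
        have h4 := pow_le_pow_left₀ (norm_nonneg _) h3 4
        refine h4.trans ?_
        set a := ‖X i w‖
        set b := ‖Y i w‖
        have ha : 0 ≤ a := norm_nonneg _
        have hb : 0 ≤ b := norm_nonneg _
        have h5 : (a + b) ^ 2 ≤ 2 * (a ^ 2 + b ^ 2) := by nlinarith [sq_nonneg (a - b)]
        have h6 : ((a + b) ^ 2) ^ 2 ≤ (2 * (a ^ 2 + b ^ 2)) ^ 2 :=
          pow_le_pow_left₀ (sq_nonneg _) h5 2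
        nlinarith [sq_nonneg (a ^ 2 - b ^ 2)]
    _ = 8 * (∫ w in K, ‖X i w‖ ^ 4) + 8 * ∫ w in K, ‖Y i w‖ ^ 4 := by
        rw [integral_add (i1.const_mul 8) (i2.const_mul 8), integral_const_mul,
          integral_const_mul]
    _ ≤ _ := by linarith [h1 i, h2 i]

theorem Dat.Bd.gmul {X : ι → ℂ → ℂ} {g : ℂ → ℂ} (hg : Sm g) (hX : D.Bd X) :
    D.Bd (fun i w => g w * X i w) := by
  refine ⟨fun i => hg.mul (hX.1 i), fun K hK hKV => ?_⟩
  obtain ⟨C1, h1⟩ := hX.2 K hK hKV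
  obtain ⟨M, hM⟩ := hK.exists_bound_of_continuousOn hg.cont.continuousOn
  refine ⟨M ^ 4 * C1, fun i => ?_⟩
  calc ∫ w in K, ‖g w * X i w‖ ^ 4 ≤ ∫ w in K, M ^ 4 * ‖X i w‖ ^ 4 := by
        refine setIntegral_mono_on ((hg.mul (hX.1 i)).intOn4 hK)
          (((hX.1 i).intOn4 hK).const_mul _) hK.measurableSet fun w hw => ?_
        rw [norm_mul, mul_pow]
        exact mul_le_mul_of_nonneg_right (pow_le_pow_left₀ (norm_nonneg _) (hM w hw) 4)
          (by positivity)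
    _ = M ^ 4 * ∫ w in K, ‖X i w‖ ^ 4 := integral_const_mul _ _
    _ ≤ _ := mul_le_mul_of_nonneg_left (h1 i) (by positivity)

theorem Dat.Bd.kmul {X : ι → ℂ → ℂ} (hX : D.Bd X) : D.Bd (fun i w => D.κ i * X i w) := by
  refine ⟨fun i => (hX.1 i).cmul _, fun K hK hKV => ?_⟩
  obtain ⟨C1, h1⟩ := hX.2 K hK hKV
  refine ⟨C1, fun i => le_trans ?_ (h1 i)⟩
  refine setIntegral_mono_on (((hX.1 i).cmul _).intOn4 hK)
    ((hX.1 i).intOn4 hK) hK.measurableSet fun w hw => ?_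
  rw [norm_mul, norm_real, Real.norm_of_nonneg (D.κpos i).le]
  refine pow_le_pow_left₀ (mul_nonneg (D.κpos i).le (norm_nonneg _)) ?_ 4
  exact mul_le_of_le_one_left (norm_nonneg _) (D.κle i)

theorem Dat.Bd.cj {X : ι → ℂ → ℂ} (hX : D.Bd X) : D.Bd (fun i w => conj (X i w)) := by
  refine ⟨fun i => (hX.1 i).cj, fun K hK hKV => ?_⟩
  obtain ⟨C1, h1⟩ := hX.2 K hK hKV
  refine ⟨C1, fun i => ?_⟩
  simpa only [RCLike.norm_conj] using h1 i

theorem Dat.Bd.const (c : ℂ) : D.Bd (fun _ _ => c) := by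
  refine ⟨fun i => Sm.const c, fun K _ _ => ⟨∫ _ in K, ‖c‖ ^ 4, fun i => le_rfl⟩⟩

/-- the scaled derivatives -/
def Dat.G (D : Dat ι) (k : ℕ) (i : ι) (w : ℂ) : ℂ := Gk (D.κ i) (D.f i) k w

theorem Dat.G_zero (i : ι) (w : ℂ) : D.G 0 i w = D.f i w := by simp [Dat.G, Gk]

theorem Dat.Bd.G (k : ℕ) : D.Bd (D.G k) := by
  refine ⟨fun i => (D.hf i).gk _ _, fun K hK hKV => ?_⟩
  obtain ⟨K', C, hK', hKV', hC0, hC⟩ := l4_point D.hV hK hKV D.hβ k
  obtain ⟨C1, h1⟩ := D.bd K' hK' hKV'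
  refine ⟨C * C1, fun i => ?_⟩
  exact (hC (D.κ i) (D.f i) (D.κpos i) (D.κle i) (D.hf i) (D.eq i)).trans
    (mul_le_mul_of_nonneg_left (h1 i) hC0)

theorem Dat.der_G (k : ℕ) (i : ι) (w : ℂ) : D.κ i * dz (D.G k i) w = D.G (k + 1) i w := by
  have : dz (D.G k i) w = (D.κ i : ℂ) ^ k * dz (dz^[k] (D.f i)) w :=
    dz_cmul _ ((D.hf i).iter k) w
  rw [this, Dat.G, Gk, Function.iterate_succ_apply']
  ring

variable (D) in
/-- linear combinations of scaled derivatives with smooth coefficients -/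
inductive Dat.Cl : (ι → ℂ → ℂ) → Prop
  | gen (g : ℂ → ℂ) (hg : Sm g) (k : ℕ) : Dat.Cl (fun i w => g w * D.G k i w)
  | add (X Y : ι → ℂ → ℂ) : Dat.Cl X → Dat.Cl Y → Dat.Cl (fun i w => X i w + Y i w)
  | kap (X : ι → ℂ → ℂ) : Dat.Cl X → Dat.Cl (fun i w => D.κ i * X i w)

theorem Dat.Cl.bd {X : ι → ℂ → ℂ} (h : D.Cl X) : D.Bd X := by
  induction h with
  | gen g hg k => exact (Dat.Bd.G k).gmul hg
  | add X Y _ _ h1 h2 => exact h1.add h2
  | kap X _ h1 => exact h1.kmul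

theorem Dat.Cl.der {X : ι → ℂ → ℂ} (h : D.Cl X) : D.Cl (fun i w => D.κ i * dz (X i) w) := by
  induction h with
  | gen g hg k =>
    have e : (fun i w => (D.κ i : ℂ) * dz (fun w => g w * D.G k i w) w) =
        fun i w => (D.κ i * (dz g w * D.G k i w)) + g w * D.G (k + 1) i w := by
      ext i w
      rw [dz_mul hg ((Dat.Bd.G k).1 i), ← Dat.der_G]
      ring
    rw [e]
    exact Dat.Cl.add _ _ (Dat.Cl.kap _ (Dat.Cl.gen _ hg.d k)) (Dat.Cl.gen _ hg (k + 1))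
  | add X Y hX hY h1 h2 =>
    have e : (fun i w => (D.κ i : ℂ) * dz (fun w => X i w + Y i w) w) =
        fun i w => D.κ i * dz (X i) w + D.κ i * dz (Y i) w := by
      ext i w
      rw [dz_add (hX.bd.1 i) (hY.bd.1 i)]
      ring
    rw [e]
    exact Dat.Cl.add _ _ h1 h2
  | kap X hX h1 =>
    have e : (fun i w => (D.κ i : ℂ) * dz (fun w => (D.κ i : ℂ) * X i w) w) =
        fun i w => D.κ i * (D.κ i * dz (X i) w) := by
      ext i w
      rw [dz_cmul _ (hX.bd.1 i)]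
    rw [e]
    exact Dat.Cl.kap _ h1

/-- the lowering relation -/
theorem Dat.lower (k : ℕ) : ∃ E : ι → ℂ → ℂ, D.Cl E ∧ ∀ i, ∀ w ∈ D.V,
    D.κ i * dzb (D.G (k + 1) i) w = -(D.β w * D.G k i w) + D.κ i * E i w := by
  induction k with
  | zero =>
    refine ⟨fun i w => 0 * D.G 0 i w, Dat.Cl.gen (fun _ => 0) (Sm.const 0) 0, fun i w hw => ?_⟩
    have h1 : dzb (D.G 1 i) w = (D.κ i : ℂ) * dzb (dz (D.f i)) w := by
      have : D.G 1 i = fun w => (D.κ i : ℂ) * dz (D.f i) w := by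
        ext u; simp [Dat.G, Gk]
      rw [this, dzb_cmul _ (D.hf i).d]
    have h2 := D.eq i w hw
    rw [zero_add, h1, ← dz_dzb (D.hf i), Dat.G_zero, ← h2]
    ring
  | succ k ih =>
    obtain ⟨E, hE, h⟩ := ih
    refine ⟨fun i w => ((-1 * dz D.β w) * D.G k i w) + D.κ i * dz (E i) w,
      Dat.Cl.add _ _ (Dat.Cl.gen _ (D.hβ.d.cmul (-1)) k) hE.der, fun i w hw => ?_⟩
    have hG := (Dat.Bd.G (D := D) (k + 1)).1 i
    have hG0 := (Dat.Bd.G (D := D) k).1 i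
    have e1 : D.G (k + 1 + 1) i = fun w => (D.κ i : ℂ) * dz (D.G (k + 1) i) w := by
      ext u; exact (Dat.der_G (k + 1) i u).symm
    have hk : (D.κ i : ℂ) ≠ 0 := by exact_mod_cast (D.κpos i).ne'
    have e2 : dz (fun u => (D.κ i : ℂ) * dzb (D.G (k + 1) i) u) w =
        dz (fun u => (-1) * (D.β u * D.G k i u) + D.κ i * E i u) w := by
      apply dz_congr
      filter_upwards [D.hV.mem_nhds hw] with u hu
      rw [h i u hu]
      ring
    rw [dz_cmul _ hG.db, dz_add ((D.hβ.mul hG0).cmul _) ((hE.bd.1 i).cmul _),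
      dz_cmul _ (D.hβ.mul hG0), dz_cmul _ (hE.bd.1 i), dz_mul D.hβ hG0] at e2
    rw [e1, dzb_cmul _ hG.d, ← dz_dzb hG]
    have e3 := Dat.der_G (D := D) k i w
    linear_combination (D.κ i : ℂ) * e2 - D.β w * e3

/-- negative index functions -/
def Dat.Hn (D : Dat ι) (c : ℕ) (i : ι) (w : ℂ) : ℂ := (-1) ^ c * D.γ w ^ c * conj (D.G c i w)

theorem Dat.Bd.Hn (c : ℕ) : D.Bd (D.Hn c) :=
  ((Dat.Bd.G c).cj).gmul ((D.hγ.pow c).cmul _)

theorem Dat.der_Hn (c : ℕ) : ∃ R : ι → ℂ → ℂ, D.Bd R ∧ ∀ i, ∀ w ∈ D.V,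
    D.κ i * dz (D.Hn (c + 1) i) w = D.Hn c i w + D.κ i * R i w := by
  obtain ⟨E, hE, h⟩ := Dat.lower (D := D) c
  refine ⟨fun i w => ((-1) ^ (c + 1) * dz (fun w => D.γ w ^ (c + 1)) w) *
    conj (D.G (c + 1) i w) + ((-1) ^ (c + 1) * D.γ w ^ (c + 1)) * conj (E i w),
    (((Dat.Bd.G (c + 1)).cj).gmul (((D.hγ.pow (c + 1)).d).cmul _)).add
      ((hE.bd.cj).gmul ((D.hγ.pow (c + 1)).cmul _)), fun i w hw => ?_⟩
  have hG := (Dat.Bd.G (D := D) (c + 1)).1 i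
  have e1 : dz (D.Hn (c + 1) i) w = (-1) ^ (c + 1) * dz (fun w => D.γ w ^ (c + 1)) w *
      conj (D.G (c + 1) i w) + (-1) ^ (c + 1) * D.γ w ^ (c + 1) * conj (dzb (D.G (c + 1) i) w) := by
    have : D.Hn (c + 1) i = fun w => ((-1) ^ (c + 1) * D.γ w ^ (c + 1)) *
        conj (D.G (c + 1) i w) := rfl
    rw [this, dz_mul ((D.hγ.pow (c + 1)).cmul _) hG.cj, dz_cmul _ (D.hγ.pow (c + 1)), dz_conj hG]
  have e2 := congrArg conj (h i w hw)
  simp only [map_mul, map_add, map_neg, conj_ofReal, D.βreal] at e2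
  have e3 := D.βγ w
  rw [e1, Dat.Hn]
  have e4 : D.γ w ^ (c + 1) * D.β w = D.γ w ^ c := by
    rw [pow_succ, mul_assoc, mul_comm (D.γ w), e3, mul_one]
  linear_combination ((-1) ^ (c + 1) * D.γ w ^ (c + 1)) * e2 +
    (-1) ^ c * conj (D.G c i w) * e4

/-- functions of all integer indices -/
def Dat.H (D : Dat ι) (a : ℤ) (i : ι) (w : ℂ) : ℂ :=
  if 0 ≤ a then D.G a.toNat i w else D.Hn (-a).toNat i w

theorem Dat.H_nat (k : ℕ) : D.H (k : ℤ) = D.G k := by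
  ext i w
  simp [Dat.H]

theorem Dat.H_neg (c : ℕ) : D.H (-(c : ℤ)) = D.Hn c := by
  ext i w
  rcases Nat.eq_zero_or_pos c with h | h
  · subst h
    simp [Dat.H, Dat.Hn, Dat.G_zero, D.freal]
  · have h1 : ¬ (0 ≤ -(c : ℤ)) := by omega
    have h2 : (- -(c : ℤ)).toNat = c := by simp
    rw [Dat.H, if_neg h1, h2]

theorem Dat.Bd.H (a : ℤ) : D.Bd (D.H a) := by
  obtain ⟨k, rfl | rfl⟩ := a.eq_nat_or_neg
  · rw [Dat.H_nat]; exact Dat.Bd.G k
  · rw [Dat.H_neg]; exact Dat.Bd.Hn k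

/-- `X'` is the scaled derivative of `X` up to a small error -/
def Dat.Der (D : Dat ι) (X X' : ι → ℂ → ℂ) : Prop :=
  ∃ R : ι → ℂ → ℂ, D.Bd R ∧ ∀ i, ∀ w ∈ D.V, D.κ i * dz (X i) w = X' i w + D.κ i * R i w

theorem Dat.der_H (a : ℤ) : D.Der (D.H a) (D.H (a + 1)) := by
  obtain ⟨k, rfl | rfl⟩ := a.eq_nat_or_neg
  · refine ⟨fun _ _ => 0, Dat.Bd.const 0, fun i w _ => ?_⟩
    have e : ((k : ℤ) + 1) = ((k + 1 : ℕ) : ℤ) := by push_cast; rfl
    rw [e, Dat.H_nat, Dat.H_nat, Dat.der_G, mul_zero, add_zero]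
  · rcases Nat.eq_zero_or_pos k with h | h
    · subst h
      refine ⟨fun _ _ => 0, Dat.Bd.const 0, fun i w _ => ?_⟩
      have e0 : (-((0 : ℕ) : ℤ)) = ((0 : ℕ) : ℤ) := by simp
      have e : (((0 : ℕ) : ℤ) + 1) = ((1 : ℕ) : ℤ) := by simp
      rw [e0, e, Dat.H_nat, Dat.H_nat, Dat.der_G, mul_zero, add_zero]
    · obtain ⟨c, rfl⟩ := Nat.exists_eq_succ_of_ne_zero h.ne'
      have e : -((c.succ : ℕ) : ℤ) + 1 = -(c : ℤ) := by push_cast; ring
      rw [e, Dat.H_neg, Dat.H_neg]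
      exact Dat.der_Hn c

theorem Dat.der_const (c : ℂ) : D.Der (fun _ _ => c) (fun _ _ => 0) := by
  refine ⟨fun _ _ => 0, Dat.Bd.const 0, fun i w _ => ?_⟩
  rw [dz_const]
  simp

theorem Dat.conj_H (a : ℤ) (i : ι) (w : ℂ) : conj (D.H a i w) = (-D.β w) ^ a * D.H (-a) i w := by
  have h1 : (-D.β w) ≠ 0 := by
    intro h
    have h2 := D.βγ w
    rw [neg_eq_zero.1 h, zero_mul] at h2
    exact zero_ne_one h2
  have h2 : (-D.β w) * (-D.γ w) = 1 := by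
    have := D.βγ w
    linear_combination this
  obtain ⟨k, rfl | rfl⟩ := a.eq_nat_or_neg
  · rw [Dat.H_nat, Dat.H_neg, Dat.Hn, zpow_natCast]
    have e : (-D.β w) ^ k * ((-1) ^ k * D.γ w ^ k) = 1 := by
      rw [← mul_pow, ← mul_pow, neg_one_mul, h2, one_pow]
    rw [← mul_assoc, e, one_mul]
  · rw [neg_neg, Dat.H_nat, Dat.H_neg, Dat.Hn, zpow_neg, zpow_natCast, map_mul, map_mul, map_pow,
      map_pow, D.γreal, conj_conj, map_neg, map_one, ← mul_pow, neg_one_mul]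
    congr 1
    rw [← inv_pow]
    congr 1
    exact (eq_inv_of_mul_eq_one_right h2)

end

end Pool.Agent.H486.QM
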