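import Pool.Agent.H486.QM.Ell

/-!
# Interior estimates for eigenfunctions
-/

set_option autoImplicit false

open MeasureTheory Complex Filter Topology Set Metric
open scoped ContDiff ComplexConjugate

namespace Pool.Agent.H486.QM

noncomputable section

theorem N2_mono {r r' : ℝ} (h : r ≤ r') {F : ℂ → ℂ} (hF : Sm F) : N2 r F ≤ N2 r' F :=
  setIntegral_mono_set (hF.intOn r') (ae_of_all _ fun _ => sq_nonneg _)
    (ae_of_all _ (ball_subset_ball h))

theorem iter_eqOn {F G : ℂ → ℂ} {V : Set ℂ} (hV : IsOpen V) (h : ∀ w ∈ V, F w = G w) (j : ℕ) :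
    ∀ w ∈ V, (dz^[j] F) w = (dz^[j] G) w := by
  induction j with
  | zero => exact h
  | succ j ih =>
    intro w hw
    rw [Function.iterate_succ_apply', Function.iterate_succ_apply']
    apply dz_congr
    filter_upwards [hV.mem_nhds hw] with u hu
    exact ih u hu

theorem iter_add {F G : ℂ → ℂ} (hF : Sm F) (hG : Sm G) (j : ℕ) (w : ℂ) :
    (dz^[j] (fun w => F w + G w)) w = (dz^[j] F) w + (dz^[j] G) w := by
  induction j generalizing w with
  | zero => rfl
  | succ j ih =>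
    rw [Function.iterate_succ_apply', Function.iterate_succ_apply', Function.iterate_succ_apply']
    have : (dz^[j] (fun w => F w + G w)) = fun w => (dz^[j] F) w + (dz^[j] G) w := funext ih
    rw [this, dz_add (hF.iter j) (hG.iter j)]

theorem iter_cmul {F : ℂ → ℂ} (c : ℂ) (hF : Sm F) (j : ℕ) (w : ℂ) :
    (dz^[j] (fun w => c * F w)) w = c * (dz^[j] F) w := by
  induction j generalizing w with
  | zero => rfl
  | succ j ih =>
    rw [Function.iterate_succ_apply', Function.iterate_succ_apply']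
    have : (dz^[j] (fun w => c * F w)) = fun w => c * (dz^[j] F) w := funext ih
    rw [this, dz_cmul c (hF.iter j)]

theorem dzb_iter {F : ℂ → ℂ} (hF : Sm F) (j : ℕ) : dzb (dz^[j] F) = dz^[j] (dzb F) := by
  induction j with
  | zero => rfl
  | succ j ih =>
    rw [Function.iterate_succ_apply', Function.iterate_succ_apply', ← ih]
    ext w
    exact (dz_dzb (hF.iter j) w).symm

theorem lap_iter {F : ℂ → ℂ} (hF : Sm F) (j : ℕ) :
    dz (dzb (dz^[j] F)) = dz^[j] (dz (dzb F)) := by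
  rw [dzb_iter hF]
  have h1 := Function.iterate_succ_apply' dz j (dzb F)
  have h2 := Function.iterate_succ_apply dz j (dzb F)
  rw [← h1, h2]

theorem leib (M : ℝ) (j : ℕ) : ∀ (b g : ℂ → ℂ), Sm b → Sm g → ∀ w,
    (∀ i ≤ j, ‖(dz^[i] b) w‖ ≤ M) →
    ‖(dz^[j] (fun w => b w * g w)) w‖ ≤ 2 ^ j * M * ∑ i ∈ Finset.range (j + 1), ‖(dz^[i] g) w‖ := by
  induction j with
  | zero =>
    intro b g hb hg w h
    simp only [Function.iterate_zero, id, norm_mul, pow_zero, one_mul, zero_add,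
      Finset.sum_range_one]
    exact mul_le_mul_of_nonneg_right (h 0 le_rfl) (norm_nonneg _)
  | succ j ih =>
    intro b g hb hg w h
    have hM : 0 ≤ M := (norm_nonneg _).trans (h 0 (Nat.zero_le _))
    rw [Function.iterate_succ_apply]
    have e : dz (fun w => b w * g w) = fun w => dz b w * g w + b w * dz g w :=
      funext fun w => dz_mul hb hg w
    rw [e, iter_add (hb.d.mul hg) (hb.mul hg.d)]
    have h1 := ih (dz b) g hb.d hg w (fun i hi => by
      rw [← Function.iterate_succ_apply]; exact h (i + 1) (by omega))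
    have h2 := ih b (dz g) hb hg.d w (fun i hi => h i (by omega))
    have h3 : ∑ i ∈ Finset.range (j + 1), ‖(dz^[i] (dz g)) w‖ ≤
        ∑ i ∈ Finset.range (j + 1 + 1), ‖(dz^[i] g) w‖ := by
      rw [Finset.sum_range_succ' _ (j + 1)]
      simp only [← Function.iterate_succ_apply]
      exact le_add_of_nonneg_right (norm_nonneg _)
    have h4 : ∑ i ∈ Finset.range (j + 1), ‖(dz^[i] g) w‖ ≤
        ∑ i ∈ Finset.range (j + 1 + 1), ‖(dz^[i] g) w‖ := by
      rw [Finset.sum_range_succ _ (j + 1)]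
      exact le_add_of_nonneg_right (norm_nonneg _)
    have hp : (0 : ℝ) ≤ 2 ^ j * M := by positivity
    have h5 := mul_le_mul_of_nonneg_left h3 hp
    have h6 := mul_le_mul_of_nonneg_left h4 hp
    refine (norm_add_le _ _).trans ?_
    rw [pow_succ]
    linarith

/-- sup bound at the centre of a ball -/
theorem sobball {r : ℝ} (hr : 0 < r) : ∃ C : ℝ, 0 ≤ C ∧ ∀ F : ℂ → ℂ, Sm F →
    ‖F 0‖ ^ 2 ≤ C * (N2 r F + N2 r (dz (dzb F))) := by
  obtain ⟨C1, hC1, h1⟩ := cacc (half_pos hr) (half_lt_self hr)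
  have h34 : r / 4 < r / 3 := by linarith
  obtain ⟨χ, hχ, hc, hre, hb1, hone, hz, M, hM0, hMz, hMb, hMm⟩ :=
    exists_cut (by positivity : (0 : ℝ) < r / 4) h34
  refine ⟨4 * Real.pi * (r / 3) ^ 2 * (4 * (M ^ 2 + 2 * M ^ 2 * C1 + 1)), by positivity,
    fun F hF => ?_⟩
  set H : ℂ → ℂ := fun w => χ w * F w with hH
  have hHs : Sm H := hχ.mul hF
  have hHc : HasCompactSupport H := hc.mul_right
  have h0 : ∀ w, w ∉ closedBall (0 : ℂ) (r / 3) → H w = 0 := fun w hw => by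
    simp only [hH, hz w (fun h => hw (ball_subset_closedBall h)), zero_mul]
  have hs := sob (by positivity) hHs hHc h0 0
  have hH0 : H 0 = F 0 := by
    have h0' : (0 : ℂ) ∈ closedBall (0 : ℂ) (r / 4) := mem_closedBall_self (by positivity)
    simp only [hH, hone 0 h0', one_mul]
  rw [hH0] at hs
  have e1 : dzb H = fun w => dzb χ w * F w + χ w * dzb F w := funext fun w => dzb_mul hχ hF w
  have e2 : ∀ w, dz (dzb H) w = dz (dzb χ) w * F w + dzb χ w * dz F w + dz χ w * dzb F w +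
      χ w * dz (dzb F) w := by
    intro w
    rw [e1, dz_add (hχ.db.mul hF) (hχ.mul hF.db), dz_mul hχ.db hF, dz_mul hχ hF.db]
    ring
  have i1 := int_sq (hχ.db.d.mul hF) ((cs_dz (cs_dzb hc)).mul_right (f' := F))
  have i2 := int_sq (hχ.db.mul hF.d) ((cs_dzb hc).mul_right (f' := dz F))
  have i3 := int_sq (hχ.d.mul hF.db) ((cs_dz hc).mul_right (f' := dzb F))
  have i4 := int_sq (hχ.mul hF.db.d) (hc.mul_right (f' := dz (dzb F)))
  have h2 : ∫ w, ‖dz (dzb H) w‖ ^ 2 ≤ ∫ w, (4 * ‖dz (dzb χ) w * F w‖ ^ 2 +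
      4 * ‖dzb χ w * dz F w‖ ^ 2 + 4 * ‖dz χ w * dzb F w‖ ^ 2 +
      4 * ‖χ w * dz (dzb F) w‖ ^ 2) := by
    refine integral_mono_of_nonneg (ae_of_all _ fun _ => sq_nonneg _)
      ((((i1.const_mul _).add (i2.const_mul _)).add (i3.const_mul _)).add (i4.const_mul _))
      (ae_of_all _ fun w => ?_)
    simp only
    rw [e2 w]
    have t1 := norm_add_le (dz (dzb χ) w * F w + dzb χ w * dz F w + dz χ w * dzb F w)
      (χ w * dz (dzb F) w)
    have t2 := norm_add_le (dz (dzb χ) w * F w + dzb χ w * dz F w) (dz χ w * dzb F w)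
    have t3 := norm_add_le (dz (dzb χ) w * F w) (dzb χ w * dz F w)
    set a := ‖dz (dzb χ) w * F w‖
    set b := ‖dzb χ w * dz F w‖
    set c := ‖dz χ w * dzb F w‖
    set d := ‖χ w * dz (dzb F) w‖
    have t4 := norm_nonneg (dz (dzb χ) w * F w + dzb χ w * dz F w + dz χ w * dzb F w +
      χ w * dz (dzb F) w)
    have t5 : ‖dz (dzb χ) w * F w + dzb χ w * dz F w + dz χ w * dzb F w +
      χ w * dz (dzb F) w‖ ≤ a + b + c + d := by linarith
    have t6 := pow_le_pow_left₀ t4 t5 2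
    nlinarith [sq_nonneg (a - b), sq_nonneg (a - c), sq_nonneg (a - d), sq_nonneg (b - c),
      sq_nonneg (b - d), sq_nonneg (c - d)]
  have j1 : Integrable (fun w => 4 * ‖dz (dzb χ) w * F w‖ ^ 2 +
      4 * ‖dzb χ w * dz F w‖ ^ 2) := (i1.const_mul _).add (i2.const_mul _)
  have j2 : Integrable (fun w => 4 * ‖dz (dzb χ) w * F w‖ ^ 2 +
      4 * ‖dzb χ w * dz F w‖ ^ 2 + 4 * ‖dz χ w * dzb F w‖ ^ 2) := j1.add (i3.const_mul _)
  rw [integral_add j2 (i4.const_mul _), integral_add j1 (i3.const_mul _),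
    integral_add (i1.const_mul _) (i2.const_mul _)] at h2
  simp only [integral_const_mul] at h2
  have hsub : closedBall (0 : ℂ) (r / 3) ⊆ ball 0 (r / 2) :=
    closedBall_subset_ball (by linarith)
  have z1 : ∀ w, w ∉ ball (0 : ℂ) (r / 2) → dz χ w = 0 ∧ dzb χ w = 0 := fun w hw =>
    dz_zero_of hz (fun h => hw (hsub h))
  have z2 : ∀ w, w ∉ ball (0 : ℂ) (r / 2) → dz (dzb χ) w = 0 := by
    intro w hw
    have hz' : ∀ w, w ∉ closedBall (0 : ℂ) (r / 3) → dzb χ w = 0 := fun w hw =>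
      (dz_zero_of hz hw).2
    have hn : dzb χ =ᶠ[𝓝 w] fun _ => (0 : ℂ) := by
      filter_upwards [isClosed_closedBall.isOpen_compl.mem_nhds (fun h => hw (hsub h))] with u hu
      exact hz' u hu
    rw [dz_congr hn, dz_const]
  have z3 : ∀ w, w ∉ ball (0 : ℂ) (r / 2) → χ w = 0 := fun w hw =>
    hz w (fun h => hw (hsub (ball_subset_closedBall h)))
  have b1 := int_cut_le hχ.db.d hF hMm z2
  have b2 := int_cut_le hχ.db hF.d hMb (fun w hw => (z1 w hw).2)
  have b3 := int_cut_le hχ.d hF.db hMz (fun w hw => (z1 w hw).1)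
  have b4 := int_cut_le hχ hF.db.d hb1 z3
  obtain ⟨c1, c2⟩ := h1 F hF
  have m1 := N2_mono (half_le_self hr.le) hF
  have m2 := N2_mono (half_le_self hr.le) hF.db.d
  set X := N2 r F
  set Y := N2 r (dz (dzb F))
  have hX : 0 ≤ X := N2_nonneg _ _
  have hY : 0 ≤ Y := N2_nonneg _ _
  have hM2 : 0 ≤ M ^ 2 := sq_nonneg M
  have d1 := mul_le_mul_of_nonneg_left c1 hM2
  have d2 := mul_le_mul_of_nonneg_left c2 hM2
  have d3 := mul_le_mul_of_nonneg_left m1 hM2
  have h5 : ∫ w, ‖dz (dzb H) w‖ ^ 2 ≤ 4 * (M ^ 2 + 2 * M ^ 2 * C1 + 1) * (X + Y) := by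
    have d4 : 0 ≤ M ^ 2 * Y := mul_nonneg hM2 hY
    nlinarith
  have hpr : 0 ≤ 4 * Real.pi * (r / 3) ^ 2 := by positivity
  have h6 := mul_le_mul_of_nonneg_left h5 hpr
  linarith

/-- admissible pairs on a ball: `b` bounded with its derivatives and `g` solves the equation -/
structure Ad (m : ℕ) (δ M : ℝ) (b g : ℂ → ℂ) : Prop where
  hb : Sm b
  hg : Sm g
  bd : ∀ i ≤ m, ∀ w ∈ ball (0 : ℂ) δ, ‖(dz^[i] b) w‖ ≤ M
  eq : ∀ w ∈ ball (0 : ℂ) δ, dz (dzb g) w = -(b w * g w)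

theorem Ad.lap {m : ℕ} {δ M : ℝ} {b g : ℂ → ℂ} (h : Ad m δ M b g) {j : ℕ} (hj : j ≤ m) {w : ℂ}
    (hw : w ∈ ball (0 : ℂ) δ) : ‖dz (dzb (dz^[j] g)) w‖ ^ 2 ≤
      (2 ^ j * M) ^ 2 * ((j + 1) * ∑ i ∈ Finset.range (j + 1), ‖(dz^[i] g) w‖ ^ 2) := by
  rw [lap_iter h.hg]
  have e : (dz^[j] (dz (dzb g))) w = (dz^[j] (fun w => (-1) * (b w * g w))) w :=
    iter_eqOn isOpen_ball (fun u hu => by rw [h.eq u hu]; ring) j w hw
  rw [e, iter_cmul _ (h.hb.mul h.hg), norm_mul, norm_neg, norm_one, one_mul]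
  have h1 := leib M j b g h.hb h.hg w (fun i hi => h.bd i (hi.trans hj) w hw)
  have h2 := pow_le_pow_left₀ (norm_nonneg _) h1 2
  refine h2.trans ?_
  rw [mul_pow]
  refine mul_le_mul_of_nonneg_left ?_ (sq_nonneg _)
  have h3 := sq_sum_le_card_mul_sum_sq (s := Finset.range (j + 1))
    (f := fun i => ‖(dz^[i] g) w‖)
  simpa using h3

theorem ellE {δ M : ℝ} (j : ℕ) : ∀ r, 0 < r → r < δ → ∃ C : ℝ, 0 ≤ C ∧
    ∀ b g, Ad j δ M b g → ∀ i ≤ j, N2 r (dz^[i] g) ≤ C * N2 δ g := by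
  induction j with
  | zero =>
    intro r h0 h1
    refine ⟨1, zero_le_one, fun b g h i hi => ?_⟩
    obtain rfl : i = 0 := by omega
    rw [one_mul]
    exact N2_mono h1.le h.hg
  | succ j ih =>
    intro r h0 h1
    obtain ⟨r', hr1, hr2⟩ := exists_between h1
    obtain ⟨C1, hC1, H1⟩ := cacc h0 hr1
    obtain ⟨C2, hC2, H2⟩ := ih r h0 h1
    obtain ⟨C3, hC3, H3⟩ := ih r' (h0.trans hr1) hr2
    refine ⟨C2 + C1 * (C3 + (2 ^ j * M) ^ 2 * ((j + 1) * ((j + 1) * C3))), by positivity,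
      fun b g h i hi => ?_⟩
    have hA : Ad j δ M b g := ⟨h.hb, h.hg, fun i hi => h.bd i (by omega), h.eq⟩
    have hN := N2_nonneg δ g
    rcases Nat.lt_or_ge i (j + 1) with hi' | hi'
    · have a1 := H2 b g hA i (by omega)
      have a2 : 0 ≤ C1 * (C3 + (2 ^ j * M) ^ 2 * ((j + 1) * ((j + 1) * C3))) * N2 δ g := by
        positivity
      rw [add_mul]
      linarith
    · obtain rfl : i = j + 1 := by omega
      rw [Function.iterate_succ_apply']
      have a1 := (H1 _ (h.hg.iter j)).1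
      have a2 := H3 b g hA j le_rfl
      have a3 : N2 r' (dz (dzb (dz^[j] g))) ≤
          (2 ^ j * M) ^ 2 * ((j + 1) * ∑ i ∈ Finset.range (j + 1), N2 r' (dz^[i] g)) := by
        have e : (2 ^ j * M) ^ 2 * ((j + 1) * ∑ i ∈ Finset.range (j + 1), N2 r' (dz^[i] g)) =
            ∫ w in ball (0 : ℂ) r', (2 ^ j * M) ^ 2 *
              ((j + 1) * ∑ i ∈ Finset.range (j + 1), ‖(dz^[i] g) w‖ ^ 2) := by
          rw [integral_const_mul, integral_const_mul, integral_finsetSum]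
          · rfl
          · intro i _
            exact (h.hg.iter i).intOn r'
        rw [e]
        refine setIntegral_mono_on ((h.hg.iter j).db.d.intOn r') ?_ measurableSet_ball
          fun w hw => hA.lap le_rfl (ball_subset_ball hr2.le hw)
        refine Integrable.const_mul (Integrable.const_mul ?_ _) _
        exact integrable_finsetSum _ fun i _ => (h.hg.iter i).intOn r'
      have a4 : ∑ i ∈ Finset.range (j + 1), N2 r' (dz^[i] g) ≤ (j + 1) * (C3 * N2 δ g) := by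
        have : ∑ i ∈ Finset.range (j + 1), N2 r' (dz^[i] g) ≤
            ∑ i ∈ Finset.range (j + 1), C3 * N2 δ g :=
          Finset.sum_le_sum fun i hi => H3 b g hA i (by
            have := Finset.mem_range.1 hi; omega)
        simpa using this
      have hp : 0 ≤ (2 ^ j * M) ^ 2 * ((j : ℝ) + 1) := by positivity
      have a5 := mul_le_mul_of_nonneg_left a4 hp
      have a6 : N2 r' (dz^[j] g) + N2 r' (dz (dzb (dz^[j] g))) ≤
          (C3 + (2 ^ j * M) ^ 2 * ((j + 1) * ((j + 1) * C3))) * N2 δ g := by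
        nlinarith
      have a7 := mul_le_mul_of_nonneg_left a6 hC1
      have a8 : 0 ≤ C2 * N2 δ g := mul_nonneg hC2 hN
      nlinarith

/-- interior estimate for all derivatives of an eigenfunction -/
theorem ell (m : ℕ) {δ M : ℝ} (hδ : 0 < δ) : ∃ C : ℝ, 0 ≤ C ∧
    ∀ b g, Ad m δ M b g → ‖(dz^[m] g) 0‖ ^ 2 ≤ C * N2 δ g := by
  obtain ⟨C1, hC1, H1⟩ := ellE (δ := δ) (M := M) m (δ / 2) (half_pos hδ) (half_lt_self hδ)
  obtain ⟨C2, hC2, H2⟩ := sobball (half_pos hδ)
  refine ⟨C2 * (C1 + (2 ^ m * M) ^ 2 * ((m + 1) * ((m + 1) * C1))), by positivity,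
    fun b g h => ?_⟩
  have a1 := H2 _ (h.hg.iter m)
  have a2 := H1 b g h m le_rfl
  have a3 : N2 (δ / 2) (dz (dzb (dz^[m] g))) ≤
      (2 ^ m * M) ^ 2 * ((m + 1) * ∑ i ∈ Finset.range (m + 1), N2 (δ / 2) (dz^[i] g)) := by
    have e : (2 ^ m * M) ^ 2 * ((m + 1) * ∑ i ∈ Finset.range (m + 1), N2 (δ / 2) (dz^[i] g)) =
        ∫ w in ball (0 : ℂ) (δ / 2), (2 ^ m * M) ^ 2 *
          ((m + 1) * ∑ i ∈ Finset.range (m + 1), ‖(dz^[i] g) w‖ ^ 2) := by
      rw [integral_const_mul, integral_const_mul, integral_finsetSum]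
      · rfl
      · intro i _
        exact (h.hg.iter i).intOn (δ / 2)
    rw [e]
    refine setIntegral_mono_on ((h.hg.iter m).db.d.intOn (δ / 2)) ?_ measurableSet_ball
      fun w hw => h.lap le_rfl (ball_subset_ball (half_le_self hδ.le) hw)
    refine Integrable.const_mul (Integrable.const_mul ?_ _) _
    exact integrable_finsetSum _ fun i _ => (h.hg.iter i).intOn (δ / 2)
  have a4 : ∑ i ∈ Finset.range (m + 1), N2 (δ / 2) (dz^[i] g) ≤ (m + 1) * (C1 * N2 δ g) := by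
    have : ∑ i ∈ Finset.range (m + 1), N2 (δ / 2) (dz^[i] g) ≤
        ∑ i ∈ Finset.range (m + 1), C1 * N2 δ g :=
      Finset.sum_le_sum fun i hi => H1 b g h i (by
        have := Finset.mem_range.1 hi; omega)
    simpa using this
  have hp : 0 ≤ (2 ^ m * M) ^ 2 * ((m : ℝ) + 1) := by positivity
  have a5 := mul_le_mul_of_nonneg_left a4 hp
  have a6 : N2 (δ / 2) (dz^[m] g) + N2 (δ / 2) (dz (dzb (dz^[m] g))) ≤
      (C1 + (2 ^ m * M) ^ 2 * ((m + 1) * ((m + 1) * C1))) * N2 δ g := by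
    nlinarith
  have a7 := mul_le_mul_of_nonneg_left a6 hC2
  nlinarith

end

end Pool.Agent.H486.QM
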