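import Pool.Agent.H486.QM.Ibp

/-!
# Interior estimates
-/

set_option autoImplicit false

open MeasureTheory Complex Filter Topology Set Metric
open scoped ContDiff ComplexConjugate

namespace Pool.Agent.H486.QM

noncomputable section

/-- square of a mean -/
theorem sq_int_le {α : Type*} [MeasurableSpace α] (μ : Measure α) [IsFiniteMeasure μ] (g : α → ℝ)
    (h1 : Integrable g μ) (h2 : Integrable (fun x => g x ^ 2) μ) :
    (∫ x, g x ∂μ) ^ 2 ≤ μ.real univ * ∫ x, g x ^ 2 ∂μ := by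
  set V := μ.real univ with hV
  set m := ∫ x, g x ∂μ with hm
  have hV0 : 0 ≤ V := measureReal_nonneg
  have h0 : 0 ≤ ∫ x, (V * g x - m) ^ 2 ∂μ := integral_nonneg fun x => sq_nonneg _
  have e : ∫ x, (V * g x - m) ^ 2 ∂μ = V ^ 2 * (∫ x, g x ^ 2 ∂μ) - V * m ^ 2 := by
    have e1 : ∀ x, (V * g x - m) ^ 2 = V ^ 2 * g x ^ 2 - 2 * V * m * g x + m ^ 2 := by
      intro x; ring
    simp only [e1]
    have j1 : Integrable (fun x => V ^ 2 * g x ^ 2 - 2 * V * m * g x) μ :=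
      (h2.const_mul _).sub (h1.const_mul _)
    rw [integral_add j1 (integrable_const _),
      integral_sub (h2.const_mul _) (h1.const_mul _), integral_const_mul, integral_const_mul,
      integral_const, ← hm, ← hV, smul_eq_mul]
    ring
  rw [e] at h0
  rcases hV0.eq_or_lt with h | h
  · have : μ = 0 := by
      have h3 : μ.real univ = 0 := by rw [← hV, ← h]
      have h4 : μ univ = 0 := by
        rwa [measureReal_eq_zero_iff] at h3
      exact Measure.measure_univ_eq_zero.1 h4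
    rw [hm, this]
    simp
  · have : 0 ≤ V * (V * (∫ x, g x ^ 2 ∂μ) - m ^ 2) := by
      calc (0 : ℝ) ≤ _ := h0
        _ = _ := by ring
    have := nonneg_of_mul_nonneg_right this h
    linarith

/-- local energy -/
def N2 (r : ℝ) (F : ℂ → ℂ) : ℝ := ∫ w in ball (0 : ℂ) r, ‖F w‖ ^ 2

theorem N2_nonneg (r : ℝ) (F : ℂ → ℂ) : 0 ≤ N2 r F := integral_nonneg fun _ => sq_nonneg _

theorem Sm.intOn {F : ℂ → ℂ} (hF : Sm F) (r : ℝ) :
    IntegrableOn (fun w => ‖F w‖ ^ 2) (ball (0 : ℂ) r) :=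
  ((hF.cont.norm.pow 2).continuousOn.integrableOn_compact (isCompact_closedBall 0 r)).mono_set
    ball_subset_closedBall

/-- a cutoff function -/
theorem exists_cut {r r' : ℝ} (h0 : 0 < r) (h : r < r') : ∃ χ : ℂ → ℂ, Sm χ ∧
    HasCompactSupport χ ∧ (∀ w, conj (χ w) = χ w) ∧ (∀ w, ‖χ w‖ ≤ 1) ∧
    (∀ w ∈ closedBall (0 : ℂ) r, χ w = 1) ∧ (∀ w, w ∉ ball (0 : ℂ) r' → χ w = 0) ∧
    ∃ M : ℝ, 0 ≤ M ∧ (∀ w, ‖dz χ w‖ ≤ M) ∧ (∀ w, ‖dzb χ w‖ ≤ M) ∧
      ∀ w, ‖dz (dzb χ) w‖ ≤ M := by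
  let φ : ContDiffBump (0 : ℂ) := ⟨r, r', h0, h⟩
  have hs : Sm (fun w => ((φ w : ℝ) : ℂ)) :=
    ofRealCLM.contDiff.comp φ.contDiff
  have hc : HasCompactSupport (fun w => ((φ w : ℝ) : ℂ)) :=
    φ.hasCompactSupport.comp_left (g := fun x : ℝ => (x : ℂ)) (by simp)
  refine ⟨fun w => ((φ w : ℝ) : ℂ), hs, hc, fun w => conj_ofReal _, ?_, ?_, ?_, ?_⟩
  · intro w
    rw [norm_real, Real.norm_of_nonneg φ.nonneg]
    exact φ.le_one
  · intro w hw
    have h1 := φ.one_of_mem_closedBall hw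
    simp only [h1, ofReal_one]
  · intro w hw
    have h1 : w ∉ Function.support φ := by
      rw [φ.support_eq]; exact hw
    have h2 := Function.notMem_support.1 h1
    simp only [h2, ofReal_zero]
  · obtain ⟨M1, h1⟩ := (cs_dz hc).exists_bound_of_continuous hs.d.cont
    obtain ⟨M2, h2⟩ := (cs_dzb hc).exists_bound_of_continuous hs.db.cont
    obtain ⟨M3, h3⟩ := (cs_dz (cs_dzb hc)).exists_bound_of_continuous hs.db.d.cont
    refine ⟨max M1 (max M2 M3), ?_, fun w => (h1 w).trans (le_max_left _ _),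
      fun w => (h2 w).trans ((le_max_left _ _).trans (le_max_right _ _)),
      fun w => (h3 w).trans ((le_max_right _ _).trans (le_max_right _ _))⟩
    exact ((norm_nonneg _).trans (h1 0)).trans (le_max_left _ _)

/-- energy of a product with a cutoff -/
theorem int_cut_le {χ F : ℂ → ℂ} {r' M : ℝ} (hχ : Sm χ) (hF : Sm F)
    (hM : ∀ w, ‖χ w‖ ≤ M) (h0 : ∀ w, w ∉ ball (0 : ℂ) r' → χ w = 0) :
    ∫ w, ‖χ w * F w‖ ^ 2 ≤ M ^ 2 * N2 r' F := by
  have e : ∫ w, ‖χ w * F w‖ ^ 2 = ∫ w in ball (0 : ℂ) r', ‖χ w * F w‖ ^ 2 := by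
    rw [← integral_indicator measurableSet_ball]
    refine integral_congr_ae (ae_of_all _ fun w => ?_)
    by_cases hw : w ∈ ball (0 : ℂ) r'
    · simp only [indicator_of_mem hw]
    · simp only [indicator_of_notMem hw, h0 w hw]
      simp
  rw [e, N2, ← integral_const_mul]
  refine setIntegral_mono_on ((hχ.mul hF).intOn r') ((hF.intOn r').const_mul _)
    measurableSet_ball fun w _ => ?_
  rw [norm_mul, mul_pow]
  exact mul_le_mul_of_nonneg_right (pow_le_pow_left₀ (norm_nonneg _) (hM w) 2) (sq_nonneg _)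

theorem N2_le_cut {χ F : ℂ → ℂ} {r : ℝ} (hχ : Sm χ) (hc : HasCompactSupport χ) (hF : Sm F)
    (h1 : ∀ w ∈ closedBall (0 : ℂ) r, χ w = 1) :
    N2 r F ≤ ∫ w, ‖χ w * F w‖ ^ 2 := by
  have hi : Integrable (fun w => ‖χ w * F w‖ ^ 2) := int_sq (hχ.mul hF) (hc.mul_right)
  calc N2 r F = ∫ w in ball (0 : ℂ) r, ‖χ w * F w‖ ^ 2 := by
        refine setIntegral_congr_fun measurableSet_ball fun w hw => ?_
        simp only [h1 w (ball_subset_closedBall hw), one_mul]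
    _ ≤ ∫ w, ‖χ w * F w‖ ^ 2 :=
        setIntegral_le_integral hi (ae_of_all _ fun w => sq_nonneg _)

theorem dz_zero_of {χ : ℂ → ℂ} {r' : ℝ} (h0 : ∀ w, w ∉ ball (0 : ℂ) r' → χ w = 0) {w : ℂ}
    (hw : w ∉ closedBall (0 : ℂ) r') : dz χ w = 0 ∧ dzb χ w = 0 := by
  have h : χ =ᶠ[𝓝 w] fun _ => (0 : ℂ) := by
    filter_upwards [isClosed_closedBall.isOpen_compl.mem_nhds hw] with u hu
    exact h0 u (fun h => hu (ball_subset_closedBall h))
  exact ⟨by rw [dz_congr h, dz_const], by rw [dzb_congr h, dzb_const]⟩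

/-- Caccioppoli estimate for a single cutoff -/
theorem cacc1 {χ F : ℂ → ℂ} (hχ : Sm χ) (hc : HasCompactSupport χ)
    (hr : ∀ w, conj (χ w) = χ w) (hF : Sm F) :
    ∫ w, ‖χ w * dz F w‖ ^ 2 ≤ (∫ w, ‖χ w * F w‖ ^ 2) + (∫ w, ‖χ w * dz (dzb F) w‖ ^ 2) +
      4 * ∫ w, ‖dz χ w * F w‖ ^ 2 := by
  set A : ℂ → ℂ := fun w => χ w * (χ w * conj (dz F w)) with hA
  have hAs : Sm A := hχ.mul (hχ.mul hF.d.cj)
  have hAc : HasCompactSupport A := hc.mul_right
  have h := ibp_dz hAs hF hAc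
  have e1 : ∀ w, A w * dz F w = ((‖χ w * dz F w‖ ^ 2 : ℝ) : ℂ) := by
    intro w
    rw [sq_eq, map_mul, hr]
    simp only [hA]
    ring
  have e2 : ∀ w, dz A w * F w = χ w * conj (dz (dzb F) w) * (χ w * F w) +
      2 * (χ w * conj (dz F w)) * (dz χ w * F w) := by
    intro w
    simp only [hA]
    rw [dz_mul hχ (hχ.mul hF.d.cj), dz_mul hχ hF.d.cj, dz_conj hF.d, dz_dzb hF]
    ring
  have i1 := int_sq (hχ.mul hF) (hc.mul_right (f' := F))
  have i2 := int_sq (hχ.mul hF.db.d) (hc.mul_right (f' := dz (dzb F)))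
  have i3 := int_sq (hχ.d.mul hF) ((cs_dz hc).mul_right (f' := F))
  have i4 := int_sq (hχ.mul hF.d) (hc.mul_right (f' := dz F))
  have h2 : ((∫ w, ‖χ w * dz F w‖ ^ 2 : ℝ) : ℂ) = - ∫ w, dz A w * F w := by
    rw [← h, ← integral_complex_ofReal]
    exact integral_congr_ae (ae_of_all _ fun w => (e1 w).symm)
  have h3 : ∫ w, ‖χ w * dz F w‖ ^ 2 ≤ ∫ w, ‖dz A w * F w‖ := by
    have h4 : |∫ w, ‖χ w * dz F w‖ ^ 2| = ‖∫ w, dz A w * F w‖ := by
      rw [← Real.norm_eq_abs, ← norm_real, h2, norm_neg]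
    exact (le_abs_self _).trans (h4.le.trans (norm_integral_le_integral_norm _))
  have h5 : ∀ w, ‖dz A w * F w‖ ≤ (1 / 2) * ‖χ w * dz (dzb F) w‖ ^ 2 +
      (1 / 2) * ‖χ w * F w‖ ^ 2 + (1 / 2) * ‖χ w * dz F w‖ ^ 2 + 2 * ‖dz χ w * F w‖ ^ 2 := by
    intro w
    rw [e2 w]
    refine (norm_add_le _ _).trans ?_
    have n1 : ‖χ w * conj (dz (dzb F) w) * (χ w * F w)‖ = ‖χ w * dz (dzb F) w‖ * ‖χ w * F w‖ := by
      simp only [norm_mul, RCLike.norm_conj]
    have n2 : ‖2 * (χ w * conj (dz F w)) * (dz χ w * F w)‖ =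
        2 * (‖χ w * dz F w‖ * ‖dz χ w * F w‖) := by
      simp only [norm_mul, RCLike.norm_conj, Complex.norm_ofNat]
      ring
    rw [n1, n2]
    nlinarith [sq_nonneg (‖χ w * dz (dzb F) w‖ - ‖χ w * F w‖),
      sq_nonneg (‖χ w * dz F w‖ - 2 * ‖dz χ w * F w‖)]
  have h6 : ∫ w, ‖dz A w * F w‖ ≤ ∫ w, ((1 / 2) * ‖χ w * dz (dzb F) w‖ ^ 2 +
      (1 / 2) * ‖χ w * F w‖ ^ 2 + (1 / 2) * ‖χ w * dz F w‖ ^ 2 + 2 * ‖dz χ w * F w‖ ^ 2) := by
    refine integral_mono_of_nonneg (ae_of_all _ fun _ => norm_nonneg _) ?_ (ae_of_all _ h5)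
    exact (((i2.const_mul _).add (i1.const_mul _)).add (i4.const_mul _)).add (i3.const_mul _)
  have j1 : Integrable (fun w => (1 / 2) * ‖χ w * dz (dzb F) w‖ ^ 2 +
      (1 / 2) * ‖χ w * F w‖ ^ 2) := (i2.const_mul _).add (i1.const_mul _)
  have j2 : Integrable (fun w => (1 / 2) * ‖χ w * dz (dzb F) w‖ ^ 2 +
      (1 / 2) * ‖χ w * F w‖ ^ 2 + (1 / 2) * ‖χ w * dz F w‖ ^ 2) := j1.add (i4.const_mul _)
  rw [integral_add j2 (i3.const_mul _), integral_add j1 (i4.const_mul _),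
    integral_add (i2.const_mul _) (i1.const_mul _)] at h6
  simp only [integral_const_mul] at h6
  linarith

/-- Caccioppoli estimate -/
theorem cacc {r r' : ℝ} (h0 : 0 < r) (h : r < r') : ∃ C : ℝ, 0 ≤ C ∧ ∀ F : ℂ → ℂ, Sm F →
    N2 r (dz F) ≤ C * (N2 r' F + N2 r' (dz (dzb F))) ∧
    N2 r (dzb F) ≤ C * (N2 r' F + N2 r' (dz (dzb F))) := by
  obtain ⟨r1, hr1, hr2⟩ := exists_between h
  obtain ⟨χ, hχ, hc, hr, h1, h2, h3, M, hM0, hM1, -, -⟩ := exists_cut h0 hr1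
  have key : ∀ F : ℂ → ℂ, Sm F →
      N2 r (dz F) ≤ (1 + 4 * M ^ 2) * (N2 r' F + N2 r' (dz (dzb F))) := by
    intro F hF
    have a1 := N2_le_cut hχ hc hF.d h2
    have a2 := cacc1 hχ hc hr hF
    have h3' : ∀ w, w ∉ ball (0 : ℂ) r' → χ w = 0 := fun w hw =>
      h3 w (fun h' => hw (ball_subset_ball hr2.le h'))
    have a3 := int_cut_le hχ hF h1 h3'
    have a4 := int_cut_le hχ hF.db.d h1 h3'
    have a5 := int_cut_le (χ := dz χ) (F := F) (r' := r') (M := M) hχ.d hF hM1 (fun w hw =>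
      (dz_zero_of h3 (fun h' => hw (closedBall_subset_ball hr2 h'))).1)
    have n1 := N2_nonneg r' F
    have n2 := N2_nonneg r' (dz (dzb F))
    nlinarith [sq_nonneg M, mul_nonneg (sq_nonneg M) n2]
  refine ⟨1 + 4 * M ^ 2, by positivity, fun F hF => ⟨key F hF, ?_⟩⟩
  have k := key _ hF.cj
  have e1 : N2 r (dz (fun w => conj (F w))) = N2 r (dzb F) := by
    simp only [N2, dz_conj hF, RCLike.norm_conj]
  have e2 : N2 r' (fun w => conj (F w)) = N2 r' F := by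
    simp only [N2, RCLike.norm_conj]
  have e3 : N2 r' (dz (dzb (fun w => conj (F w)))) = N2 r' (dz (dzb F)) := by
    have : ∀ w, dz (dzb (fun w => conj (F w))) w = conj (dz (dzb F) w) := by
      intro w
      have h4 : dzb (fun w => conj (F w)) = fun w => conj (dz F w) := by
        ext u; exact dzb_conj hF u
      rw [h4, dz_conj hF.d, dz_dzb hF]
    simp only [N2, this, RCLike.norm_conj]
  rw [e1, e2, e3] at k
  exact k

/-- sup bound for test functions supported in a ball -/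
theorem sob {H : ℂ → ℂ} {r : ℝ} (hr : 0 < r) (hH : Sm H) (hc : HasCompactSupport H)
    (h0 : ∀ w, w ∉ closedBall (0 : ℂ) r → H w = 0) (z : ℂ) :
    ‖H z‖ ^ 2 ≤ 4 * Real.pi * r ^ 2 * ∫ w, ‖dz (dzb H) w‖ ^ 2 := by
  have h1 := le_int_mixed hH hc z
  set X : ℂ → ℂ := fun w => fderiv ℝ (fun u => fderiv ℝ H u 1) w I with hX
  have hXs : Sm X := (hH.fd 1).fd I
  have hXc : HasCompactSupport X := cs_fd (cs_fd hc 1) I
  have e0 : ∀ w, w ∉ closedBall (0 : ℂ) r → X w = 0 := by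
    intro w hw
    have hn : H =ᶠ[𝓝 w] fun _ => (0 : ℂ) := by
      filter_upwards [isClosed_closedBall.isOpen_compl.mem_nhds hw] with u hu
      exact h0 u hu
    have hn2 : (fun u => fderiv ℝ H u 1) =ᶠ[𝓝 w] fun _ => (0 : ℂ) := by
      filter_upwards [hn.fderiv (𝕜 := ℝ)] with u hu
      rw [hu]; simp
    simp only [hX]
    rw [hn2.fderiv_eq]
    simp
  have e1 : ∫ w, ‖X w‖ = ∫ w in closedBall (0 : ℂ) r, ‖X w‖ := by
    rw [← integral_indicator measurableSet_closedBall]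
    refine integral_congr_ae (ae_of_all _ fun w => ?_)
    by_cases hw : w ∈ closedBall (0 : ℂ) r
    · simp only [indicator_of_mem hw]
    · simp only [indicator_of_notMem hw, e0 w hw]
      simp
  have hXi := int_sq hXs hXc
  have hXn : Integrable (fun w => ‖X w‖) := (hXs.int hXc).norm
  have : IsFiniteMeasure (volume.restrict (closedBall (0 : ℂ) r)) :=
    ⟨by rw [Measure.restrict_apply_univ]; exact measure_closedBall_lt_top⟩
  have h2 := sq_int_le (volume.restrict (closedBall (0 : ℂ) r)) (fun w => ‖X w‖) hXn.restrict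
    hXi.restrict
  have hv : (volume.restrict (closedBall (0 : ℂ) r)).real univ = Real.pi * r ^ 2 := by
    rw [measureReal_restrict_apply MeasurableSet.univ, univ_inter, measureReal_def,
      Complex.volume_closedBall]
    rw [ENNReal.toReal_mul, ENNReal.toReal_pow, ENNReal.toReal_ofReal hr.le]
    simp only [ENNReal.coe_toReal, NNReal.coe_real_pi]
    ring
  rw [hv, ← e1] at h2
  have h3 : ∫ w in closedBall (0 : ℂ) r, ‖X w‖ ^ 2 ≤ ∫ w, ‖X w‖ ^ 2 :=
    setIntegral_le_integral hXi (ae_of_all _ fun _ => sq_nonneg _)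
  have hexp : ∀ w, X w = I * (dz (dz H) w - dzb (dzb H) w) := by
    intro w
    have f1 : ∀ v, fderiv ℝ (dz H) w v = (fderiv ℝ (fun z => fderiv ℝ H z 1) w v -
        I * fderiv ℝ (fun z => fderiv ℝ H z I) w v) / 2 := by
      intro v
      have h1 := ((hH.fd 1).diff w).hasFDerivAt
      have h2 := ((hH.fd I).diff w).hasFDerivAt
      have h3 := ((h1.sub (h2.const_mul I)).mul_const (2⁻¹ : ℂ)).fderiv
      have h4 : fderiv ℝ (dz H) w = fderiv ℝ (fun y => ((fun w => (fderiv ℝ H w) 1) -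
          fun y => I * (fderiv ℝ H y) I) y * 2⁻¹) w := by
        congr 1
      rw [h4, h3]
      simp [div_eq_mul_inv]
      ring
    have f2 : ∀ v, fderiv ℝ (dzb H) w v = (fderiv ℝ (fun z => fderiv ℝ H z 1) w v +
        I * fderiv ℝ (fun z => fderiv ℝ H z I) w v) / 2 := by
      intro v
      have h1 := ((hH.fd 1).diff w).hasFDerivAt
      have h2 := ((hH.fd I).diff w).hasFDerivAt
      have h3 := ((h1.add (h2.const_mul I)).mul_const (2⁻¹ : ℂ)).fderiv
      have h4 : fderiv ℝ (dzb H) w = fderiv ℝ (fun y => ((fun w => (fderiv ℝ H w) 1) +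
          fun y => I * (fderiv ℝ H y) I) y * 2⁻¹) w := by
        congr 1
      rw [h4, h3]
      simp [div_eq_mul_inv]
      ring
    have f3 := fderiv_symm hH w 1 I
    have I2 : I * I = -1 := I_mul_I
    simp only [hX, dz, dzb] at *
    rw [f1, f1, f2, f2, ← f3]
    linear_combination (fderiv ℝ (fun z => fderiv ℝ H z 1) w I) * I2
  have i1 := int_sq hH.d.d (cs_dz (cs_dz hc))
  have i2 := int_sq hH.db.db (cs_dzb (cs_dzb hc))
  have h4 : ∫ w, ‖X w‖ ^ 2 ≤ ∫ w, (2 * ‖dz (dz H) w‖ ^ 2 + 2 * ‖dzb (dzb H) w‖ ^ 2) := by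
    refine integral_mono_of_nonneg (ae_of_all _ fun _ => sq_nonneg _)
      ((i1.const_mul _).add (i2.const_mul _)) (ae_of_all _ fun w => ?_)
    simp only
    rw [hexp w, norm_mul, norm_I, one_mul]
    have h5 := norm_sub_le (dz (dz H) w) (dzb (dzb H) w)
    have h6 := norm_nonneg (dz (dz H) w - dzb (dzb H) w)
    nlinarith [sq_nonneg (‖dz (dz H) w‖ - ‖dzb (dzb H) w‖)]
  rw [integral_add (i1.const_mul _) (i2.const_mul _), integral_const_mul, integral_const_mul,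
    energy_eq hH.d (cs_dz hc), ← energy_eq hH.db (cs_dzb hc)] at h4
  have e5 : ∀ w, dzb (dz H) w = dz (dzb H) w := fun w => (dz_dzb hH w).symm
  simp only [e5] at h4
  have hpi := Real.pi_pos
  have hz : ‖H z‖ ^ 2 ≤ (∫ w, ‖X w‖) ^ 2 := pow_le_pow_left₀ (norm_nonneg _) h1 2
  have hpr : 0 < Real.pi * r ^ 2 := by positivity
  calc ‖H z‖ ^ 2 ≤ Real.pi * r ^ 2 * ∫ w in closedBall (0 : ℂ) r, ‖X w‖ ^ 2 := hz.trans h2
    _ ≤ Real.pi * r ^ 2 * (4 * ∫ w, ‖dz (dzb H) w‖ ^ 2) :=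
        mul_le_mul_of_nonneg_left (by linarith) hpr.le
    _ = _ := by ring

end

end Pool.Agent.H486.QM
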