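import Pool.Agent.H486.QM.Ineq

/-!
# Positivity and the fourth moment inequality
-/

set_option autoImplicit false

open MeasureTheory Complex Filter Topology Set Metric
open scoped ContDiff ComplexConjugate

namespace Pool.Agent.H486.QM

noncomputable section

universe u

variable {ι : Type u} {D : Dat ι}

/-- constant family -/
def one1 (ι : Type u) : ι → ℂ → ℂ := fun _ _ => 1

theorem q2_zero {χ : ℂ → ℂ} (i : ι) : q4 χ (D.H 0) (D.H 0) (one1 ι) (one1 ι) i =
    ∫ w, χ w * (D.f i w * D.f i w) := by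
  have e : D.H 0 = D.G 0 := Dat.H_nat 0
  rw [q4, e]
  refine integral_congr_ae (ae_of_all _ fun w => ?_)
  simp only [one1, Dat.G_zero, mul_one]

theorem q2_lim {𝒰 : Filter ι} [NeBot 𝒰] (hκ : Tendsto D.κ 𝒰 (𝓝 0)) {L : ℕ} (hE : D.Equi 𝒰 L)
    {χ : ℂ → ℂ} (hχ : D.Te χ) (j : ℕ) :
    Tendsto (q4 χ (D.H j) (D.H (-j)) (one1 ι) (one1 ι)) 𝒰 (𝓝 ((-1) ^ j * ∫ w, χ w)) := by
  induction j with
  | zero =>
    have h := hE.zero χ hχ
    simp only [Nat.cast_zero, neg_zero, pow_zero, one_mul]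
    refine h.congr fun i => (q2_zero i).symm
  | succ j ih =>
    have h1 := raise_lim hκ hχ (Dat.Bd.H (j : ℤ)) (Dat.Bd.H (-j - 1 : ℤ)) (Dat.Bd.const 1)
      (Dat.Bd.const 1) (Dat.Bd.H (j + 1 : ℤ)) (Dat.Bd.H (-j - 1 + 1 : ℤ)) (Dat.Bd.const 0)
      (Dat.Bd.const 0) (Dat.der_H (j : ℤ)) (Dat.der_H (-j - 1 : ℤ)) (Dat.der_const 1)
      (Dat.der_const 1)
    have h2 := h1.sub ih
    have e1 : (-(j : ℤ) - 1 + 1) = -j := by ring
    have e2 : -((j + 1 : ℕ) : ℤ) = -(j : ℤ) - 1 := by push_cast; ring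
    have e3 : (((j + 1 : ℕ) : ℤ)) = (j : ℤ) + 1 := by push_cast; ring
    rw [e1] at h2
    rw [e2, e3, pow_succ]
    have e4 : (0 : ℂ) - (-1) ^ j * ∫ w, χ w = (-1) ^ j * (-1) * ∫ w, χ w := by ring
    rw [e4] at h2
    refine h2.congr fun i => ?_
    have e5 : q4 χ (D.H j) (D.H (-j - 1)) (fun _ _ => 0) (fun _ _ => 1) i = 0 := by
      rw [q4]; simp
    have e6 : q4 χ (D.H j) (D.H (-j - 1)) (fun _ _ => 1) (fun _ _ => 0) i = 0 := by
      rw [q4]; simp
    rw [e5, e6]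
    change q4 χ (D.H (j + 1)) (D.H (-j - 1)) (one1 ι) (one1 ι) i +
      q4 χ (D.H j) (D.H (-j)) (one1 ι) (one1 ι) i + 0 + 0 - _ = _
    ring

theorem q2_limz {𝒰 : Filter ι} [NeBot 𝒰] (hκ : Tendsto D.κ 𝒰 (𝓝 0)) {L : ℕ} (hE : D.Equi 𝒰 L)
    {χ : ℂ → ℂ} (hχ : D.Te χ) (x : ℤ) :
    Tendsto (q4 χ (D.H x) (D.H (-x)) (one1 ι) (one1 ι)) 𝒰 (𝓝 ((-1) ^ x * ∫ w, χ w)) := by
  obtain ⟨j, rfl | rfl⟩ := x.eq_nat_or_neg
  · rw [zpow_natCast]
    exact q2_lim hκ hE hχ j
  · have h := q2_lim hκ hE hχ j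
    have e : ((-1 : ℂ) ^ (-(j : ℤ))) = (-1) ^ j := by
      rw [zpow_neg, zpow_natCast, ← inv_pow]; norm_num
    rw [e, neg_neg]
    refine h.congr fun i => ?_
    rw [q4, q4]
    exact integral_congr_ae (ae_of_all _ fun w => by simp only; ring)

/-- the normalised energies -/
def Dat.kk (D : Dat ι) (x : ℤ) (i : ι) (w : ℂ) : ℂ := (-1) ^ x * (D.H x i w * D.H (-x) i w)

theorem Dat.kk_real (x : ℤ) (i : ι) (w : ℂ) : conj (D.kk x i w) = D.kk x i w := by
  have h1 : (-D.β w) ≠ 0 := by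
    intro h
    have h2 := D.βγ w
    rw [neg_eq_zero.1 h, zero_mul] at h2
    exact zero_ne_one h2
  have e : (-D.β w) ^ x * (-D.β w) ^ (-x) = 1 := by
    rw [← zpow_add₀ h1, add_neg_cancel, zpow_zero]
  rw [Dat.kk, map_mul, map_mul, Dat.conj_H, Dat.conj_H, neg_neg, map_zpow₀, map_neg, map_one]
  linear_combination ((-1) ^ x * (D.H x i w * D.H (-x) i w)) * e

theorem Dat.kk_sm (x : ℤ) (i : ι) : Sm (D.kk x i) :=
  (((Dat.Bd.H x).1 i).mul ((Dat.Bd.H (-x)).1 i)).cmul _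

/-- limits of correlations of energies -/
theorem kk_lim {𝒰 : Ultrafilter ι} (hκ : Tendsto D.κ 𝒰 (𝓝 0)) {L : ℕ} (hE : D.Equi 𝒰 L)
    {ψ : ℂ → ℂ} (hψ : D.Te ψ) {M : ℤ → ℤ → ℤ → ℤ → ℂ}
    (hM : ∀ a b c d, Tendsto (q4 ψ (D.H a) (D.H b) (D.H c) (D.H d)) 𝒰
      (𝓝 (M a b c d))) (x y : ℤ) :
    Tendsto (fun i => ∫ w, ψ w * ((D.kk x i w - 1) * (D.kk y i w - 1))) 𝒰
      (𝓝 ((-1) ^ x * (-1) ^ y * M x (-x) y (-y) - ∫ w, ψ w)) := by
  have h1 := (hM x (-x) y (-y)).const_mul ((-1 : ℂ) ^ x * (-1) ^ y)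
  have h2 := (q2_limz (𝒰 := (𝒰 : Filter ι)) hκ hE hψ x).const_mul ((-1 : ℂ) ^ x)
  have h3 := (q2_limz (𝒰 := (𝒰 : Filter ι)) hκ hE hψ y).const_mul ((-1 : ℂ) ^ y)
  have h4 := ((h1.sub h2).sub h3).add_const (∫ w, ψ w)
  have sq1 : ∀ x : ℤ, ((-1 : ℂ) ^ x) * (-1) ^ x = 1 := by
    intro x
    rw [← mul_zpow]; norm_num
  have e1 : (-1 : ℂ) ^ x * (-1) ^ y * M x (-x) y (-y) - (-1) ^ x * ((-1) ^ x * ∫ w, ψ w) -
      (-1) ^ y * ((-1) ^ y * ∫ w, ψ w) + (∫ w, ψ w) =
      (-1) ^ x * (-1) ^ y * M x (-x) y (-y) - ∫ w, ψ w := by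
    linear_combination (-(∫ w, ψ w)) * sq1 x - (∫ w, ψ w) * sq1 y
  rw [e1] at h4
  refine h4.congr fun i => ?_
  have b1 : Integrable (fun w => ((-1 : ℂ) ^ x * (-1) ^ y) *
      (ψ w * (D.H x i w * D.H (-x) i w * (D.H y i w * D.H (-y) i w)))) :=
    ((hψ.sm.mul (Sm.four ((Dat.Bd.H x).1 i) ((Dat.Bd.H (-x)).1 i) ((Dat.Bd.H y).1 i)
      ((Dat.Bd.H (-y)).1 i))).int hψ.cs.mul_right).const_mul _
  have b2 : Integrable (fun w => ((-1 : ℂ) ^ x) *
      (ψ w * (D.H x i w * D.H (-x) i w * (one1 ι i w * one1 ι i w)))) :=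
    ((hψ.sm.mul (Sm.four ((Dat.Bd.H x).1 i) ((Dat.Bd.H (-x)).1 i) (Sm.const 1)
      (Sm.const 1))).int hψ.cs.mul_right).const_mul _
  have b3 : Integrable (fun w => ((-1 : ℂ) ^ y) *
      (ψ w * (D.H y i w * D.H (-y) i w * (one1 ι i w * one1 ι i w)))) :=
    ((hψ.sm.mul (Sm.four ((Dat.Bd.H y).1 i) ((Dat.Bd.H (-y)).1 i) (Sm.const 1)
      (Sm.const 1))).int hψ.cs.mul_right).const_mul _
  have b4 : Integrable ψ := hψ.sm.int hψ.cs
  rw [q4, q4, q4, ← integral_const_mul, ← integral_const_mul, ← integral_const_mul,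
    ← integral_sub b1 b2]
  have b12 : Integrable (fun w => ((-1 : ℂ) ^ x * (-1) ^ y) *
      (ψ w * (D.H x i w * D.H (-x) i w * (D.H y i w * D.H (-y) i w))) - ((-1 : ℂ) ^ x) *
      (ψ w * (D.H x i w * D.H (-x) i w * (one1 ι i w * one1 ι i w)))) := b1.sub b2
  rw [← integral_sub b12 b3]
  have b123 : Integrable (fun w => ((-1 : ℂ) ^ x * (-1) ^ y) *
      (ψ w * (D.H x i w * D.H (-x) i w * (D.H y i w * D.H (-y) i w))) - ((-1 : ℂ) ^ x) *
      (ψ w * (D.H x i w * D.H (-x) i w * (one1 ι i w * one1 ι i w))) - ((-1 : ℂ) ^ y) *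
      (ψ w * (D.H y i w * D.H (-y) i w * (one1 ι i w * one1 ι i w)))) := b12.sub b3
  rw [← integral_add b123 b4]
  refine integral_congr_ae (ae_of_all _ fun w => ?_)
  simp only [Dat.kk, one1]
  ring

/-- the final inequality along an ultrafilter -/
theorem fourth {𝒰 : Ultrafilter ι} (hκ : Tendsto D.κ 𝒰 (𝓝 0)) {L : ℕ} (hE : D.Equi 𝒰 L)
    {χ : ℂ → ℂ} (hχ : D.Te χ) (hr : ∀ w, conj (χ w) = χ w) {m : ℝ}
    (hm : Tendsto (fun i => ∫ w, ‖χ w * (D.f i w * D.f i w)‖ ^ 2) 𝒰 (𝓝 m)) :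
    3 * (2 * (2 * (L : ℝ) + 1) ^ 2 - 2 * (2 * L + 1) + 1) * (∫ w, ‖χ w‖ ^ 2) ≤
      (2 * (2 * (L : ℝ) + 1) ^ 2 + 1) * m := by
  have hψ : D.Te (fun w => χ w * χ w) := hχ.mul hχ.sm
  have hψr : ∀ w, conj (χ w * χ w) = χ w * χ w := fun w => by rw [map_mul, hr]
  obtain ⟨M, hM⟩ := exists_M (D := D) 𝒰 hψ
  have hR := rh_of_lim hκ hψ hψr hM
  set v := ∫ w, ‖χ w‖ ^ 2 with hv
  set d0 := (M 0 0 0 0).re with hd0
  have hm0 : m = d0 := by
    have h3 := (continuous_re.tendsto _).comp (hM 0 0 0 0)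
    refine tendsto_nhds_unique hm (h3.congr fun i => ?_)
    simp only [Function.comp]
    have e := W_q4 (D := D) hr 0 i
    simp only [Nat.cast_zero, neg_zero] at e
    rw [← e, ofReal_re]
    simp only [Dat.W, pow_zero, one_mul, Dat.G_zero]
  have hnl := norm_le hE hχ hr hM
  set a := 2 * d0 / 3 - v with ha
  set b := d0 / 3 - v with hb
  set c := 2 * v with hc
  have hDD0 : DD M 0 = M 0 0 0 0 := by rw [DD, neg_zero]
  -- bound of the coefficients
  have bnd : ∀ n : ℤ, |n| ≤ 2 * L → ((-1 : ℂ) ^ n * DD M n).re ≤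
      a + b * (-1 : ℝ) ^ n + c * (if n = 0 then 1 else 0) := by
    intro n hn
    have red : ∀ k : ℕ, (k : ℤ) ≤ 2 * L → ((-1 : ℂ) ^ k * DD M k).re ≤
        a + b * (-1 : ℝ) ^ k + c * (if k = 0 then 1 else 0) := by
      intro k hk
      rcases Nat.even_or_odd' k with ⟨l, rfl | rfl⟩
      · rw [pow_mul, pow_mul]
        rcases Nat.eq_zero_or_pos l with hl | hl
        · subst hl
          simp only [mul_zero, Nat.cast_zero, pow_zero, one_mul, if_true, hDD0]
          rw [ha, hb, hc]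
          linarith
        · have h1 := hR.nn l l
          have h2 := hnl l hl (by push_cast at hk; omega)
          have e1 : ((l : ℤ) + l) = ((2 * l : ℕ) : ℤ) := by push_cast; ring
          have e2 : ((l : ℤ) - l) = 0 := by ring
          rw [e1, e2, hDD0] at h1
          have e3 : DD M ((2 * l : ℕ) : ℤ) = 2 * M l (-l) l (-l) - M 0 0 0 0 := by
            rw [h1]; ring
          rw [e3, if_neg (by omega)]
          norm_num
          rw [ha, hb]
          linarith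
      · have h1 := hR.odd l
        have e1 : ((2 * l + 1 : ℕ) : ℤ) = 2 * l + 1 := by push_cast; ring
        rw [e1, h1, hDD0, if_neg (by omega), pow_succ, pow_succ, pow_mul, pow_mul]
        have e2 : (((-1 : ℂ) ^ 2) ^ l * -1 * (-M 0 0 0 0 / 3)).re = d0 / 3 := by
          norm_num
          rw [hd0]
          have : (M 0 0 0 0 / 3).re = (M 0 0 0 0).re / 3 := by
            have := Complex.div_ofNat_re (M 0 0 0 0) 3
            exact this
          linarith
        rw [e2, ha, hb]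
        norm_num
        linarith
    obtain ⟨k, rfl | rfl⟩ := n.eq_nat_or_neg
    · have h1 := red k (by simpa using hn)
      rw [zpow_natCast, zpow_natCast]
      simpa using h1
    · have h1 := red k (by simpa using hn)
      have e : ((-1 : ℂ) ^ (-(k : ℤ))) = (-1) ^ k := by
        rw [zpow_neg, zpow_natCast, ← inv_pow]; norm_num
      have e' : ((-1 : ℝ) ^ (-(k : ℤ))) = (-1) ^ k := by
        rw [zpow_neg, zpow_natCast, ← inv_pow]; norm_num
      rw [e, e', hR.DD_neg]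
      simpa using h1
  -- positivity
  set n := 2 * L + 1 with hn
  set X : ℕ → ℤ := fun p => (p : ℤ) - L with hX
  have hpos : 0 ≤ ∑ p ∈ Finset.range n, ∑ q ∈ Finset.range n,
      (((-1 : ℂ) ^ X p * (-1) ^ X q * M (X p) (-X p) (X q) (-X q)).re - v) := by
    have hlim : Tendsto (fun i => (∑ p ∈ Finset.range n, ∑ q ∈ Finset.range n,
        ∫ w, (χ w * χ w) * ((D.kk (X p) i w - 1) * (D.kk (X q) i w - 1))).re) 𝒰
        (𝓝 (∑ p ∈ Finset.range n, ∑ q ∈ Finset.range n,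
          ((-1 : ℂ) ^ X p * (-1) ^ X q * M (X p) (-X p) (X q) (-X q) -
            ∫ w, χ w * χ w)).re) := by
      refine (continuous_re.tendsto _).comp ?_
      exact tendsto_finsetSum _ fun p _ => tendsto_finsetSum _ fun q _ =>
        kk_lim hκ hE hψ hM (X p) (X q)
    have e1 : (∑ p ∈ Finset.range n, ∑ q ∈ Finset.range n,
          ((-1 : ℂ) ^ X p * (-1) ^ X q * M (X p) (-X p) (X q) (-X q) -
            ∫ w, χ w * χ w)).re = ∑ p ∈ Finset.range n, ∑ q ∈ Finset.range n,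
      (((-1 : ℂ) ^ X p * (-1) ^ X q * M (X p) (-X p) (X q) (-X q)).re - v) := by
      rw [← int_norm_sq hr, re_sum]
      refine Finset.sum_congr rfl fun p _ => ?_
      rw [re_sum]
      refine Finset.sum_congr rfl fun q _ => ?_
      rw [sub_re, ofReal_re]
    rw [e1] at hlim
    refine ge_of_tendsto' hlim fun i => ?_
    set A : ℂ → ℂ := fun w => ∑ p ∈ Finset.range n, (D.kk (X p) i w - 1) with hA
    have hAr : ∀ w, conj (A w) = A w := by
      intro w
      simp only [hA, map_sum, map_sub, map_one, Dat.kk_real]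
    have e2 : (∑ p ∈ Finset.range n, ∑ q ∈ Finset.range n,
        ∫ w, (χ w * χ w) * ((D.kk (X p) i w - 1) * (D.kk (X q) i w - 1))) =
        ((∫ w, ‖χ w * A w‖ ^ 2 : ℝ) : ℂ) := by
      rw [← integral_complex_ofReal]
      have hint : ∀ p q : ℕ, Integrable (fun w => (χ w * χ w) *
          ((D.kk (X p) i w - 1) * (D.kk (X q) i w - 1))) := fun p q =>
        (hψ.sm.mul (((Dat.kk_sm (X p) i).sub (Sm.const 1)).mul
          ((Dat.kk_sm (X q) i).sub (Sm.const 1)))).int hψ.cs.mul_right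
      have e3 : ∀ p, (∑ q ∈ Finset.range n,
          ∫ w, (χ w * χ w) * ((D.kk (X p) i w - 1) * (D.kk (X q) i w - 1))) =
          ∫ w, ∑ q ∈ Finset.range n,
            (χ w * χ w) * ((D.kk (X p) i w - 1) * (D.kk (X q) i w - 1)) := fun p =>
        (integral_finsetSum _ fun q _ => hint p q).symm
      simp only [e3]
      rw [← integral_finsetSum _ fun p _ => integrable_finsetSum _ fun q _ => hint p q]
      refine integral_congr_ae (ae_of_all _ fun w => ?_)
      simp only [sq_eq, map_mul, hr, hAr]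
      simp only [hA]
      have : (∑ p ∈ Finset.range n, ∑ q ∈ Finset.range n,
          (χ w * χ w) * ((D.kk (X p) i w - 1) * (D.kk (X q) i w - 1))) =
          (χ w * χ w) * ((∑ p ∈ Finset.range n, (D.kk (X p) i w - 1)) *
            ∑ q ∈ Finset.range n, (D.kk (X q) i w - 1)) := by
        rw [Finset.sum_mul_sum, Finset.mul_sum]
        exact Finset.sum_congr rfl fun p _ => by rw [Finset.mul_sum]
      rw [this]
      ring
    rw [e2, ofReal_re]
    exact integral_nonneg fun w => sq_nonneg _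
  -- upper bound for each term
  have hle : ∀ p ∈ Finset.range n, ∀ q ∈ Finset.range n,
      ((-1 : ℂ) ^ X p * (-1) ^ X q * M (X p) (-X p) (X q) (-X q)).re - v ≤
      (a - v) + b * ((-1 : ℝ) ^ X p * (-1) ^ X q) +
        c / 2 * ((if X p + X q = 0 then 1 else 0) + (if X p - X q = 0 then 1 else 0)) := by
    intro p hp q hq
    have hp' := Finset.mem_range.1 hp
    have hq' := Finset.mem_range.1 hq
    have b1 := bnd (X p + X q) (by simp only [hX]; rw [abs_le]; omega)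
    have b2 := bnd (X p - X q) (by simp only [hX]; rw [abs_le]; omega)
    have z1 : (-1 : ℂ) ^ (X p + X q) = (-1) ^ X p * (-1) ^ X q := zpow_add₀ (by norm_num) _ _
    have z1' : (-1 : ℝ) ^ (X p + X q) = (-1) ^ X p * (-1) ^ X q := zpow_add₀ (by norm_num) _ _
    have z2 : (-1 : ℂ) ^ (X p - X q) = (-1) ^ X p * (-1) ^ X q := by
      rw [sub_eq_add_neg, zpow_add₀ (by norm_num), zpow_neg, ← inv_zpow]; norm_num
    have z2' : (-1 : ℝ) ^ (X p - X q) = (-1) ^ X p * (-1) ^ X q := by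
      rw [sub_eq_add_neg, zpow_add₀ (by norm_num), zpow_neg, ← inv_zpow]; norm_num
    rw [z1, z1'] at b1
    rw [z2, z2'] at b2
    rw [hR.nn (X p) (X q)]
    have e1 : ((-1 : ℂ) ^ X p * (-1) ^ X q * ((DD M (X p + X q) + DD M (X p - X q)) / 2)).re =
        (((-1 : ℂ) ^ X p * (-1) ^ X q * DD M (X p + X q)).re +
          ((-1 : ℂ) ^ X p * (-1) ^ X q * DD M (X p - X q)).re) / 2 := by
      rw [← add_re, ← Complex.div_ofNat_re]
      congr 1
      push_cast
      ring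
    rw [e1]
    linarith
  have hsum := hpos.trans (Finset.sum_le_sum fun p hp => Finset.sum_le_sum fun q hq =>
    hle p hp q hq)
  have hs1 : (∑ p ∈ Finset.range n, (-1 : ℝ) ^ X p) ^ 2 = 1 := by
    have e1 : ∀ p : ℕ, (-1 : ℝ) ^ X p = (-1) ^ (-(L : ℤ)) * (-1) ^ p := by
      intro p
      simp only [hX]
      rw [sub_eq_add_neg, add_comm, zpow_add₀ (by norm_num), zpow_natCast]
    simp only [e1]
    rw [← Finset.mul_sum, neg_one_geom_sum, if_neg (by rw [hn]; simp), mul_one, ← zpow_natCast,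
      ← zpow_mul]
    have : (-(L : ℤ) * ((2 : ℕ) : ℤ)) = 2 * (-L : ℤ) := by push_cast; ring
    rw [this, zpow_mul]
    norm_num
  have hs2 : ∑ p ∈ Finset.range n, ∑ q ∈ Finset.range n,
      (if X p + X q = 0 then (1 : ℝ) else 0) = n := by
    have e1 : ∀ p ∈ Finset.range n, ∑ q ∈ Finset.range n,
        (if X p + X q = 0 then (1 : ℝ) else 0) = 1 := by
      intro p hp
      have hp' := Finset.mem_range.1 hp
      rw [Finset.sum_eq_single (2 * L - p)]
      · rw [if_pos]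
        simp only [hX]
        omega
      · intro q _ hq
        rw [if_neg]
        simp only [hX]
        omega
      · intro h
        exfalso
        apply h
        rw [Finset.mem_range]
        omega
    rw [Finset.sum_congr rfl e1]
    simp
  have hs3 : ∑ p ∈ Finset.range n, ∑ q ∈ Finset.range n,
      (if X p - X q = 0 then (1 : ℝ) else 0) = n := by
    have e1 : ∀ p ∈ Finset.range n, ∑ q ∈ Finset.range n,
        (if X p - X q = 0 then (1 : ℝ) else 0) = 1 := by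
      intro p hp
      rw [Finset.sum_eq_single p]
      · rw [if_pos]
        simp
      · intro q _ hq
        rw [if_neg]
        simp only [hX]
        omega
      · intro h
        exact absurd hp h
    rw [Finset.sum_congr rfl e1]
    simp
  have htot : ∑ p ∈ Finset.range n, ∑ q ∈ Finset.range n,
      ((a - v) + b * ((-1 : ℝ) ^ X p * (-1) ^ X q) +
        c / 2 * ((if X p + X q = 0 then 1 else 0) + (if X p - X q = 0 then 1 else 0))) =
      (a - v) * n ^ 2 + b + c * n := by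
    simp only [Finset.sum_add_distrib, ← Finset.mul_sum, mul_add]
    rw [hs2, hs3]
    have e3 : ∑ p ∈ Finset.range n, (-1 : ℝ) ^ X p * ∑ q ∈ Finset.range n, (-1 : ℝ) ^ X q =
        1 := by
      rw [← Finset.sum_mul, ← sq, hs1]
    rw [e3]
    simp only [Finset.sum_const, Finset.card_range, nsmul_eq_mul]
    ring
  rw [htot] at hsum
  rw [hm0]
  have hnc : (n : ℝ) = 2 * L + 1 := by rw [hn]; push_cast; ring
  rw [hnc] at hsum
  rw [ha, hb, hc] at hsum
  nlinarith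

end

end Pool.Agent.H486.QM
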