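import Pool.Agent.H486.QM.Hil
import Pool.Agent.H486.QM.Comp

/-!
# Square integrable functions supported in a frame as elements of a Hilbert space
-/

set_option autoImplicit false

open MeasureTheory Complex Filter Topology Set Metric
open scoped ContDiff ComplexConjugate InnerProductSpace ENNReal

namespace Pool.Agent.H486.QM

noncomputable section

attribute [local instance] instMeasureSpaceUnitAddCircle

local instance : IsProbabilityMeasure (volume : Measure UnitAddCircle) :=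
  inferInstanceAs (IsProbabilityMeasure AddCircle.haarAddCircle)

/-- the half open unit square -/
def Cu : Set ℂ := {z | z.re ∈ Ioc (0 : ℝ) 1 ∧ z.im ∈ Ioc (0 : ℝ) 1}

theorem mp_rp : MeasurePreserving rp (volume : Measure (UnitAddTorus (Fin 2)))
    (volume.restrict Cu) := by
  have h1 := UnitAddTorus.measurePreserving_equivPiIoc (d := Fin 2) (0 : Fin 2 → ℝ)
  set B : Set (Fin 2 → ℝ) := {x | ∀ i, x i ∈ Ioc ((0 : Fin 2 → ℝ) i) ((0 : Fin 2 → ℝ) i + 1)}
    with hB
  have hBm : MeasurableSet B := MeasurableSet.univ_pi' (fun i => measurableSet_Ioc)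
  have h2 : MeasurePreserving (Subtype.val : B → (Fin 2 → ℝ)) (Measure.comap Subtype.val volume)
      (volume.restrict B) := by
    refine ⟨measurable_subtype_coe, ?_⟩
    exact map_comap_subtype_coe hBm volume
  have h3 : MeasurePreserving measurableEquivPi.symm (volume.restrict B)
      (volume.restrict (measurableEquivPi ⁻¹' B)) := by
    have h4 := Complex.volume_preserving_equiv_pi.symm
    have h5 := h4.restrict_preimage_emb measurableEquivPi.symm.measurableEmbedding
      (measurableEquivPi ⁻¹' B)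
    have e : measurableEquivPi.symm ⁻¹' (measurableEquivPi ⁻¹' B) = B := by
      ext x
      simp
    rw [e] at h5
    exact h5
  have e : (measurableEquivPi ⁻¹' B) = Cu := by
    ext z
    simp only [hB, mem_preimage, mem_setOf_eq, Cu]
    constructor
    · intro h
      have a := h 0
      have b := h 1
      simp [measurableEquivPi] at a b
      exact ⟨a, b⟩
    · rintro ⟨h, h'⟩ i
      fin_cases i
      · simpa [measurableEquivPi] using h
      · simpa [measurableEquivPi] using h'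
  rw [e] at h3
  exact h3.comp (h2.comp h1)

theorem memLp_rp {P : ℂ → ℂ} (hP : MemLp P 2 volume) :
    MemLp (fun t => P (rp t)) 2 (volume : Measure (UnitAddTorus (Fin 2))) :=
  (hP.restrict Cu).comp_measurePreserving mp_rp

theorem memLp_aff {F : ℂ → ℂ} (hF : MemLp F 2 volume) {κ : ℝ} (hκ : 0 < κ) (c : ℂ) :
    MemLp (aff c κ F) 2 volume := by
  have h1 : MemLp (fun w => F (c + w)) 2 volume :=
    hF.comp_measurePreserving (measurePreserving_add_left volume c)
  have h2 : Measure.map (fun w : ℂ => κ • w) volume =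
      ENNReal.ofReal |(κ ^ Module.finrank ℝ ℂ)⁻¹| • volume :=
    Measure.map_addHaar_smul volume hκ.ne'
  have h3 : MemLp (fun w => F (c + w)) 2 (Measure.map (fun w : ℂ => κ • w) volume) := by
    rw [h2]
    exact h1.smul_measure ENNReal.ofReal_ne_top
  have h4 := h3.comp_of_map (measurable_const_smul κ).aemeasurable
  have e : (fun w => F (c + w)) ∘ (fun w : ℂ => κ • w) = aff c κ F := by
    ext w
    simp [aff]
  rwa [e] at h4

theorem coeff_rp {P : ℂ → ℂ} (hs : ∀ z, z ∉ SQ → P z = 0)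
    (hL : MemLp (fun t => P (rp t)) 2 (volume : Measure (UnitAddTorus (Fin 2))))
    (n : Fin 2 → ℤ) :
    ⟪UnitAddTorus.mFourierBasis n, hL.toLp _⟫_ℂ = cf P n := by
  have h0 := UnitAddTorus.mFourierBasis_repr (hL.toLp _) n
  rw [HilbertBasis.repr_apply_apply] at h0
  rw [h0]
  have a1 : UnitAddTorus.mFourierCoeff (hL.toLp _ : UnitAddTorus (Fin 2) → ℂ) n =
      UnitAddTorus.mFourierCoeff (fun t => P (rp t)) n := by
    refine integral_congr_ae ?_
    filter_upwards [hL.coeFn_toLp] with t ht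
    rw [ht]
  rw [a1, UnitAddTorus.mFourierCoeff_eq_integral _ n 0]
  have hms : MeasurableSet {x : Fin 2 → ℝ |
      ∀ i, x i ∈ Ioc ((0 : Fin 2 → ℝ) i) ((0 : Fin 2 → ℝ) i + 1)} :=
    MeasurableSet.univ_pi' (fun i => measurableSet_Ioc)
  have a2 : ∀ x ∈ {x : Fin 2 → ℝ | ∀ i, x i ∈ Ioc ((0 : Fin 2 → ℝ) i) ((0 : Fin 2 → ℝ) i + 1)},
      UnitAddTorus.mFourier (-n) (fun i => (x i : UnitAddCircle)) •
        P (rp (fun i => (x i : UnitAddCircle))) =
      (fun z => ch n z * P z) (rp (fun i => (x i : UnitAddCircle))) := by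
    intro x hx
    simp only [rp_coe hx, smul_eq_mul]
    congr 1
    simp only [UnitAddTorus.mFourier, ContinuousMap.coe_mk, Fin.prod_univ_two, Pi.neg_apply]
    have f1 : ∀ (m : ℤ) (y : ℝ), (fourier m) (y : UnitAddCircle) =
        exp (2 * Real.pi * I * m * y) := by
      intro m y
      have := @fourier_coe_apply 1 m y
      simpa using this
    rw [f1, f1, ← exp_add, ch, measurableEquivPi_symm_apply]
    congr 1
    simp
    ring
  rw [setIntegral_congr_fun hms a2]
  have a3 := UnitAddTorus.integral_preimage (fun t => (fun z => ch n z * P z) (rp t)) 0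
  rw [← a3, int_torus (fun z => ch n z * P z) (fun z hz => by simp [hs z hz])]
  rfl

/-- the Hilbert space of square integrable functions on the torus -/
abbrev HT : Type := Lp ℂ 2 (volume : Measure (UnitAddTorus (Fin 2)))

/-- the vector of a square integrable function in a frame -/
def vec (κ : ℝ) (c : ℂ) (hκ : 0 < κ) (F : ℂ → ℂ) (hF : MemLp F 2 volume) : HT :=
  (memLp_rp (memLp_aff hF hκ c)).toLp _

section

variable {S : Set ℂ} {κ : ℝ} {c : ℂ} {hκ : 0 < κ} (hsq : ∀ w, w ∉ SQ → c + κ * w ∉ S)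

include hsq in
theorem inner_vec {F G : ℂ → ℂ} (hF : MemLp F 2 volume) (hG : MemLp G 2 volume)
    (sF : ∀ z, z ∉ S → F z = 0) :
    ⟪vec κ c hκ F hF, vec κ c hκ G hG⟫_ℂ = ((κ ^ 2)⁻¹ : ℝ) * ∫ w, conj (F w) * G w := by
  rw [L2.inner_def]
  have e1 : ∫ t, ⟪(vec κ c hκ F hF : UnitAddTorus (Fin 2) → ℂ) t,
      (vec κ c hκ G hG : UnitAddTorus (Fin 2) → ℂ) t⟫_ℂ =
      ∫ t : UnitAddTorus (Fin 2), (fun w => conj (aff c κ F w) * aff c κ G w) (rp t) := by
    refine integral_congr_ae ?_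
    filter_upwards [(memLp_rp (memLp_aff hF hκ c)).coeFn_toLp,
      (memLp_rp (memLp_aff hG hκ c)).coeFn_toLp] with t h1 h2
    rw [vec, vec, h1, h2]
    simp [mul_comm]
  rw [e1, int_torus (fun w => conj (aff c κ F w) * aff c κ G w) (fun z hz => by
    simp only [aff, sF _ (hsq z hz), map_zero, zero_mul])]
  have e2 := int_aff (fun w => conj (F w) * G w) c hκ
  simp only [aff]
  rw [e2, Complex.real_smul]

include hsq in
theorem norm_vec {F : ℂ → ℂ} (hF : MemLp F 2 volume) (sF : ∀ z, z ∉ S → F z = 0) :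
    ‖vec κ c hκ F hF‖ ^ 2 = (κ ^ 2)⁻¹ * ∫ w, ‖F w‖ ^ 2 := by
  have h := inner_vec (hκ := hκ) hsq hF hF sF
  have h1 := inner_self_eq_norm_sq_to_K (𝕜 := ℂ) (vec κ c hκ F hF)
  rw [h] at h1
  have h2 : ∫ w, conj (F w) * F w = ((∫ w, ‖F w‖ ^ 2 : ℝ) : ℂ) := by
    rw [← integral_complex_ofReal]
    refine integral_congr_ae (ae_of_all _ fun w => ?_)
    simp only [sq_eq, mul_comm]
  rw [h2] at h1
  have h3 : (((κ ^ 2)⁻¹ * ∫ w, ‖F w‖ ^ 2 : ℝ) : ℂ) = ((‖vec κ c hκ F hF‖ ^ 2 : ℝ) : ℂ) := by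
    push_cast
    push_cast at h1
    exact h1
  exact_mod_cast h3.symm

include hsq in
theorem basis_vec {F : ℂ → ℂ} (hF : MemLp F 2 volume) (sF : ∀ z, z ∉ S → F z = 0)
    {θ : ℂ → ℂ} (hθ1 : ∀ w ∈ S, θ w = 1) (n : Fin 2 → ℤ) :
    ⟪UnitAddTorus.mFourierBasis n, vec κ c hκ F hF⟫_ℂ =
      ((κ ^ 2)⁻¹ : ℝ) • ∫ z, (aff (-c / κ) (1 / κ) (ch n) z * θ z) * F z := by
  rw [vec, coeff_rp (P := aff c κ F) (fun z hz => sF _ (hsq z hz)), cf_aff_eq hκ hθ1 sF n]

end

end

end Pool.Agent.H486.QM
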