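import Pool.Agent.H486.QM.Core
import Pool.Agent.H486.QM.Chain

/-!
# Coupled weakly null families have equal correlations
-/

set_option autoImplicit false

open MeasureTheory Complex Filter Topology Set Metric
open scoped ContDiff ComplexConjugate

namespace Pool.Agent.H486.QM

noncomputable section

variable {ι : Type*}

theorem dz_out {P : ℂ → ℂ} {S : Set ℂ} (hS : IsCompact S) (h : ∀ z, z ∉ S → P z = 0) {z : ℂ}
    (hz : z ∉ S) : dz P z = 0 ∧ dzb P z = 0 := by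
  refine dz_notMem fun h1 => hz ?_
  refine hS.isClosed.closure_subset_iff.2 ?_ h1
  intro w hw
  by_contra hcon
  exact hw (h w hcon)

/-- weakly null families `P`, `Q` supported in `S` with `∂̄ P + ∂ Q` bounded -/
structure Cpl (𝒰 : Filter ι) (S : Set ℂ) (P Q : ι → ℂ → ℂ) : Prop where
  sP : ∀ i, Sm (P i)
  sQ : ∀ i, Sm (Q i)
  zP : ∀ i z, z ∉ S → P i z = 0
  zQ : ∀ i z, z ∉ S → Q i z = 0
  err : ∃ C : ℝ, ∀ i, ∫ z, ‖dzb (P i) z + dz (Q i) z‖ ^ 2 ≤ C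
  bP : ∃ C : ℝ, ∀ i, ∫ z, ‖P i z‖ ^ 2 ≤ C
  bQ : ∃ C : ℝ, ∀ i, ∫ z, ‖Q i z‖ ^ 2 ≤ C
  wP : ∀ χ : ℂ → ℂ, Sm χ → HasCompactSupport χ → Tendsto (fun i => ∫ z, χ z * P i z) 𝒰 (𝓝 0)
  wQ : ∀ χ : ℂ → ℂ, Sm χ → HasCompactSupport χ → Tendsto (fun i => ∫ z, χ z * Q i z) 𝒰 (𝓝 0)

variable {𝒰 : Filter ι} {S : Set ℂ} {P Q P' Q' : ι → ℂ → ℂ}

theorem cs_out (hS : IsCompact S) {F : ℂ → ℂ} (h : ∀ z, z ∉ S → F z = 0) :
    HasCompactSupport F := HasCompactSupport.intro hS h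

/-- the conjugate swapped pair -/
theorem Cpl.cj (h : Cpl 𝒰 S P Q) : Cpl 𝒰 S (fun i z => conj (Q i z)) (fun i z => conj (P i z)) := by
  have hw : ∀ {R : ι → ℂ → ℂ}, (∀ χ : ℂ → ℂ, Sm χ → HasCompactSupport χ →
      Tendsto (fun i => ∫ z, χ z * R i z) 𝒰 (𝓝 0)) → ∀ χ : ℂ → ℂ, Sm χ → HasCompactSupport χ →
      Tendsto (fun i => ∫ z, χ z * conj (R i z)) 𝒰 (𝓝 0) := by
    intro R hR χ hχ hc
    have h1 := (continuous_conj.tendsto _).comp (hR (fun z => conj (χ z)) hχ.cj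
      (hc.comp_left (g := fun z => conj z) (by simp)))
    rw [map_zero] at h1
    refine h1.congr fun i => ?_
    simp only [Function.comp]
    rw [← integral_conj]
    refine integral_congr_ae (ae_of_all _ fun z => ?_)
    simp only [map_mul, conj_conj]
  refine ⟨fun i => (h.sQ i).cj, fun i => (h.sP i).cj, fun i z hz => by
    rw [h.zQ i z hz, map_zero], fun i z hz => by rw [h.zP i z hz, map_zero], ?_, ?_, ?_,
    hw h.wQ, hw h.wP⟩
  · obtain ⟨C, hC⟩ := h.err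
    refine ⟨C, fun i => le_trans (le_of_eq ?_) (hC i)⟩
    refine integral_congr_ae (ae_of_all _ fun z => ?_)
    simp only
    rw [dzb_conj (h.sQ i), dz_conj (h.sP i), ← map_add, RCLike.norm_conj, add_comm]
  · obtain ⟨C, hC⟩ := h.bQ
    exact ⟨C, fun i => by simpa only [RCLike.norm_conj] using hC i⟩
  · obtain ⟨C, hC⟩ := h.bP
    exact ⟨C, fun i => by simpa only [RCLike.norm_conj] using hC i⟩

theorem Cpl.le [NeBot 𝒰] (hS : IsCompact S) (h : Cpl 𝒰 S P Q) {p q : ℝ}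
    (hp : Tendsto (fun i => ∫ z, ‖P i z‖ ^ 2) 𝒰 (𝓝 p))
    (hq : Tendsto (fun i => ∫ z, ‖Q i z‖ ^ 2) 𝒰 (𝓝 q)) : p ≤ q := by
  obtain ⟨C, hC⟩ := h.err
  refine comp_lim 𝒰 hS P Q (fun i z => dzb (P i) z + dz (Q i) z) h.sP h.sQ
    (fun i => (h.sP i).db.add (h.sQ i).d) h.zP h.zQ (fun i z hz => ?_) (fun i z => rfl) C hC
    h.wP hp hq
  rw [(dz_out hS (h.zP i) hz).2, (dz_out hS (h.zQ i) hz).1, add_zero]

/-- equality of the norms -/
theorem Cpl.eq [NeBot 𝒰] (hS : IsCompact S) (h : Cpl 𝒰 S P Q) {p q : ℝ}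
    (hp : Tendsto (fun i => ∫ z, ‖P i z‖ ^ 2) 𝒰 (𝓝 p))
    (hq : Tendsto (fun i => ∫ z, ‖Q i z‖ ^ 2) 𝒰 (𝓝 q)) : p = q := by
  refine le_antisymm (h.le hS hp hq) (h.cj.le hS ?_ ?_)
  · simpa only [RCLike.norm_conj] using hq
  · simpa only [RCLike.norm_conj] using hp

theorem nrm_sum_le {A B : ℂ → ℂ} (hA : Sm A) (hB : Sm B) (cA : HasCompactSupport A)
    (cB : HasCompactSupport B) (c : ℂ) {a b : ℝ} (ha : ∫ z, ‖A z‖ ^ 2 ≤ a)
    (hb : ∫ z, ‖B z‖ ^ 2 ≤ b) : ∫ z, ‖A z + c * B z‖ ^ 2 ≤ 2 * a + 2 * ‖c‖ ^ 2 * b := by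
  have i1 := int_sq hA cA
  have i2 := int_sq hB cB
  have i3 := (i1.const_mul 2).add (i2.const_mul (2 * ‖c‖ ^ 2))
  calc ∫ z, ‖A z + c * B z‖ ^ 2 ≤ ∫ z, (2 * ‖A z‖ ^ 2 + 2 * ‖c‖ ^ 2 * ‖B z‖ ^ 2) := by
        refine integral_mono_of_nonneg (ae_of_all _ fun z => sq_nonneg _) i3
          (ae_of_all _ fun z => ?_)
        simp only
        have h1 := norm_add_le (A z) (c * B z)
        rw [norm_mul] at h1
        have h2 := pow_le_pow_left₀ (norm_nonneg _) h1 2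
        nlinarith [sq_nonneg (‖A z‖ - ‖c‖ * ‖B z‖)]
    _ = 2 * (∫ z, ‖A z‖ ^ 2) + 2 * ‖c‖ ^ 2 * ∫ z, ‖B z‖ ^ 2 := by
        rw [integral_add (i1.const_mul 2) (i2.const_mul (2 * ‖c‖ ^ 2)), integral_const_mul,
          integral_const_mul]
    _ ≤ _ := by
        have : 0 ≤ 2 * ‖c‖ ^ 2 := by positivity
        nlinarith [mul_le_mul_of_nonneg_left hb this]

theorem Cpl.comb (hS : IsCompact S) (h : Cpl 𝒰 S P Q) (h' : Cpl 𝒰 S P' Q') (c : ℂ) :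
    Cpl 𝒰 S (fun i z => P i z + c * P' i z) (fun i z => Q i z + c * Q' i z) := by
  have hw : ∀ {R R' : ι → ℂ → ℂ}, (∀ i, Sm (R i)) → (∀ i, Sm (R' i)) →
      (∀ χ : ℂ → ℂ, Sm χ → HasCompactSupport χ →
        Tendsto (fun i => ∫ z, χ z * R i z) 𝒰 (𝓝 0)) →
      (∀ χ : ℂ → ℂ, Sm χ → HasCompactSupport χ →
        Tendsto (fun i => ∫ z, χ z * R' i z) 𝒰 (𝓝 0)) → ∀ χ : ℂ → ℂ, Sm χ →
      HasCompactSupport χ → Tendsto (fun i => ∫ z, χ z * (R i z + c * R' i z)) 𝒰 (𝓝 0) := by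
    intro R R' sR sR' hR hR' χ hχ hc
    have h1 := (hR χ hχ hc).add ((hR' χ hχ hc).const_mul c)
    rw [mul_zero, add_zero] at h1
    refine h1.congr fun i => ?_
    have i1 : Integrable (fun z => χ z * R i z) := (hχ.mul (sR i)).int hc.mul_right
    have i2 : Integrable (fun z => χ z * R' i z) := (hχ.mul (sR' i)).int hc.mul_right
    rw [← integral_const_mul, ← integral_add i1 (i2.const_mul c)]
    refine integral_congr_ae (ae_of_all _ fun z => ?_)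
    simp only
    ring
  obtain ⟨C1, e1⟩ := h.err
  obtain ⟨C2, e2⟩ := h'.err
  obtain ⟨B1, b1⟩ := h.bP
  obtain ⟨B2, b2⟩ := h'.bP
  obtain ⟨B3, b3⟩ := h.bQ
  obtain ⟨B4, b4⟩ := h'.bQ
  refine ⟨fun i => (h.sP i).add ((h'.sP i).cmul c), fun i => (h.sQ i).add ((h'.sQ i).cmul c),
    fun i z hz => by rw [h.zP i z hz, h'.zP i z hz]; ring,
    fun i z hz => by rw [h.zQ i z hz, h'.zQ i z hz]; ring, ?_, ?_, ?_,
    hw h.sP h'.sP h.wP h'.wP, hw h.sQ h'.sQ h.wQ h'.wQ⟩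
  · refine ⟨2 * C1 + 2 * ‖c‖ ^ 2 * C2, fun i => ?_⟩
    have s1 : Sm (fun z => dzb (P i) z + dz (Q i) z) := (h.sP i).db.add (h.sQ i).d
    have s2 : Sm (fun z => dzb (P' i) z + dz (Q' i) z) := (h'.sP i).db.add (h'.sQ i).d
    have c1 : HasCompactSupport (fun z => dzb (P i) z + dz (Q i) z) := cs_out hS fun z hz => by
      rw [(dz_out hS (h.zP i) hz).2, (dz_out hS (h.zQ i) hz).1, add_zero]
    have c2 : HasCompactSupport (fun z => dzb (P' i) z + dz (Q' i) z) := cs_out hS fun z hz => by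
      rw [(dz_out hS (h'.zP i) hz).2, (dz_out hS (h'.zQ i) hz).1, add_zero]
    refine le_trans (le_of_eq ?_) (nrm_sum_le s1 s2 c1 c2 c (e1 i) (e2 i))
    refine integral_congr_ae (ae_of_all _ fun z => ?_)
    simp only
    rw [dzb_add (h.sP i) ((h'.sP i).cmul c), dz_add (h.sQ i) ((h'.sQ i).cmul c),
      dzb_cmul c (h'.sP i), dz_cmul c (h'.sQ i)]
    congr 2
    ring
  · exact ⟨_, fun i => nrm_sum_le (h.sP i) (h'.sP i) (cs_out hS (h.zP i)) (cs_out hS (h'.zP i)) c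
      (b1 i) (b2 i)⟩
  · exact ⟨_, fun i => nrm_sum_le (h.sQ i) (h'.sQ i) (cs_out hS (h.zQ i)) (cs_out hS (h'.zQ i)) c
      (b3 i) (b4 i)⟩

theorem nrm_expand {A B : ℂ → ℂ} (hA : Sm A) (hB : Sm B) (cA : HasCompactSupport A)
    (cB : HasCompactSupport B) (c : ℂ) : ∫ z, ‖A z + c * B z‖ ^ 2 =
      (∫ z, ‖A z‖ ^ 2) + ‖c‖ ^ 2 * (∫ z, ‖B z‖ ^ 2) +
        2 * (conj c * ∫ z, A z * conj (B z)).re := by
  have i1 := int_sq hA cA
  have i2 := int_sq hB cB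
  have i3 : Integrable (fun z => A z * conj (B z)) := (hA.mul hB.cj).int cA.mul_right
  have i4 := (i3.const_mul (conj c))
  have i5 : Integrable (fun z => (conj c * (A z * conj (B z))).re) := i4.re
  have i12 : Integrable (fun z => ‖A z‖ ^ 2 + ‖c‖ ^ 2 * ‖B z‖ ^ 2) := i1.add (i2.const_mul _)
  have e1 : (conj c * ∫ z, A z * conj (B z)).re = ∫ z, (conj c * (A z * conj (B z))).re := by
    rw [← integral_const_mul]
    exact (integral_re i4).symm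
  rw [e1, ← integral_const_mul, ← integral_const_mul, ← integral_add i1 (i2.const_mul _),
    ← integral_add i12 (i5.const_mul 2)]
  refine integral_congr_ae (ae_of_all _ fun z => ?_)
  simp only
  have h1 : ((‖A z + c * B z‖ ^ 2 : ℝ) : ℂ) = ((‖A z‖ ^ 2 + ‖c‖ ^ 2 * ‖B z‖ ^ 2 +
      2 * (conj c * (A z * conj (B z))).re : ℝ) : ℂ) := by
    have h2 : ((2 * (conj c * (A z * conj (B z))).re : ℝ) : ℂ) =
        conj c * (A z * conj (B z)) + conj (conj c * (A z * conj (B z))) := by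
      rw [add_conj]
    rw [ofReal_add, h2, sq_eq]
    push_cast
    have h3 : ((‖A z‖ : ℂ)) ^ 2 = A z * conj (A z) := by exact_mod_cast sq_eq (A z)
    have h4 : ((‖B z‖ : ℂ)) ^ 2 = B z * conj (B z) := by exact_mod_cast sq_eq (B z)
    have h5 : ((‖c‖ : ℂ)) ^ 2 = c * conj c := by exact_mod_cast sq_eq c
    rw [h3, h4, h5]
    simp only [map_add, map_mul, conj_conj]
    ring
  exact_mod_cast h1

theorem rlim (𝒰 : Ultrafilter ι) {x : ι → ℝ} {C : ℝ} (h0 : ∀ i, 0 ≤ x i) (h : ∀ i, x i ≤ C) :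
    ∃ y, Tendsto x 𝒰 (𝓝 y) := by
  have hc : IsCompact (Icc (0 : ℝ) C) := isCompact_Icc
  have he : ∀ᶠ i in (𝒰 : Filter ι), x i ∈ Icc (0 : ℝ) C :=
    Eventually.of_forall fun i => ⟨h0 i, h i⟩
  obtain ⟨y, -, hy⟩ := hc.ultrafilter_le_nhds (𝒰.map x) (le_principal_iff.2 he)
  exact ⟨y, hy⟩

/-- polarization -/
theorem Cpl.pol {𝒰 : Ultrafilter ι} (hS : IsCompact S) (h : Cpl 𝒰 S P Q) (h' : Cpl 𝒰 S P' Q')
    {x y : ℂ} (hx : Tendsto (fun i => ∫ z, P i z * conj (P' i z)) 𝒰 (𝓝 x))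
    (hy : Tendsto (fun i => ∫ z, Q i z * conj (Q' i z)) 𝒰 (𝓝 y)) : x = y := by
  obtain ⟨B1, b1⟩ := h.bP
  obtain ⟨B2, b2⟩ := h'.bP
  obtain ⟨B3, b3⟩ := h.bQ
  obtain ⟨B4, b4⟩ := h'.bQ
  have nn : ∀ (F : ℂ → ℂ), 0 ≤ ∫ z, ‖F z‖ ^ 2 := fun F => integral_nonneg fun z => sq_nonneg _
  obtain ⟨p, hp⟩ := rlim 𝒰 (fun i => nn (P i)) b1
  obtain ⟨p', hp'⟩ := rlim 𝒰 (fun i => nn (P' i)) b2
  obtain ⟨q, hq⟩ := rlim 𝒰 (fun i => nn (Q i)) b3
  obtain ⟨q', hq'⟩ := rlim 𝒰 (fun i => nn (Q' i)) b4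
  have e1 : p = q := h.eq hS hp hq
  have e2 : p' = q' := h'.eq hS hp' hq'
  have key : ∀ c : ℂ, (conj c * x).re = (conj c * y).re := by
    intro c
    have l1 : Tendsto (fun i => ∫ z, ‖P i z + c * P' i z‖ ^ 2) 𝒰
        (𝓝 (p + ‖c‖ ^ 2 * p' + 2 * (conj c * x).re)) := by
      have t1 := (continuous_re.tendsto _).comp (hx.const_mul (conj c))
      have t2 := (hp.add (hp'.const_mul (‖c‖ ^ 2))).add (t1.const_mul 2)
      refine t2.congr fun i => ?_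
      rw [nrm_expand (h.sP i) (h'.sP i) (cs_out hS (h.zP i)) (cs_out hS (h'.zP i)) c]
      rfl
    have l2 : Tendsto (fun i => ∫ z, ‖Q i z + c * Q' i z‖ ^ 2) 𝒰
        (𝓝 (q + ‖c‖ ^ 2 * q' + 2 * (conj c * y).re)) := by
      have t1 := (continuous_re.tendsto _).comp (hy.const_mul (conj c))
      have t2 := (hq.add (hq'.const_mul (‖c‖ ^ 2))).add (t1.const_mul 2)
      refine t2.congr fun i => ?_
      rw [nrm_expand (h.sQ i) (h'.sQ i) (cs_out hS (h.zQ i)) (cs_out hS (h'.zQ i)) c]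
      rfl
    have l3 := (h.comb hS h' c).eq hS l1 l2
    rw [e1, e2] at l3
    linarith
  apply Complex.ext
  · simpa using key 1
  · have := key I
    simpa using this

end

end Pool.Agent.H486.QM
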