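import Pool.Agent.H486.QM.RigC
import Pool.Agent.H486.QM.Pol
import Pool.Agent.H486.QM.AlgC

/-!
# Fourth order correlations of all weights under equidistribution
-/

set_option autoImplicit false

open MeasureTheory Complex Filter Topology Set Metric
open scoped ContDiff ComplexConjugate

namespace Pool.Agent.H486.QM

noncomputable section

universe u

variable {ι : Type u} {D : Dat ι}

theorem sm_zpow {g h : ℂ → ℂ} (hg : Sm g) (hh : Sm h) (e : ∀ w, g w * h w = 1) (l : ℤ) :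
    Sm (fun w => g w ^ l) := by
  obtain ⟨n, rfl | rfl⟩ := l.eq_nat_or_neg
  · simpa only [zpow_natCast] using hg.pow n
  · have h1 : (fun w => g w ^ (-(n : ℤ))) = fun w => h w ^ n := by
      ext w
      rw [zpow_neg, zpow_natCast, ← inv_pow]
      congr 1
      exact inv_eq_of_mul_eq_one_right (e w)
    rw [h1]
    exact hh.pow n

theorem Dat.nb (D : Dat ι) (w : ℂ) : D.β w ≠ 0 := by
  intro h
  have h2 := D.βγ w
  rw [h, zero_mul] at h2
  exact zero_ne_one h2

theorem Dat.ng (D : Dat ι) (w : ℂ) : D.γ w ≠ 0 := by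
  intro h
  have h2 := D.βγ w
  rw [h, mul_zero] at h2
  exact zero_ne_one h2

theorem Dat.sm_g (D : Dat ι) (l : ℤ) : Sm (fun w => D.γ w ^ l) :=
  sm_zpow D.hγ D.hβ (fun w => by rw [mul_comm]; exact D.βγ w) l

theorem Dat.sm_nb (D : Dat ι) (l : ℤ) : Sm (fun w => (-D.β w) ^ l) :=
  sm_zpow D.hβ.neg D.hγ.neg (fun w => by rw [neg_mul_neg]; exact D.βγ w) l

theorem conj_q4g {χ : ℂ → ℂ} {a b c d : ℤ} (i : ι) :
    conj (q4 χ (D.H a) (D.H b) (D.H c) (D.H d) i) =
      q4 (fun w => conj (χ w) * (-D.β w) ^ (a + b + c + d)) (D.H (-a)) (D.H (-b)) (D.H (-c))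
        (D.H (-d)) i := by
  rw [q4, q4, ← integral_conj]
  refine integral_congr_ae (ae_of_all _ fun w => ?_)
  simp only [map_mul, Dat.conj_H]
  have h1 : (-D.β w) ≠ 0 := neg_ne_zero.2 (D.nb w)
  have e : (-D.β w) ^ a * (-D.β w) ^ b * ((-D.β w) ^ c * (-D.β w) ^ d) =
      (-D.β w) ^ (a + b + c + d) := by
    rw [← zpow_add₀ h1, ← zpow_add₀ h1, ← zpow_add₀ h1, ← add_assoc]
  linear_combination (conj (χ w) * (D.H (-a) i w * D.H (-b) i w *
    (D.H (-c) i w * D.H (-d) i w))) * e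

theorem Dat.Te.cj {χ : ℂ → ℂ} (h : D.Te χ) : D.Te (fun w => conj (χ w)) := by
  refine ⟨h.sm.cj, h.cs.comp_left (g := fun z => conj z) (by simp), ?_⟩
  refine (closure_mono ?_).trans h.sub
  intro w hw h0
  exact hw (by simp [h0])

/-- the relations of the limit functional for all weights -/
theorem rf_of_lim {𝒰 : Ultrafilter ι} (hκ : Tendsto D.κ 𝒰 (𝓝 0)) {χ : ℂ → ℂ} (hχ : D.Te χ)
    {M : ℤ → ℤ → ℤ → ℤ → ℂ}
    (hM : ∀ a b c d, Tendsto (q4 χ (D.H a) (D.H b) (D.H c) (D.H d)) 𝒰 (𝓝 (M a b c d))) :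
    Rf M := by
  have up : ∀ {θ : ℂ → ℂ}, D.Te θ → ∀ {N : ℤ → ℤ → ℤ → ℤ → ℂ},
      (∀ a b c d, Tendsto (q4 θ (D.H a) (D.H b) (D.H c) (D.H d)) 𝒰 (𝓝 (N a b c d))) →
      ∀ a b c d,
      N (a + 1) b c d + N a (b + 1) c d + N a b (c + 1) d + N a b c (d + 1) = 0 := by
    intro θ hθ N hN a b c d
    have h1 := raise_lim hκ hθ (Dat.Bd.H a) (Dat.Bd.H b) (Dat.Bd.H c) (Dat.Bd.H d)
      (Dat.Bd.H (a + 1)) (Dat.Bd.H (b + 1)) (Dat.Bd.H (c + 1)) (Dat.Bd.H (d + 1))
      (Dat.der_H a) (Dat.der_H b) (Dat.der_H c) (Dat.der_H d)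
    have h2 := ((((hN (a + 1) b c d).add (hN a (b + 1) c d)).add (hN a b (c + 1) d)).add
      (hN a b c (d + 1)))
    exact tendsto_nhds_unique h2 h1
  refine ⟨fun a b c d => ?_, fun a b c d => ?_, fun a b c d => ?_, fun a b c d => up hχ hM a b c d,
    fun a b c d => ?_⟩
  · refine tendsto_nhds_unique (hM a b c d) ((hM b a c d).congr fun i => ?_)
    rw [q4, q4]
    exact integral_congr_ae (ae_of_all _ fun w => by simp only; ring)
  · refine tendsto_nhds_unique (hM a b c d) ((hM a c b d).congr fun i => ?_)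
    rw [q4, q4]
    exact integral_congr_ae (ae_of_all _ fun w => by simp only; ring)
  · refine tendsto_nhds_unique (hM a b c d) ((hM a b d c).congr fun i => ?_)
    rw [q4, q4]
    exact integral_congr_ae (ae_of_all _ fun w => by simp only; ring)
  · set K : ℤ := a + b + c + d - 1 with hK
    have hθ : D.Te (fun w => conj (χ w) * (-D.β w) ^ K) := hχ.cj.mul (D.sm_nb K)
    obtain ⟨N, hN⟩ := exists_M (D := D) 𝒰 hθ
    have cj : ∀ x y z t : ℤ, x + y + z + t = K → M x y z t = conj (N (-x) (-y) (-z) (-t)) := by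
      intro x y z t h
      have h1 := (continuous_conj.tendsto _).comp (hM x y z t)
      have h2 : Tendsto (fun i => conj (q4 χ (D.H x) (D.H y) (D.H z) (D.H t) i)) 𝒰
          (𝓝 (N (-x) (-y) (-z) (-t))) := by
        refine (hN (-x) (-y) (-z) (-t)).congr fun i => ?_
        rw [conj_q4g, h]
      have h3 := tendsto_nhds_unique h1 h2
      rw [← h3, conj_conj]
    rw [cj (a - 1) b c d (by omega), cj a (b - 1) c d (by omega), cj a b (c - 1) d (by omega),
      cj a b c (d - 1) (by omega), ← map_add, ← map_add, ← map_add]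
    have h1 := up hθ hN (-a) (-b) (-c) (-d)
    have e1 : -(a - 1) = -a + 1 := by ring
    have e2 : -(b - 1) = -b + 1 := by ring
    have e3 : -(c - 1) = -c + 1 := by ring
    have e4 : -(d - 1) = -d + 1 := by ring
    rw [e1, e2, e3, e4, h1, map_zero]

/-- the centred harmonics of integer order -/
def Dat.WV (D : Dat ι) (l : ℤ) (i : ι) (w : ℂ) : ℂ :=
  D.γ w ^ l * (D.H l i w * D.H l i w) - (if l = 0 then 1 else 0)

theorem Dat.WV_sm (l : ℤ) (i : ι) : Sm (D.WV l i) :=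
  ((D.sm_g l).mul (((Dat.Bd.H l).1 i).mul ((Dat.Bd.H l).1 i))).sub (Sm.const _)

theorem Dat.WV_nat (l : ℕ) (i : ι) (w : ℂ) :
    D.WV l i w = D.W l i w - (if l = 0 then 1 else 0) := by
  rw [Dat.WV, Dat.W, Dat.H_nat, zpow_natCast]
  simp only [Nat.cast_eq_zero]

theorem Dat.conj_WV (l : ℤ) (i : ι) (w : ℂ) : conj (D.WV l i w) = D.WV (-l) i w := by
  rw [Dat.WV, Dat.WV, map_sub, map_mul, map_mul, Dat.conj_H, map_zpow₀, D.γreal]
  have e : D.γ w ^ l * ((-D.β w) ^ l * (-D.β w) ^ l) = D.γ w ^ (-l) := by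
    have h1 : (-D.β w) ≠ 0 := neg_ne_zero.2 (D.nb w)
    have h2 : D.γ w = (D.β w)⁻¹ := (inv_eq_of_mul_eq_one_right (D.βγ w)).symm
    rw [← zpow_add₀ h1, Even.neg_zpow ⟨l, rfl⟩, h2, inv_zpow, inv_zpow, ← zpow_neg,
      ← zpow_neg, ← zpow_add₀ (D.nb w)]
    congr 1
    ring
  have e2 : conj (if l = 0 then (1 : ℂ) else 0) = if -l = 0 then 1 else 0 := by
    by_cases h : l = 0
    · simp [h]
    · simp [h]
  rw [e2, ← e]
  ring

theorem WV_bd {χ : ℂ → ℂ} (hχ : D.Te χ) (l : ℕ) :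
    ∃ C : ℝ, ∀ i, ∫ z, ‖χ z * D.WV l i z‖ ^ 2 ≤ C := by
  have hG := Dat.Bd.G (D := D) l
  obtain ⟨C, hC⟩ := l2_bd hG hG hχ.cs hχ.sub (g := fun w => χ w * D.γ w ^ l)
    (hχ.sm.mul (D.hγ.pow l)).cont (fun w hw => by
      simp only [image_eq_zero_of_notMem_tsupport hw, zero_mul])
  set c : ℂ := if l = 0 then 1 else 0 with hc
  refine ⟨_, fun i => le_trans (le_of_eq ?_) (nrm_sum_le (A := fun w => (χ w * D.γ w ^ l) *
    (D.G l i w * D.G l i w)) (B := χ) ((hχ.sm.mul (D.hγ.pow l)).mul ((hG.1 i).mul (hG.1 i)))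
    hχ.sm hχ.cs.mul_right.mul_right hχ.cs (-c) (hC i) le_rfl)⟩
  refine integral_congr_ae (ae_of_all _ fun z => ?_)
  simp only [Dat.WV_nat, Dat.W]
  congr 2
  ring

theorem WV_null {𝒰 : Filter ι} (hE : D.Que 𝒰) {χ : ℂ → ℂ} (hχ : D.Te χ) (l : ℕ) :
    Tendsto (fun i => ∫ z, χ z * D.WV l i z) 𝒰 (𝓝 0) := by
  rcases Nat.eq_zero_or_pos l with hl | hl
  · subst hl
    have h1 := ((hE 0).zero χ hχ).sub_const (∫ w, χ w)
    rw [sub_self] at h1
    refine h1.congr fun i => ?_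
    have i1 : Integrable (fun w => χ w * (D.f i w * D.f i w)) :=
      (hχ.sm.mul ((D.hf i).mul (D.hf i))).int hχ.cs.mul_right
    rw [← integral_sub i1 (hχ.sm.int hχ.cs)]
    refine integral_congr_ae (ae_of_all _ fun z => ?_)
    simp only [Dat.WV_nat, Dat.W, pow_zero, one_mul, Dat.G_zero, if_true]
    ring
  · refine ((hE l).pos l hl le_rfl _ (hχ.mul (D.hγ.pow l))).congr fun i => ?_
    refine integral_congr_ae (ae_of_all _ fun z => ?_)
    simp only [Dat.WV_nat, Dat.W, if_neg hl.ne']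
    ring

theorem WV_nullZ {𝒰 : Filter ι} (hE : D.Que 𝒰) {χ : ℂ → ℂ} (hχ : D.Te χ) (l : ℤ) :
    Tendsto (fun i => ∫ z, χ z * D.WV l i z) 𝒰 (𝓝 0) := by
  obtain ⟨n, rfl | rfl⟩ := l.eq_nat_or_neg
  · exact WV_null hE hχ n
  · have h1 := (continuous_conj.tendsto _).comp (WV_null hE hχ.cj n)
    rw [map_zero] at h1
    refine h1.congr fun i => ?_
    simp only [Function.comp]
    rw [← integral_conj]
    refine integral_congr_ae (ae_of_all _ fun z => ?_)
    simp only [map_mul, conj_conj, Dat.conj_WV]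

/-- coupling of consecutive harmonics -/
theorem cpl_nat {𝒰 : Filter ι} (hE : D.Que 𝒰) {χ : ℂ → ℂ} (hχ : D.Te χ) {S : Set ℂ}
    (hS : tsupport χ ⊆ S) (l : ℕ) :
    Cpl 𝒰 S (fun i z => χ z * D.WV (l + 1 : ℤ) i z) (fun i z => χ z * D.WV l i z) := by
  have hz : ∀ z, z ∉ S → χ z = 0 := fun z hz => image_eq_zero_of_notMem_tsupport fun h => hz (hS h)
  have e0 : ((l : ℤ) + 1) = ((l + 1 : ℕ) : ℤ) := by push_cast; rfl
  rw [e0]
  refine ⟨fun i => hχ.sm.mul (Dat.WV_sm _ i), fun i => hχ.sm.mul (Dat.WV_sm _ i),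
    fun i z h => by rw [hz z h, zero_mul], fun i z h => by rw [hz z h, zero_mul], ?_,
    WV_bd hχ _, WV_bd hχ _, fun θ hθ _ => ?_, fun θ hθ _ => ?_⟩
  · obtain ⟨C, hC⟩ := eq_E l (if l = 0 then 1 else 0) hχ
    refine ⟨C, fun i => le_trans (le_of_eq ?_) (hC i)⟩
    have e1 : (fun z => χ z * D.WV ((l + 1 : ℕ) : ℤ) i z) = fun w => χ w * D.W (l + 1) i w := by
      ext w
      rw [Dat.WV_nat, if_neg (Nat.succ_ne_zero l), sub_zero]
    have e2 : (fun z => χ z * D.WV (l : ℤ) i z) =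
        fun w => χ w * (D.W l i w - (if l = 0 then 1 else 0)) := by
      ext w
      rw [Dat.WV_nat]
    simp only [e1, e2]
  · refine (WV_null hE (hχ.mul' hθ) (l + 1)).congr fun i => ?_
    exact integral_congr_ae (ae_of_all _ fun z => by simp only; ring)
  · refine (WV_null hE (hχ.mul' hθ) l).congr fun i => ?_
    exact integral_congr_ae (ae_of_all _ fun z => by simp only; ring)

theorem cpl_int {𝒰 : Filter ι} (hE : D.Que 𝒰) {χ : ℂ → ℂ} (hχ : D.Te χ) {S : Set ℂ}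
    (hS : tsupport χ ⊆ S) (l : ℤ) :
    Cpl 𝒰 S (fun i z => χ z * D.WV (l + 1) i z) (fun i z => χ z * D.WV l i z) := by
  rcases le_or_gt 0 l with h | h
  · obtain ⟨n, rfl⟩ := Int.eq_ofNat_of_zero_le h
    exact cpl_nat hE hχ hS n
  · obtain ⟨n, hn⟩ := Int.eq_ofNat_of_zero_le (show 0 ≤ -l - 1 by omega)
    have hS' : tsupport (fun w => conj (χ w)) ⊆ S := by
      refine (closure_mono ?_).trans hS
      intro w hw h0
      exact hw (by simp [h0])
    have h1 := (cpl_nat hE hχ.cj hS' n).cj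
    have e1 : (fun (i : ι) (z : ℂ) => conj (conj (χ z) * D.WV (n : ℤ) i z)) =
        fun i z => χ z * D.WV (l + 1) i z := by
      ext i z
      rw [map_mul, conj_conj, Dat.conj_WV]
      congr 2
      omega
    have e2 : (fun (i : ι) (z : ℂ) => conj (conj (χ z) * D.WV ((n : ℤ) + 1) i z)) =
        fun i z => χ z * D.WV l i z := by
      ext i z
      rw [map_mul, conj_conj, Dat.conj_WV]
      congr 2
      omega
    rw [e1, e2] at h1
    exact h1

/-- the correlations of two harmonics depend on the total order only -/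
theorem WV_lim {𝒰 : Ultrafilter ι} (hE : D.Que 𝒰) {χ : ℂ → ℂ} (hχ : D.Te χ) :
    ∃ T : ℤ → ℂ, ∀ l j : ℤ,
      Tendsto (fun i => ∫ z, χ z * (D.WV l i z * D.WV j i z)) 𝒰 (𝓝 (T (l + j))) := by
  obtain ⟨η, hη, hηc, hηV, hη01, O, hO, hKO, hOV, hη1⟩ := exists_cutoff hχ.cs D.hV hχ.sub
  set θ : ℂ → ℂ := fun z => ((η z : ℝ) : ℂ) with hθ
  have teθ : D.Te θ := by
    refine ⟨ofRealCLM.contDiff.comp hη, hηc.comp_left (g := fun x : ℝ => (x : ℂ)) (by simp), ?_⟩
    refine (closure_mono ?_).trans hηV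
    intro z hz h0
    exact hz (by simp [hθ, h0])
  have hmul : ∀ z, χ z * θ z = χ z := by
    intro z
    by_cases hz : z ∈ tsupport χ
    · simp only [hθ, hη1 z (hKO hz), ofReal_one, mul_one]
    · rw [image_eq_zero_of_notMem_tsupport hz, zero_mul]
  have hsub : tsupport χ ⊆ tsupport θ := by
    refine closure_mono fun z hz h0 => hz ?_
    rw [← hmul, h0, mul_zero]
  have hcj : ∀ z, conj (θ z) = θ z := fun z => conj_ofReal _
  have hpair : ∀ l j : ℤ, ∀ i, ∫ z, (χ z * D.WV l i z) * conj (θ z * D.WV j i z) =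
      ∫ z, χ z * (D.WV l i z * D.WV (-j) i z) := by
    intro l j i
    refine integral_congr_ae (ae_of_all _ fun z => ?_)
    simp only
    rw [map_mul, hcj, Dat.conj_WV]
    linear_combination (D.WV l i z * D.WV (-j) i z) * hmul z
  have hbd : ∀ l j : ℤ, ∃ x, Tendsto (fun i => ∫ z, χ z * (D.WV l i z * D.WV j i z)) 𝒰 (𝓝 x) := by
    intro l j
    obtain ⟨B1, b1⟩ := (cpl_int hE hχ hsub l).bQ
    obtain ⟨B2, b2⟩ := (cpl_int (𝒰 := (𝒰 : Filter ι)) hE teθ Subset.rfl (-j)).bQ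
    refine ulim 𝒰 (C := B1 + B2) fun i => ?_
    have e := hpair l (-j) i
    rw [neg_neg] at e
    rw [← e]
    have s1 := int_sq (hχ.sm.mul (Dat.WV_sm (D := D) l i)) (hχ.cs.mul_right (f' := D.WV l i))
    have s2 := int_sq (teθ.sm.mul (Dat.WV_sm (D := D) (-j) i))
      (teθ.cs.mul_right (f' := D.WV (-j) i))
    calc ‖∫ z, (χ z * D.WV l i z) * conj (θ z * D.WV (-j) i z)‖
        ≤ ∫ z, ‖(χ z * D.WV l i z) * conj (θ z * D.WV (-j) i z)‖ :=
          norm_integral_le_integral_norm _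
      _ ≤ ∫ z, (‖χ z * D.WV l i z‖ ^ 2 + ‖θ z * D.WV (-j) i z‖ ^ 2) := by
          refine integral_mono_of_nonneg (ae_of_all _ fun z => norm_nonneg _) (s1.add s2)
            (ae_of_all _ fun z => ?_)
          simp only
          rw [norm_mul, RCLike.norm_conj]
          nlinarith [sq_nonneg (‖χ z * D.WV l i z‖ - ‖θ z * D.WV (-j) i z‖),
            sq_nonneg (‖χ z * D.WV l i z‖ + ‖θ z * D.WV (-j) i z‖)]
      _ = (∫ z, ‖χ z * D.WV l i z‖ ^ 2) + ∫ z, ‖θ z * D.WV (-j) i z‖ ^ 2 := integral_add s1 s2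
      _ ≤ _ := add_le_add (b1 i) (b2 i)
  choose t ht using hbd
  have hstep : ∀ l j : ℤ, t (l + 1) (j - 1) = t l j := by
    intro l j
    have h1 := cpl_int (𝒰 := (𝒰 : Filter ι)) hE hχ hsub l
    have h2 := cpl_int (𝒰 := (𝒰 : Filter ι)) hE teθ (Subset.rfl : tsupport θ ⊆ tsupport θ) (-j)
    refine h1.pol teθ.cs h2 ?_ ?_
    · refine (ht (l + 1) (j - 1)).congr fun i => ?_
      rw [hpair (l + 1) (-j + 1) i]
      have e : -(-j + 1) = j - 1 := by ring
      rw [e]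
    · refine (ht l j).congr fun i => ?_
      rw [hpair l (-j) i, neg_neg]
  have hall : ∀ (s l j : ℤ), t (l + s) (j - s) = t l j := by
    intro s
    induction s using Int.induction_on with
    | zero => intro l j; simp
    | succ s ih =>
      intro l j
      have := hstep (l + s) (j - s)
      rw [ih] at this
      rw [← this]
      congr 1 <;> ring
    | pred s ih =>
      intro l j
      have := hstep (l + (-(s : ℤ) - 1)) (j - (-(s : ℤ) - 1))
      rw [← this]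
      have e1 : l + (-(s : ℤ) - 1) + 1 = l + -(s : ℤ) := by ring
      have e2 : j - (-(s : ℤ) - 1) - 1 = j - -(s : ℤ) := by ring
      rw [e1, e2, ih]
  refine ⟨fun k => t k 0, fun l j => ?_⟩
  have e := hall j l j
  rw [sub_self] at e
  simp only [e]
  exact ht l j

theorem int_add4' {F1 F2 F3 F4 : ℂ → ℂ} {a b c : ℂ} (h1 : Integrable F1) (h2 : Integrable F2)
    (h3 : Integrable F3) (h4 : Integrable F4) :
    ∫ w, (F1 w + a * F2 w + b * F3 w + c * F4 w) =
      (∫ w, F1 w) + a * (∫ w, F2 w) + b * (∫ w, F3 w) + c * ∫ w, F4 w := by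
  rw [int_add4 h1 (h2.const_mul a) (h3.const_mul b) (h4.const_mul c), integral_const_mul,
    integral_const_mul, integral_const_mul]

/-- the fourth order correlations of all weights -/
theorem full {𝒰 : Ultrafilter ι} (hκ : Tendsto D.κ 𝒰 (𝓝 0)) (hE : D.Que 𝒰) {ψ : ℂ → ℂ}
    (hψ : D.Te ψ) {M : ℤ → ℤ → ℤ → ℤ → ℂ}
    (hM : ∀ a b c d, Tendsto (q4 ψ (D.H a) (D.H b) (D.H c) (D.H d)) 𝒰 (𝓝 (M a b c d))) :
    ∃ C : ℤ → ℂ, C 0 = M 0 0 0 0 - 3 * ∫ z, ψ z ∧
      ∀ a b c d, M a b c d = mdl (∫ z, ψ z) C a b c d := by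
  have hR := rf_of_lim hκ hψ hM
  set v := ∫ z, ψ z with hv
  have hT : ∀ k : ℤ, ∃ T : ℤ → ℂ, ∀ l j : ℤ,
      Tendsto (fun i => ∫ z, (ψ z * D.γ z ^ (-k)) * (D.WV l i z * D.WV j i z)) 𝒰
        (𝓝 (T (l + j))) := fun k => WV_lim hE (hψ.mul (D.sm_g (-k)))
  choose T hT using hT
  -- identification
  have hval : ∀ l j : ℤ, M l l j j = T (l + j) (l + j) + (if l = 0 ∧ j = 0 then v else 0) := by
    intro l j
    set k := l + j with hk
    set χ : ℂ → ℂ := fun z => ψ z * D.γ z ^ (-k) with hχ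
    have hχt : D.Te χ := hψ.mul (D.sm_g (-k))
    have h1 := hT k l j
    have n1 := WV_nullZ hE hχt l
    have n2 := WV_nullZ hE hχt j
    -- `ψ H_l^2 H_j^2 = χ (WV_l + δ_l) (WV_j + δ_j)`
    have h2 := ((h1.add (n2.const_mul (if l = 0 then (1 : ℂ) else 0))).add
      (n1.const_mul (if j = 0 then (1 : ℂ) else 0))).add_const
      ((if l = 0 then (1 : ℂ) else 0) * (if j = 0 then 1 else 0) * ∫ z, χ z)
    rw [mul_zero, mul_zero, add_zero, add_zero] at h2
    have e1 : T k (l + j) + (if l = 0 then (1 : ℂ) else 0) * (if j = 0 then 1 else 0) *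
        ∫ z, χ z = T k k + (if l = 0 ∧ j = 0 then v else 0) := by
      rw [← hk]
      by_cases h0 : l = 0
      · by_cases h0' : j = 0
        · have hk0 : k = 0 := by omega
          simp only [h0, h0', if_true, and_self, one_mul]
          congr 1
          rw [hv]
          refine integral_congr_ae (ae_of_all _ fun z => ?_)
          simp only [hχ, hk0, neg_zero, zpow_zero, mul_one]
        · simp [h0, h0']
      · simp [h0]
    rw [e1] at h2
    refine tendsto_nhds_unique (hM l l j j) (h2.congr fun i => ?_)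
    have i1 : Integrable (fun z => χ z * (D.WV l i z * D.WV j i z)) :=
      (hχt.sm.mul ((Dat.WV_sm l i).mul (Dat.WV_sm j i))).int hχt.cs.mul_right
    have i2 : Integrable (fun z => χ z * D.WV j i z) :=
      (hχt.sm.mul (Dat.WV_sm j i)).int hχt.cs.mul_right
    have i3 : Integrable (fun z => χ z * D.WV l i z) :=
      (hχt.sm.mul (Dat.WV_sm l i)).int hχt.cs.mul_right
    have i4 := hχt.sm.int hχt.cs
    rw [q4, ← int_add4' i1 i2 i3 i4]
    refine integral_congr_ae (ae_of_all _ fun z => ?_)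
    simp only [Dat.WV, hχ]
    have hg : D.γ z ^ (-k) * (D.γ z ^ l * D.γ z ^ j) = 1 := by
      rw [← zpow_add₀ (D.ng z), ← zpow_add₀ (D.ng z), hk]
      have : -(l + j) + (l + j) = 0 := by ring
      rw [this, zpow_zero]
    linear_combination (ψ z * (D.H l i z * D.H l i z) * (D.H j i z * D.H j i z)) * hg
  have a1 : ∀ l : ℤ, l ≠ 0 → M l l (-l) (-l) = M 0 0 0 0 - v := by
    intro l hl
    rw [hval l (-l), hval 0 0]
    have e : l + -l = 0 := by ring
    have e' : (0 : ℤ) + 0 = 0 := rfl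
    rw [e, e']
    simp [hl]
  set T' : ℤ → ℂ := fun k => T k k with hT'
  have a2 : ∀ l j : ℤ, l + j ≠ 0 → M l l j j = T' (l + j) := by
    intro l j hlj
    rw [hval l j]
    have h : ¬ (l = 0 ∧ j = 0) := fun h => hlj (by rw [h.1, h.2]; rfl)
    simp [h, hT']
  exact hR.det (T := T') rfl a1 a2

end

end Pool.Agent.H486.QM
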