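import Pool.Agent.H486.QM.Full

/-!
# Fourth order jets of sequences
-/

set_option autoImplicit false

open MeasureTheory Complex Filter Topology Set Metric
open scoped ContDiff ComplexConjugate InnerProductSpace ENNReal Manifold Laplacian

namespace Pool.Agent.H486.QM

noncomputable section

/-- normalised derivatives: `∂^k` for `k ≥ 0` and `∂̄^|k|` for `k < 0` -/
def jet (ρ : ℂ → ℝ) (lam : ℝ) (f : ℂ → ℝ) (k : ℤ) (z : ℂ) : ℂ :=
  (2 / (Real.sqrt (ρ z * lam) : ℂ)) ^ k.natAbs *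
    (if 0 ≤ k then dz^[k.natAbs] (fun z => (f z : ℂ)) z
      else conj (dz^[k.natAbs] (fun z => (f z : ℂ)) z))

/-- signs of negative indices -/
def eps (k : ℤ) : ℂ := if 0 ≤ k then 1 else sg k

/-- pair covariance of jets -/
def dl (a b : ℤ) : ℂ := if a + b = 0 then 1 else 0

/-- Gaussian value -/
def wick (a b c d : ℤ) : ℂ := dl a b * dl c d + dl a c * dl b d + dl a d * dl b c

/-- plane wave value -/
def cJ (a b c d : ℤ) : ℂ := eps a * eps b * eps c * eps d * ee a b c d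

theorem eps_pr (a b : ℤ) : eps a * eps b * pr a b = dl a b := by
  rw [pr, dl]
  by_cases h : a + b = 0
  · rw [if_pos h, if_pos h]
    have hb : b = -a := by linarith
    subst hb
    have hs := sg_sq a
    rcases lt_trichotomy a 0 with h0 | h0 | h0
    · rw [eps, if_neg (by omega), eps, if_pos (by omega)]
      linear_combination hs
    · subst h0
      simp [eps, sg_zero]
    · rw [eps, if_pos (by omega), eps, if_neg (by omega), sg_neg]
      linear_combination hs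
  · rw [if_neg h, if_neg h, mul_zero]

theorem eps_Wk (a b c d : ℤ) : eps a * eps b * eps c * eps d * Wk a b c d = wick a b c d := by
  rw [wick, ← eps_pr a b, ← eps_pr c d, ← eps_pr a c, ← eps_pr b d, ← eps_pr a d, ← eps_pr b c, Wk]
  ring

theorem ee_odd {a b c d : ℤ} (h : Odd (a + b + c + d)) : ee a b c d = 0 := by
  have h1 : sg a * sg b * sg c * sg d = -1 := by
    rw [← sg_add, ← sg_add, ← sg_add, sg]
    exact h.neg_one_zpow
  rw [ee]
  rcases sg_cases a with ha | ha <;> rcases sg_cases b with hb | hb <;>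
    rcases sg_cases c with hc | hc <;> rcases sg_cases d with hd | hd <;>
    rw [ha, hb, hc, hd] at h1 ⊢ <;> first | (exfalso; norm_num at h1; done) | norm_num

theorem wick_ne {a b c d : ℤ} (h : a + b + c + d ≠ 0) : wick a b c d = 0 := by
  have key : ∀ x y z t : ℤ, x + y + z + t ≠ 0 → dl x y * dl z t = 0 := by
    intro x y z t h
    by_cases h1 : x + y = 0
    · rw [dl, dl, if_neg (show ¬ (z + t = 0) by omega), mul_zero]
    · rw [dl, if_neg h1, zero_mul]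
  rw [wick, key a b c d h, key a c b d (by omega), key a d b c (by omega)]
  ring

theorem eps_even {k : ℤ} (h : Even k) : eps k = 1 := by
  rw [eps]
  by_cases h0 : 0 ≤ k
  · rw [if_pos h0]
  · rw [if_neg h0, sg]
    exact h.neg_one_zpow

theorem cJ_top {k : ℤ} (h : Even k) : cJ k 0 0 0 = 1 := by
  have h1 : sg k = 1 := h.neg_one_zpow
  have h2 : eps 0 = 1 := by simp [eps]
  rw [cJ, ee_top, eps_even h, h1, h2]
  norm_num

variable {V : Set ℂ} {ρ : ℂ → ℝ} {lam : ℕ → ℝ} {f : ℕ → ℂ → ℝ}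

/-- the square root of the metric in the model -/
def rr (D : Dat ℕ) (z : ℂ) : ℂ := ((Real.sqrt (D.β z).re : ℝ) : ℂ)

theorem beta_re (D : Dat ℕ) (z : ℂ) : D.β z = (((D.β z).re : ℝ) : ℂ) :=
  (conj_eq_iff_re.1 (D.βreal z)).symm

theorem beta_pos (D : Dat ℕ) (hγ : ∀ z, 0 ≤ (D.γ z).re) (z : ℂ) : 0 < (D.β z).re := by
  have h1 := D.βγ z
  have h2 : D.γ z = (((D.γ z).re : ℝ) : ℂ) := (conj_eq_iff_re.1 (D.γreal z)).symm
  rw [beta_re D z, h2, ← ofReal_mul] at h1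
  have h3 : (D.β z).re * (D.γ z).re = 1 := by exact_mod_cast h1
  have h4 := hγ z
  by_contra hcon
  push Not at hcon
  nlinarith [mul_nonneg (neg_nonneg.2 hcon) h4]

theorem rr_sq (D : Dat ℕ) (hγ : ∀ z, 0 ≤ (D.γ z).re) (z : ℂ) : rr D z * rr D z = D.β z := by
  rw [rr, ← ofReal_mul, Real.mul_self_sqrt (beta_pos D hγ z).le, ← beta_re]

theorem rr_ne (D : Dat ℕ) (hγ : ∀ z, 0 ≤ (D.γ z).re) (z : ℂ) : rr D z ≠ 0 := by
  intro h
  have h1 := rr_sq D hγ z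
  rw [h, zero_mul] at h1
  exact D.nb z h1.symm

theorem sm_rr (D : Dat ℕ) (hγ : ∀ z, 0 ≤ (D.γ z).re) (k : ℤ) : Sm (fun z => rr D z ^ k) := by
  have h0 : ContDiff ℝ ∞ (fun z => (D.β z).re) := reCLM.contDiff.comp D.hβ
  have h1 : ContDiff ℝ ∞ (fun z => Real.sqrt (D.β z).re) := h0.sqrt fun z => (beta_pos D hγ z).ne'
  have h2 : ContDiff ℝ ∞ (fun z => (Real.sqrt (D.β z).re)⁻¹) :=
    h1.inv fun z => (Real.sqrt_pos.2 (beta_pos D hγ z)).ne'
  refine sm_zpow (g := rr D) (h := fun z => (((Real.sqrt (D.β z).re)⁻¹ : ℝ) : ℂ))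
    (ofRealCLM.contDiff.comp h1) (ofRealCLM.contDiff.comp h2) (fun z => ?_) k
  rw [rr, ← ofReal_mul, mul_inv_cancel₀ (Real.sqrt_pos.2 (beta_pos D hγ z)).ne', ofReal_one]

theorem jet_model {D : Dat ℕ} (hρ0 : ∀ z ∈ V, 0 < ρ z) (hl1 : ∀ n, 1 ≤ lam n) (hDV : D.V ⊆ V)
    (hγ : ∀ z, 0 ≤ (D.γ z).re)
    (hβ : ∀ z ∈ D.V, D.β z = ((ρ z / 4 : ℝ) : ℂ))
    (hG : ∀ l i, ∀ z ∈ D.V, D.G l i z =
        (((Real.sqrt (lam i))⁻¹ : ℝ) : ℂ) ^ l * dz^[l] (fun z => (f i z : ℂ)) z)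
    (k : ℤ) (n : ℕ) (z : ℂ) (hz : z ∈ D.V) :
    jet ρ (lam n) (f n) k z = eps k * rr D z ^ (-k) * D.H k n z := by
  have hr0 := rr_ne D hγ z
  have hρz := hρ0 z (hDV hz)
  have hlz : 0 < lam n := lt_of_lt_of_le one_pos (hl1 n)
  have hr : rr D z = ((Real.sqrt (ρ z) / 2 : ℝ) : ℂ) := by
    rw [rr, hβ z hz, ofReal_re, Real.sqrt_div' _ (by norm_num)]
    have : Real.sqrt 4 = 2 := by
      rw [show (4 : ℝ) = 2 ^ 2 by norm_num]; exact Real.sqrt_sq (by norm_num)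
    rw [this]
  have hfac : (2 / (Real.sqrt (ρ z * lam n) : ℂ)) = (rr D z)⁻¹ *
      (((Real.sqrt (lam n))⁻¹ : ℝ) : ℂ) := by
    rw [hr, Real.sqrt_mul hρz.le]
    have h1 : Real.sqrt (ρ z) ≠ 0 := (Real.sqrt_pos.2 hρz).ne'
    have h2 : Real.sqrt (lam n) ≠ 0 := (Real.sqrt_pos.2 hlz).ne'
    have h1' : ((Real.sqrt (ρ z) : ℝ) : ℂ) ≠ 0 := by exact_mod_cast h1
    have h2' : ((Real.sqrt (lam n) : ℝ) : ℂ) ≠ 0 := by exact_mod_cast h2
    push_cast
    field_simp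
  rw [jet, hfac, mul_pow]
  obtain ⟨m, rfl | rfl⟩ := k.eq_nat_or_neg
  · have h0 : (0 : ℤ) ≤ m := by omega
    rw [if_pos h0, eps, if_pos h0, Int.natAbs_natCast, Dat.H_nat, hG m n z hz, zpow_neg,
      zpow_natCast, inv_pow]
    ring
  · rcases Nat.eq_zero_or_pos m with hm | hm
    · subst hm
      simp only [Nat.cast_zero, neg_zero, Int.natAbs_zero, pow_zero, le_refl, if_true, eps,
        zpow_zero, one_mul]
      have e : D.H 0 = D.G 0 := Dat.H_nat 0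
      rw [e, hG 0 n z hz]
      simp
    · have h0 : ¬ (0 ≤ -(m : ℤ)) := by omega
      rw [if_neg h0, eps, if_neg h0, Int.natAbs_neg, Int.natAbs_natCast, Dat.H_neg, Dat.Hn,
        hG m n z hz, neg_neg, zpow_natCast, sg, zpow_neg, zpow_natCast, map_mul, map_pow,
        conj_ofReal]
      have h3 : ((-1 : ℂ) ^ m)⁻¹ * (-1) ^ m = 1 := inv_mul_cancel₀ (by
        exact pow_ne_zero _ (by norm_num))
      have h4 : (rr D z)⁻¹ ^ m = rr D z ^ m * D.γ z ^ m := by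
        rw [← mul_pow]
        congr 1
        have h5 := rr_sq D hγ z
        have h6 := D.βγ z
        rw [← h5] at h6
        field_simp
        linear_combination -h6
      rw [h4]
      linear_combination (-(rr D z ^ m * D.γ z ^ m * ((((Real.sqrt (lam n))⁻¹ : ℝ) : ℂ)) ^ m *
        conj (dz^[m] (fun z => (f n z : ℂ)) z))) * h3

/-- fourth order integral of jets -/
def P4 (ρ : ℂ → ℝ) (lam : ℕ → ℝ) (f : ℕ → ℂ → ℝ) (ψ : ℂ → ℝ) (a b c d : ℤ) (n : ℕ) : ℂ :=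
  ∫ z, (ψ z : ℂ) * (jet ρ (lam n) (f n) a z * jet ρ (lam n) (f n) b z *
    (jet ρ (lam n) (f n) c z * jet ρ (lam n) (f n) d z))

theorem P4_lim (hV : IsOpen V) (hρ : ContDiffOn ℝ ∞ ρ V) (hρ0 : ∀ z ∈ V, 0 < ρ z)
    (hl1 : ∀ n, 1 ≤ lam n) (hlam : Tendsto lam atTop atTop)
    (hf : ∀ n, ContDiffOn ℝ ∞ (f n) V)
    (heig : ∀ n, ∀ z ∈ V, -(Δ (f n)) z = lam n * ρ z * f n z) (hq : QueRaw V ρ lam f)
    (hbd : LocFour V f)
    {ψ : ℂ → ℝ} (hψ : ContDiff ℝ ∞ ψ) (hψc : HasCompactSupport ψ) (hψV : tsupport ψ ⊆ V)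
    {𝒰 : Ultrafilter ℕ} (h𝒰 : (𝒰 : Filter ℕ) ≤ atTop) (K : ℤ) :
    ∃ C : ℂ, ∀ a b c d, a + b + c + d = K → Tendsto (P4 ρ lam f ψ a b c d) 𝒰
      (𝓝 (wick a b c d * (∫ z, (ψ z : ℂ)) + cJ a b c d * C)) := by
  obtain ⟨D, hKD, hDV, hκ, hγ, -, hDf, hβ, hG, hW, -⟩ :=
    exists_model hV hρ hρ0 hl1 hf heig (𝒰 := atTop) hlam hbd hψc.isCompact hψV
  set χ : ℂ → ℂ := fun z => (ψ z : ℂ) * rr D z ^ (-K) with hχ
  have te0 : D.Te (fun z => ((ψ z : ℝ) : ℂ)) := by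
    refine ⟨ofRealCLM.contDiff.comp hψ, hψc.comp_left (g := fun x : ℝ => (x : ℂ)) (by simp), ?_⟩
    refine (closure_mono ?_).trans hKD
    intro z hz h0
    exact hz (by simp [h0])
  have te : D.Te χ := te0.mul (sm_rr D hγ (-K))
  obtain ⟨M, hM⟩ := exists_M (D := D) 𝒰 te
  obtain ⟨C, -, hC⟩ := full (hκ.mono_left h𝒰) (que_model hq hDV hW h𝒰) te hM
  refine ⟨C K, fun a b c d hK => ?_⟩
  have h1 := (hM a b c d).const_mul (eps a * eps b * eps c * eps d)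
  have e1 : eps a * eps b * eps c * eps d * M a b c d =
      wick a b c d * (∫ z, (ψ z : ℂ)) + cJ a b c d * C K := by
    rw [hC, mdl, hK, cJ, ← eps_Wk]
    by_cases h0 : K = 0
    · have : ∫ z, χ z = ∫ z, (ψ z : ℂ) := by
        refine integral_congr_ae (ae_of_all _ fun z => ?_)
        simp only [hχ, h0, neg_zero, zpow_zero, mul_one]
      rw [this]
      ring
    · have h2 : wick a b c d = 0 := wick_ne (by omega)
      have h3 := eps_Wk a b c d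
      rw [h2] at h3
      linear_combination ((∫ z, χ z) - ∫ z, (ψ z : ℂ)) * h3
  rw [e1] at h1
  refine h1.congr fun n => ?_
  rw [P4, q4, ← integral_const_mul]
  refine integral_congr_ae (ae_of_all _ fun z => ?_)
  simp only
  by_cases hz : z ∈ D.V
  · rw [jet_model hρ0 hl1 hDV hγ hβ hG a n z hz, jet_model hρ0 hl1 hDV hγ hβ hG b n z hz,
      jet_model hρ0 hl1 hDV hγ hβ hG c n z hz, jet_model hρ0 hl1 hDV hγ hβ hG d n z hz]
    have e2 : rr D z ^ (-K) = rr D z ^ (-a) * rr D z ^ (-b) * (rr D z ^ (-c) * rr D z ^ (-d)) := by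
      have h0 := rr_ne D hγ z
      rw [← zpow_add₀ h0, ← zpow_add₀ h0, ← zpow_add₀ h0, ← hK]
      congr 1
      ring
    simp only [hχ, e2]
    ring
  · have h0 : ψ z = 0 := image_eq_zero_of_notMem_tsupport fun h => hz (hKD h)
    simp only [hχ, h0, ofReal_zero, zero_mul, mul_zero]

/-- all fourth order correlations in terms of one per weight -/
theorem all_test (hV : IsOpen V) (hρ : ContDiffOn ℝ ∞ ρ V) (hρ0 : ∀ z ∈ V, 0 < ρ z)
    (hl1 : ∀ n, 1 ≤ lam n) (hlam : Tendsto lam atTop atTop)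
    (hf : ∀ n, ContDiffOn ℝ ∞ (f n) V)
    (heig : ∀ n, ∀ z ∈ V, -(Δ (f n)) z = lam n * ρ z * f n z) (hq : QueRaw V ρ lam f)
    (hbd : LocFour V f)
    {ψ : ℂ → ℝ} (hψ : ContDiff ℝ ∞ ψ) (hψc : HasCompactSupport ψ) (hψV : tsupport ψ ⊆ V)
    (a b c d : ℤ) :
    Tendsto (fun n => P4 ρ lam f ψ a b c d n -
      cJ a b c d * P4 ρ lam f ψ (a + b + c + d) 0 0 0 n) atTop
      (𝓝 ((wick a b c d - cJ a b c d * wick (a + b + c + d) 0 0 0) * ∫ z, (ψ z : ℂ))) := by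
  rw [tendsto_iff_ultrafilter]
  intro 𝒰 h𝒰
  obtain ⟨C, hC⟩ := P4_lim hV hρ hρ0 hl1 hlam hf heig hq hbd hψ hψc hψV h𝒰 (a + b + c + d)
  have h1 := hC a b c d rfl
  have h2 := hC (a + b + c + d) 0 0 0 (by ring)
  have h3 := h1.sub (h2.const_mul (cJ a b c d))
  have e : wick a b c d * (∫ z, (ψ z : ℂ)) + cJ a b c d * C - cJ a b c d *
      (wick (a + b + c + d) 0 0 0 * (∫ z, (ψ z : ℂ)) + cJ (a + b + c + d) 0 0 0 * C) =
      (wick a b c d - cJ a b c d * wick (a + b + c + d) 0 0 0) * ∫ z, (ψ z : ℂ) := by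
    rcases Int.even_or_odd (a + b + c + d) with h | h
    · rw [cJ_top h]; ring
    · have h0 : cJ a b c d = 0 := by rw [cJ, ee_odd h, mul_zero]
      rw [h0]; ring
  rw [e] at h3
  exact h3

end

end Pool.Agent.H486.QM
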