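import Pool.Agent.H486.QM.FullB

/-!
# A Gaussian fourth moment forces all fourth order correlations to be Gaussian
-/

set_option autoImplicit false

open MeasureTheory Complex Filter Topology Set Metric
open scoped ContDiff ComplexConjugate InnerProductSpace ENNReal Manifold Laplacian

namespace Pool.Agent.H486.QM

noncomputable section

section Pt

variable {ρ : ℂ → ℝ} {lam : ℝ} {f : ℂ → ℝ} {z : ℂ}

theorem jet_neg (k : ℤ) : jet ρ lam f (-k) z = conj (jet ρ lam f k z) := by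
  rw [jet, jet, Int.natAbs_neg, map_mul, map_pow, map_div₀, conj_ofReal]
  have h2 : conj (2 : ℂ) = 2 := by
    have := conj_ofReal (2 : ℝ)
    simpa using this
  rw [h2]
  congr 1
  rcases lt_trichotomy k 0 with h | h | h
  · rw [if_pos (by omega), if_neg (by omega), conj_conj]
  · subst h
    simp
  · rw [if_neg (by omega), if_pos (by omega)]

theorem nrm_jet (hρ : 0 < ρ z) (hl : 0 < lam) (k : ℤ) :
    ‖jet ρ lam f k z‖ ^ 2 = enr ρ lam f k.natAbs z := by
  have h1 : ‖jet ρ lam f k z‖ = (2 / Real.sqrt (ρ z * lam)) ^ k.natAbs *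
      ‖dz^[k.natAbs] (fun z => (f z : ℂ)) z‖ := by
    rw [jet, norm_mul, norm_pow, norm_div, norm_real, Real.norm_of_nonneg (Real.sqrt_nonneg _)]
    congr 1
    · norm_num
    · by_cases h : 0 ≤ k
      · rw [if_pos h]
      · rw [if_neg h, RCLike.norm_conj]
  rw [h1, mul_pow, enr, ← pow_mul, mul_comm k.natAbs 2, pow_mul, div_pow,
    Real.sq_sqrt (mul_pos hρ hl).le]
  norm_num

theorem jet_enr (hρ : 0 < ρ z) (hl : 0 < lam) (p : ℕ) :
    jet ρ lam f p z * jet ρ lam f (-p) z = (enr ρ lam f p z : ℂ) := by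
  rw [jet_neg, ← sq_eq, nrm_jet hρ hl, Int.natAbs_natCast]

theorem jet_sq (hρ : 0 < ρ z) (hl : 0 < lam) (p : ℕ) :
    jet ρ lam f p z * jet ρ lam f p z = harm ρ lam f p z := by
  have h0 : (0 : ℤ) ≤ p := by omega
  have h1 : (2 / (Real.sqrt (ρ z * lam) : ℂ)) ^ 2 = 4 / ((ρ z : ℂ) * lam) := by
    have h2 : Real.sqrt (ρ z * lam) ^ 2 = ρ z * lam := Real.sq_sqrt (mul_pos hρ hl).le
    have h3 : ((Real.sqrt (ρ z * lam) : ℝ) : ℂ) ^ 2 = (ρ z : ℂ) * lam := by
      exact_mod_cast congrArg (fun x : ℝ => (x : ℂ)) h2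
    rw [div_pow, h3]
    norm_num
  rw [jet, if_pos h0, Int.natAbs_natCast, harm, ← h1]
  generalize (2 / (Real.sqrt (ρ z * lam) : ℂ)) = c
  rw [← pow_mul, mul_comm 2 p, pow_mul]
  ring

end Pt

theorem eps_sq (k : ℤ) : eps k * eps k = 1 := by
  rw [eps]
  by_cases h : 0 ≤ k
  · rw [if_pos h, one_mul]
  · rw [if_neg h, sg_sq]

theorem cJ_pair (p k : ℤ) : cJ p (-p) k k = (sg p + 2 * sg k) / 3 := by
  have h1 := eps_pr p (-p)
  rw [pr, dl, if_pos (by ring), if_pos (by ring)] at h1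
  have h2 := eps_sq k
  have h3 := sg_sq p
  have h4 := sg_sq k
  have h5 : eps p * eps (-p) = sg p := by
    linear_combination (sg p) * h1 - (eps p * eps (-p)) * h3
  have h6 : ee p (-p) k k = (1 + 2 * (sg p * sg k)) / 3 := by
    rw [ee, sg_neg]
    linear_combination h3 / 6 + h4 / 6
  rw [cJ, h5, h6]
  linear_combination (sg p * (1 + 2 * (sg p * sg k)) / 3) * h2 + (2 / 3 * sg k) * h3

theorem sum_sg (J : ℕ) : ∑ j ∈ Finset.range (2 * J), sg ((j : ℤ) + 1) = 0 := by
  have h : ∀ j : ℕ, sg ((j : ℤ) + 1) = -((-1 : ℂ) ^ j) := by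
    intro j
    rw [sg_succ, sg, zpow_natCast]
  simp only [h, Finset.sum_neg_distrib]
  rw [neg_one_geom_sum, if_pos ⟨J, by ring⟩, neg_zero]

variable {V : Set ℂ} {ρ : ℂ → ℝ} {lam : ℕ → ℝ} {f : ℕ → ℂ → ℝ}

theorem jet_cont (hV : IsOpen V) (hρ : ContDiffOn ℝ ∞ ρ V) (hρ0 : ∀ z ∈ V, 0 < ρ z)
    (hl1 : ∀ n, 1 ≤ lam n) (hlam : Tendsto lam atTop atTop)
    (hf : ∀ n, ContDiffOn ℝ ∞ (f n) V)
    (heig : ∀ n, ∀ z ∈ V, -(Δ (f n)) z = lam n * ρ z * f n z)
    (hbd : LocFour V f) (n : ℕ) (k : ℤ) : ContinuousOn (jet ρ (lam n) (f n) k) V := by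
  intro z hz
  obtain ⟨K, hK, hzK, hKV⟩ := exists_compact_subset hV hz
  obtain ⟨D, hKD, hDV, -, hγ, -, -, hβ, hG, -, -⟩ :=
    exists_model hV hρ hρ0 hl1 hf heig (𝒰 := atTop) hlam hbd hK hKV
  have h1 : ContinuousAt (fun z => eps k * rr D z ^ (-k) * D.H k n z) z :=
    ((continuous_const.mul (sm_rr D hγ (-k)).cont).mul ((Dat.Bd.H k).1 n).cont).continuousAt
  have h2 : (fun z => eps k * rr D z ^ (-k) * D.H k n z) =ᶠ[𝓝 z] jet ρ (lam n) (f n) k := by
    filter_upwards [D.hV.mem_nhds (hKD (interior_subset hzK))] with u hu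
    rw [jet_model hρ0 hl1 hDV hγ hβ hG k n u hu]
  exact (h1.congr h2).continuousWithinAt

theorem pair_null (hl1 : ∀ n, 1 ≤ lam n) (hρ0 : ∀ z ∈ V, 0 < ρ z) (hq : QueRaw V ρ lam f)
    {ψ : ℂ → ℝ} (hψ : ContDiff ℝ ∞ ψ) (hψc : HasCompactSupport ψ) (hψV : tsupport ψ ⊆ V)
    {k : ℤ} (hk : k ≠ 0) : Tendsto (fun n => ∫ z, (ψ z : ℂ) *
      (jet ρ (lam n) (f n) k z * jet ρ (lam n) (f n) k z)) atTop (𝓝 0) := by
  have pos : ∀ m : ℕ, m ≠ 0 → Tendsto (fun n => ∫ z, (ψ z : ℂ) *
      (jet ρ (lam n) (f n) m z * jet ρ (lam n) (f n) m z)) atTop (𝓝 0) := by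
    intro m hm
    obtain ⟨j, rfl⟩ := Nat.exists_eq_succ_of_ne_zero hm
    refine (hq.2 j ψ hψ hψc hψV).congr fun n => ?_
    refine integral_congr_ae (ae_of_all _ fun z => ?_)
    simp only
    by_cases hz : z ∈ V
    · rw [jet_sq (hρ0 z hz) (lt_of_lt_of_le one_pos (hl1 n))]
    · rw [image_eq_zero_of_notMem_tsupport fun h => hz (hψV h)]
      simp
  obtain ⟨m, rfl | rfl⟩ := k.eq_nat_or_neg
  · exact pos m (by omega)
  · have h1 := (continuous_conj.tendsto _).comp (pos m (by omega))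
    rw [map_zero] at h1
    refine h1.congr fun n => ?_
    simp only [Function.comp]
    rw [← integral_conj]
    refine integral_congr_ae (ae_of_all _ fun z => ?_)
    simp only [map_mul, conj_ofReal, jet_neg]

theorem gauss_zero (hV : IsOpen V) (hρ : ContDiffOn ℝ ∞ ρ V) (hρ0 : ∀ z ∈ V, 0 < ρ z)
    (hl1 : ∀ n, 1 ≤ lam n) (hlam : Tendsto lam atTop atTop)
    (hf : ∀ n, ContDiffOn ℝ ∞ (f n) V)
    (heig : ∀ n, ∀ z ∈ V, -(Δ (f n)) z = lam n * ρ z * f n z) (hq : QueRaw V ρ lam f)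
    (hbd : LocFour V f)
    (hG : ∀ ψ : ℂ → ℝ, ContDiff ℝ ∞ ψ → HasCompactSupport ψ → tsupport ψ ⊆ V →
      Tendsto (fun n => ∫ z, ψ z * f n z ^ 4) atTop (𝓝 (3 * ∫ z, ψ z)))
    {ψ : ℂ → ℝ} (hψ : ContDiff ℝ ∞ ψ) (hψc : HasCompactSupport ψ) (hψV : tsupport ψ ⊆ V)
    {𝒰 : Ultrafilter ℕ} (h𝒰 : (𝒰 : Filter ℕ) ≤ atTop) {K : ℤ} (hK : Even K) {C : ℂ}
    (hC : ∀ a b c d, a + b + c + d = K → Tendsto (P4 ρ lam f ψ a b c d) 𝒰
      (𝓝 (wick a b c d * (∫ z, (ψ z : ℂ)) + cJ a b c d * C))) : C = 0 := by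
  rcases eq_or_ne K 0 with h0 | h0
  · subst h0
    have h1 := hC 0 0 0 0 rfl
    have h2 : Tendsto (P4 ρ lam f ψ 0 0 0 0) 𝒰 (𝓝 (((3 * ∫ z, ψ z : ℝ)) : ℂ)) := by
      have h3 := (continuous_ofReal.tendsto _).comp ((hG ψ hψ hψc hψV).mono_left h𝒰)
      refine h3.congr fun n => ?_
      simp only [Function.comp]
      rw [P4, ← integral_complex_ofReal]
      refine integral_congr_ae (ae_of_all _ fun z => ?_)
      simp only [jet, Int.natAbs_zero, pow_zero, le_refl, if_true, Function.iterate_zero, id]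
      push_cast
      ring
    have h3 := tendsto_nhds_unique h1 h2
    rw [cJ_top (by decide)] at h3
    have h4 : wick 0 0 0 0 = 3 := by
      simp [wick, dl]
      norm_num
    rw [h4, integral_complex_ofReal] at h3
    push_cast at h3
    linear_combination h3
  obtain ⟨k, hk⟩ := hK
  have hk0 : k ≠ 0 := by omega
  have jc := fun n k => jet_cont hV hρ hρ0 hl1 hlam hf heig hbd n k
  have ec := enr_cont hV hρ hρ0 hl1 hlam hf heig hbd
  obtain ⟨θ, hθ, hθc, hθV, hθ01, O, hO, hKO, hOV, hθ1⟩ := exists_cutoff hψc.isCompact hV hψV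
  have iiR : ∀ (g : ℂ → ℝ), ContDiff ℝ ∞ g → HasCompactSupport g → tsupport g ⊆ V →
      ∀ X : ℂ → ℝ, ContinuousOn X V → Integrable (fun z => g z * X z) := by
    intro g hg hgc hgV X hX
    have h4 : IntegrableOn (fun z => g z * X z) (tsupport g) :=
      (hg.continuous.continuousOn.mul (hX.mono hgV)).integrableOn_compact hgc
    rw [← integrableOn_iff_integrable_of_support_subset (s := tsupport g)]
    · exact h4
    · intro z hz
      by_contra hcon
      exact hz (by simp [image_eq_zero_of_notMem_tsupport hcon])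
  have iiC : ∀ X : ℂ → ℂ, ContinuousOn X V → Integrable (fun z => (ψ z : ℂ) * X z) := by
    intro X hX
    have h4 : IntegrableOn (fun z => (ψ z : ℂ) * X z) (tsupport ψ) :=
      ((continuous_ofReal.comp hψ.continuous).continuousOn.mul
        (hX.mono hψV)).integrableOn_compact hψc
    rw [← integrableOn_iff_integrable_of_support_subset (s := tsupport ψ)]
    · exact h4
    · intro z hz
      by_contra hcon
      exact hz (by simp [image_eq_zero_of_notMem_tsupport hcon])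
  set a := ∫ z, θ z ^ 2 with ha
  set b := ∫ z, ψ z ^ 2 with hb
  have sθ : ContDiff ℝ ∞ (fun z => θ z ^ 2) := hθ.pow 2
  have cθ : HasCompactSupport (fun z => θ z ^ 2) := by
    have : (fun z => θ z ^ 2) = fun z => θ z * θ z := by ext z; ring
    rw [this]; exact hθc.mul_left
  have tθ : tsupport (fun z => θ z ^ 2) ⊆ V := by
    have : (fun z => θ z ^ 2) = fun z => θ z * θ z := by ext z; ring
    rw [this]
    exact (closure_mono (Function.support_mul_subset_left θ θ)).trans hθV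
  have sψ : ContDiff ℝ ∞ (fun z => ψ z ^ 2) := hψ.pow 2
  have cψ : HasCompactSupport (fun z => ψ z ^ 2) := by
    have : (fun z => ψ z ^ 2) = fun z => ψ z * ψ z := by ext z; ring
    rw [this]; exact hψc.mul_left
  have tψ : tsupport (fun z => ψ z ^ 2) ⊆ V := by
    have : (fun z => ψ z ^ 2) = fun z => ψ z * ψ z := by ext z; ring
    rw [this]
    exact (closure_mono (Function.support_mul_subset_left ψ ψ)).trans hψV
  have hv : Tendsto (fun n => ∫ z, ψ z ^ 2 * (enr ρ (lam n) (f n) k.natAbs z *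
      enr ρ (lam n) (f n) k.natAbs z)) atTop (𝓝 (2 * b)) := by
    have h1 := corr_test hV hρ hρ0 hl1 hlam hf heig hq hbd sψ cψ tψ k.natAbs k.natAbs
    have h2 := hG _ sψ cψ tψ
    have h3 := h1.add h2
    have hkn : k.natAbs ≠ 0 := Int.natAbs_ne_zero.2 hk0
    simp only [rc, rd, if_true, if_neg hkn] at h3
    have e : -1 * (∫ z, ψ z ^ 2) + 3 * (∫ z, ψ z ^ 2) = 2 * b := by rw [hb]; ring
    rw [e] at h3
    refine h3.congr fun n => ?_
    ring
  -- the bound
  have key : ∀ m : ℕ, 0 < m → 2 / 3 * ‖C‖ ≤ (a / 4 + b) / m := by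
    intro m hm
    have hm' : (0 : ℝ) < m := by exact_mod_cast hm
    set J := m ^ 2 with hJ
    have hJ0 : 0 < J := by positivity
    have hJ' : (0 : ℝ) < J := by exact_mod_cast hJ0
    have hJm : (J : ℝ) = (m : ℝ) ^ 2 := by rw [hJ]; push_cast; rfl
    -- the average
    have hA : Tendsto (fun n => ∫ z, θ z ^ 2 * (avg ρ (lam n) (f n) J z - 1) ^ 2) atTop
        (𝓝 (1 / (2 * J) * a)) := by
      have h1 := avg_test hV hρ hρ0 hl1 hlam hf heig hq hbd sθ cθ tθ J hJ0
      have h2 := (hG _ sθ cθ tθ).const_mul (2 / 3)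
      have h3 := h1.add h2
      have e : -(2 - 1 / (2 * (J : ℝ))) * (∫ z, θ z ^ 2) + 2 / 3 * (3 * ∫ z, θ z ^ 2) =
          1 / (2 * J) * a := by rw [ha]; ring
      rw [e] at h3
      refine h3.congr fun n => ?_
      ring
    set L : ℕ → ℂ := fun n => ∫ z, (ψ z : ℂ) * (((avg ρ (lam n) (f n) J z - 1 : ℝ) : ℂ) *
      (jet ρ (lam n) (f n) k z * jet ρ (lam n) (f n) k z)) with hL
    have ac : ∀ n, ContinuousOn (fun z => avg ρ (lam n) (f n) J z) V := fun n =>
      (continuousOn_finsetSum _ fun j _ => ec n (j + 1)).div_const _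
    have hL1 : ∀ n, L n = 1 / (2 * J) * (∑ j ∈ Finset.range (2 * J),
        P4 ρ lam f ψ ((j : ℤ) + 1) (-((j : ℤ) + 1)) k k n) - ∫ z, (ψ z : ℂ) *
          (jet ρ (lam n) (f n) k z * jet ρ (lam n) (f n) k z) := by
      intro n
      have i1 : ∀ j : ℕ, Integrable (fun z => (ψ z : ℂ) * (jet ρ (lam n) (f n) ((j : ℤ) + 1) z *
          jet ρ (lam n) (f n) (-((j : ℤ) + 1)) z * (jet ρ (lam n) (f n) k z *
          jet ρ (lam n) (f n) k z))) := fun j =>
        iiC _ (((jc n _).mul (jc n _)).mul ((jc n _).mul (jc n _)))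
      have i2 : Integrable (fun z => (ψ z : ℂ) * (jet ρ (lam n) (f n) k z *
          jet ρ (lam n) (f n) k z)) := iiC _ ((jc n _).mul (jc n _))
      simp only [P4]
      rw [← integral_finsetSum _ fun j _ => i1 j, ← integral_const_mul]
      have i3 : Integrable (fun z => 1 / (2 * (J : ℂ)) * ∑ j ∈ Finset.range (2 * J),
          (ψ z : ℂ) * (jet ρ (lam n) (f n) ((j : ℤ) + 1) z *
          jet ρ (lam n) (f n) (-((j : ℤ) + 1)) z * (jet ρ (lam n) (f n) k z *
          jet ρ (lam n) (f n) k z))) := (integrable_finsetSum _ fun j _ => i1 j).const_mul _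
      rw [← integral_sub i3 i2]
      refine integral_congr_ae (ae_of_all _ fun z => ?_)
      simp only
      by_cases hz : z ∈ V
      · have e1 : ∀ j : ℕ, jet ρ (lam n) (f n) ((j : ℤ) + 1) z *
            jet ρ (lam n) (f n) (-((j : ℤ) + 1)) z = (enr ρ (lam n) (f n) (j + 1) z : ℂ) := by
          intro j
          have := jet_enr (f := f n) (hρ0 z hz) (lt_of_lt_of_le one_pos (hl1 n)) (j + 1)
          push_cast at this
          exact this
        simp only [e1, avg]
        rw [← Finset.mul_sum, ← Finset.sum_mul]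
        push_cast
        field_simp
      · rw [image_eq_zero_of_notMem_tsupport fun h => hz (hψV h)]
        simp
    have hL2 : Tendsto L 𝒰 (𝓝 (2 / 3 * sg k * C)) := by
      have h1 : Tendsto (fun n => ∑ j ∈ Finset.range (2 * J),
          P4 ρ lam f ψ ((j : ℤ) + 1) (-((j : ℤ) + 1)) k k n) 𝒰
          (𝓝 (∑ j ∈ Finset.range (2 * J), (sg ((j : ℤ) + 1) + 2 * sg k) / 3 * C)) := by
        refine tendsto_finsetSum _ fun j _ => ?_
        have h2 := hC ((j : ℤ) + 1) (-((j : ℤ) + 1)) k k (by omega)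
        rw [wick_ne (by omega), zero_mul, zero_add, cJ_pair] at h2
        exact h2
      have h2 := (h1.const_mul (1 / (2 * (J : ℂ)))).sub
        ((pair_null hl1 hρ0 hq hψ hψc hψV hk0).mono_left h𝒰)
      have hJc : (J : ℂ) ≠ 0 := by exact_mod_cast hJ0.ne'
      have e : 1 / (2 * (J : ℂ)) * (∑ j ∈ Finset.range (2 * J),
          (sg ((j : ℤ) + 1) + 2 * sg k) / 3 * C) - 0 = 2 / 3 * sg k * C := by
        rw [← Finset.sum_mul, ← Finset.sum_div, Finset.sum_add_distrib, sum_sg,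
          Finset.sum_const, Finset.card_range, nsmul_eq_mul]
        push_cast
        field_simp
        ring
      rw [e] at h2
      exact h2.congr fun n => (hL1 n).symm
    -- the estimate
    have hest : ∀ n, ‖L n‖ ≤ (m / 2) * (∫ z, θ z ^ 2 * (avg ρ (lam n) (f n) J z - 1) ^ 2) +
        1 / (2 * m) * ∫ z, ψ z ^ 2 * (enr ρ (lam n) (f n) k.natAbs z *
          enr ρ (lam n) (f n) k.natAbs z) := by
      intro n
      have i1 : Integrable (fun z => θ z ^ 2 * (avg ρ (lam n) (f n) J z - 1) ^ 2) :=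
        iiR _ sθ cθ tθ _ (((ac n).sub continuousOn_const).pow 2)
      have i2 : Integrable (fun z => ψ z ^ 2 * (enr ρ (lam n) (f n) k.natAbs z *
          enr ρ (lam n) (f n) k.natAbs z)) := iiR _ sψ cψ tψ _ ((ec n _).mul (ec n _))
      rw [← integral_const_mul, ← integral_const_mul,
        ← integral_add (i1.const_mul _) (i2.const_mul _)]
      refine (norm_integral_le_integral_norm _).trans ?_
      refine integral_mono_of_nonneg (ae_of_all _ fun z => norm_nonneg _)
        ((i1.const_mul _).add (i2.const_mul _)) (ae_of_all _ fun z => ?_)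
      simp only
      by_cases hz : z ∈ tsupport ψ
      · have hzV := hψV hz
        have e1 : ‖jet ρ (lam n) (f n) k z * jet ρ (lam n) (f n) k z‖ =
            enr ρ (lam n) (f n) k.natAbs z := by
          rw [norm_mul, ← sq, nrm_jet (hρ0 z hzV) (lt_of_lt_of_le one_pos (hl1 n))]
        rw [norm_mul, norm_mul, e1, norm_real, norm_real, hθ1 z (hKO hz), Real.norm_eq_abs,
          Real.norm_eq_abs]
        set x := |avg ρ (lam n) (f n) J z - 1| with hx
        set y := |ψ z| * enr ρ (lam n) (f n) k.natAbs z with hy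
        have e2 : (avg ρ (lam n) (f n) J z - 1) ^ 2 = x ^ 2 := (sq_abs _).symm
        have e3 : ψ z ^ 2 * (enr ρ (lam n) (f n) k.natAbs z *
            enr ρ (lam n) (f n) k.natAbs z) = y ^ 2 := by
          rw [hy, mul_pow, sq_abs]; ring
        rw [e2, e3]
        have e4 : |ψ z| * (x * enr ρ (lam n) (f n) k.natAbs z) = x * y := by rw [hy]; ring
        rw [e4]
        have h5 : 0 ≤ (m * x - y) ^ 2 / (2 * m) := by positivity
        have h6 : (m * x - y) ^ 2 / (2 * m) = m / 2 * x ^ 2 - x * y + 1 / (2 * m) * y ^ 2 := by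
          field_simp
          ring
        rw [h6] at h5
        linarith
      · rw [image_eq_zero_of_notMem_tsupport hz]
        have h9 : (0 : ℝ) ^ 2 * (enr ρ (lam n) (f n) k.natAbs z *
            enr ρ (lam n) (f n) k.natAbs z) = 0 := by ring
        rw [h9, ofReal_zero, zero_mul, norm_zero, mul_zero, add_zero]
        positivity
    have hlim := ((hA.const_mul ((m : ℝ) / 2)).add (hv.const_mul (1 / (2 * (m : ℝ))))).mono_left h𝒰
    have h7 := le_of_tendsto_of_tendsto' hL2.norm hlim hest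
    have h8 : ‖2 / 3 * sg k * C‖ = 2 / 3 * ‖C‖ := by
      rw [norm_mul, norm_mul]
      rcases sg_cases k with h | h <;> rw [h] <;> norm_num
    rw [h8] at h7
    refine h7.trans (le_of_eq ?_)
    rw [hJm]
    field_simp
    ring
  by_contra hne
  have hpos : 0 < ‖C‖ := norm_pos_iff.2 hne
  obtain ⟨m, hm⟩ := exists_nat_gt ((a / 4 + b) / (2 / 3 * ‖C‖))
  have h1 : 0 ≤ a := integral_nonneg fun z => sq_nonneg _
  have h2 : 0 ≤ b := integral_nonneg fun z => sq_nonneg _
  have hm0 : (0 : ℝ) < m := lt_of_le_of_lt (by positivity) hm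
  have h3 := key m (by exact_mod_cast hm0)
  rw [div_lt_iff₀ (by positivity)] at hm
  rw [le_div_iff₀ hm0] at h3
  linarith

end

end Pool.Agent.H486.QM
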