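import Pool.Agent.H486.QM.ThirdB

/-!
# Final forms for sequences
-/

set_option autoImplicit false

open MeasureTheory Complex Filter Topology Set Metric
open scoped ContDiff ComplexConjugate InnerProductSpace ENNReal Manifold Laplacian

namespace Pool.Agent.H486.QM

noncomputable section

variable {V : Set ℂ} {ρ : ℂ → ℝ} {lam : ℕ → ℝ} {f : ℕ → ℂ → ℝ}

/-- convergence of fourth moments implies boundedness -/
theorem locFour_of_lim (hV : IsOpen V) (hf : ∀ n, ContDiffOn ℝ ∞ (f n) V)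
    (hG : ∀ ψ : ℂ → ℝ, ContDiff ℝ ∞ ψ → HasCompactSupport ψ → tsupport ψ ⊆ V →
      Tendsto (fun n => ∫ z, ψ z * f n z ^ 4) atTop (𝓝 (3 * ∫ z, ψ z))) : LocFour V f := by
  intro K hK hKV
  obtain ⟨η, hη, hηc, hηV, hη01, O, hO, hKO, hOV, hη1⟩ := exists_cutoff hK hV hKV
  obtain ⟨C, hC⟩ := (hG η hη hηc hηV).bddAbove_range
  refine ⟨C, fun n => le_trans ?_ (hC ⟨n, rfl⟩)⟩
  have hint : Integrable (fun z => η z * f n z ^ 4) := by
    have h4 : IntegrableOn (fun z => η z * f n z ^ 4) (tsupport η) :=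
      (hη.continuous.continuousOn.mul
        (((hf n).continuousOn.mono hηV).pow 4)).integrableOn_compact hηc
    rw [← integrableOn_iff_integrable_of_support_subset (s := tsupport η)]
    · exact h4
    · intro z hz
      by_contra hcon
      exact hz (by simp [image_eq_zero_of_notMem_tsupport hcon])
  calc ∫ z in K, f n z ^ 4 = ∫ z in K, η z * f n z ^ 4 := by
        refine setIntegral_congr_fun hK.measurableSet fun z hz => ?_
        simp only [hη1 z (hKO hz), one_mul]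
    _ ≤ ∫ z, η z * f n z ^ 4 := by
        refine setIntegral_le_integral hint (ae_of_all _ fun z => ?_)
        exact mul_nonneg (hη01 z).1 (by positivity)

theorem all_seq (hV : IsOpen V) (hρ : ContDiffOn ℝ ∞ ρ V) (hρ0 : ∀ z ∈ V, 0 < ρ z)
    (hlam : Tendsto lam atTop atTop) (hf : ∀ n, ContDiffOn ℝ ∞ (f n) V)
    (heig : ∀ n, ∀ z ∈ V, -(Δ (f n)) z = lam n * ρ z * f n z) (hq : QueRaw V ρ lam f)
    (hbd : LocFour V f)
    {ψ : ℂ → ℝ} (hψ : ContDiff ℝ ∞ ψ) (hψc : HasCompactSupport ψ) (hψV : tsupport ψ ⊆ V)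
    (a b c d : ℤ) :
    Tendsto (fun n => P4 ρ lam f ψ a b c d n -
      cJ a b c d * P4 ρ lam f ψ (a + b + c + d) 0 0 0 n) atTop
      (𝓝 ((wick a b c d - cJ a b c d * wick (a + b + c + d) 0 0 0) * ∫ z, (ψ z : ℂ))) := by
  obtain ⟨lam', f', h1, h2, h3, h4, h5, h6, h7⟩ := fix_seq hlam hf heig hq hbd
  refine (all_test hV hρ hρ0 h1 h2 h3 h4 h5 h6 hψ hψc hψV a b c d).congr' ?_
  filter_upwards [h7] with n hn
  simp only [P4, hn.1, hn.2]

theorem gauss_seq (hV : IsOpen V) (hρ : ContDiffOn ℝ ∞ ρ V) (hρ0 : ∀ z ∈ V, 0 < ρ z)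
    (hlam : Tendsto lam atTop atTop) (hf : ∀ n, ContDiffOn ℝ ∞ (f n) V)
    (heig : ∀ n, ∀ z ∈ V, -(Δ (f n)) z = lam n * ρ z * f n z) (hq : QueRaw V ρ lam f)
    (hG : ∀ ψ : ℂ → ℝ, ContDiff ℝ ∞ ψ → HasCompactSupport ψ → tsupport ψ ⊆ V →
      Tendsto (fun n => ∫ z, ψ z * f n z ^ 4) atTop (𝓝 (3 * ∫ z, ψ z)))
    {ψ : ℂ → ℝ} (hψ : ContDiff ℝ ∞ ψ) (hψc : HasCompactSupport ψ) (hψV : tsupport ψ ⊆ V)
    (a b c d : ℤ) :
    Tendsto (P4 ρ lam f ψ a b c d) atTop (𝓝 (wick a b c d * ∫ z, (ψ z : ℂ))) := by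
  obtain ⟨lam', f', h1, h2, h3, h4, h5, h6, h7⟩ :=
    fix_seq hlam hf heig hq (locFour_of_lim hV hf hG)
  have hG' : ∀ ψ : ℂ → ℝ, ContDiff ℝ ∞ ψ → HasCompactSupport ψ → tsupport ψ ⊆ V →
      Tendsto (fun n => ∫ z, ψ z * f' n z ^ 4) atTop (𝓝 (3 * ∫ z, ψ z)) := by
    intro ψ a1 a2 a3
    refine (hG ψ a1 a2 a3).congr' ?_
    filter_upwards [h7] with n hn
    rw [hn.2]
  have key : Tendsto (P4 ρ lam' f' ψ a b c d) atTop (𝓝 (wick a b c d * ∫ z, (ψ z : ℂ))) := by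
    rw [tendsto_iff_ultrafilter]
    intro 𝒰 h𝒰
    obtain ⟨C, hC⟩ := P4_lim hV hρ hρ0 h1 h2 h3 h4 h5 h6 hψ hψc hψV h𝒰 (a + b + c + d)
    have e := hC a b c d rfl
    rcases Int.even_or_odd (a + b + c + d) with h | h
    · rw [gauss_zero hV hρ hρ0 h1 h2 h3 h4 h5 h6 hG' hψ hψc hψV h𝒰 h hC, mul_zero,
        add_zero] at e
      exact e
    · rw [cJ, ee_odd h, mul_zero, zero_mul, add_zero] at e
      exact e
  refine key.congr' ?_
  filter_upwards [h7] with n hn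
  simp only [P4, hn.1, hn.2]

theorem third_jets_seq (hV : IsOpen V) (hρ : ContDiffOn ℝ ∞ ρ V) (hρ0 : ∀ z ∈ V, 0 < ρ z)
    (hlam : Tendsto lam atTop atTop) (hf : ∀ n, ContDiffOn ℝ ∞ (f n) V)
    (heig : ∀ n, ∀ z ∈ V, -(Δ (f n)) z = lam n * ρ z * f n z) (hq : QueRaw V ρ lam f)
    (hbd : LocFour V f)
    {ψ : ℂ → ℝ} (hψ : ContDiff ℝ ∞ ψ) (hψc : HasCompactSupport ψ) (hψV : tsupport ψ ⊆ V)
    (a b c : ℤ) :
    Tendsto (fun n => ∫ z, (ψ z : ℂ) * (jet ρ (lam n) (f n) a z * jet ρ (lam n) (f n) b z *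
      jet ρ (lam n) (f n) c z)) atTop (𝓝 0) := by
  obtain ⟨lam', f', h1, h2, h3, h4, h5, h6, h7⟩ := fix_seq hlam hf heig hq hbd
  refine (third_jets hV hρ hρ0 h1 h2 h3 h4 h5 h6 hψ hψc hψV a b c).congr' ?_
  filter_upwards [h7] with n hn
  simp only [hn.1, hn.2]

end

end Pool.Agent.H486.QM
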