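import Mathlib

/-!
# A positivity argument for even sequences
-/

set_option autoImplicit false

open Finset

namespace Pool.Agent.H486.QM

theorem growth {E : ℤ → ℝ} {B : ℝ} (hB : ∀ n, |E n| ≤ B) (h0 : 0 ≤ E 0)
    (h : ∀ n, 2 * E n ^ 2 ≤ E 0 * (E 0 + E (2 * n))) : 0 ≤ E 0 + E 1 := by
  rcases h0.eq_or_lt with h1 | h1
  · have h2 := h 1
    rw [← h1, zero_mul] at h2
    have h3 : E 1 ^ 2 ≤ 0 := by linarith
    have h4 : E 1 = 0 := by
      have := le_antisymm h3 (sq_nonneg _)
      simpa using this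
    rw [← h1, h4, add_zero]
  · by_contra hc
    push Not at hc
    -- growth of the dyadic values
    have hy : ∀ k : ℕ, (4 : ℝ) ^ k * (E 2 - E 0) ≤ E (2 * 2 ^ k) - E 0 ∧
        0 < E (2 * 2 ^ k) - E 0 := by
      have h20 : 0 < E 2 - E 0 := by
        have h2 := h 1
        rw [mul_one] at h2
        have h3 : E 0 ^ 2 < E 1 ^ 2 := by nlinarith
        have h4 : 2 * E 0 ^ 2 < E 0 * (E 0 + E 2) := by linarith
        have h5 : 0 < E 0 * (E 2 - E 0) := by nlinarith
        exact (mul_pos_iff_of_pos_left h1).1 h5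
      intro k
      induction k with
      | zero => simpa using h20
      | succ k ih =>
        obtain ⟨i1, i2⟩ := ih
        have h2 := h (2 * 2 ^ k)
        have e : (2 : ℤ) * (2 * 2 ^ k) = 2 * 2 ^ (k + 1) := by rw [pow_succ]; ring
        rw [e] at h2
        set d := E (2 * 2 ^ k) - E 0 with hd
        have h3 : E (2 * 2 ^ k) = E 0 + d := by rw [hd]; ring
        rw [h3] at h2
        have h4 : 0 ≤ E 0 * ((E (2 * 2 ^ (k + 1)) - E 0) - 4 * d) := by nlinarith [sq_nonneg d]
        have h5 := (mul_nonneg_iff_of_pos_left h1).1 h4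
        refine ⟨?_, by linarith⟩
        rw [pow_succ]
        linarith
    have h20 := (hy 0).2
    simp only [pow_zero, mul_one] at h20
    obtain ⟨k, hk⟩ := pow_unbounded_of_one_lt ((B + |E 0|) / (E 2 - E 0)) (by norm_num : (1:ℝ) < 4)
    rw [div_lt_iff₀ h20] at hk
    have h3 := (hy k).1
    have h4 := le_abs_self (E (2 * 2 ^ k))
    have h5 := hB (2 * 2 ^ k)
    have h6 := neg_abs_le (E 0)
    linarith

section

variable (D : ℤ → ℝ) (v : ℝ) (L : ℕ)

/-- shifted double sums -/
def Esum (n : ℤ) : ℝ :=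
  ∑ j : Fin (L + 1), ∑ k : Fin (L + 1), (D (2 * ((j : ℕ) : ℤ) - 2 * ((k : ℕ) : ℤ) + n) - v)

/-- the nodes -/
def sj (L : ℕ) (j : Fin (L + 1)) : ℤ := 2 * ((j : ℕ) : ℤ) - L

theorem sj_rev (L : ℕ) (j : Fin (L + 1)) : sj L (Fin.rev j) = -sj L j := by
  have h := Fin.val_rev j
  have h2 := j.2
  simp only [sj, h]
  rw [Nat.cast_sub (by omega)]
  push_cast
  ring

variable {D}

theorem Esum_neg (hev : ∀ n, D (-n) = D n) (n : ℤ) : Esum D v L (-n) = Esum D v L n := by
  rw [Esum, Esum, sum_comm]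
  refine sum_congr rfl fun j _ => sum_congr rfl fun k _ => ?_
  rw [← hev]
  congr 2
  ring

theorem TT (hev : ∀ n, D (-n) = D n) (x y : ℤ) :
    ∑ j : Fin (L + 1), ∑ k : Fin (L + 1), ((D ((sj L j + x) + (sj L k + y)) +
      D ((sj L j + x) - (sj L k + y))) / 2 - v) =
      (Esum D v L (x + y) + Esum D v L (x - y)) / 2 := by
  have e1 : ∑ j : Fin (L + 1), ∑ k : Fin (L + 1), (D ((sj L j + x) + (sj L k + y)) - v) =
      Esum D v L (x + y) := by
    rw [Esum]
    refine sum_congr rfl fun j _ => ?_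
    rw [← Equiv.sum_comp Fin.revPerm]
    refine sum_congr rfl fun k _ => ?_
    rw [Fin.revPerm_apply, sj_rev]
    congr 2
    simp only [sj]
    ring
  have e2 : ∑ j : Fin (L + 1), ∑ k : Fin (L + 1), (D ((sj L j + x) - (sj L k + y)) - v) =
      Esum D v L (x - y) := by
    rw [Esum]
    refine sum_congr rfl fun j _ => sum_congr rfl fun k _ => ?_
    congr 2
    simp only [sj]
    ring
  rw [← e1, ← e2, ← sum_add_distrib, sum_div]
  refine sum_congr rfl fun j _ => ?_
  rw [← sum_add_distrib, sum_div]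
  refine sum_congr rfl fun k _ => ?_
  ring

theorem sharp_alg {B : ℝ} (hev : ∀ n, D (-n) = D n) (hB : ∀ n, |D n| ≤ B)
    (hodd : ∀ k : ℤ, D (2 * k + 1) = D 0 / 3)
    (pos : ∀ (m : ℕ) (p : Fin m → ℤ) (a : Fin m → ℝ),
      0 ≤ ∑ i, ∑ j, a i * a j * ((D (p i + p j) + D (p i - p j)) / 2 - v)) :
    0 ≤ (∑ j : Fin (L + 1), ∑ k : Fin (L + 1), (D (2 * ((j : ℕ) : ℤ) - 2 * ((k : ℕ) : ℤ)) - v)) +
      ((L : ℝ) + 1) ^ 2 * (D 0 / 3 - v) := by
  have pos' : ∀ (p : Fin (L + 1) × Fin 3 → ℤ) (a : Fin (L + 1) × Fin 3 → ℝ),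
      0 ≤ ∑ i, ∑ j, a i * a j * ((D (p i + p j) + D (p i - p j)) / 2 - v) := by
    intro p a
    have h := pos _ (fun i => p (finProdFinEquiv.symm i)) (fun i => a (finProdFinEquiv.symm i))
    have e := Equiv.sum_comp finProdFinEquiv.symm (fun i => ∑ j, a i * a j *
      ((D (p i + p j) + D (p i - p j)) / 2 - v))
    rw [← e]
    have e2 : ∀ i, ∑ j, a (finProdFinEquiv.symm i) * a j *
        ((D (p (finProdFinEquiv.symm i) + p j) + D (p (finProdFinEquiv.symm i) - p j)) / 2 - v) =
        ∑ j, a (finProdFinEquiv.symm i) * a (finProdFinEquiv.symm j) *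
        ((D (p (finProdFinEquiv.symm i) + p (finProdFinEquiv.symm j)) +
          D (p (finProdFinEquiv.symm i) - p (finProdFinEquiv.symm j))) / 2 - v) := fun i =>
      (Equiv.sum_comp finProdFinEquiv.symm (fun j => a (finProdFinEquiv.symm i) * a j *
        ((D (p (finProdFinEquiv.symm i) + p j) + D (p (finProdFinEquiv.symm i) - p j)) / 2
          - v))).symm
    simp only [e2]
    exact h
  have hquad : ∀ (n : ℤ) (t : ℝ), 0 ≤ Esum D v L 0 + 2 * t * Esum D v L n +
      t ^ 2 * ((Esum D v L 0 + Esum D v L (2 * n)) / 2) := by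
    intro n t
    set c : Fin 3 → ℤ := ![0, n, -n] with hc
    set b : Fin 3 → ℝ := ![1, t / 2, t / 2] with hb
    have h := pos' (fun i => sj L i.1 + c i.2) (fun i => b i.2)
    have e : ∑ i : Fin (L + 1) × Fin 3, ∑ j : Fin (L + 1) × Fin 3, b i.2 * b j.2 *
        ((D ((sj L i.1 + c i.2) + (sj L j.1 + c j.2)) +
          D ((sj L i.1 + c i.2) - (sj L j.1 + c j.2))) / 2 - v) =
        ∑ x : Fin 3, ∑ y : Fin 3, b x * b y *
          ((Esum D v L (c x + c y) + Esum D v L (c x - c y)) / 2) := by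
      rw [Fintype.sum_prod_type_right]
      refine sum_congr rfl fun x _ => ?_
      simp only [Fintype.sum_prod_type_right]
      rw [sum_comm]
      refine sum_congr rfl fun y _ => ?_
      rw [← TT v L hev]
      rw [mul_sum]
      refine sum_congr rfl fun j _ => ?_
      rw [mul_sum]
    rw [e] at h
    have en := Esum_neg v L hev n
    have e2n := Esum_neg v L hev (2 * n)
    simp only [Fin.sum_univ_three, hc, hb] at h
    simp only [Matrix.cons_val_zero, Matrix.cons_val_one, Matrix.cons_val] at h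
    have z1 : (0 : ℤ) + 0 = 0 := rfl
    have z2 : (0 : ℤ) - 0 = 0 := rfl
    have z3 : n + n = 2 * n := by ring
    have z4 : n - n = 0 := by ring
    have z5 : -n + -n = -(2 * n) := by ring
    have z6 : -n - -n = 0 := by ring
    have z7 : n + -n = 0 := by ring
    have z8 : n - -n = 2 * n := by ring
    have z9 : -n + n = 0 := by ring
    have z10 : -n - n = -(2 * n) := by ring
    have z11 : (0 : ℤ) + n = n := by ring
    have z12 : (0 : ℤ) - n = -n := by ring
    have z13 : (0 : ℤ) + -n = -n := by ring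
    have z14 : (0 : ℤ) - -n = n := by ring
    have z15 : n + 0 = n := by ring
    have z16 : n - 0 = n := by ring
    have z17 : -n + 0 = -n := by ring
    have z18 : -n - 0 = -n := by ring
    simp only [z1, z2, z3, z4, z5, z6, z7, z8, z9, z10, z11, z12, z13, z14, z15, z16, z17, z18,
      en, e2n] at h
    nlinarith
  have hdisc : ∀ n, 2 * Esum D v L n ^ 2 ≤
      Esum D v L 0 * (Esum D v L 0 + Esum D v L (2 * n)) := by
    intro n
    have h := discrim_le_zero (a := (Esum D v L 0 + Esum D v L (2 * n)) / 2)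
      (b := 2 * Esum D v L n) (c := Esum D v L 0) (fun t => by
        have := hquad n t
        nlinarith)
    rw [discrim] at h
    nlinarith
  have h00 : 0 ≤ Esum D v L 0 := by
    have := hquad 0 0
    simpa using this
  have hbd : ∀ n, |Esum D v L n| ≤ ((L : ℝ) + 1) ^ 2 * (B + |v|) := by
    intro n
    rw [Esum]
    refine (abs_sum_le_sum_abs _ _).trans ?_
    calc ∑ j : Fin (L + 1), |∑ k : Fin (L + 1),
          (D (2 * ((j : ℕ) : ℤ) - 2 * ((k : ℕ) : ℤ) + n) - v)|
        ≤ ∑ j : Fin (L + 1), ∑ k : Fin (L + 1), (B + |v|) := by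
          refine sum_le_sum fun j _ => (abs_sum_le_sum_abs _ _).trans ?_
          refine sum_le_sum fun k _ => ?_
          have := abs_sub (D (2 * ((j : ℕ) : ℤ) - 2 * ((k : ℕ) : ℤ) + n)) v
          linarith [hB (2 * ((j : ℕ) : ℤ) - 2 * ((k : ℕ) : ℤ) + n)]
      _ = _ := by
          simp only [sum_const, card_univ, Fintype.card_fin, nsmul_eq_mul]
          push_cast
          ring
  have hfin := growth hbd h00 hdisc
  have e0 : Esum D v L 0 = ∑ j : Fin (L + 1), ∑ k : Fin (L + 1),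
      (D (2 * ((j : ℕ) : ℤ) - 2 * ((k : ℕ) : ℤ)) - v) := by
    rw [Esum]
    simp only [add_zero]
  have e1 : Esum D v L 1 = ((L : ℝ) + 1) ^ 2 * (D 0 / 3 - v) := by
    rw [Esum]
    have : ∀ j k : Fin (L + 1), D (2 * ((j : ℕ) : ℤ) - 2 * ((k : ℕ) : ℤ) + 1) - v =
        D 0 / 3 - v := by
      intro j k
      rw [← hodd (((j : ℕ) : ℤ) - ((k : ℕ) : ℤ))]
      congr 2
      ring
    simp only [this, sum_const, card_univ, Fintype.card_fin, nsmul_eq_mul]
    push_cast
    ring
  rw [e0, e1] at hfin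
  exact hfin

end

end Pool.Agent.H486.QM
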