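import Pool.Agent.H486.QM.Fr
import Pool.Agent.H486.QM.Fin
import Pool.Agent.H486.QM.Grow

/-!
# Vectors of the harmonics and their weak limits
-/

set_option autoImplicit false

open MeasureTheory Complex Filter Topology Set Metric
open scoped ContDiff ComplexConjugate InnerProductSpace ENNReal

namespace Pool.Agent.H486.QM

noncomputable section

universe u

section Abs

variable {H : Type*} [NormedAddCommGroup H] [InnerProductSpace ℂ H] {ι : Type*}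

/-- bounded families in a Hilbert space converge weakly along ultrafilters -/
theorem exists_weak [CompleteSpace H] (𝒰 : Ultrafilter ι) (x : ι → H) {C : ℝ}
    (hb : ∀ i, ‖x i‖ ≤ C) :
    ∃ u : H, ∀ h, Tendsto (fun i => ⟪h, x i⟫_ℂ) 𝒰 (𝓝 ⟪h, u⟫_ℂ) := by
  have h1 : ∀ h : H, ∃ y, Tendsto (fun i => ⟪x i, h⟫_ℂ) 𝒰 (𝓝 y) := by
    intro h
    refine ulim 𝒰 (C := C * ‖h‖) fun i => ?_
    exact (norm_inner_le_norm _ _).trans (mul_le_mul_of_nonneg_right (hb i) (norm_nonneg _))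
  choose ℓ hℓ using h1
  have hadd : ∀ a b, ℓ (a + b) = ℓ a + ℓ b := by
    intro a b
    refine tendsto_nhds_unique (hℓ (a + b)) (((hℓ a).add (hℓ b)).congr fun i => ?_)
    rw [inner_add_right]
  have hsmul : ∀ (c : ℂ) (a : H), ℓ (c • a) = c • ℓ a := by
    intro c a
    refine tendsto_nhds_unique (hℓ (c • a)) (((hℓ a).const_mul c).congr fun i => ?_)
    rw [inner_smul_right]
  have hbd : ∀ a, ‖ℓ a‖ ≤ C * ‖a‖ := by
    intro a
    refine le_of_tendsto' (hℓ a).norm fun i => ?_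
    exact (norm_inner_le_norm _ _).trans (mul_le_mul_of_nonneg_right (hb i) (norm_nonneg _))
  set φ : H →L[ℂ] ℂ := LinearMap.mkContinuous
    { toFun := ℓ, map_add' := hadd, map_smul' := by intro c a; simpa using hsmul c a } C hbd
    with hφ
  refine ⟨(InnerProductSpace.toDual ℂ H).symm φ, fun h => ?_⟩
  have h2 : ⟪(InnerProductSpace.toDual ℂ H).symm φ, h⟫_ℂ = ℓ h := by
    rw [InnerProductSpace.toDual_symm_apply]
    rfl
  have h3 := (continuous_conj.tendsto _).comp (hℓ h)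
  rw [← h2, inner_conj_symm] at h3
  refine h3.congr fun i => ?_
  simp only [Function.comp, inner_conj_symm]

theorem ext_basis [CompleteSpace H] {α : Type*} (b : HilbertBasis α ℂ H) {x y : H}
    (h : ∀ n, ⟪b n, x⟫_ℂ = ⟪b n, y⟫_ℂ) : x = y := by
  have h1 := hb_sq b (x - y)
  have h2 : (fun n => ‖⟪b n, x - y⟫_ℂ‖ ^ 2) = fun _ => (0 : ℝ) := by
    ext n
    rw [inner_sub_right, h n, sub_self]
    simp
  rw [h2] at h1
  have h3 := h1.unique hasSum_zero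
  have h4 : ‖x - y‖ = 0 := by simpa using h3
  exact sub_eq_zero.1 (norm_eq_zero.1 h4)

end Abs

theorem Sm.memLp {F : ℂ → ℂ} (hF : Sm F) (hc : HasCompactSupport F) : MemLp F 2 volume :=
  hF.cont.memLp_of_hasCompactSupport hc

variable {ι : Type u} {D : Dat ι}

/-- a nonnegative test function together with a frame containing its support -/
structure Fra (D : Dat ι) where
  χ : ℂ → ℂ
  te : D.Te χ
  re : ∀ w, conj (χ w) = χ w
  nn : ∀ w, 0 ≤ (χ w).re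
  k : ℝ
  c : ℂ
  kpos : 0 < k
  sq : ∀ w, w ∉ SQ → c + k * w ∉ tsupport χ
  θ : ℂ → ℂ
  θsm : Sm θ
  θcs : HasCompactSupport θ
  θ1 : ∀ w ∈ tsupport χ, θ w = 1

theorem exists_Fra {χ : ℂ → ℂ} (te : D.Te χ) (re : ∀ w, conj (χ w) = χ w)
    (nn : ∀ w, 0 ≤ (χ w).re) : ∃ F : Fra D, F.χ = χ := by
  obtain ⟨k, c, hk, hsq⟩ := exists_frame te.cs
  obtain ⟨θ, hθ, hθc, hθ1⟩ := exists_test te.cs
  exact ⟨⟨χ, te, re, nn, k, c, hk, hsq, θ, hθ, hθc, hθ1⟩, rfl⟩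

namespace Fra

variable (F : Fra D)

theorem Sm.mulL {X : ℂ → ℂ} (hX : Sm X) : MemLp (fun w => F.χ w * X w) 2 volume :=
  Sm.memLp (F.te.sm.mul hX) F.te.cs.mul_right

theorem zero_out (g : ℂ → ℂ) : ∀ z, z ∉ tsupport F.χ → F.χ z * g z = 0 := fun z hz => by
  rw [image_eq_zero_of_notMem_tsupport hz, zero_mul]

/-- the vector of `χ X` -/
def vX (X : ℂ → ℂ) (hX : MemLp (fun w => F.χ w * X w) 2 volume) : HT :=
  vec F.k F.c F.kpos (fun w => F.χ w * X w) hX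

/-- the vector of the harmonics -/
def vW (l : ℕ) (i : ι) : HT := F.vX (D.W l i) (Sm.mulL F (D.W_sm l i))

/-- the vector of the energies -/
def vK (x : ℤ) (i : ι) : HT := F.vX (D.kk x i) (Sm.mulL F (D.kk_sm x i))

theorem inner_vX {X Y : ℂ → ℂ} (hX : MemLp (fun w => F.χ w * X w) 2 volume)
    (hY : MemLp (fun w => F.χ w * Y w) 2 volume) :
    ⟪F.vX X hX, F.vX Y hY⟫_ℂ = ((F.k ^ 2)⁻¹ : ℝ) * ∫ w, conj (F.χ w * X w) * (F.χ w * Y w) :=
  inner_vec F.sq hX hY (F.zero_out X)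

theorem norm_vX {X : ℂ → ℂ} (hX : MemLp (fun w => F.χ w * X w) 2 volume) :
    ‖F.vX X hX‖ ^ 2 = (F.k ^ 2)⁻¹ * ∫ w, ‖F.χ w * X w‖ ^ 2 :=
  norm_vec F.sq hX (F.zero_out X)

/-- the test function computing a coefficient -/
def tst (n : Fin 2 → ℤ) (z : ℂ) : ℂ := F.χ z * (aff (-F.c / F.k) (1 / F.k) (ch n) z * F.θ z)

theorem tst_te (n : Fin 2 → ℤ) : D.Te (F.tst n) := F.te.mul (((sm_ch n).aff _ _).mul F.θsm)

theorem basis_vX {X : ℂ → ℂ} (hX : MemLp (fun w => F.χ w * X w) 2 volume) (n : Fin 2 → ℤ) :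
    ⟪UnitAddTorus.mFourierBasis n, F.vX X hX⟫_ℂ =
      ((F.k ^ 2)⁻¹ : ℝ) • ∫ z, F.tst n z * X z := by
  rw [vX, basis_vec F.sq hX (F.zero_out X) F.θ1 n]
  congr 1
  refine integral_congr_ae (ae_of_all _ fun w => ?_)
  simp only [tst]
  ring

theorem coeff_vX {X : ℂ → ℂ} (hX : MemLp (fun w => F.χ w * X w) 2 volume) (n : Fin 2 → ℤ) :
    ⟪UnitAddTorus.mFourierBasis n, F.vX X hX⟫_ℂ = cf (aff F.c F.k (fun w => F.χ w * X w)) n := by
  rw [vX, vec, coeff_rp (P := aff F.c F.k (fun w => F.χ w * X w))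
    (fun z hz => F.zero_out _ _ (F.sq z hz))]

theorem norm_vW_bd (l : ℕ) : ∃ C : ℝ, ∀ i, ‖F.vW l i‖ ≤ C := by
  have hb := Dat.Bd.G (D := D) l
  obtain ⟨C, hC⟩ := l2_bd hb hb F.te.cs F.te.sub (g := fun w => F.χ w * D.γ w ^ l)
    (F.te.sm.mul (D.hγ.pow l)).cont (fun w hw => by
      simp only [image_eq_zero_of_notMem_tsupport hw, zero_mul])
  refine ⟨(F.k ^ 2)⁻¹ * C + 1, fun i => ?_⟩
  have h1 : ‖F.vW l i‖ ^ 2 ≤ (F.k ^ 2)⁻¹ * C := by
    rw [vW, F.norm_vX]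
    have hk : 0 ≤ (F.k ^ 2)⁻¹ := by positivity
    refine mul_le_mul_of_nonneg_left (le_trans (le_of_eq ?_) (hC i)) hk
    refine integral_congr_ae (ae_of_all _ fun w => ?_)
    simp only [Dat.W]
    congr 2
    ring
  nlinarith [norm_nonneg (F.vW l i), sq_nonneg (‖F.vW l i‖ - 1)]

theorem norm_vK_bd (x : ℤ) : ∃ C : ℝ, ∀ i, ‖F.vK x i‖ ≤ C := by
  obtain ⟨C, hC⟩ := l2_bd (Dat.Bd.H (D := D) x) (Dat.Bd.H (-x)) F.te.cs F.te.sub
    (g := fun w => F.χ w * (-1) ^ x) (F.te.sm.mul (Sm.const _)).cont (fun w hw => by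
      simp only [image_eq_zero_of_notMem_tsupport hw, zero_mul])
  refine ⟨(F.k ^ 2)⁻¹ * C + 1, fun i => ?_⟩
  have h1 : ‖F.vK x i‖ ^ 2 ≤ (F.k ^ 2)⁻¹ * C := by
    rw [vK, F.norm_vX]
    have hk : 0 ≤ (F.k ^ 2)⁻¹ := by positivity
    refine mul_le_mul_of_nonneg_left (le_trans (le_of_eq ?_) (hC i)) hk
    refine integral_congr_ae (ae_of_all _ fun w => ?_)
    simp only [Dat.kk]
    congr 2
    ring
  nlinarith [norm_nonneg (F.vK x i), sq_nonneg (‖F.vK x i‖ - 1)]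

/-- the total set of basis vectors upgrades convergence to weak convergence -/
theorem weak_up {𝒰 : Filter ι} {x : ι → HT} {x0 : HT} {C : ℝ} (hb : ∀ i, ‖x i‖ ≤ C)
    (h : ∀ n : Fin 2 → ℤ, Tendsto (fun i => ⟪UnitAddTorus.mFourierBasis n, x i⟫_ℂ) 𝒰
      (𝓝 ⟪UnitAddTorus.mFourierBasis n, x0⟫_ℂ)) (h' : HT) :
    Tendsto (fun i => ⟪h', x i⟫_ℂ) 𝒰 (𝓝 ⟪h', x0⟫_ℂ) :=
  weak_of_total x x0 (Eventually.of_forall hb) (UnitAddTorus.mFourierBasis (d := Fin 2)).dense_span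
    (by rintro s ⟨n, rfl⟩; exact h n) h'

/-- the comparison of consecutive harmonics -/
theorem chain {𝒰 : Filter ι} [NeBot 𝒰] (l : ℕ) {u u' : HT}
    (hu : ∀ h, Tendsto (fun i => ⟪h, F.vW l i⟫_ℂ) 𝒰 (𝓝 ⟪h, u⟫_ℂ))
    (hu' : ∀ h, Tendsto (fun i => ⟪h, F.vW (l + 1) i⟫_ℂ) 𝒰 (𝓝 ⟪h, u'⟫_ℂ)) {x x' : ℝ}
    (hx : Tendsto (fun i => ‖F.vW l i‖ ^ 2) 𝒰 (𝓝 x))
    (hx' : Tendsto (fun i => ‖F.vW (l + 1) i‖ ^ 2) 𝒰 (𝓝 x')) :
    x' - ‖u'‖ ^ 2 ≤ x - ‖u‖ ^ 2 ∧ x - ‖u‖ ^ 2 ≤ x' - ‖u'‖ ^ 2 := by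
  obtain ⟨C, hC⟩ := eq_E l 0 F.te
  simp only [sub_zero] at hC
  set P : ι → ℂ → ℂ := fun i w => F.χ w * D.W (l + 1) i w with hP
  set Q : ι → ℂ → ℂ := fun i w => F.χ w * D.W l i w with hQ
  have sP : ∀ i, Sm (P i) := fun i => F.te.sm.mul (D.W_sm _ i)
  have sQ : ∀ i, Sm (Q i) := fun i => F.te.sm.mul (D.W_sm _ i)
  have zP : ∀ i z, z ∉ SQ → aff F.c F.k (P i) z = 0 := fun i z hz => by
    simp only [aff]; exact F.zero_out _ _ (F.sq z hz)
  have zQ : ∀ i z, z ∉ SQ → aff F.c F.k (Q i) z = 0 := fun i z hz => by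
    simp only [aff]; exact F.zero_out _ _ (F.sq z hz)
  set E : ι → ℂ → ℂ := fun i z => dzb (aff F.c F.k (P i)) z + dz (aff F.c F.k (Q i)) z with hE
  have sE : ∀ i, Sm (E i) := fun i => ((sP i).aff _ _).db.add ((sQ i).aff _ _).d
  have cP : ∀ i, HasCompactSupport (aff F.c F.k (P i)) := fun i => cs_of_SQ (zP i)
  have cQ : ∀ i, HasCompactSupport (aff F.c F.k (Q i)) := fun i => cs_of_SQ (zQ i)
  have hEe : ∀ i z, E i z = F.k * aff F.c F.k (fun z => dzb (P i) z + dz (Q i) z) z := by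
    intro i z
    simp only [hE]
    rw [dzb_aff (sP i), dz_aff (sQ i)]
    simp only [aff]
    ring
  have hsupp : ∀ g : ℂ → ℂ, tsupport (fun w => F.χ w * g w) ⊆ tsupport F.χ := fun g =>
    closure_mono (Function.support_mul_subset_left F.χ g)
  have zE : ∀ i z, z ∉ SQ → E i z = 0 := by
    intro i z hz
    rw [hEe]
    simp only [aff]
    have h1 := F.sq z hz
    rw [(dz_notMem (χ := P i) fun h => h1 (hsupp _ h)).2,
      (dz_notMem (χ := Q i) fun h => h1 (hsupp _ h)).1]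
    ring
  have hEn : ∀ i, ∫ z, ‖E i z‖ ^ 2 ≤ C := by
    intro i
    have e4 : ∀ z, ‖E i z‖ ^ 2 =
        F.k ^ 2 * ‖aff F.c F.k (fun z => dzb (P i) z + dz (Q i) z) z‖ ^ 2 := by
      intro z
      rw [hEe, norm_mul, norm_real, Real.norm_of_nonneg F.kpos.le, mul_pow]
    have e5 : ∫ z, ‖aff F.c F.k (fun z => dzb (P i) z + dz (Q i) z) z‖ ^ 2 =
        (F.k ^ 2)⁻¹ * ∫ z, ‖dzb (P i) z + dz (Q i) z‖ ^ 2 :=
      int_aff (fun z => ‖dzb (P i) z + dz (Q i) z‖ ^ 2) F.c F.kpos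
    have hk : F.k ^ 2 ≠ 0 := by have := F.kpos; positivity
    rw [integral_congr_ae (ae_of_all _ e4), integral_const_mul, e5, ← mul_assoc,
      mul_inv_cancel₀ hk, one_mul]
    exact hC i
  have hpi : (1 : ℝ) ≤ ‖(Real.pi * I : ℂ)‖ := by
    rw [norm_mul, norm_I, mul_one, norm_real, Real.norm_of_nonneg Real.pi_pos.le]
    linarith [Real.pi_gt_three]
  have rel : ∀ i n, cf (E i) n = (Real.pi * I : ℂ) *
      (nu n * ⟪UnitAddTorus.mFourierBasis n, F.vW (l + 1) i⟫_ℂ +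
        conj (nu n) * ⟪UnitAddTorus.mFourierBasis n, F.vW l i⟫_ℂ) := by
    intro i n
    have e1 : ⟪UnitAddTorus.mFourierBasis n, F.vW (l + 1) i⟫_ℂ = cf (aff F.c F.k (P i)) n :=
      F.coeff_vX _ n
    have e2 : ⟪UnitAddTorus.mFourierBasis n, F.vW l i⟫_ℂ = cf (aff F.c F.k (Q i)) n :=
      F.coeff_vX _ n
    rw [e1, e2, hE]
    rw [cf_add ((sP i).aff _ _).db (cs_dzb (cP i)) ((sQ i).aff _ _).d (cs_dz (cQ i)),
      cf_dzb ((sP i).aff _ _) (cP i), cf_dz ((sQ i).aff _ _) (cQ i)]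
    ring
  have hsum : ∀ i (s : Finset (Fin 2 → ℤ)), ∑ n ∈ s, ‖cf (E i) n‖ ^ 2 ≤ C := by
    intro i s
    exact (sum_le_hasSum s (fun _ _ => by positivity) (parseval (sE i).cont (zE i))).trans (hEn i)
  constructor
  · exact comp_gen UnitAddTorus.mFourierBasis (fun i => F.vW (l + 1) i) (fun i => F.vW l i) u' u
      (fun i n => cf (E i) n) hpi nu (fun R n hn => le_nu hn) rel hsum (fun n => hu' _)
      (fun n => hu _) hx' hx
  · refine comp_gen UnitAddTorus.mFourierBasis (fun i => F.vW l i) (fun i => F.vW (l + 1) i) u u'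
      (fun i n => cf (E i) n) hpi (fun n => conj (nu n)) (fun R n hn => ?_) (fun i n => ?_) hsum
      (fun n => hu _) (fun n => hu' _) hx hx'
    · rw [RCLike.norm_conj]
      exact le_nu hn
    · rw [rel, conj_conj]
      ring

end Fra

end

end Pool.Agent.H486.QM
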