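import Pool.Agent.H486.QM.Beur

/-!
# Weak limits and the comparison inequality in a Hilbert space with a basis of frequencies
-/

set_option autoImplicit false

open Filter Topology Set
open scoped ComplexConjugate InnerProductSpace

namespace Pool.Agent.H486.QM

noncomputable section

variable {H : Type*} [NormedAddCommGroup H] [InnerProductSpace ℂ H] {ι : Type*}

/-- weak convergence from convergence against a total set -/
theorem weak_of_total {𝒰 : Filter ι} (x : ι → H) (x0 : H) {C : ℝ} (hb : ∀ᶠ i in 𝒰, ‖x i‖ ≤ C)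
    {S : Set H} (hS : (Submodule.span ℂ S).topologicalClosure = ⊤)
    (h : ∀ s ∈ S, Tendsto (fun i => ⟪s, x i⟫_ℂ) 𝒰 (𝓝 ⟪s, x0⟫_ℂ)) (h' : H) :
    Tendsto (fun i => ⟪h', x i⟫_ℂ) 𝒰 (𝓝 ⟪h', x0⟫_ℂ) := by
  have hspan : ∀ y ∈ Submodule.span ℂ S, Tendsto (fun i => ⟪y, x i⟫_ℂ) 𝒰 (𝓝 ⟪y, x0⟫_ℂ) := by
    intro y hy
    induction hy using Submodule.span_induction with
    | mem s hs => exact h s hs
    | zero => simp only [inner_zero_left]; exact tendsto_const_nhds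
    | add a b _ _ ha hb => simp only [inner_add_left]; exact ha.add hb
    | smul c a _ ha => simp only [inner_smul_left]; exact ha.const_mul _
  rw [Metric.tendsto_nhds]
  intro ε hε
  set K := |C| + ‖x0‖ + 1 with hK
  have hK0 : 0 < K := by positivity
  have hmem : h' ∈ closure (Submodule.span ℂ S : Set H) := by
    have : h' ∈ (Submodule.span ℂ S).topologicalClosure := by rw [hS]; trivial
    exact this
  obtain ⟨y, hy, hd⟩ := Metric.mem_closure_iff.1 hmem (ε / (2 * K)) (by positivity)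
  rw [dist_eq_norm] at hd
  filter_upwards [hb, (Metric.tendsto_nhds.1 (hspan y hy)) (ε / 2) (by positivity)] with i h1 h2
  rw [dist_eq_norm] at h2 ⊢
  have e : ⟪h', x i⟫_ℂ - ⟪h', x0⟫_ℂ = ⟪h' - y, x i - x0⟫_ℂ + (⟪y, x i⟫_ℂ - ⟪y, x0⟫_ℂ) := by
    simp only [inner_sub_left, inner_sub_right]
    ring
  rw [e]
  have h3 : ‖⟪h' - y, x i - x0⟫_ℂ‖ ≤ ‖h' - y‖ * ‖x i - x0‖ := norm_inner_le_norm _ _
  have h4 : ‖x i - x0‖ ≤ K := by
    have := norm_sub_le (x i) x0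
    have := le_abs_self C
    linarith
  have h5 : ‖h' - y‖ * ‖x i - x0‖ ≤ ε / (2 * K) * K :=
    mul_le_mul hd.le h4 (norm_nonneg _) (by positivity)
  have h6 : ε / (2 * K) * K = ε / 2 := by field_simp
  calc ‖⟪h' - y, x i - x0⟫_ℂ + (⟪y, x i⟫_ℂ - ⟪y, x0⟫_ℂ)‖ ≤ _ := norm_add_le _ _
    _ < ε := by linarith

/-- Parseval in a Hilbert basis -/
theorem hb_sq [CompleteSpace H] {α : Type*} (b : HilbertBasis α ℂ H) (v : H) :
    HasSum (fun n => ‖⟪b n, v⟫_ℂ‖ ^ 2) (‖v‖ ^ 2) := by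
  have h' := Complex.hasSum_re (b.hasSum_inner_mul_inner v v)
  have e1 : (⟪v, v⟫_ℂ).re = ‖v‖ ^ 2 := by
    have := inner_self_eq_norm_sq (𝕜 := ℂ) v
    simpa using this
  rw [e1] at h'
  refine h'.congr_fun fun n => ?_
  rw [← inner_conj_symm v (b n), mul_comm, Complex.mul_conj, Complex.normSq_eq_norm_sq,
    Complex.ofReal_re]

/-- the comparison inequality with weak limits -/
theorem comp_gen [CompleteSpace H] {𝒰 : Filter ι} [NeBot 𝒰] (b : HilbertBasis (Fin 2 → ℤ) ℂ H)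
    (P Q : ι → H) (p q : H) (Eh : ι → (Fin 2 → ℤ) → ℂ) {μ : ℂ} (hμ : 1 ≤ ‖μ‖)
    (g : (Fin 2 → ℤ) → ℂ) (hg : ∀ (R : ℕ) (n : Fin 2 → ℤ), n ∉ box R → (R : ℝ) ≤ ‖g n‖)
    (rel : ∀ i n, Eh i n = μ * (g n * ⟪b n, P i⟫_ℂ + conj (g n) * ⟪b n, Q i⟫_ℂ))
    {C : ℝ} (hC : ∀ i (s : Finset (Fin 2 → ℤ)), ∑ n ∈ s, ‖Eh i n‖ ^ 2 ≤ C)
    (hp : ∀ n, Tendsto (fun i => ⟪b n, P i⟫_ℂ) 𝒰 (𝓝 ⟪b n, p⟫_ℂ))
    (hq : ∀ n, Tendsto (fun i => ⟪b n, Q i⟫_ℂ) 𝒰 (𝓝 ⟪b n, q⟫_ℂ)) {x y : ℝ}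
    (hx : Tendsto (fun i => ‖P i‖ ^ 2) 𝒰 (𝓝 x)) (hy : Tendsto (fun i => ‖Q i‖ ^ 2) 𝒰 (𝓝 y)) :
    x - ‖p‖ ^ 2 ≤ y - ‖q‖ ^ 2 := by
  classical
  -- bounded norms
  have bdd : ∀ {R : ι → H} {z : ℝ}, Tendsto (fun i => ‖R i‖ ^ 2) 𝒰 (𝓝 z) →
      ∀ᶠ i in 𝒰, ‖R i‖ ≤ |z| + 2 := by
    intro R z hz
    filter_upwards [hz.eventually_lt_const (lt_add_one z)] with i hi
    nlinarith [norm_nonneg (R i), le_abs_self z, abs_nonneg z]
  have tot : (Submodule.span ℂ (Set.range b)).topologicalClosure = ⊤ := b.dense_span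
  have wk : ∀ {R : ι → H} {r : H} {z : ℝ}, Tendsto (fun i => ‖R i‖ ^ 2) 𝒰 (𝓝 z) →
      (∀ n, Tendsto (fun i => ⟪b n, R i⟫_ℂ) 𝒰 (𝓝 ⟪b n, r⟫_ℂ)) →
      Tendsto (fun i => ‖R i - r‖ ^ 2) 𝒰 (𝓝 (z - ‖r‖ ^ 2)) := by
    intro R r z hz hr
    have h1 := weak_of_total R r (bdd hz) tot (by rintro s ⟨n, rfl⟩; exact hr n) r
    have h2 := (Complex.continuous_re.tendsto _).comp h1
    have e1 : (⟪r, r⟫_ℂ).re = ‖r‖ ^ 2 := by
      have := inner_self_eq_norm_sq (𝕜 := ℂ) r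
      simpa using this
    rw [e1] at h2
    have h3 := (hz.sub (h2.const_mul 2)).add_const (‖r‖ ^ 2)
    have e2 : z - 2 * ‖r‖ ^ 2 + ‖r‖ ^ 2 = z - ‖r‖ ^ 2 := by ring
    rw [e2] at h3
    refine h3.congr fun i => ?_
    simp only [Function.comp]
    have h4 := norm_sub_sq (𝕜 := ℂ) (R i) r
    have h5 : RCLike.re ⟪R i, r⟫_ℂ = (⟪r, R i⟫_ℂ).re := inner_re_symm (𝕜 := ℂ) (R i) r
    rw [h5] at h4
    rw [h4]
  have ha := wk hx hp
  have hb := wk hy hq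
  -- the limit of the error coefficients
  set e : (Fin 2 → ℤ) → ℂ := fun n => μ * (g n * ⟪b n, p⟫_ℂ + conj (g n) * ⟪b n, q⟫_ℂ) with he
  have helim : ∀ n, Tendsto (fun i => Eh i n) 𝒰 (𝓝 (e n)) := by
    intro n
    simp only [rel, he]
    exact (((hp n).const_mul _).add ((hq n).const_mul _)).const_mul _
  have heC : ∀ s : Finset (Fin 2 → ℤ), ∑ n ∈ s, ‖e n‖ ^ 2 ≤ C := by
    intro s
    have h1 : Tendsto (fun i => ∑ n ∈ s, ‖Eh i n‖ ^ 2) 𝒰 (𝓝 (∑ n ∈ s, ‖e n‖ ^ 2)) :=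
      tendsto_finsetSum _ fun n _ => (helim n).norm.pow 2
    exact le_of_tendsto' h1 fun i => hC i s
  have key : ∀ (R : ℕ), 0 < R → ∀ ε : ℝ, 0 < ε → ∀ i,
      ‖P i - p‖ ^ 2 ≤ (∑ n ∈ box R, ‖⟪b n, P i - p⟫_ℂ‖ ^ 2) + (1 + ε) * ‖Q i - q‖ ^ 2 +
        (1 + 1 / ε) / (R : ℝ) ^ 2 * (4 * C) := by
    intro R hR ε hε i
    have hR' : (0 : ℝ) < R := by exact_mod_cast hR
    have h1 := hb_sq b (P i - p)
    have h2 := hb_sq b (Q i - q)
    refine hasSum_le_of_sum_le h1 ?_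
    intro s
    have hpt : ∀ n ∈ s, ‖⟪b n, P i - p⟫_ℂ‖ ^ 2 ≤
        (if n ∈ box R then ‖⟪b n, P i - p⟫_ℂ‖ ^ 2 else 0) + (1 + ε) * ‖⟪b n, Q i - q⟫_ℂ‖ ^ 2 +
          (1 + 1 / ε) / (R : ℝ) ^ 2 * ‖Eh i n - e n‖ ^ 2 := by
      intro n _
      by_cases hn : n ∈ box R
      · rw [if_pos hn]
        have : 0 ≤ (1 + ε) * ‖⟪b n, Q i - q⟫_ℂ‖ ^ 2 := by positivity
        have : 0 ≤ (1 + 1 / ε) / (R : ℝ) ^ 2 * ‖Eh i n - e n‖ ^ 2 := by positivity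
        linarith
      · rw [if_neg hn, zero_add]
        have hnu := hg R n hn
        have hnu0 : 0 < ‖g n‖ := hR'.trans_le hnu
        set A := ⟪b n, P i - p⟫_ℂ with hA
        set B := ⟪b n, Q i - q⟫_ℂ with hB
        have hrel : Eh i n - e n = μ * (g n * A + conj (g n) * B) := by
          rw [rel, he, hA, hB, inner_sub_right, inner_sub_right]
          ring
        have h6 : ‖g n‖ * ‖A‖ ≤ ‖g n‖ * ‖B‖ + ‖Eh i n - e n‖ := by
          have e2 : ‖Eh i n - e n‖ = ‖μ‖ * ‖g n * A + conj (g n) * B‖ := by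
            rw [hrel, norm_mul]
          have e3 : ‖g n * A‖ ≤ ‖g n * A + conj (g n) * B‖ + ‖conj (g n) * B‖ := by
            have := norm_sub_le (g n * A + conj (g n) * B) (conj (g n) * B)
            simpa using this
          rw [norm_mul, norm_mul, RCLike.norm_conj] at e3
          have e4 : ‖g n * A + conj (g n) * B‖ ≤ ‖Eh i n - e n‖ := by
            rw [e2]
            exact le_mul_of_one_le_left (norm_nonneg _) hμ
          linarith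
        have h7 : ‖A‖ ≤ ‖B‖ + ‖Eh i n - e n‖ / R := by
          have h8 : ‖A‖ ≤ ‖B‖ + ‖Eh i n - e n‖ / ‖g n‖ := by
            rw [← sub_le_iff_le_add', le_div_iff₀ hnu0]
            nlinarith
          have h9 : ‖Eh i n - e n‖ / ‖g n‖ ≤ ‖Eh i n - e n‖ / R :=
            div_le_div_of_nonneg_left (norm_nonneg _) hR' hnu
          linarith
        have h10 := pow_le_pow_left₀ (norm_nonneg _) h7 2
        have h11 : (‖B‖ + ‖Eh i n - e n‖ / R) ^ 2 ≤ (1 + ε) * ‖B‖ ^ 2 +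
            (1 + 1 / ε) * (‖Eh i n - e n‖ / R) ^ 2 := by
          set u := ‖B‖
          set v := ‖Eh i n - e n‖ / R
          have h12 : 0 ≤ (ε * u - v) ^ 2 / ε := by positivity
          have e : (ε * u - v) ^ 2 / ε = ε * u ^ 2 - 2 * u * v + 1 / ε * v ^ 2 := by
            field_simp
            ring
          rw [e] at h12
          nlinarith
        calc ‖A‖ ^ 2 ≤ _ := h10.trans h11
          _ = _ := by ring
    refine (Finset.sum_le_sum hpt).trans ?_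
    rw [Finset.sum_add_distrib, Finset.sum_add_distrib, ← Finset.mul_sum, ← Finset.mul_sum]
    have s1 : ∑ n ∈ s, (if n ∈ box R then ‖⟪b n, P i - p⟫_ℂ‖ ^ 2 else 0) ≤
        ∑ n ∈ box R, ‖⟪b n, P i - p⟫_ℂ‖ ^ 2 := by
      rw [← Finset.sum_filter]
      refine Finset.sum_le_sum_of_subset_of_nonneg (fun n hn => (Finset.mem_filter.1 hn).2)
        fun _ _ _ => by positivity
    have s2 : ∑ n ∈ s, ‖⟪b n, Q i - q⟫_ℂ‖ ^ 2 ≤ ‖Q i - q‖ ^ 2 :=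
      sum_le_hasSum s (fun _ _ => by positivity) h2
    have s3 : ∑ n ∈ s, ‖Eh i n - e n‖ ^ 2 ≤ 4 * C := by
      have t1 : ∀ n ∈ s, ‖Eh i n - e n‖ ^ 2 ≤ 2 * ‖Eh i n‖ ^ 2 + 2 * ‖e n‖ ^ 2 := by
        intro n _
        have := norm_sub_le (Eh i n) (e n)
        have := pow_le_pow_left₀ (norm_nonneg _) this 2
        nlinarith [sq_nonneg (‖Eh i n‖ - ‖e n‖)]
      refine (Finset.sum_le_sum t1).trans ?_
      rw [Finset.sum_add_distrib, ← Finset.mul_sum, ← Finset.mul_sum]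
      linarith [hC i s, heC s]
    have hε1 : 0 ≤ 1 + ε := by linarith
    have hR2 : 0 ≤ (1 + 1 / ε) / (R : ℝ) ^ 2 := by positivity
    have := mul_le_mul_of_nonneg_left s2 hε1
    have := mul_le_mul_of_nonneg_left s3 hR2
    linarith
  have hcoef : ∀ n, Tendsto (fun i => ‖⟪b n, P i - p⟫_ℂ‖ ^ 2) 𝒰 (𝓝 0) := by
    intro n
    have h1 := (hp n).sub_const (⟪b n, p⟫_ℂ)
    rw [sub_self] at h1
    have h2 := h1.norm.pow 2
    rw [norm_zero, zero_pow two_ne_zero] at h2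
    refine h2.congr fun i => ?_
    rw [inner_sub_right]
  have hfin : ∀ (R : ℕ), 0 < R → ∀ ε : ℝ, 0 < ε →
      x - ‖p‖ ^ 2 ≤ (1 + ε) * (y - ‖q‖ ^ 2) + (1 + 1 / ε) / (R : ℝ) ^ 2 * (4 * C) := by
    intro R hR ε hε
    have h2 : Tendsto (fun i => (∑ n ∈ box R, ‖⟪b n, P i - p⟫_ℂ‖ ^ 2) +
        (1 + ε) * ‖Q i - q‖ ^ 2 + (1 + 1 / ε) / (R : ℝ) ^ 2 * (4 * C)) 𝒰
        (𝓝 ((∑ n ∈ box R, (0 : ℝ)) + (1 + ε) * (y - ‖q‖ ^ 2) +
          (1 + 1 / ε) / (R : ℝ) ^ 2 * (4 * C))) :=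
      ((tendsto_finsetSum _ fun n _ => hcoef n).add (hb.const_mul _)).add tendsto_const_nhds
    have h3 := le_of_tendsto_of_tendsto' ha h2 (key R hR ε hε)
    rw [Finset.sum_const_zero, zero_add] at h3
    exact h3
  have h4 : ∀ ε : ℝ, 0 < ε → x - ‖p‖ ^ 2 ≤ (1 + ε) * (y - ‖q‖ ^ 2) := by
    intro ε hε
    have hlim : Tendsto (fun R : ℕ => (1 + ε) * (y - ‖q‖ ^ 2) +
        (1 + 1 / ε) / (R : ℝ) ^ 2 * (4 * C)) atTop (𝓝 ((1 + ε) * (y - ‖q‖ ^ 2) + 0 * (4 * C))) := by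
      refine tendsto_const_nhds.add (Tendsto.mul_const _ ?_)
      exact tendsto_const_nhds.div_atTop
        ((tendsto_pow_atTop two_ne_zero).comp tendsto_natCast_atTop_atTop)
    rw [zero_mul, add_zero] at hlim
    refine ge_of_tendsto hlim ?_
    filter_upwards [eventually_gt_atTop 0] with R hR
    exact hfin R hR ε hε
  have hlim : Tendsto (fun ε : ℝ => (1 + ε) * (y - ‖q‖ ^ 2)) (𝓝[>] 0)
      (𝓝 ((1 + 0) * (y - ‖q‖ ^ 2))) := by
    refine Tendsto.mono_left ?_ nhdsWithin_le_nhds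
    exact ((continuous_const.add continuous_id).mul continuous_const).tendsto 0
  rw [add_zero, one_mul] at hlim
  refine ge_of_tendsto hlim ?_
  filter_upwards [self_mem_nhdsWithin] with ε hε
  exact h4 ε hε

end

end Pool.Agent.H486.QM
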