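import Pool.Agent.H486.QM.Wir

/-!
# Integration by parts and local energy estimates
-/

set_option autoImplicit false

open MeasureTheory Complex Filter Topology Set Metric
open scoped ContDiff ComplexConjugate

namespace Pool.Agent.H486.QM

noncomputable section

theorem cs_fd {F : ℂ → ℂ} (hc : HasCompactSupport F) (v : ℂ) :
    HasCompactSupport (fun w => fderiv ℝ F w v) := by
  have h := hc.fderiv (𝕜 := ℝ)
  exact h.comp_left (g := fun L : ℂ →L[ℝ] ℂ => L v) (by simp)

theorem cs_dz {F : ℂ → ℂ} (hc : HasCompactSupport F) : HasCompactSupport (dz F) := by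
  have h := hc.fderiv (𝕜 := ℝ)
  exact h.comp_left (g := fun L : ℂ →L[ℝ] ℂ => (L 1 - I * L I) / 2) (by simp)

theorem cs_dzb {F : ℂ → ℂ} (hc : HasCompactSupport F) : HasCompactSupport (dzb F) := by
  have h := hc.fderiv (𝕜 := ℝ)
  exact h.comp_left (g := fun L : ℂ →L[ℝ] ℂ => (L 1 + I * L I) / 2) (by simp)

theorem Sm.int {F : ℂ → ℂ} (hF : Sm F) (hc : HasCompactSupport F) : Integrable F :=
  hF.cont.integrable_of_hasCompactSupport hc

theorem int_fd {F : ℂ → ℂ} (hF : Sm F) (hc : HasCompactSupport F) (v : ℂ) :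
    ∫ w, fderiv ℝ F w v = 0 := by
  have h := integral_mul_fderiv_eq_neg_fderiv_mul_of_integrable (μ := (volume : Measure ℂ))
    (f := F) (g := fun _ => (1 : ℂ)) (v := v)
    (by simpa using (hF.fd v).int (cs_fd hc v)) (by simp) (by simpa using hF.int hc)
    (fun x _ => hF.diff x) (fun x _ => differentiableAt_const _)
  simp only [fderiv_fun_const, Pi.zero_apply, zero_apply, mul_zero, integral_zero, mul_one] at h
  linear_combination h

theorem int_dz {F : ℂ → ℂ} (hF : Sm F) (hc : HasCompactSupport F) : ∫ w, dz F w = 0 := by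
  simp only [dz]
  rw [integral_div, integral_sub ((hF.fd 1).int (cs_fd hc 1))
    (((hF.fd I).int (cs_fd hc I)).const_mul I), integral_const_mul, int_fd hF hc, int_fd hF hc]
  simp

theorem int_dzb {F : ℂ → ℂ} (hF : Sm F) (hc : HasCompactSupport F) : ∫ w, dzb F w = 0 := by
  simp only [dzb]
  rw [integral_div, integral_add ((hF.fd 1).int (cs_fd hc 1))
    (((hF.fd I).int (cs_fd hc I)).const_mul I), integral_const_mul, int_fd hF hc, int_fd hF hc]
  simp

theorem ibp_dz {A B : ℂ → ℂ} (hA : Sm A) (hB : Sm B) (hc : HasCompactSupport A) :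
    ∫ w, A w * dz B w = - ∫ w, dz A w * B w := by
  have h := int_dz (hA.mul hB) (hc.mul_right (f' := B))
  simp only [dz_mul hA hB] at h
  rw [integral_add ((hA.d.mul hB).int ((cs_dz hc).mul_right (f' := B)))
    ((hA.mul hB.d).int (hc.mul_right (f' := dz B)))] at h
  linear_combination h

theorem ibp_dzb {A B : ℂ → ℂ} (hA : Sm A) (hB : Sm B) (hc : HasCompactSupport A) :
    ∫ w, A w * dzb B w = - ∫ w, dzb A w * B w := by
  have h := int_dzb (hA.mul hB) (hc.mul_right (f' := B))
  simp only [dzb_mul hA hB] at h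
  rw [integral_add ((hA.db.mul hB).int ((cs_dzb hc).mul_right (f' := B)))
    ((hA.mul hB.db).int (hc.mul_right (f' := dzb B)))] at h
  linear_combination h

theorem sq_eq (x : ℂ) : ((‖x‖ ^ 2 : ℝ) : ℂ) = x * conj x := by
  rw [mul_conj, normSq_eq_norm_sq]

theorem cs_sq {F : ℂ → ℂ} (hc : HasCompactSupport F) :
    HasCompactSupport (fun w => ‖F w‖ ^ 2) :=
  hc.comp_left (g := fun z : ℂ => ‖z‖ ^ 2) (by simp)

theorem int_sq {F : ℂ → ℂ} (hF : Sm F) (hc : HasCompactSupport F) :
    Integrable (fun w => ‖F w‖ ^ 2) :=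
  (hF.cont.norm.pow 2).integrable_of_hasCompactSupport (cs_sq hc)

/-- the two derivatives of a test function have the same energy -/
theorem energy_eq {G : ℂ → ℂ} (hG : Sm G) (hc : HasCompactSupport G) :
    ∫ w, ‖dz G w‖ ^ 2 = ∫ w, ‖dzb G w‖ ^ 2 := by
  have h : ((∫ w, ‖dz G w‖ ^ 2 : ℝ) : ℂ) = ((∫ w, ‖dzb G w‖ ^ 2 : ℝ) : ℂ) := by
    rw [← integral_complex_ofReal, ← integral_complex_ofReal]
    simp only [sq_eq]
    have e1 : ∫ w, dz G w * conj (dz G w) = ∫ w, dz G w * dzb (fun w => conj (G w)) w := by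
      simp only [dzb_conj hG]
    have e2 : ∫ w, dzb G w * conj (dzb G w) = ∫ w, dzb G w * dz (fun w => conj (G w)) w := by
      simp only [dz_conj hG]
    rw [e1, e2, ibp_dzb hG.d hG.cj (cs_dz hc), ibp_dz hG.db hG.cj (cs_dzb hc)]
    simp only [dz_dzb hG]
  exact_mod_cast h

/-- Sup bound by the mixed second derivative. -/
theorem le_int_mixed {F : ℂ → ℂ} (hF : Sm F) (hc : HasCompactSupport F) (z : ℂ) :
    ‖F z‖ ≤ ∫ w, ‖fderiv ℝ (fun u => fderiv ℝ F u 1) w I‖ := by
  have line : ∀ {G : ℝ → ℂ}, ContDiff ℝ 1 G → HasCompactSupport G → ∀ b : ℝ,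
      ‖G b‖ ≤ ∫ x, ‖deriv G x‖ := by
    intro G hG hGc b
    have h := HasCompactSupport.integral_Iic_deriv_eq hG hGc b
    rw [← h]
    refine (norm_integral_le_integral_norm _).trans ?_
    refine setIntegral_le_integral ?_ (ae_of_all _ fun x => norm_nonneg _)
    have h1 : Continuous (deriv G) := hG.continuous_deriv le_rfl
    exact (h1.integrable_of_hasCompactSupport hGc.deriv).norm
  have cl : ∀ (v : ℂ) (c : ℂ), v ≠ 0 → IsClosedEmbedding (fun x : ℝ => c + x * v) := by
    intro v c hv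
    have h1 : IsClosedEmbedding (fun x : ℝ => x • v) :=
      (LinearMap.isClosedEmbedding_of_injective (f := (LinearMap.toSpanSingleton ℝ ℂ v))
        (LinearMap.ker_eq_bot.2 (fun x y h => by
          simpa [hv] using h)))
    have h2 := (Homeomorph.addLeft c).isClosedEmbedding.comp h1
    convert h2 using 1
    ext x
    simp
  have gen : ∀ (G : ℂ → ℂ), Sm G → HasCompactSupport G → ∀ (v c : ℂ), v ≠ 0 → ∀ b : ℝ,
      ‖G (c + b * v)‖ ≤ ∫ x : ℝ, ‖fderiv ℝ G (c + x * v) v‖ := by
    intro G hG hGc v c hv b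
    have hs : ContDiff ℝ 1 (fun x : ℝ => G (c + x * v)) := by
      refine (ContDiff.of_le hG (by simp)).comp ?_
      exact contDiff_const.add ((ofRealCLM.contDiff).mul contDiff_const)
    have h := line hs (hGc.comp_isClosedEmbedding (cl v c hv)) b
    refine h.trans (le_of_eq ?_)
    refine integral_congr_ae (ae_of_all _ fun x => ?_)
    have hd : HasDerivAt (fun x : ℝ => G (c + x * v)) (fderiv ℝ G (c + x * v) v) x := by
      have h1 : HasDerivAt (fun x : ℝ => c + x * v) v x := by
        have := ((hasDerivAt_id x).ofReal_comp.mul_const v).const_add c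
        simpa using this
      exact (hG.diff (c + x * v)).hasFDerivAt.comp_hasDerivAt x h1
    simp only [hd.deriv]
  have h1 := gen F hF hc 1 (z.im * I) one_ne_zero z.re
  have e1 : (z.im : ℂ) * I + z.re * 1 = z := by
    rw [mul_one, add_comm, re_add_im]
  rw [e1] at h1
  have h2 : ∀ x : ℝ, ‖fderiv ℝ F ((z.im : ℂ) * I + x * 1) 1‖ ≤
      ∫ y : ℝ, ‖fderiv ℝ (fun u => fderiv ℝ F u 1) (x + y * I) I‖ := by
    intro x
    have := gen (fun u => fderiv ℝ F u 1) (hF.fd 1) (cs_fd hc 1) I x I_ne_zero z.im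
    have e2 : (z.im : ℂ) * I + x * 1 = x + z.im * I := by ring
    rw [e2]
    exact this
  set H : ℂ → ℝ := fun w => ‖fderiv ℝ (fun u => fderiv ℝ F u 1) w I‖ with hH
  have hHs : Continuous H := ((hF.fd 1).fd I).cont.norm
  have hHc : HasCompactSupport H := (cs_fd (cs_fd hc 1) I).norm
  have hHi : Integrable H := hHs.integrable_of_hasCompactSupport hHc
  have hp := Complex.volume_preserving_equiv_real_prod.symm
  have e3 : ∫ w, H w = ∫ p : ℝ × ℝ, H (p.1 + p.2 * I) := by
    rw [← hp.integral_comp (measurableEquivRealProd.symm.measurableEmbedding)]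
    refine integral_congr_ae (ae_of_all _ fun p => ?_)
    simp only [measurableEquivRealProd_symm_apply, mk_eq_add_mul_I]
  have hi2 : Integrable (fun p : ℝ × ℝ => H (p.1 + p.2 * I)) := by
    have := (hp.integrable_comp_emb measurableEquivRealProd.symm.measurableEmbedding).2 hHi
    refine this.congr (ae_of_all _ fun p => ?_)
    simp only [Function.comp, measurableEquivRealProd_symm_apply, mk_eq_add_mul_I]
  have e4 : ∫ p : ℝ × ℝ, H (p.1 + p.2 * I) = ∫ x : ℝ, ∫ y : ℝ, H (x + y * I) :=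
    integral_prod _ hi2
  rw [e3, e4]
  refine h1.trans (integral_mono_of_nonneg (ae_of_all _ fun x => norm_nonneg _)
    hi2.integral_prod_left (ae_of_all _ h2))

end

end Pool.Agent.H486.QM
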