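import Pool.Agent.H486.QM.Chain

/-!
# The fourth moment inequality for a family
-/

set_option autoImplicit false

open MeasureTheory Complex Filter Topology Set Metric
open scoped ContDiff ComplexConjugate

namespace Pool.Agent.H486.QM

noncomputable section

universe u

variable {ι : Type u} {D : Dat ι}

/-- equidistribution of the first `L` harmonics along a filter -/
structure Dat.Equi (D : Dat ι) (𝒰 : Filter ι) (L : ℕ) : Prop where
  zero : ∀ θ : ℂ → ℂ, D.Te θ → Tendsto (fun i => ∫ w, θ w * (D.f i w * D.f i w)) 𝒰 (𝓝 (∫ w, θ w))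
  pos : ∀ l : ℕ, 1 ≤ l → l ≤ L → ∀ θ : ℂ → ℂ, D.Te θ →
    Tendsto (fun i => ∫ w, θ w * (D.G l i w * D.G l i w)) 𝒰 (𝓝 0)

theorem int_norm_sq {χ : ℂ → ℂ} (hr : ∀ w, conj (χ w) = χ w) :
    ((∫ w, ‖χ w‖ ^ 2 : ℝ) : ℂ) = ∫ w, χ w * χ w := by
  rw [← integral_complex_ofReal]
  refine integral_congr_ae (ae_of_all _ fun w => ?_)
  simp only [sq_eq, hr]

theorem norm_le {𝒰 : Ultrafilter ι} {L : ℕ} (hE : D.Equi 𝒰 L) {χ : ℂ → ℂ} (hχ : D.Te χ)
    (hr : ∀ w, conj (χ w) = χ w) {M : ℤ → ℤ → ℤ → ℤ → ℂ}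
    (hM : ∀ a b c d, Tendsto (q4 (fun w => χ w * χ w) (D.H a) (D.H b) (D.H c) (D.H d)) 𝒰
      (𝓝 (M a b c d))) (l : ℕ) (h1 : 1 ≤ l) (h2 : l ≤ L) :
    (M l (-l) l (-l)).re ≤ (M 0 0 0 0).re - ∫ w, ‖χ w‖ ^ 2 := by
  have lim : ∀ l : ℕ, Tendsto (fun i => ∫ w, ‖χ w * D.W l i w‖ ^ 2) 𝒰
      (𝓝 (M l (-l) l (-l)).re) := by
    intro l
    have h3 := (continuous_re.tendsto _).comp (hM l (-l) l (-l))
    refine h3.congr fun i => ?_
    simp only [Function.comp]
    rw [← W_q4 hr l i, ofReal_re]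
  have base : (M 1 (-1) 1 (-1)).re ≤ (M 0 0 0 0).re - ∫ w, ‖χ w‖ ^ 2 ∨ L = 0 := by
    rcases Nat.eq_zero_or_pos L with hL | hL
    · exact Or.inr hL
    · left
      have hp := lim 1
      have h0 := lim 0
      have hq : Tendsto (fun i => ∫ w, ‖χ w * (D.W 0 i w - 1)‖ ^ 2) 𝒰
          (𝓝 ((M 0 0 0 0).re - ∫ w, ‖χ w‖ ^ 2)) := by
        have h3 := (continuous_re.tendsto _).comp (hE.zero (fun w => χ w * χ w)
          (hχ.mul hχ.sm))
        rw [← int_norm_sq hr, ofReal_re] at h3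
        have h4 := (h0.sub (h3.const_mul 2)).add_const (∫ w, ‖χ w‖ ^ 2)
        have e0 : (M ((0 : ℕ) : ℤ) (-((0 : ℕ) : ℤ)) ((0 : ℕ) : ℤ) (-((0 : ℕ) : ℤ))).re -
            2 * (∫ w, ‖χ w‖ ^ 2) + (∫ w, ‖χ w‖ ^ 2) = (M 0 0 0 0).re - ∫ w, ‖χ w‖ ^ 2 := by
          simp
          ring
        rw [e0] at h4
        refine h4.congr fun i => ?_
        simp only [Function.comp]
        have sW := Dat.W_sm (D := D) 0 i
        have sf := D.hf i
        have i1 := int_sq (hχ.sm.mul sW) (hχ.cs.mul_right (f' := D.W 0 i))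
        have i2 : Integrable (fun w => (χ w * χ w) * (D.f i w * D.f i w)) :=
          ((hχ.sm.mul hχ.sm).mul (sf.mul sf)).int (hχ.cs.mul_right.mul_right)
        have i3 := int_sq hχ.sm hχ.cs
        have e1 : (∫ w, (χ w * χ w) * (D.f i w * D.f i w)).re =
            ∫ w, ((χ w * χ w) * (D.f i w * D.f i w)).re := by
          have := integral_re i2
          exact this.symm
        have i2' : Integrable (fun w => ((χ w * χ w) * (D.f i w * D.f i w)).re) := i2.re
        rw [e1, ← integral_const_mul, ← integral_sub i1 (i2'.const_mul 2)]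
        have i4 : Integrable (fun w => ‖χ w * D.W 0 i w‖ ^ 2 -
            2 * ((χ w * χ w) * (D.f i w * D.f i w)).re) := i1.sub (i2'.const_mul 2)
        rw [← integral_add i4 i3]
        refine integral_congr_ae (ae_of_all _ fun w => ?_)
        simp only [Dat.W, pow_zero, one_mul, Dat.G_zero]
        have r1 := conj_eq_iff_real.1 (hr w)
        have r2 := conj_eq_iff_real.1 (D.freal i w)
        obtain ⟨x, hx⟩ := r1
        obtain ⟨y, hy⟩ := r2
        rw [hx, hy]
        have e2 : (x : ℂ) * x * ((y : ℂ) * y) = ((x * x * (y * y) : ℝ) : ℂ) := by push_cast; ring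
        have e3 : (x : ℂ) * ((y : ℂ) * y) = ((x * (y * y) : ℝ) : ℂ) := by push_cast; ring
        have e4 : (x : ℂ) * ((y : ℂ) * y - 1) = ((x * (y * y - 1) : ℝ) : ℂ) := by push_cast; ring
        rw [e2, e3, e4, ofReal_re, norm_real, norm_real, norm_real, Real.norm_eq_abs,
          Real.norm_eq_abs, Real.norm_eq_abs, sq_abs, sq_abs, sq_abs]
        ring
      have h5 := chain_step (D := D) hχ 0 1 (fun θ hθ => hE.pos 1 le_rfl hL θ hθ)
        (by simpa using hp) hq
      simpa using h5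
  induction l with
  | zero => omega
  | succ l ih =>
    rcases Nat.eq_zero_or_pos l with hl | hl
    · subst hl
      rcases base with h | h
      · simpa using h
      · omega
    · have h3 := ih hl (by omega)
      have h4 : Tendsto (fun i => ∫ w, ‖χ w * (D.W l i w - 0)‖ ^ 2) 𝒰
          (𝓝 (M l (-l) l (-l)).re) := by simpa using lim l
      have h5 := chain_step (D := D) hχ l 0 (fun θ hθ => hE.pos (l + 1) (by omega) h2 θ hθ)
        (lim (l + 1)) h4
      exact h5.trans h3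

end

end Pool.Agent.H486.QM
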