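import Pool.Agent.H486.QM.Shq

/-!
# Passing from functions on an open set to global families
-/

set_option autoImplicit false

open MeasureTheory Complex Filter Topology Set Metric
open scoped ContDiff ComplexConjugate InnerProductSpace ENNReal Manifold Laplacian

namespace Pool.Agent.H486.QM

noncomputable section

theorem exists_cutoff {K U : Set ℂ} (hK : IsCompact K) (hU : IsOpen U) (hKU : K ⊆ U) :
    ∃ θ : ℂ → ℝ, ContDiff ℝ ∞ θ ∧ HasCompactSupport θ ∧ tsupport θ ⊆ U ∧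
      (∀ x, 0 ≤ θ x ∧ θ x ≤ 1) ∧ ∃ O : Set ℂ, IsOpen O ∧ K ⊆ O ∧ O ⊆ U ∧ ∀ x ∈ O, θ x = 1 := by
  obtain ⟨K', hK', h1, h2⟩ := exists_compact_between hK hU hKU
  obtain ⟨f, h3, h4, h5⟩ := exists_contMDiffMap_zero_one_nhds_of_isClosed (n := (⊤ : ℕ∞)) 𝓘(ℝ, ℂ)
    (s := (interior K')ᶜ) (t := K) isOpen_interior.isClosed_compl hK.isClosed
    (disjoint_left.2 fun x hx hx' => hx (h1 hx'))
  have hsupp : Function.support f ⊆ K' := by
    intro x hx
    by_contra h
    exact hx (h3.self_of_nhdsSet x fun h' => h (interior_subset h'))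
  have hts : tsupport f ⊆ K' := closure_minimal hsupp hK'.isClosed
  refine ⟨f, f.contMDiff.contDiff, HasCompactSupport.of_support_subset_isCompact hK' hsupp,
    hts.trans h2, h5, ?_⟩
  obtain ⟨O, hO, hKO, hO1⟩ := (eventually_nhdsSet_iff_exists.1 h4)
  exact ⟨O ∩ U, hO.inter hU, subset_inter hKO hKU, inter_subset_right, fun x hx => hO1 x hx.1⟩

theorem fd_ofReal {g : ℂ → ℝ} (hg : Differentiable ℝ g) (w v : ℂ) :
    fderiv ℝ (fun z => ((g z : ℝ) : ℂ)) w v = ((fderiv ℝ g w v : ℝ) : ℂ) := by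
  have h := (ofRealCLM.hasFDerivAt.comp w (hg w).hasFDerivAt).fderiv
  have h2 : fderiv ℝ (fun z => ((g z : ℝ) : ℂ)) w = _ := h
  rw [h2]
  rfl

theorem dz_dzb_lap {g : ℂ → ℝ} (hg : ContDiff ℝ ∞ g) (w : ℂ) :
    dz (dzb (fun z => ((g z : ℝ) : ℂ))) w = (((Δ g) w : ℝ) : ℂ) / 4 := by
  have hF : Sm (fun z => ((g z : ℝ) : ℂ)) := ofRealCLM.contDiff.comp hg
  have e1 : ∀ v, fderiv ℝ (dzb (fun z => ((g z : ℝ) : ℂ))) w v =
      (fderiv ℝ (fun z => fderiv ℝ (fun z => ((g z : ℝ) : ℂ)) z 1) w v +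
        I * fderiv ℝ (fun z => fderiv ℝ (fun z => ((g z : ℝ) : ℂ)) z I) w v) / 2 := by
    intro v
    have h1 := ((hF.fd 1).diff w).hasFDerivAt
    have h2 := ((hF.fd I).diff w).hasFDerivAt
    have h3 := ((h1.add (h2.const_mul I)).mul_const (2⁻¹ : ℂ)).fderiv
    have h4 : fderiv ℝ (dzb (fun z => ((g z : ℝ) : ℂ))) w =
        fderiv ℝ (fun y => ((fun w => (fderiv ℝ (fun z => ((g z : ℝ) : ℂ)) w) 1) +
        fun y => I * (fderiv ℝ (fun z => ((g z : ℝ) : ℂ)) y) I) y * 2⁻¹) w := by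
      congr 1
    rw [h4, h3]
    simp [div_eq_mul_inv]
    ring
  have hgd : Differentiable ℝ g := hg.differentiable (by simp)
  have hg1 : ContDiff ℝ ∞ (fderiv ℝ g) := ContDiff.fderiv_right (m := ∞) hg (by simp)
  have e2 : ∀ u v : ℂ, fderiv ℝ (fun z => fderiv ℝ (fun z => ((g z : ℝ) : ℂ)) z u) w v =
      ((iteratedFDeriv ℝ 2 g w ![v, u] : ℝ) : ℂ) := by
    intro u v
    have e3 : (fun z => fderiv ℝ (fun z => ((g z : ℝ) : ℂ)) z u) =
        fun z => ((fderiv ℝ g z u : ℝ) : ℂ) := by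
      ext z
      exact fd_ofReal hgd z u
    have hd : Differentiable ℝ (fun z => fderiv ℝ g z u) :=
      (hg1.clm_apply contDiff_const).differentiable (by simp)
    rw [e3, fd_ofReal hd, iteratedFDeriv_two_apply]
    congr 1
    have h2 : DifferentiableAt ℝ (fderiv ℝ g) w := (hg1.differentiable (by simp)) w
    have := (h2.hasFDerivAt.clm_apply (hasFDerivAt_const u w)).fderiv
    rw [this]
    simp
  rw [dz, e1, e1, e2, e2, e2, e2, InnerProductSpace.laplacian_eq_iteratedFDeriv_complexPlane]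
  have hs : IsSymmSndFDerivAt ℝ g w :=
    (ContDiff.contDiffAt hg).isSymmSndFDerivAt (by
      simp only [minSmoothness_of_isRCLikeNormedField]
      exact ENat.LEInfty.out)
  have e4 : iteratedFDeriv ℝ 2 g w ![1, I] = iteratedFDeriv ℝ 2 g w ![I, 1] := by
    rw [iteratedFDeriv_two_apply, iteratedFDeriv_two_apply]
    exact hs 1 I
  rw [e4]
  push_cast
  linear_combination (-((iteratedFDeriv ℝ 2 g w ![I, I] : ℝ) : ℂ) / 4) * I_mul_I

theorem iter_congr {F G : ℂ → ℂ} {w : ℂ} (h : F =ᶠ[𝓝 w] G) (l : ℕ) :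
    dz^[l] F =ᶠ[𝓝 w] dz^[l] G := by
  induction l with
  | zero => exact h
  | succ l ih =>
    rw [Function.iterate_succ_apply', Function.iterate_succ_apply']
    filter_upwards [ih.eventuallyEq_nhds] with u hu
    exact dz_congr hu

/-- the harmonics of an eigenfunction -/
def harm (ρ : ℂ → ℝ) (lam : ℝ) (f : ℂ → ℝ) (l : ℕ) (z : ℂ) : ℂ :=
  (4 / ((ρ z : ℂ) * lam)) ^ l * (dz^[l] (fun z => (f z : ℂ)) z) ^ 2

end

end Pool.Agent.H486.QM
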