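import Pool.Agent.H486.QM.Loc

/-!
# The sharp inequality for a test function
-/

set_option autoImplicit false

open MeasureTheory Complex Filter Topology Set Metric
open scoped ContDiff ComplexConjugate InnerProductSpace ENNReal Manifold Laplacian

namespace Pool.Agent.H486.QM

noncomputable section

theorem ext_smooth {θ g : ℂ → ℝ} {V : Set ℂ} (hV : IsOpen V) (hg : ContDiffOn ℝ ∞ g V)
    (hθ : ContDiff ℝ ∞ θ) (hs : tsupport θ ⊆ V) : ContDiff ℝ ∞ (fun z => θ z * g z) := by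
  rw [contDiff_iff_contDiffAt]
  intro x
  by_cases hx : x ∈ V
  · exact hθ.contDiffAt.mul (hg.contDiffAt (hV.mem_nhds hx))
  · have hx' : x ∉ tsupport θ := fun h => hx (hs h)
    have h : (fun z => θ z * g z) =ᶠ[𝓝 x] fun _ => 0 := by
      filter_upwards [(isClosed_tsupport θ).isOpen_compl.mem_nhds hx'] with u hu
      rw [image_eq_zero_of_notMem_tsupport hu, zero_mul]
    exact contDiffAt_const.congr_of_eventuallyEq h

/-- real and imaginary parts of a test function -/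
theorem split_test {ι : Type*} {𝒰 : Filter ι} {O : Set ℂ} {G : ι → ℂ → ℂ} {g : ℂ → ℂ}
    (hG : ∀ i, LocallyIntegrableOn (G i) O)
    (hg : LocallyIntegrableOn g O)
    (h : ∀ θ : ℂ → ℝ, ContDiff ℝ ∞ θ → HasCompactSupport θ → tsupport θ ⊆ O →
      Tendsto (fun i => ∫ z, (θ z : ℂ) * G i z) 𝒰 (𝓝 (∫ z, (θ z : ℂ) * g z)))
    {θ : ℂ → ℂ} (h1 : Sm θ) (h2 : HasCompactSupport θ) (h3 : tsupport θ ⊆ O) :
    Tendsto (fun i => ∫ z, θ z * G i z) 𝒰 (𝓝 (∫ z, θ z * g z)) := by
  have hr : ContDiff ℝ ∞ (fun z => (θ z).re) := reCLM.contDiff.comp h1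
  have hi : ContDiff ℝ ∞ (fun z => (θ z).im) := imCLM.contDiff.comp h1
  have cr : HasCompactSupport (fun z => (θ z).re) := h2.comp_left (g := fun z : ℂ => z.re) rfl
  have ci : HasCompactSupport (fun z => (θ z).im) := h2.comp_left (g := fun z : ℂ => z.im) rfl
  have sr : tsupport (fun z => (θ z).re) ⊆ O := by
    refine (closure_mono ?_).trans h3
    intro z hz h0
    exact hz (by simp [h0])
  have si : tsupport (fun z => (θ z).im) ⊆ O := by
    refine (closure_mono ?_).trans h3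
    intro z hz h0
    exact hz (by simp [h0])
  have a1 := h _ hr cr sr
  have a2 := h _ hi ci si
  have key : ∀ X : ℂ → ℂ, LocallyIntegrableOn X O → ∫ z, θ z * X z =
      (∫ z, ((θ z).re : ℂ) * X z) + I * ∫ z, ((θ z).im : ℂ) * X z := by
    intro X hX
    have i1 : ∀ t : ℂ → ℝ, Continuous t → HasCompactSupport t → tsupport t ⊆ O →
        Integrable (fun z => (t z : ℂ) * X z) := by
      intro t ht htc hts
      have hK : IntegrableOn X (tsupport t) := hX.integrableOn_compact_subset hts htc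
      have h5 : IntegrableOn (fun z => (t z : ℂ) * X z) (tsupport t) := by
        obtain ⟨M, hM⟩ := htc.exists_bound_of_continuous ht
        refine Integrable.bdd_mul (c := M) hK
          (continuous_ofReal.comp ht).aestronglyMeasurable (ae_of_all _ fun z => ?_)
        simpa using hM z
      rw [← integrableOn_iff_integrable_of_support_subset (s := tsupport t)]
      · exact h5
      · intro z hz
        by_contra hc
        exact hz (by simp [image_eq_zero_of_notMem_tsupport hc])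
    have j1 := i1 _ hr.continuous cr sr
    have j2 := i1 _ hi.continuous ci si
    rw [← integral_const_mul, ← integral_add j1 (j2.const_mul I)]
    refine integral_congr_ae (ae_of_all _ fun z => ?_)
    simp only
    conv_lhs => rw [← re_add_im (θ z)]
    ring
  rw [key g hg]
  refine (a1.add (a2.const_mul I)).congr fun i => ?_
  rw [key _ (hG i)]

section

variable {ι : Type} {V : Set ℂ} {ρ : ℂ → ℝ} {lam : ι → ℝ} {f : ι → ℂ → ℝ}

theorem memLp_te {χ : ℂ → ℂ} (hχ : Continuous χ) (hc : HasCompactSupport χ) {g : ℂ → ℂ}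
    (hg : MemLp g 2 (volume.restrict (tsupport χ))) : MemLp (fun z => χ z * g z) 2 volume := by
  obtain ⟨M, hM⟩ := hc.exists_bound_of_continuous hχ
  have h1 : MemLp (fun z => χ z * g z) 2 (volume.restrict (tsupport χ)) := by
    refine MemLp.of_le_mul (c := M) hg (hχ.aestronglyMeasurable.mul hg.1) (ae_of_all _ fun z => ?_)
    rw [norm_mul]
    exact mul_le_mul_of_nonneg_right (hM z) (norm_nonneg _)
  have h2 : (tsupport χ).indicator (fun z => χ z * g z) = fun z => χ z * g z := by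
    refine indicator_eq_self.2 ?_
    intro z hz
    by_contra h
    exact hz (by simp only [image_eq_zero_of_notMem_tsupport h, zero_mul])
  rw [← h2]
  exact (memLp_indicator_iff_restrict (isClosed_tsupport χ).measurableSet).2 h1

theorem loc_main (hV : IsOpen V) (hρ : ContDiffOn ℝ ∞ ρ V) (hρ0 : ∀ z ∈ V, 0 < ρ z)
    (hl1 : ∀ i, 1 ≤ lam i) (hf : ∀ i, ContDiffOn ℝ ∞ (f i) V)
    (heig : ∀ i, ∀ z ∈ V, -(Δ (f i)) z = lam i * ρ z * f i z)
    {𝒰 : Ultrafilter ι} (hlam : Tendsto lam 𝒰 atTop)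
    (hbd : ∀ K : Set ℂ, IsCompact K → K ⊆ V → ∃ C : ℝ, ∀ i, ∫ z in K, f i z ^ 4 ≤ C)
    {L : ℕ} {w : ℕ → ℂ → ℂ}
    (hw : ∀ l ≤ L, ∀ K : Set ℂ, IsCompact K → K ⊆ V → MemLp (w l) 2 (volume.restrict K))
    (hlim : ∀ l ≤ L, ∀ θ : ℂ → ℝ, ContDiff ℝ ∞ θ → HasCompactSupport θ → tsupport θ ⊆ V →
      Tendsto (fun i => ∫ z, (θ z : ℂ) * harm ρ (lam i) (f i) l z) 𝒰
        (𝓝 (∫ z, (θ z : ℂ) * w l z)))
    {χ : ℂ → ℝ} (hχ : ContDiff ℝ ∞ χ) (hχc : HasCompactSupport χ) (hχV : tsupport χ ⊆ V)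
    (hχ0 : ∀ z, 0 ≤ χ z) {m : ℝ} (hm : ∀ᶠ i in (𝒰 : Filter ι), ∫ z, χ z ^ 2 * f i z ^ 4 ≤ m) :
    3 * ((L : ℝ) + 1) * (2 * L + 1) * (∫ z, χ z ^ 2 * ‖w 0 z‖ ^ 2) ≤
      2 * ((L : ℝ) + 1) ^ 2 * m +
        6 * ∑ l ∈ Finset.range L, ((L : ℝ) - l) * ∫ z, χ z ^ 2 * ‖w (l + 1) z‖ ^ 2 := by
  obtain ⟨θ, hθ, hθc, hθV, hθ01, O, hO, hKO, hOV, hθ1⟩ := exists_cutoff hχc.isCompact hV hχV
  -- the global functions
  have hft : ∀ i, ContDiff ℝ ∞ (fun z => θ z * f i z) := fun i => ext_smooth hV (hf i) hθ hθV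
  set b : ℂ → ℝ := fun z => (θ z * ρ z + (1 - θ z)) / 4 with hb
  have hbs : ContDiff ℝ ∞ b :=
    ((ext_smooth hV hρ hθ hθV).add (contDiff_const.sub hθ)).div_const 4
  have hb0 : ∀ z, 0 < b z := by
    intro z
    have h1 := hθ01 z
    by_cases hz : z ∈ V
    · have h2 := hρ0 z hz
      rcases h1.1.eq_or_lt with h3 | h3
      · simp only [hb, ← h3]; norm_num
      · have h4 : 0 < θ z * ρ z := mul_pos h3 h2
        simp only [hb]
        linarith [h1.2]
    · have h3 : θ z = 0 := image_eq_zero_of_notMem_tsupport fun h => hz (hθV h)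
      simp only [hb, h3]; norm_num
  have hbr : ∀ z ∈ O, b z = ρ z / 4 := by
    intro z hz
    simp only [hb, hθ1 z hz]; ring
  have hκ0 : ∀ i, 0 < Real.sqrt (lam i) := fun i => Real.sqrt_pos.2 (by linarith [hl1 i])
  have cl : ∀ g : ℂ → ℝ, ContDiff ℝ ∞ g → Sm (fun z => ((g z : ℝ) : ℂ)) := fun g hg =>
    ofRealCLM.contDiff.comp hg
  let D : Dat ι :=
    { κ := fun i => (Real.sqrt (lam i))⁻¹
      f := fun i z => ((θ z * f i z : ℝ) : ℂ)
      β := fun z => ((b z : ℝ) : ℂ)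
      γ := fun z => (((b z)⁻¹ : ℝ) : ℂ)
      V := O
      hV := hO
      κpos := fun i => inv_pos.2 (hκ0 i)
      κle := fun i => inv_le_one_of_one_le₀ (by
        rw [← Real.sqrt_one]
        exact Real.sqrt_le_sqrt (hl1 i))
      hf := fun i => cl _ (hft i)
      freal := fun i z => conj_ofReal _
      hβ := cl _ hbs
      hγ := cl _ (hbs.inv fun z => (hb0 z).ne')
      βreal := fun z => conj_ofReal _
      γreal := fun z => conj_ofReal _
      βγ := fun z => by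
        rw [← ofReal_mul, mul_inv_cancel₀ (hb0 z).ne', ofReal_one]
      eq := by
        intro i z hz
        have h1 := dz_dzb_lap (hft i) z
        have h2 : (Δ (fun z => θ z * f i z)) z = (Δ (f i)) z := by
          refine (InnerProductSpace.laplacian_congr_nhds ?_).self_of_nhds
          filter_upwards [hO.mem_nhds hz] with u hu
          rw [hθ1 u hu, one_mul]
        have h3 := heig i z (hOV hz)
        rw [h1, h2]
        have h4 : (Δ (f i)) z = -(lam i * ρ z * f i z) := by linarith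
        have h5 : Real.sqrt (lam i) ^ 2 = lam i := Real.sq_sqrt (by linarith [hl1 i])
        rw [h4, hbr z hz, hθ1 z hz, one_mul]
        have h6 : ((Real.sqrt (lam i))⁻¹) ^ 2 * (-(lam i * ρ z * f i z) / 4) =
            -(ρ z / 4 * f i z) := by
          rw [inv_pow, h5]
          have : lam i ≠ 0 := by linarith [hl1 i]
          field_simp
        have h7 := congrArg (fun x : ℝ => (x : ℂ)) h6
        push_cast at h7
        push_cast
        exact h7
      bd := by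
        intro K hK hKO'
        obtain ⟨C, hC⟩ := hbd K hK (hKO'.trans hOV)
        refine ⟨C, fun i => le_of_eq_of_le ?_ (hC i)⟩
        refine setIntegral_congr_fun hK.measurableSet fun z hz => ?_
        simp only [hθ1 z (hKO' hz), one_mul, norm_real]
        rw [Real.norm_eq_abs, ← abs_pow, abs_of_nonneg (by positivity)] }
  have hDκ : Tendsto D.κ 𝒰 (𝓝 0) := by
    have h1 : Tendsto (fun i => Real.sqrt (lam i)) 𝒰 atTop := Real.tendsto_sqrt_atTop.comp hlam
    exact h1.inv_tendsto_atTop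
  have te : D.Te (fun z => ((χ z : ℝ) : ℂ)) := by
    refine ⟨cl _ hχ, hχc.comp_left (g := fun x : ℝ => (x : ℂ)) (by simp), ?_⟩
    refine (closure_mono ?_).trans hKO
    intro z hz h0
    exact hz (by simp [h0])
  obtain ⟨F, hF⟩ := exists_Fra te (fun z => conj_ofReal _) (fun z => by simpa using hχ0 z)
  have hγ : ∀ z, 0 ≤ (D.γ z).re := by
    intro z
    change 0 ≤ ((((b z)⁻¹ : ℝ) : ℂ)).re
    rw [ofReal_re]
    exact (inv_pos.2 (hb0 z)).le
  have hsuppχ : tsupport F.χ ⊆ V := F.te.sub.trans hOV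
  have hDW : ∀ l i, ∀ z ∈ O, D.W l i z = harm ρ (lam i) (f i) l z := by
    intro l i z hz
    have h1 : dz^[l] (fun z => ((θ z * f i z : ℝ) : ℂ)) z = dz^[l] (fun z => (f i z : ℂ)) z := by
      refine (iter_congr ?_ l).self_of_nhds
      filter_upwards [hO.mem_nhds hz] with u hu
      rw [hθ1 u hu, one_mul]
    have h2 : D.G l i z = (((Real.sqrt (lam i))⁻¹ : ℝ) : ℂ) ^ l *
        dz^[l] (fun z => ((θ z * f i z : ℝ) : ℂ)) z := rfl
    have h3 : D.γ z = (((b z)⁻¹ : ℝ) : ℂ) := rfl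
    rw [Dat.W, h2, h1, h3, harm, hbr z hz]
    have h5 : Real.sqrt (lam i) ^ 2 = lam i := Real.sq_sqrt (by linarith [hl1 i])
    have h6 : (4 / ((ρ z : ℂ) * lam i)) = (((ρ z / 4)⁻¹ : ℝ) : ℂ) *
        ((((Real.sqrt (lam i))⁻¹ : ℝ) : ℂ) ^ 2) := by
      have h7 : (4 / (ρ z * lam i)) = (ρ z / 4)⁻¹ * ((Real.sqrt (lam i))⁻¹) ^ 2 := by
        rw [inv_pow, h5]
        have : lam i ≠ 0 := by linarith [hl1 i]
        have := (hρ0 z (hOV hz)).ne'
        field_simp
      have h8 := congrArg (fun x : ℝ => (x : ℂ)) h7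
      push_cast at h8
      push_cast
      exact h8
    rw [h6, mul_pow]
    ring
  have hwl : ∀ l ≤ L, ∀ θ' : ℂ → ℂ, D.Te θ' →
      Tendsto (fun i => ∫ z, θ' z * D.W l i z) 𝒰 (𝓝 (∫ z, θ' z * w l z)) := by
    intro l hl θ' hθ'
    refine split_test (O := O) (fun i => ?_) ?_ (fun t ht htc hts => ?_) hθ'.sm hθ'.cs hθ'.sub
    · exact ((D.W_sm l i).cont.continuousOn.locallyIntegrableOn hO.measurableSet)
    · rw [locallyIntegrableOn_iff hO.isLocallyClosed]
      intro K hKO' hK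
      haveI : IsFiniteMeasure (volume.restrict K) :=
        ⟨by rw [Measure.restrict_apply_univ]; exact hK.measure_lt_top⟩
      exact (hw l hl K hK (hKO'.trans hOV)).integrable one_le_two
    · refine (hlim l hl t ht htc (hts.trans hOV)).congr fun i => ?_
      refine integral_congr_ae (ae_of_all _ fun z => ?_)
      by_cases hz : z ∈ O
      · simp only [hDW l i z hz]
      · simp only [image_eq_zero_of_notMem_tsupport fun h => hz (hts h), ofReal_zero, zero_mul]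
  -- the limit of the fourth moments
  have hχe : ∀ z, F.χ z = ((χ z : ℝ) : ℂ) := fun z => congrFun hF z
  have hnorm : ∀ (g : ℂ → ℂ) (z : ℂ), ‖F.χ z * g z‖ ^ 2 = χ z ^ 2 * ‖g z‖ ^ 2 := by
    intro g z
    rw [hχe, norm_mul, norm_real, mul_pow, Real.norm_eq_abs, sq_abs]
  have hint4 : ∀ i, ∫ z, ‖F.χ z * (D.f i z * D.f i z)‖ ^ 2 = ∫ z, χ z ^ 2 * f i z ^ 4 := by
    intro i
    refine integral_congr_ae (ae_of_all _ fun z => ?_)
    simp only [hnorm (fun z => D.f i z * D.f i z) z]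
    by_cases hz : z ∈ O
    · have h1 : D.f i z = ((f i z : ℝ) : ℂ) := by
        change ((θ z * f i z : ℝ) : ℂ) = _
        rw [hθ1 z hz, one_mul]
      rw [h1, norm_mul, norm_real, Real.norm_eq_abs]
      have : |f i z| * |f i z| = f i z ^ 2 := by rw [← sq, sq_abs]
      rw [this]
      ring
    · have h0 : χ z = 0 := image_eq_zero_of_notMem_tsupport fun h => hz (hKO h)
      rw [h0]
      ring
  have hb0' := Dat.Bd.G (D := D) 0
  obtain ⟨C, hC⟩ := l2_bd hb0' hb0' F.te.cs F.te.sub (g := F.χ) F.te.sm.cont (fun z hz =>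
    image_eq_zero_of_notMem_tsupport hz)
  obtain ⟨m', hm'⟩ : ∃ m' : ℝ, Tendsto (fun i => ∫ z, ‖F.χ z * (D.f i z * D.f i z)‖ ^ 2) 𝒰
      (𝓝 m') := by
    have hc : IsCompact (Icc (0 : ℝ) C) := isCompact_Icc
    have he : ∀ᶠ i in (𝒰 : Filter ι), (∫ z, ‖F.χ z * (D.f i z * D.f i z)‖ ^ 2) ∈ Icc (0 : ℝ) C := by
      refine Eventually.of_forall fun i => ⟨integral_nonneg fun z => sq_nonneg _, ?_⟩
      have h1 := hC i
      simp only [Dat.G_zero] at h1
      exact h1
    obtain ⟨y, -, hy⟩ := hc.ultrafilter_le_nhds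
      (𝒰.map (fun i => ∫ z, ‖F.χ z * (D.f i z * D.f i z)‖ ^ 2)) (le_principal_iff.2 he)
    exact ⟨y, hy⟩
  have hmm : m' ≤ m := by
    refine le_of_tendsto hm' ?_
    filter_upwards [hm] with i hi
    rw [hint4]
    exact hi
  obtain ⟨u, hu, hineq⟩ := F.sharp_u hDκ hγ hm'
  have hK0 : 0 < (F.k ^ 2)⁻¹ := by have := F.kpos; positivity
  have hul : ∀ l ≤ L, ‖u l‖ ^ 2 = (F.k ^ 2)⁻¹ * ∫ z, χ z ^ 2 * ‖w l z‖ ^ 2 := by
    intro l hl
    have hMl : MemLp (fun z => F.χ z * w l z) 2 volume :=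
      memLp_te F.te.sm.cont F.te.cs (hw l hl _ F.te.cs hsuppχ)
    have he : u l = F.vX (w l) hMl := by
      refine ext_basis UnitAddTorus.mFourierBasis fun n => ?_
      refine tendsto_nhds_unique (hu l (UnitAddTorus.mFourierBasis n)) ?_
      rw [F.basis_vX]
      refine ((hwl l hl _ (F.tst_te n)).const_smul ((F.k ^ 2)⁻¹ : ℝ)).congr fun i => ?_
      rw [Fra.vW, F.basis_vX]
    rw [he, F.norm_vX]
    simp only [hnorm]
  have h1 := hineq L
  rw [hul 0 (Nat.zero_le _)] at h1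
  have h2 : ∑ l ∈ Finset.range L, ((L : ℝ) - l) * ‖u (l + 1)‖ ^ 2 =
      (F.k ^ 2)⁻¹ * ∑ l ∈ Finset.range L, ((L : ℝ) - l) * ∫ z, χ z ^ 2 * ‖w (l + 1) z‖ ^ 2 := by
    rw [Finset.mul_sum]
    refine Finset.sum_congr rfl fun l hl => ?_
    rw [hul (l + 1) (Finset.mem_range.1 hl)]
    ring
  rw [h2] at h1
  set A := ∫ z, χ z ^ 2 * ‖w 0 z‖ ^ 2
  set B := ∑ l ∈ Finset.range L, ((L : ℝ) - l) * ∫ z, χ z ^ 2 * ‖w (l + 1) z‖ ^ 2
  have h3 : (F.k ^ 2)⁻¹ * (3 * ((L : ℝ) + 1) * (2 * L + 1) * A) ≤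
      (F.k ^ 2)⁻¹ * (2 * ((L : ℝ) + 1) ^ 2 * m' + 6 * B) := by
    calc _ = 3 * ((L : ℝ) + 1) * (2 * L + 1) * ((F.k ^ 2)⁻¹ * A) := by ring
      _ ≤ _ := h1
      _ = _ := by ring
  have h4 := le_of_mul_le_mul_left h3 hK0
  have h5 : 2 * ((L : ℝ) + 1) ^ 2 * m' ≤ 2 * ((L : ℝ) + 1) ^ 2 * m :=
    mul_le_mul_of_nonneg_left hmm (by positivity)
  linarith

end

end

end Pool.Agent.H486.QM
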