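import Pool.Agent.H486.QM.LocB

/-!
# The sharp inequality for weights
-/

set_option autoImplicit false

open MeasureTheory Complex Filter Topology Set Metric
open scoped ContDiff ComplexConjugate InnerProductSpace ENNReal Manifold Laplacian

namespace Pool.Agent.H486.QM

noncomputable section

theorem exists_approx {U : Set ℂ} (hU : IsOpen U) {g : ℂ → ℝ} (hg : ContinuousOn g U)
    (hg0 : ∀ z ∈ U, 0 ≤ g z) : ∃ χ : ℕ → ℂ → ℝ,
      (∀ n, ContDiff ℝ ∞ (χ n) ∧ HasCompactSupport (χ n) ∧ tsupport (χ n) ⊆ U ∧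
        (∀ z, 0 ≤ χ n z) ∧ ∀ z ∈ U, χ n z ≤ g z) ∧
      ∀ z ∈ U, Tendsto (fun n => χ n z) atTop (𝓝 (g z)) := by
  obtain ⟨S, hS1, hS2, hS3, hS4⟩ := hU.exists_iUnion_isClosed
  set K : ℕ → Set ℂ := fun n => S n ∩ closedBall 0 n with hK
  have hKc : ∀ n, IsCompact (K n) := fun n => (isCompact_closedBall 0 (n : ℝ)).inter_left (hS1 n)
  have hKU : ∀ n, K n ⊆ U := fun n => inter_subset_left.trans (hS2 n)
  have hKm : Monotone K := by
    intro a b hab z hz
    refine ⟨hS4 hab hz.1, closedBall_subset_closedBall ?_ hz.2⟩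
    exact_mod_cast hab
  have hKe : ∀ z ∈ U, ∃ n, z ∈ K n := by
    intro z hz
    rw [← hS3] at hz
    obtain ⟨n, hn⟩ := mem_iUnion.1 hz
    obtain ⟨m, hm⟩ := exists_nat_ge ‖z‖
    refine ⟨max n m, hS4 (le_max_left _ _) hn, ?_⟩
    rw [mem_closedBall_zero_iff]
    refine hm.trans ?_
    exact_mod_cast le_max_right n m
  choose K' hK'c hK'1 hK'2 using fun n => exists_compact_between (hKc n) hU (hKU n)
  have main : ∀ n : ℕ, ∃ χ : ℂ → ℝ, ContDiff ℝ ∞ χ ∧ ∀ y, 0 ≤ χ y ∧ (y ∈ U → χ y ≤ g y) ∧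
      (y ∈ K n → g y - 1 / ((n : ℝ) + 1) ≤ χ y) ∧ (y ∉ K' n → χ y = 0) := by
    intro n
    have hn : (0 : ℝ) < 1 / ((n : ℝ) + 1) := by positivity
    set t : ℂ → Set ℝ := fun y => {c | 0 ≤ c ∧ (y ∈ U → c ≤ g y) ∧
      (y ∈ K n → g y - 1 / ((n : ℝ) + 1) ≤ c) ∧ (y ∉ K' n → c = 0)} with ht
    have hconv : ∀ y, Convex ℝ (t y) := by
      intro y a ha b hb p q hp hq hpq
      obtain ⟨a1, a2, a3, a4⟩ := ha
      obtain ⟨b1, b2, b3, b4⟩ := hb
      refine ⟨?_, fun h => ?_, fun h => ?_, fun h => ?_⟩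
      · simp only [smul_eq_mul]
        positivity
      · have := a2 h
        have := b2 h
        simp only [smul_eq_mul]
        calc p * a + q * b ≤ p * g y + q * g y := by gcongr
          _ = g y := by rw [← add_mul, hpq, one_mul]
      · have := a3 h
        have := b3 h
        simp only [smul_eq_mul]
        calc g y - 1 / ((n : ℝ) + 1) =
            p * (g y - 1 / ((n : ℝ) + 1)) + q * (g y - 1 / ((n : ℝ) + 1)) := by
              rw [← add_mul, hpq, one_mul]
          _ ≤ p * a + q * b := by gcongr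
      · rw [a4 h, b4 h]
        simp
    have hloc : ∀ x, ∃ c, ∀ᶠ y in 𝓝 x, c ∈ t y := by
      intro x
      by_cases hx : x ∈ interior (K' n)
      · have hxU : x ∈ U := hK'2 n (interior_subset hx)
        have hcx : ContinuousAt g x := hg.continuousAt (hU.mem_nhds hxU)
        refine ⟨max 0 (g x - 1 / ((n : ℝ) + 1) / 2), ?_⟩
        filter_upwards [isOpen_interior.mem_nhds hx, hU.mem_nhds hxU,
          hcx.eventually (lt_mem_nhds (show g x - 1 / ((n : ℝ) + 1) / 2 < g x by linarith)),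
          hcx.eventually (gt_mem_nhds (show g x < g x + 1 / ((n : ℝ) + 1) / 2 by linarith))]
          with y h1 h2 h3 h4
        refine ⟨le_max_left _ _, fun _ => max_le (hg0 y h2) h3.le, fun _ => ?_, fun h =>
          absurd (interior_subset h1) h⟩
        refine le_trans ?_ (le_max_right _ _)
        linarith
      · have hxK : x ∉ K n := fun h => hx (hK'1 n h)
        refine ⟨0, ?_⟩
        filter_upwards [(hKc n).isClosed.isOpen_compl.mem_nhds hxK] with y hy
        exact ⟨le_rfl, fun h => hg0 y h, fun h => absurd h hy, fun _ => rfl⟩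
    obtain ⟨χ, hχ⟩ := exists_contMDiffMap_forall_mem_convex_of_local_const (n := (⊤ : ℕ∞))
      𝓘(ℝ, ℂ) hconv hloc
    exact ⟨χ, χ.contMDiff.contDiff, hχ⟩
  choose χ hχ1 hχ2 using main
  have hsupp : ∀ n, Function.support (χ n) ⊆ K' n := by
    intro n x hx
    by_contra h
    exact hx ((hχ2 n x).2.2.2 h)
  refine ⟨χ, fun n => ⟨hχ1 n, HasCompactSupport.of_support_subset_isCompact (hK'c n) (hsupp n),
    (closure_minimal (hsupp n) (hK'c n).isClosed).trans (hK'2 n), fun z => (hχ2 n z).1,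
    fun z hz => (hχ2 n z).2.1 hz⟩, fun z hz => ?_⟩
  obtain ⟨N, hN⟩ := hKe z hz
  have h0 : Tendsto (fun n : ℕ => g z - 1 / ((n : ℝ) + 1)) atTop (𝓝 (g z - 0)) :=
    tendsto_const_nhds.sub tendsto_one_div_add_atTop_nhds_zero_nat
  rw [sub_zero] at h0
  refine tendsto_of_tendsto_of_tendsto_of_le_of_le' h0 tendsto_const_nhds ?_ ?_
  · filter_upwards [eventually_ge_atTop N] with n hn
    exact (hχ2 n z).2.2.1 (hKm hn hN)
  · exact Eventually.of_forall fun n => (hχ2 n z).2.1 hz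

end

end Pool.Agent.H486.QM
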