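import Pool.Agent.H486.QM.LocC

/-!
# The sharp fourth moment inequality for sequences of eigenfunctions
-/

set_option autoImplicit false

open MeasureTheory Complex Filter Topology Set Metric
open scoped ContDiff ComplexConjugate InnerProductSpace ENNReal Manifold Laplacian

namespace Pool.Agent.H486.QM

noncomputable section

variable {V : Set ℂ} {ρ : ℂ → ℝ} {lam : ℕ → ℝ} {f : ℕ → ℂ → ℝ}

theorem main_test (hV : IsOpen V) (hρ : ContDiffOn ℝ ∞ ρ V) (hρ0 : ∀ z ∈ V, 0 < ρ z)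
    (hlam : Tendsto lam atTop atTop) (hf : ∀ n, ContDiffOn ℝ ∞ (f n) V)
    (heig : ∀ n, ∀ z ∈ V, -(Δ (f n)) z = lam n * ρ z * f n z)
    {L : ℕ} {w : ℕ → ℂ → ℂ}
    (hw : ∀ l ≤ L, ∀ K : Set ℂ, IsCompact K → K ⊆ V → MemLp (w l) 2 (volume.restrict K))
    (hlim : ∀ l ≤ L, ∀ θ : ℂ → ℝ, ContDiff ℝ ∞ θ → HasCompactSupport θ → tsupport θ ⊆ V →
      Tendsto (fun n => ∫ z, (θ z : ℂ) * harm ρ (lam n) (f n) l z) atTop
        (𝓝 (∫ z, (θ z : ℂ) * w l z)))
    {ψ : ℂ → ℝ} (hψ : ContinuousOn ψ V) {U : Set ℂ} (hU : IsOpen U) (hUV : U ⊆ V)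
    (hψ1 : ∀ z ∈ U, 0 < ψ z) {c : ℝ} (hc0 : 0 ≤ c)
    (hc : ∃ᶠ n in atTop, ∫⁻ z in V, ENNReal.ofReal (ψ z * f n z ^ 4) ≤ ENNReal.ofReal c)
    {χ : ℂ → ℝ} (hχ : ContDiff ℝ ∞ χ) (hχc : HasCompactSupport χ) (hχV : tsupport χ ⊆ U)
    (hχ0 : ∀ z, 0 ≤ χ z) (hχψ : ∀ z ∈ U, χ z ^ 2 ≤ ψ z) :
    3 * ((L : ℝ) + 1) * (2 * L + 1) * (∫ z, χ z ^ 2 * ‖w 0 z‖ ^ 2) ≤
      2 * ((L : ℝ) + 1) ^ 2 * c +
        6 * ∑ l ∈ Finset.range L, ((L : ℝ) - l) * ∫ z, χ z ^ 2 * ‖w (l + 1) z‖ ^ 2 := by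
  set S : Set ℕ := {n | 1 ≤ lam n ∧
    ∫⁻ z in V, ENNReal.ofReal (ψ z * f n z ^ 4) ≤ ENNReal.ofReal c} with hS
  have hfr : ∃ᶠ n in atTop, n ∈ S := by
    refine (hc.and_eventually (hlam.eventually_ge_atTop 1)).mono fun n hn => ⟨hn.2, hn.1⟩
  have hNB : NeBot (comap (Subtype.val : S → ℕ) atTop) := by
    rw [comap_neBot_iff_frequently]
    refine hfr.mono fun n hn => ⟨⟨n, hn⟩, rfl⟩
  set 𝒰 : Ultrafilter S := Ultrafilter.of (comap (Subtype.val : S → ℕ) atTop) with h𝒰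
  have hval : Tendsto (Subtype.val : S → ℕ) 𝒰 atTop :=
    (tendsto_comap (f := (Subtype.val : S → ℕ)) (x := atTop)).mono_left (Ultrafilter.of_le _)
  have hcm : ∀ n, ContinuousOn (fun z => ψ z * f n z ^ 4) V := fun n =>
    hψ.mul ((hf n).continuousOn.pow 4)
  refine loc_main (ι := S) (V := U) (ρ := ρ) (lam := fun i => lam i.1) (f := fun i => f i.1)
    (𝒰 := 𝒰) hU (hρ.mono hUV) (fun z hz => hρ0 z (hUV hz)) (fun i => i.2.1)
    (fun i => (hf i.1).mono hUV) (fun i z hz => heig i.1 z (hUV hz)) (hlam.comp hval)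
    (fun K hK hKU => ?_) (fun l hl K hK hKU => hw l hl K hK (hKU.trans hUV))
    (fun l hl θ h1 h2 h3 => (hlim l hl θ h1 h2 (h3.trans hUV)).comp hval) hχ hχc hχV hχ0 ?_
  · rcases K.eq_empty_or_nonempty with hKe | hKn
    · exact ⟨0, fun i => by simp [hKe]⟩
    · obtain ⟨x, hx, hmin⟩ := hK.exists_isMinOn hKn (hψ.mono (hKU.trans hUV))
      have hδ := hψ1 x (hKU hx)
      refine ⟨(ψ x)⁻¹ * c, fun i => ?_⟩
      have hci : IntegrableOn (fun z => ψ z * f i.1 z ^ 4) K :=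
        ((hcm i.1).mono (hKU.trans hUV)).integrableOn_compact hK
      have hci' : IntegrableOn (fun z => f i.1 z ^ 4) K :=
        (((hf i.1).continuousOn.pow 4).mono (hKU.trans hUV)).integrableOn_compact hK
      have h1 : ∫ z in K, ψ z * f i.1 z ^ 4 ≤ c := by
        have h2 : ENNReal.ofReal (∫ z in K, ψ z * f i.1 z ^ 4) =
            ∫⁻ z in K, ENNReal.ofReal (ψ z * f i.1 z ^ 4) := by
          refine ofReal_integral_eq_lintegral_ofReal hci ?_
          refine (ae_restrict_iff' hK.measurableSet).2 (ae_of_all _ fun z hz => ?_)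
          exact mul_nonneg (hψ1 z (hKU hz)).le (by positivity)
        have h3 : ENNReal.ofReal (∫ z in K, ψ z * f i.1 z ^ 4) ≤ ENNReal.ofReal c := by
          rw [h2]
          exact (lintegral_mono_set (hKU.trans hUV)).trans i.2.2
        exact (ENNReal.ofReal_le_ofReal_iff hc0).1 h3
      calc ∫ z in K, f i.1 z ^ 4 ≤ ∫ z in K, (ψ x)⁻¹ * (ψ z * f i.1 z ^ 4) := by
            refine setIntegral_mono_on hci' (hci.const_mul _) hK.measurableSet fun z hz => ?_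
            have h4 : ψ x ≤ ψ z := hmin hz
            have h5 : 0 ≤ f i.1 z ^ 4 := by positivity
            rw [← mul_assoc]
            refine le_mul_of_one_le_left h5 ?_
            rw [inv_mul_eq_div, one_le_div hδ]
            exact h4
        _ = (ψ x)⁻¹ * ∫ z in K, ψ z * f i.1 z ^ 4 := integral_const_mul _ _
        _ ≤ _ := mul_le_mul_of_nonneg_left h1 (inv_pos.2 hδ).le
  · refine Eventually.of_forall fun i => ?_
    have hsup : ∀ z, z ∉ tsupport χ → χ z ^ 2 * f i.1 z ^ 4 = 0 := fun z hz => by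
      rw [image_eq_zero_of_notMem_tsupport hz]; ring
    have hK := hχc.isCompact
    have hci : IntegrableOn (fun z => χ z ^ 2 * f i.1 z ^ 4) (tsupport χ) :=
      ((hχ.continuous.continuousOn.pow 2).mul
        (((hf i.1).continuousOn.pow 4).mono (hχV.trans hUV))).integrableOn_compact hK
    have e1 : ∫ z, χ z ^ 2 * f i.1 z ^ 4 = ∫ z in tsupport χ, χ z ^ 2 * f i.1 z ^ 4 :=
      (setIntegral_eq_integral_of_forall_compl_eq_zero fun z hz => hsup z hz).symm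
    rw [e1]
    have h2 : ENNReal.ofReal (∫ z in tsupport χ, χ z ^ 2 * f i.1 z ^ 4) =
        ∫⁻ z in tsupport χ, ENNReal.ofReal (χ z ^ 2 * f i.1 z ^ 4) :=
      ofReal_integral_eq_lintegral_ofReal hci (ae_of_all _ fun z => by positivity)
    have h3 : ENNReal.ofReal (∫ z in tsupport χ, χ z ^ 2 * f i.1 z ^ 4) ≤ ENNReal.ofReal c := by
      rw [h2]
      refine le_trans ?_ i.2.2
      refine le_trans (setLIntegral_mono' hK.measurableSet fun z hz => ?_)
        (lintegral_mono_set (hχV.trans hUV))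
      refine ENNReal.ofReal_le_ofReal ?_
      exact mul_le_mul_of_nonneg_right (hχψ z (hχV hz)) (by positivity)
    exact (ENNReal.ofReal_le_ofReal_iff hc0).1 h3

/-- **The sharp fourth moment inequality.** -/
theorem main_thm (hV : IsOpen V) (hρ : ContDiffOn ℝ ∞ ρ V) (hρ0 : ∀ z ∈ V, 0 < ρ z)
    (hlam : Tendsto lam atTop atTop) (hf : ∀ n, ContDiffOn ℝ ∞ (f n) V)
    (heig : ∀ n, ∀ z ∈ V, -(Δ (f n)) z = lam n * ρ z * f n z)
    {L : ℕ} {w : ℕ → ℂ → ℂ}
    (hw : ∀ l ≤ L, ∀ K : Set ℂ, IsCompact K → K ⊆ V → MemLp (w l) 2 (volume.restrict K))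
    (hlim : ∀ l ≤ L, ∀ θ : ℂ → ℝ, ContDiff ℝ ∞ θ → HasCompactSupport θ → tsupport θ ⊆ V →
      Tendsto (fun n => ∫ z, (θ z : ℂ) * harm ρ (lam n) (f n) l z) atTop
        (𝓝 (∫ z, (θ z : ℂ) * w l z)))
    {ψ : ℂ → ℝ} (hψ : ContinuousOn ψ V) (hψ0 : ∀ z ∈ V, 0 ≤ ψ z) :
    3 * ((L : ℝ≥0∞) + 1) * (2 * L + 1) * (∫⁻ z in V, ENNReal.ofReal (ψ z * ‖w 0 z‖ ^ 2)) ≤
      2 * ((L : ℝ≥0∞) + 1) ^ 2 *
        liminf (fun n => ∫⁻ z in V, ENNReal.ofReal (ψ z * f n z ^ 4)) atTop +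
      6 * ∑ l ∈ Finset.range L, ((L - l : ℕ) : ℝ≥0∞) *
        ∫⁻ z in V, ENNReal.ofReal (ψ z * ‖w (l + 1) z‖ ^ 2) := by
  set c := liminf (fun n => ∫⁻ z in V, ENNReal.ofReal (ψ z * f n z ^ 4)) atTop with hcdef
  rcases eq_or_ne c ⊤ with hct | hct
  · rw [hct, ENNReal.mul_top (by positivity)]
    simp
  set U : Set ℂ := {z | z ∈ V ∧ 0 < ψ z} with hUdef
  have hU : IsOpen U := hψ.isOpen_inter_preimage hV isOpen_Ioi
  have hUV : U ⊆ V := fun z hz => hz.1
  obtain ⟨χ, hχ, hχl⟩ := exists_approx hU (g := fun z => Real.sqrt (ψ z))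
    ((hψ.mono hUV).sqrt) (fun z _ => Real.sqrt_nonneg _)
  -- finite integrals for test functions
  have hfin : ∀ l ≤ L, ∀ n, ENNReal.ofReal (∫ z, χ n z ^ 2 * ‖w l z‖ ^ 2) =
      ∫⁻ z, ENNReal.ofReal (χ n z ^ 2 * ‖w l z‖ ^ 2) := by
    intro l hl n
    obtain ⟨h1, h2, h3, h4, h5⟩ := hχ n
    refine ofReal_integral_eq_lintegral_ofReal ?_ (ae_of_all _ fun z => by positivity)
    have h6 : MemLp (fun z => (χ n z : ℂ) * w l z) 2 volume := by
      refine memLp_te (continuous_ofReal.comp h1.continuous)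
        (h2.comp_left (g := fun x : ℝ => (x : ℂ)) (by simp)) ?_
      refine hw l hl _ (h2.comp_left (g := fun x : ℝ => (x : ℂ)) (by simp)) ?_
      refine (closure_mono ?_).trans (h3.trans hUV)
      intro z hz h0
      exact hz (by simp [h0])
    have h7 := h6.integrable_norm_pow (by norm_num)
    refine h7.congr (ae_of_all _ fun z => ?_)
    simp only
    rw [norm_mul, norm_real, mul_pow, Real.norm_eq_abs]
    norm_num
  have hle : ∀ l, ∀ n, ∫⁻ z, ENNReal.ofReal (χ n z ^ 2 * ‖w l z‖ ^ 2) ≤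
      ∫⁻ z in V, ENNReal.ofReal (ψ z * ‖w l z‖ ^ 2) := by
    intro l n
    obtain ⟨h1, h2, h3, h4, h5⟩ := hχ n
    rw [← lintegral_indicator hV.measurableSet]
    refine lintegral_mono fun z => ?_
    by_cases hz : z ∈ U
    · rw [indicator_of_mem (hUV hz)]
      refine ENNReal.ofReal_le_ofReal (mul_le_mul_of_nonneg_right ?_ (by positivity))
      calc χ n z ^ 2 ≤ Real.sqrt (ψ z) ^ 2 := pow_le_pow_left₀ (h4 z) (h5 z hz) 2
        _ = ψ z := Real.sq_sqrt hz.2.le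
    · rw [image_eq_zero_of_notMem_tsupport fun h => hz (h3 h)]
      simp
  -- inequality for each test function
  have hkey : ∀ n, 3 * ((L : ℝ≥0∞) + 1) * (2 * L + 1) *
      (∫⁻ z, ENNReal.ofReal (χ n z ^ 2 * ‖w 0 z‖ ^ 2)) ≤ 2 * ((L : ℝ≥0∞) + 1) ^ 2 * c +
      6 * ∑ l ∈ Finset.range L, ((L - l : ℕ) : ℝ≥0∞) *
        ∫⁻ z in V, ENNReal.ofReal (ψ z * ‖w (l + 1) z‖ ^ 2) := by
    intro n
    obtain ⟨h1, h2, h3, h4, h5⟩ := hχ n
    have hreal : ∀ ε : ℝ, 0 < ε →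
        3 * ((L : ℝ) + 1) * (2 * L + 1) * (∫ z, χ n z ^ 2 * ‖w 0 z‖ ^ 2) ≤
        2 * ((L : ℝ) + 1) ^ 2 * (c.toReal + ε) +
        6 * ∑ l ∈ Finset.range L, ((L : ℝ) - l) * ∫ z, χ n z ^ 2 * ‖w (l + 1) z‖ ^ 2 := by
      intro ε hε
      refine main_test hV hρ hρ0 hlam hf heig hw hlim hψ hU hUV (fun z hz => hz.2)
        (by positivity) ?_ h1 h2 h3 h4 (fun z hz => ?_)
      · have h6 : c < ENNReal.ofReal (c.toReal + ε) := by
          conv_lhs => rw [← ENNReal.ofReal_toReal hct]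
          exact (ENNReal.ofReal_lt_ofReal_iff (by positivity)).2 (by linarith)
        exact (frequently_lt_of_liminf_lt (by isBoundedDefault) h6).mono fun m hm => hm.le
      · calc χ n z ^ 2 ≤ Real.sqrt (ψ z) ^ 2 := pow_le_pow_left₀ (h4 z) (h5 z hz) 2
          _ = ψ z := Real.sq_sqrt hz.2.le
    have hreal0 : 3 * ((L : ℝ) + 1) * (2 * L + 1) * (∫ z, χ n z ^ 2 * ‖w 0 z‖ ^ 2) ≤
        2 * ((L : ℝ) + 1) ^ 2 * c.toReal +
        6 * ∑ l ∈ Finset.range L, ((L : ℝ) - l) * ∫ z, χ n z ^ 2 * ‖w (l + 1) z‖ ^ 2 := by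
      refine le_of_forall_pos_le_add fun ε hε => ?_
      have h7 := hreal (ε / (2 * ((L : ℝ) + 1) ^ 2)) (by positivity)
      have h8 : 2 * ((L : ℝ) + 1) ^ 2 * (c.toReal + ε / (2 * ((L : ℝ) + 1) ^ 2)) =
          2 * ((L : ℝ) + 1) ^ 2 * c.toReal + ε := by
        field_simp
      rw [h8] at h7
      linarith
    have h9 := ENNReal.ofReal_le_ofReal hreal0
    rw [ENNReal.ofReal_mul (p := 3 * ((L : ℝ) + 1) * (2 * L + 1)) (by positivity),
      hfin 0 (Nat.zero_le _) n,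
      ENNReal.ofReal_add (by positivity) (by
        refine mul_nonneg (by norm_num) (Finset.sum_nonneg fun l hl => ?_)
        refine mul_nonneg ?_ (integral_nonneg fun z => by positivity)
        have := Finset.mem_range.1 hl
        have : (l : ℝ) < L := by exact_mod_cast this
        linarith), ENNReal.ofReal_mul (p := 2 * ((L : ℝ) + 1) ^ 2) (by positivity),
      ENNReal.ofReal_toReal hct,
      ENNReal.ofReal_mul (p := (6 : ℝ)) (by norm_num),
      ENNReal.ofReal_sum_of_nonneg (fun l hl => by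
        refine mul_nonneg ?_ (integral_nonneg fun z => by positivity)
        have := Finset.mem_range.1 hl
        have : (l : ℝ) < L := by exact_mod_cast this
        linarith)] at h9
    have e1 : ENNReal.ofReal (3 * ((L : ℝ) + 1) * (2 * L + 1)) =
        3 * ((L : ℝ≥0∞) + 1) * (2 * L + 1) := by
      have : (3 * ((L : ℝ) + 1) * (2 * L + 1)) = ((3 * (L + 1) * (2 * L + 1) : ℕ) : ℝ) := by
        push_cast; ring
      rw [this, ENNReal.ofReal_natCast]
      push_cast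
      ring
    have e2 : ENNReal.ofReal (2 * ((L : ℝ) + 1) ^ 2) = 2 * ((L : ℝ≥0∞) + 1) ^ 2 := by
      have : (2 * ((L : ℝ) + 1) ^ 2) = ((2 * (L + 1) ^ 2 : ℕ) : ℝ) := by
        push_cast; ring
      rw [this, ENNReal.ofReal_natCast]
      push_cast
      ring
    have e3 : ENNReal.ofReal (6 : ℝ) = 6 := by norm_num
    rw [e1, e2, e3] at h9
    refine h9.trans (add_le_add le_rfl (mul_le_mul_right (Finset.sum_le_sum fun l hl => ?_) _))
    have hl' := Finset.mem_range.1 hl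
    have e4 : ((L : ℝ) - l) = ((L - l : ℕ) : ℝ) := by
      rw [Nat.cast_sub hl'.le]
    rw [ENNReal.ofReal_mul (by rw [e4]; positivity), e4, ENNReal.ofReal_natCast,
      hfin (l + 1) hl' n]
    exact mul_le_mul_right (hle (l + 1) n) _
  -- monotone limit
  have hwm : AEMeasurable (w 0) (volume.restrict U) := by
    obtain ⟨S, hS1, hS2, hS3, hS4⟩ := hU.exists_iUnion_isClosed
    have h1 : U = ⋃ p : ℕ × ℕ, S p.1 ∩ closedBall 0 p.2 := by
      ext z
      constructor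
      · intro hz
        rw [← hS3] at hz
        obtain ⟨n, hn⟩ := mem_iUnion.1 hz
        obtain ⟨m, hm⟩ := exists_nat_ge ‖z‖
        exact mem_iUnion.2 ⟨(n, m), hn, by simpa using hm⟩
      · intro hz
        obtain ⟨p, hp⟩ := mem_iUnion.1 hz
        exact hS2 _ hp.1
    rw [h1]
    refine AEMeasurable.iUnion fun p => ?_
    have hKc : IsCompact (S p.1 ∩ closedBall (0 : ℂ) p.2) :=
      (isCompact_closedBall 0 (p.2 : ℝ)).inter_left (hS1 p.1)
    exact (hw 0 (Nat.zero_le _) _ hKc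
      ((inter_subset_left.trans (hS2 _)).trans hUV)).1.aemeasurable
  have hFatou : ∫⁻ z in V, ENNReal.ofReal (ψ z * ‖w 0 z‖ ^ 2) ≤
      liminf (fun n => ∫⁻ z, ENNReal.ofReal (χ n z ^ 2 * ‖w 0 z‖ ^ 2)) atTop := by
    have h1 : ∫⁻ z in V, ENNReal.ofReal (ψ z * ‖w 0 z‖ ^ 2) =
        ∫⁻ z in U, ENNReal.ofReal (ψ z * ‖w 0 z‖ ^ 2) := by
      rw [← lintegral_indicator hV.measurableSet, ← lintegral_indicator hU.measurableSet]
      congr 1
      ext z
      by_cases hz : z ∈ U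
      · rw [indicator_of_mem hz, indicator_of_mem (hUV hz)]
      · rw [indicator_of_notMem hz]
        by_cases hz' : z ∈ V
        · rw [indicator_of_mem hz']
          have h2 : ψ z = 0 := le_antisymm (not_lt.1 fun h => hz ⟨hz', h⟩) (hψ0 z hz')
          rw [h2]
          simp
        · rw [indicator_of_notMem hz']
    have h2 : ∀ n, ∫⁻ z, ENNReal.ofReal (χ n z ^ 2 * ‖w 0 z‖ ^ 2) =
        ∫⁻ z in U, ENNReal.ofReal (χ n z ^ 2 * ‖w 0 z‖ ^ 2) := by
      intro n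
      rw [← lintegral_indicator hU.measurableSet]
      congr 1
      ext z
      by_cases hz : z ∈ U
      · rw [indicator_of_mem hz]
      · rw [indicator_of_notMem hz, image_eq_zero_of_notMem_tsupport fun h => hz ((hχ n).2.2.1 h)]
        simp
    rw [h1]
    simp only [h2]
    refine le_trans (le_of_eq ?_) (lintegral_liminf_le' fun n => ?_)
    · refine setLIntegral_congr_fun hU.measurableSet fun z hz => ?_
      have h3 : Tendsto (fun n => ENNReal.ofReal (χ n z ^ 2 * ‖w 0 z‖ ^ 2)) atTop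
          (𝓝 (ENNReal.ofReal (Real.sqrt (ψ z) ^ 2 * ‖w 0 z‖ ^ 2))) :=
        ENNReal.tendsto_ofReal (((hχl z hz).pow 2).mul_const _)
      rw [Real.sq_sqrt hz.2.le] at h3
      exact h3.liminf_eq.symm
    · have h4 : AEMeasurable (fun z => ‖w 0 z‖) (volume.restrict U) := hwm.norm
      exact ((((hχ n).1.continuous.measurable.pow_const 2).aemeasurable).mul
        (h4.pow_const 2)).ennreal_ofReal
  calc 3 * ((L : ℝ≥0∞) + 1) * (2 * L + 1) * (∫⁻ z in V, ENNReal.ofReal (ψ z * ‖w 0 z‖ ^ 2))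
      ≤ 3 * ((L : ℝ≥0∞) + 1) * (2 * L + 1) *
        liminf (fun n => ∫⁻ z, ENNReal.ofReal (χ n z ^ 2 * ‖w 0 z‖ ^ 2)) atTop :=
        mul_le_mul_right hFatou _
    _ ≤ _ := by
        have hne : 3 * ((L : ℝ≥0∞) + 1) * (2 * L + 1) ≠ ⊤ := by
          have : 3 * ((L : ℝ≥0∞) + 1) * (2 * L + 1) = ((3 * (L + 1) * (2 * L + 1) : ℕ) : ℝ≥0∞) := by
            push_cast; ring
          rw [this]
          exact ENNReal.natCast_ne_top _
        have h1 : liminf (fun n => ∫⁻ z, ENNReal.ofReal (χ n z ^ 2 * ‖w 0 z‖ ^ 2)) atTop ≤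
            (2 * ((L : ℝ≥0∞) + 1) ^ 2 * c +
              6 * ∑ l ∈ Finset.range L, ((L - l : ℕ) : ℝ≥0∞) *
              ∫⁻ z in V, ENNReal.ofReal (ψ z * ‖w (l + 1) z‖ ^ 2)) /
              (3 * ((L : ℝ≥0∞) + 1) * (2 * L + 1)) := by
          refine liminf_le_of_le (by isBoundedDefault) fun b hb => ?_
          obtain ⟨n, hn⟩ := hb.exists
          refine hn.trans ?_
          rw [ENNReal.le_div_iff_mul_le (Or.inl (by positivity)) (Or.inl hne), mul_comm]
          exact hkey n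
        refine (mul_le_mul_right h1 _).trans ?_
        rw [ENNReal.mul_div_cancel (by positivity) hne]

end

end Pool.Agent.H486.QM
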