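import Pool.Agent.H486.QM.FullD
import Pool.Agent.H486.QM.Main

/-!
# From global to local fourth moments
-/

set_option autoImplicit false

open MeasureTheory Complex Filter Topology Set Metric
open scoped ContDiff ComplexConjugate InnerProductSpace ENNReal Manifold Laplacian

namespace Pool.Agent.H486.QM

noncomputable section

variable {V : Set ℂ} {ρ : ℂ → ℝ} {lam : ℕ → ℝ} {f : ℕ → ℂ → ℝ}

/-- the lower bound for equidistributed sequences -/
theorem liminf_three (hV : IsOpen V) (hρ : ContDiffOn ℝ ∞ ρ V) (hρ0 : ∀ z ∈ V, 0 < ρ z)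
    (hlam : Tendsto lam atTop atTop) (hf : ∀ n, ContDiffOn ℝ ∞ (f n) V)
    (heig : ∀ n, ∀ z ∈ V, -(Δ (f n)) z = lam n * ρ z * f n z) (hq : QueRaw V ρ lam f)
    {ψ : ℂ → ℝ} (hψ : ContinuousOn ψ V) (hψ0 : ∀ z ∈ V, 0 ≤ ψ z) :
    3 * (∫⁻ z in V, ENNReal.ofReal (ψ z)) ≤
      liminf (fun n => ∫⁻ z in V, ENNReal.ofReal (ψ z * f n z ^ 4)) atTop := by
  set A := ∫⁻ z in V, ENNReal.ofReal (ψ z) with hA
  set c := liminf (fun n => ∫⁻ z in V, ENNReal.ofReal (ψ z * f n z ^ 4)) atTop with hc
  have key : ∀ L : ℕ, 3 * ((L : ℝ≥0∞) + 1) * (2 * L + 1) * A ≤ 2 * ((L : ℝ≥0∞) + 1) ^ 2 * c := by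
    intro L
    have h1 := main_thm hV hρ hρ0 hlam hf heig (L := L) (w := fun l _ => if l = 0 then 1 else 0)
      (fun l _ K hK _ => by
        have : IsFiniteMeasure (volume.restrict K) :=
          ⟨by rw [Measure.restrict_apply_univ]; exact hK.measure_lt_top⟩
        exact memLp_const _) (fun l _ => by
        rcases Nat.eq_zero_or_pos l with h2 | h2
        · subst h2
          intro θ a1 a2 a3
          simpa using hq.1 θ a1 a2 a3
        · obtain ⟨k, rfl⟩ := Nat.exists_eq_succ_of_ne_zero h2.ne'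
          intro θ a1 a2 a3
          simpa using hq.2 k θ a1 a2 a3) hψ hψ0
    simpa using h1
  rcases eq_or_ne c ⊤ with hct | hct
  · rw [hct]
    exact le_top
  have hAt : A ≠ ⊤ := by
    intro hAt
    have h1 := key 0
    rw [hAt] at h1
    simp only [CharP.cast_eq_zero, zero_add, mul_one, mul_zero, one_pow] at h1
    rw [ENNReal.mul_top (by norm_num), top_le_iff] at h1
    exact ENNReal.mul_ne_top (by norm_num) hct h1
  have hreal : ∀ L : ℕ, 3 * (2 * (L : ℝ) + 1) * A.toReal ≤ 2 * ((L : ℝ) + 1) * c.toReal := by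
    intro L
    have h1 := ENNReal.toReal_mono (ENNReal.mul_ne_top (by
      have : 2 * ((L : ℝ≥0∞) + 1) ^ 2 = ((2 * (L + 1) ^ 2 : ℕ) : ℝ≥0∞) := by
        push_cast; ring
      rw [this]
      exact ENNReal.natCast_ne_top _) hct) (key L)
    have e1 : 3 * ((L : ℝ≥0∞) + 1) * (2 * L + 1) = ((3 * (L + 1) * (2 * L + 1) : ℕ) : ℝ≥0∞) := by
      push_cast; ring
    have e2 : 2 * ((L : ℝ≥0∞) + 1) ^ 2 = ((2 * (L + 1) ^ 2 : ℕ) : ℝ≥0∞) := by
      push_cast; ring
    rw [e1, e2, ENNReal.toReal_mul, ENNReal.toReal_mul, ENNReal.toReal_natCast,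
      ENNReal.toReal_natCast] at h1
    push_cast at h1
    have h2 : (0 : ℝ) < (L : ℝ) + 1 := by positivity
    nlinarith
  have hfin : 3 * A.toReal ≤ c.toReal := by
    by_contra hcon
    push Not at hcon
    obtain ⟨L, hL⟩ := exists_nat_gt (2 * c.toReal / (3 * A.toReal - c.toReal))
    have h3 : 0 < 3 * A.toReal - c.toReal := by linarith
    rw [div_lt_iff₀ h3] at hL
    have h4 := hreal L
    have h5 : 0 ≤ A.toReal := ENNReal.toReal_nonneg
    have h6 : 0 ≤ c.toReal := ENNReal.toReal_nonneg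
    nlinarith
  calc 3 * A = ENNReal.ofReal (3 * A.toReal) := by
        rw [ENNReal.ofReal_mul (by norm_num), ENNReal.ofReal_toReal hAt]
        norm_num
    _ ≤ ENNReal.ofReal c.toReal := ENNReal.ofReal_le_ofReal hfin
    _ = c := ENNReal.ofReal_toReal hct

/-- a global fourth moment gives all local fourth moments -/
theorem local_of_global (hV : IsOpen V) (hρ : ContDiffOn ℝ ∞ ρ V) (hρ0 : ∀ z ∈ V, 0 < ρ z)
    (hlam : Tendsto lam atTop atTop) (hf : ∀ n, ContDiffOn ℝ ∞ (f n) V)
    (heig : ∀ n, ∀ z ∈ V, -(Δ (f n)) z = lam n * ρ z * f n z) (hq : QueRaw V ρ lam f)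
    {w : ℂ → ℝ} (hw : ContinuousOn w V) (hw0 : ∀ z ∈ V, 0 < w z) (hwi : IntegrableOn w V)
    (hlim : Tendsto (fun n => ∫⁻ z in V, ENNReal.ofReal (w z * f n z ^ 4)) atTop
      (𝓝 (3 * ∫⁻ z in V, ENNReal.ofReal (w z))))
    {ψ : ℂ → ℝ} (hψ : ContDiff ℝ ∞ ψ) (hψc : HasCompactSupport ψ) (hψV : tsupport ψ ⊆ V) :
    Tendsto (fun n => ∫ z, ψ z * f n z ^ 4) atTop (𝓝 (3 * ∫ z, ψ z)) := by
  have hVm := hV.measurableSet
  have one : ∀ ψ : ℂ → ℝ, ContDiff ℝ ∞ ψ → HasCompactSupport ψ → tsupport ψ ⊆ V →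
      ∀ ε : ℝ, 0 < ε → ∀ᶠ n in atTop, ∫ z, ψ z * f n z ^ 4 ≤ 3 * (∫ z, ψ z) + ε := by
    intro ψ hψ hψc hψV ε hε
    obtain ⟨C, hC0, hC⟩ : ∃ C : ℝ, 0 < C ∧ ∀ z ∈ V, ψ z ≤ C * w z := by
      rcases (tsupport ψ).eq_empty_or_nonempty with he | hne
      · refine ⟨1, one_pos, fun z hz => ?_⟩
        have h0 : ψ z = 0 := image_eq_zero_of_notMem_tsupport (by rw [he]; simp)
        rw [h0, one_mul]
        exact (hw0 z hz).le
      · obtain ⟨z0, hz0, hmin⟩ := hψc.isCompact.exists_isMinOn hne (hw.mono hψV)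
        obtain ⟨B, hB⟩ := hψc.exists_bound_of_continuous hψ.continuous
        have hw1 := hw0 z0 (hψV hz0)
        refine ⟨(|B| + 1) / w z0, by positivity, fun z hz => ?_⟩
        by_cases hzs : z ∈ tsupport ψ
        · have h1 : w z0 ≤ w z := hmin hzs
          have h2 : ψ z ≤ |B| + 1 := by
            have h3 := hB z
            rw [Real.norm_eq_abs] at h3
            linarith [le_abs_self (ψ z), le_abs_self B]
          calc ψ z ≤ |B| + 1 := h2
            _ = (|B| + 1) / w z0 * w z0 := by field_simp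
            _ ≤ (|B| + 1) / w z0 * w z := mul_le_mul_of_nonneg_left h1 (by positivity)
        · rw [image_eq_zero_of_notMem_tsupport hzs]
          have := hw0 z hz
          positivity
    have hψi : Integrable ψ := hψ.continuous.integrable_of_hasCompactSupport hψc
    set g : ℂ → ℝ := fun z => C * w z - ψ z with hg
    have hgc : ContinuousOn g V := (continuousOn_const.mul hw).sub hψ.continuous.continuousOn
    have hg0 : ∀ z ∈ V, 0 ≤ g z := fun z hz => sub_nonneg.2 (hC z hz)
    have hgi : IntegrableOn g V := (hwi.const_mul C).sub hψi.integrableOn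
    have h1 := liminf_three hV hρ hρ0 hlam hf heig hq hgc hg0
    set A := ∫ z in V, g z with hA
    have hAe : A = C * (∫ z in V, w z) - ∫ z, ψ z := by
      rw [hA, integral_sub (hwi.const_mul C) hψi.integrableOn, integral_const_mul]
      congr 1
      exact setIntegral_eq_integral_of_forall_compl_eq_zero fun z hz =>
        image_eq_zero_of_notMem_tsupport fun h => hz (hψV h)
    have hAl : ∫⁻ z in V, ENNReal.ofReal (g z) = ENNReal.ofReal A := by
      rw [hA, ofReal_integral_eq_lintegral_ofReal hgi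
        ((ae_restrict_iff' hVm).2 (ae_of_all _ hg0))]
    rw [hAl] at h1
    have hwl : ∫⁻ z in V, ENNReal.ofReal (w z) = ENNReal.ofReal (∫ z in V, w z) :=
      (ofReal_integral_eq_lintegral_ofReal hwi
        ((ae_restrict_iff' hVm).2 (ae_of_all _ fun z hz => (hw0 z hz).le))).symm
    rw [hwl] at hlim
    have hfinl : (3 : ℝ≥0∞) * ENNReal.ofReal (∫ z in V, w z) ≠ ⊤ :=
      ENNReal.mul_ne_top (by norm_num) ENNReal.ofReal_ne_top
    have hev1 : ∀ᶠ n in atTop, ∫⁻ z in V, ENNReal.ofReal (w z * f n z ^ 4) < ⊤ :=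
      hlim.eventually_lt_const (lt_top_iff_ne_top.2 hfinl)
    have hreal := (ENNReal.tendsto_toReal hfinl).comp hlim
    have hwnn : 0 ≤ ∫ z in V, w z :=
      setIntegral_nonneg hVm fun z hz => (hw0 z hz).le
    have he3 : ((3 : ℝ≥0∞) * ENNReal.ofReal (∫ z in V, w z)).toReal = 3 * ∫ z in V, w z := by
      rw [ENNReal.toReal_mul, ENNReal.toReal_ofReal hwnn]
      norm_num
    rw [he3] at hreal
    have hev2 : ∀ᶠ n in atTop, C * (∫⁻ z in V, ENNReal.ofReal (w z * f n z ^ 4)).toReal <
        C * (3 * ∫ z in V, w z) + ε / 2 := by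
      have h2 := hreal.const_mul C
      exact h2.eventually_lt_const (by linarith)
    have hev3 : ∀ᶠ n in atTop, ENNReal.ofReal (3 * A - ε / 2) ≤
        ∫⁻ z in V, ENNReal.ofReal (g z * f n z ^ 4) := by
      rcases le_or_gt (3 * A - ε / 2) 0 with h | h
      · refine Eventually.of_forall fun n => ?_
        rw [ENNReal.ofReal_of_nonpos h]
        exact zero_le
      · have h2 : ENNReal.ofReal (3 * A - ε / 2) < 3 * ENNReal.ofReal A := by
          have h3 : (3 : ℝ≥0∞) * ENNReal.ofReal A = ENNReal.ofReal (3 * A) := by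
            rw [ENNReal.ofReal_mul (by norm_num)]
            norm_num
          rw [h3]
          exact (ENNReal.ofReal_lt_ofReal_iff (by linarith)).2 (by linarith)
        exact (eventually_lt_of_lt_liminf (lt_of_lt_of_le h2 h1)).mono fun n hn => hn.le
    filter_upwards [hev1, hev2, hev3] with n hn1 hn2 hn3
    have hwf : IntegrableOn (fun z => w z * f n z ^ 4) V := by
      refine ⟨(hw.mul ((hf n).continuousOn.pow 4)).aestronglyMeasurable hVm, ?_⟩
      refine lt_of_le_of_lt (le_of_eq ?_) hn1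
      refine setLIntegral_congr_fun hVm fun z hz => ?_
      simp only
      rw [Real.enorm_of_nonneg (mul_nonneg (hw0 z hz).le (by positivity))]
    have hψf : Integrable (fun z => ψ z * f n z ^ 4) := by
      have h4 : IntegrableOn (fun z => ψ z * f n z ^ 4) (tsupport ψ) :=
        (hψ.continuous.continuousOn.mul
          (((hf n).continuousOn.mono hψV).pow 4)).integrableOn_compact hψc
      rw [← integrableOn_iff_integrable_of_support_subset (s := tsupport ψ)]
      · exact h4
      · intro z hz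
        by_contra hcon
        exact hz (by simp [image_eq_zero_of_notMem_tsupport hcon])
    have hgf : IntegrableOn (fun z => g z * f n z ^ 4) V := by
      have : (fun z => g z * f n z ^ 4) = fun z => C * (w z * f n z ^ 4) - ψ z * f n z ^ 4 := by
        ext z; simp only [hg]; ring
      rw [this]
      exact (hwf.const_mul C).sub hψf.integrableOn
    have e1 : ∫ z in V, g z * f n z ^ 4 = C * (∫ z in V, w z * f n z ^ 4) -
        ∫ z, ψ z * f n z ^ 4 := by
      have h5 : ∫ z in V, g z * f n z ^ 4 =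
          ∫ z in V, (C * (w z * f n z ^ 4) - ψ z * f n z ^ 4) := by
        refine integral_congr_ae (ae_of_all _ fun z => ?_)
        simp only [hg]; ring
      rw [h5, integral_sub (hwf.const_mul C) hψf.integrableOn, integral_const_mul]
      congr 1
      exact setIntegral_eq_integral_of_forall_compl_eq_zero fun z hz => by
        rw [image_eq_zero_of_notMem_tsupport fun h => hz (hψV h), zero_mul]
    have e2 : (∫⁻ z in V, ENNReal.ofReal (w z * f n z ^ 4)).toReal =
        ∫ z in V, w z * f n z ^ 4 := by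
      rw [← ofReal_integral_eq_lintegral_ofReal hwf
        ((ae_restrict_iff' hVm).2 (ae_of_all _ fun z hz =>
          mul_nonneg (hw0 z hz).le (by positivity)))]
      exact ENNReal.toReal_ofReal (setIntegral_nonneg hVm fun z hz =>
        mul_nonneg (hw0 z hz).le (by positivity))
    have hgnn : 0 ≤ ∫ z in V, g z * f n z ^ 4 :=
      setIntegral_nonneg hVm fun z hz => mul_nonneg (hg0 z hz) (by positivity)
    rw [← ofReal_integral_eq_lintegral_ofReal hgf
      ((ae_restrict_iff' hVm).2 (ae_of_all _ fun z hz =>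
        mul_nonneg (hg0 z hz) (by positivity)))] at hn3
    have h6 : 3 * A - ε / 2 ≤ ∫ z in V, g z * f n z ^ 4 :=
      (ENNReal.ofReal_le_ofReal_iff hgnn).1 hn3
    rw [e2] at hn2
    rw [e1, hAe] at h6
    linarith
  rw [Metric.tendsto_nhds]
  intro ε hε
  have hn1 := one ψ hψ hψc hψV (ε / 2) (by positivity)
  have hn2 := one (fun z => -ψ z) hψ.neg (hψc.comp_left (g := fun x : ℝ => -x) (by simp)) (by
    refine (closure_mono ?_).trans hψV
    intro z hz h0
    exact hz (by simp [h0])) (ε / 2) (by positivity)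
  filter_upwards [hn1, hn2] with n h1 h2
  have e1 : ∫ z, -ψ z * f n z ^ 4 = -∫ z, ψ z * f n z ^ 4 := by
    rw [← integral_neg]
    refine integral_congr_ae (ae_of_all _ fun z => ?_)
    simp only
    ring
  rw [e1, integral_neg] at h2
  rw [Real.dist_eq, abs_lt]
  constructor <;> linarith

end

end Pool.Agent.H486.QM
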