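import Pool.Agent.H486.QM.LocC

/-!
# Global models of local families
-/

set_option autoImplicit false

open MeasureTheory Complex Filter Topology Set Metric
open scoped ContDiff ComplexConjugate InnerProductSpace ENNReal Manifold Laplacian

namespace Pool.Agent.H486.QM

noncomputable section

/-- the energies of an eigenfunction -/
def enr (ρ : ℂ → ℝ) (lam : ℝ) (f : ℂ → ℝ) (p : ℕ) (z : ℂ) : ℝ :=
  (4 / (ρ z * lam)) ^ p * ‖dz^[p] (fun z => (f z : ℂ)) z‖ ^ 2

variable {ι : Type} {V : Set ℂ} {ρ : ℂ → ℝ} {lam : ι → ℝ} {f : ι → ℂ → ℝ}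

/-- a global family which coincides with the given one near a compact set -/
theorem exists_model (hV : IsOpen V) (hρ : ContDiffOn ℝ ∞ ρ V) (hρ0 : ∀ z ∈ V, 0 < ρ z)
    (hl1 : ∀ i, 1 ≤ lam i) (hf : ∀ i, ContDiffOn ℝ ∞ (f i) V)
    (heig : ∀ i, ∀ z ∈ V, -(Δ (f i)) z = lam i * ρ z * f i z)
    {𝒰 : Filter ι} (hlam : Tendsto lam 𝒰 atTop)
    (hbd : ∀ K : Set ℂ, IsCompact K → K ⊆ V → ∃ C : ℝ, ∀ i, ∫ z in K, f i z ^ 4 ≤ C)
    {K : Set ℂ} (hK : IsCompact K) (hKV : K ⊆ V) :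
    ∃ D : Dat ι, K ⊆ D.V ∧ D.V ⊆ V ∧ Tendsto D.κ 𝒰 (𝓝 0) ∧ (∀ z, 0 ≤ (D.γ z).re) ∧
      (∀ i, D.κ i = (Real.sqrt (lam i))⁻¹) ∧
      (∀ i, ∀ z ∈ D.V, D.f i z = (f i z : ℂ)) ∧ (∀ z ∈ D.V, D.β z = ((ρ z / 4 : ℝ) : ℂ)) ∧
      (∀ l i, ∀ z ∈ D.V, D.G l i z =
        (((Real.sqrt (lam i))⁻¹ : ℝ) : ℂ) ^ l * dz^[l] (fun z => (f i z : ℂ)) z) ∧
      (∀ l i, ∀ z ∈ D.V, D.W l i z = harm ρ (lam i) (f i) l z) ∧
      (∀ (p : ℕ) i, ∀ z ∈ D.V, D.kk p i z = (enr ρ (lam i) (f i) p z : ℂ)) := by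
  obtain ⟨θ, hθ, hθc, hθV, hθ01, O, hO, hKO, hOV, hθ1⟩ := exists_cutoff hK hV hKV
  have hft : ∀ i, ContDiff ℝ ∞ (fun z => θ z * f i z) := fun i => ext_smooth hV (hf i) hθ hθV
  set b : ℂ → ℝ := fun z => (θ z * ρ z + (1 - θ z)) / 4 with hb
  have hbs : ContDiff ℝ ∞ b :=
    ((ext_smooth hV hρ hθ hθV).add (contDiff_const.sub hθ)).div_const 4
  have hb0 : ∀ z, 0 < b z := by
    intro z
    have h1 := hθ01 z
    by_cases hz : z ∈ V
    · have h2 := hρ0 z hz
      rcases h1.1.eq_or_lt with h3 | h3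
      · simp only [hb, ← h3]; norm_num
      · have h4 : 0 < θ z * ρ z := mul_pos h3 h2
        simp only [hb]
        linarith [h1.2]
    · have h3 : θ z = 0 := image_eq_zero_of_notMem_tsupport fun h => hz (hθV h)
      simp only [hb, h3]; norm_num
  have hbr : ∀ z ∈ O, b z = ρ z / 4 := by
    intro z hz
    simp only [hb, hθ1 z hz]; ring
  have hκ0 : ∀ i, 0 < Real.sqrt (lam i) := fun i => Real.sqrt_pos.2 (by linarith [hl1 i])
  have cl : ∀ g : ℂ → ℝ, ContDiff ℝ ∞ g → Sm (fun z => ((g z : ℝ) : ℂ)) := fun g hg =>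
    ofRealCLM.contDiff.comp hg
  let D : Dat ι :=
    { κ := fun i => (Real.sqrt (lam i))⁻¹
      f := fun i z => ((θ z * f i z : ℝ) : ℂ)
      β := fun z => ((b z : ℝ) : ℂ)
      γ := fun z => (((b z)⁻¹ : ℝ) : ℂ)
      V := O
      hV := hO
      κpos := fun i => inv_pos.2 (hκ0 i)
      κle := fun i => inv_le_one_of_one_le₀ (by
        rw [← Real.sqrt_one]
        exact Real.sqrt_le_sqrt (hl1 i))
      hf := fun i => cl _ (hft i)
      freal := fun i z => conj_ofReal _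
      hβ := cl _ hbs
      hγ := cl _ (hbs.inv fun z => (hb0 z).ne')
      βreal := fun z => conj_ofReal _
      γreal := fun z => conj_ofReal _
      βγ := fun z => by
        rw [← ofReal_mul, mul_inv_cancel₀ (hb0 z).ne', ofReal_one]
      eq := by
        intro i z hz
        have h1 := dz_dzb_lap (hft i) z
        have h2 : (Δ (fun z => θ z * f i z)) z = (Δ (f i)) z := by
          refine (InnerProductSpace.laplacian_congr_nhds ?_).self_of_nhds
          filter_upwards [hO.mem_nhds hz] with u hu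
          rw [hθ1 u hu, one_mul]
        have h3 := heig i z (hOV hz)
        rw [h1, h2]
        have h4 : (Δ (f i)) z = -(lam i * ρ z * f i z) := by linarith
        have h5 : Real.sqrt (lam i) ^ 2 = lam i := Real.sq_sqrt (by linarith [hl1 i])
        rw [h4, hbr z hz, hθ1 z hz, one_mul]
        have h6 : ((Real.sqrt (lam i))⁻¹) ^ 2 * (-(lam i * ρ z * f i z) / 4) =
            -(ρ z / 4 * f i z) := by
          rw [inv_pow, h5]
          have : lam i ≠ 0 := by linarith [hl1 i]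
          field_simp
        have h7 := congrArg (fun x : ℝ => (x : ℂ)) h6
        push_cast at h7
        push_cast
        exact h7
      bd := by
        intro K hK hKO'
        obtain ⟨C, hC⟩ := hbd K hK (hKO'.trans hOV)
        refine ⟨C, fun i => le_of_eq_of_le ?_ (hC i)⟩
        refine setIntegral_congr_fun hK.measurableSet fun z hz => ?_
        simp only [hθ1 z (hKO' hz), one_mul, norm_real]
        rw [Real.norm_eq_abs, ← abs_pow, abs_of_nonneg (by positivity)] }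
  have hG : ∀ l i, ∀ z ∈ O, D.G l i z =
      (((Real.sqrt (lam i))⁻¹ : ℝ) : ℂ) ^ l * dz^[l] (fun z => (f i z : ℂ)) z := by
    intro l i z hz
    have h1 : dz^[l] (fun z => ((θ z * f i z : ℝ) : ℂ)) z = dz^[l] (fun z => (f i z : ℂ)) z := by
      refine (iter_congr ?_ l).self_of_nhds
      filter_upwards [hO.mem_nhds hz] with u hu
      rw [hθ1 u hu, one_mul]
    have h2 : D.G l i z = (((Real.sqrt (lam i))⁻¹ : ℝ) : ℂ) ^ l *
        dz^[l] (fun z => ((θ z * f i z : ℝ) : ℂ)) z := rfl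
    rw [h2, h1]
  have h67 : ∀ i, ∀ z ∈ O, (4 / (ρ z * lam i)) = (ρ z / 4)⁻¹ * ((Real.sqrt (lam i))⁻¹) ^ 2 := by
    intro i z hz
    have h5 : Real.sqrt (lam i) ^ 2 = lam i := Real.sq_sqrt (by linarith [hl1 i])
    rw [inv_pow, h5]
    have : lam i ≠ 0 := by linarith [hl1 i]
    have := (hρ0 z (hOV hz)).ne'
    field_simp
  have hW : ∀ l i, ∀ z ∈ O, D.W l i z = harm ρ (lam i) (f i) l z := by
    intro l i z hz
    have h3 : D.γ z = (((b z)⁻¹ : ℝ) : ℂ) := rfl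
    rw [Dat.W, hG l i z hz, h3, harm, hbr z hz]
    have h6 : (4 / ((ρ z : ℂ) * lam i)) = (((ρ z / 4)⁻¹ : ℝ) : ℂ) *
        ((((Real.sqrt (lam i))⁻¹ : ℝ) : ℂ) ^ 2) := by
      have h8 := congrArg (fun x : ℝ => (x : ℂ)) (h67 i z hz)
      push_cast at h8
      push_cast
      exact h8
    rw [h6, mul_pow]
    ring
  have hγ : ∀ z, 0 ≤ (D.γ z).re := by
    intro z
    change 0 ≤ ((((b z)⁻¹ : ℝ) : ℂ)).re
    rw [ofReal_re]
    exact (inv_pos.2 (hb0 z)).le
  refine ⟨D, hKO, hOV, ?_, hγ, fun i => rfl, ?_, ?_, hG, hW, ?_⟩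
  · have h1 : Tendsto (fun i => Real.sqrt (lam i)) 𝒰 atTop := Real.tendsto_sqrt_atTop.comp hlam
    exact h1.inv_tendsto_atTop
  · intro i z hz
    change ((θ z * f i z : ℝ) : ℂ) = _
    rw [hθ1 z hz, one_mul]
  · intro z hz
    change ((b z : ℝ) : ℂ) = _
    rw [hbr z hz]
  · intro p i z hz
    rw [kk_W p i z (hγ z), hW p i z hz, harm, enr]
    congr 1
    rw [norm_mul, norm_pow, norm_pow, norm_div, norm_mul, norm_real, norm_real,
      Real.norm_of_nonneg (hρ0 z (hOV hz)).le, Real.norm_of_nonneg (by linarith [hl1 i])]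
    norm_num

end

end Pool.Agent.H486.QM
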