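import Pool.Agent.H486.QM.Ibp

/-!
# Parseval for functions supported in the unit square
-/

set_option autoImplicit false

open MeasureTheory Complex Filter Topology Set Metric
open scoped ContDiff ComplexConjugate

namespace Pool.Agent.H486.QM

noncomputable section

attribute [local instance] instMeasureSpaceUnitAddCircle

local instance : IsProbabilityMeasure (volume : Measure UnitAddCircle) :=
  inferInstanceAs (IsProbabilityMeasure AddCircle.haarAddCircle)

/-- the open unit square -/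
def SQ : Set ℂ := {z | 0 < z.re ∧ z.re < 1 ∧ 0 < z.im ∧ z.im < 1}

/-- characters -/
def ch (n : Fin 2 → ℤ) (z : ℂ) : ℂ :=
  exp (-(2 * Real.pi * I * ((n 0 : ℂ) * z.re + (n 1 : ℂ) * z.im)))

/-- Fourier coefficients -/
def cf (P : ℂ → ℂ) (n : Fin 2 → ℤ) : ℂ := ∫ z, ch n z * P z

theorem norm_ch (n : Fin 2 → ℤ) (z : ℂ) : ‖ch n z‖ = 1 := by
  have : -(2 * Real.pi * I * ((n 0 : ℂ) * z.re + (n 1 : ℂ) * z.im)) =
      ((-(2 * Real.pi * (n 0 * z.re + n 1 * z.im)) : ℝ) : ℂ) * I := by
    push_cast; ring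
  rw [ch, this, norm_exp_ofReal_mul_I]

/-- representative of a point of the torus -/
def rp (t : UnitAddTorus (Fin 2)) : ℂ :=
  measurableEquivPi.symm (UnitAddTorus.measurableEquivPiIoc (0 : Fin 2 → ℝ) t).1

theorem rp_coe {x : Fin 2 → ℝ} (hx : ∀ i, x i ∈ Ioc ((0 : Fin 2 → ℝ) i) ((0 : Fin 2 → ℝ) i + 1)) :
    rp (fun i => (x i : UnitAddCircle)) = measurableEquivPi.symm x := by
  have h1 : (UnitAddTorus.measurableEquivPiIoc (0 : Fin 2 → ℝ)).symm ⟨x, hx⟩ =
      fun i => (x i : UnitAddCircle) := UnitAddTorus.coe_symm_measurableEquivPiIoc_apply 0 _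
  rw [rp, ← h1, MeasurableEquiv.apply_symm_apply]

theorem measurable_rp : Measurable rp :=
  measurableEquivPi.symm.measurable.comp
    (measurable_subtype_coe.comp (UnitAddTorus.measurableEquivPiIoc (0 : Fin 2 → ℝ)).measurable)

theorem cube_mem {x : Fin 2 → ℝ} (h : measurableEquivPi.symm x ∈ SQ) :
    ∀ i, x i ∈ Ioc ((0 : Fin 2 → ℝ) i) ((0 : Fin 2 → ℝ) i + 1) := by
  obtain ⟨h1, h2, h3, h4⟩ := h
  rw [measurableEquivPi_symm_apply] at h1 h2 h3 h4
  simp at h1 h2 h3 h4
  intro i
  fin_cases i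
  · simpa using ⟨h1, h2.le⟩
  · simpa using ⟨h3, h4.le⟩

theorem int_torus {E : Type*} [NormedAddCommGroup E] [NormedSpace ℝ E] (H : ℂ → E)
    (hs : ∀ z, z ∉ SQ → H z = 0) :
    ∫ t : UnitAddTorus (Fin 2), H (rp t) = ∫ z, H z := by
  rw [UnitAddTorus.integral_preimage (fun t => H (rp t)) 0]
  have hm : MeasurableSet {x : Fin 2 → ℝ |
      ∀ i, x i ∈ Ioc ((0 : Fin 2 → ℝ) i) ((0 : Fin 2 → ℝ) i + 1)} :=
    MeasurableSet.univ_pi' (fun i => measurableSet_Ioc)
  rw [setIntegral_congr_fun hm (g := fun x => H (measurableEquivPi.symm x))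
    (fun x hx => by simp only [rp_coe hx])]
  rw [← integral_indicator hm]
  have e : ({x : Fin 2 → ℝ | ∀ i, x i ∈ Ioc ((0 : Fin 2 → ℝ) i) ((0 : Fin 2 → ℝ) i + 1)}.indicator
      fun x => H (measurableEquivPi.symm x)) = fun x => H (measurableEquivPi.symm x) := by
    ext x
    by_cases hx : x ∈ {x : Fin 2 → ℝ |
      ∀ i, x i ∈ Ioc ((0 : Fin 2 → ℝ) i) ((0 : Fin 2 → ℝ) i + 1)}
    · rw [indicator_of_mem hx]
    · rw [indicator_of_notMem hx, hs]
      exact fun h => hx (cube_mem h)
  rw [e]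
  exact (Complex.volume_preserving_equiv_pi.symm).integral_comp
    measurableEquivPi.symm.measurableEmbedding H

theorem isCompact_SQ : IsCompact (closure SQ) := by
  refine Metric.isCompact_of_isClosed_isBounded isClosed_closure ?_
  refine (Bornology.IsBounded.subset (isBounded_closedBall (x := (0 : ℂ)) (r := 2)) ?_).closure
  intro z hz
  obtain ⟨h1, h2, h3, h4⟩ := hz
  rw [mem_closedBall_zero_iff]
  have := Complex.norm_le_abs_re_add_abs_im z
  rw [abs_of_pos h1, abs_of_pos h3] at this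
  linarith

theorem parseval {P : ℂ → ℂ} (hP : Continuous P) (hs : ∀ z, z ∉ SQ → P z = 0) :
    HasSum (fun n => ‖cf P n‖ ^ 2) (∫ z, ‖P z‖ ^ 2) := by
  have hcs : HasCompactSupport P := by
    refine HasCompactSupport.of_support_subset_isCompact isCompact_SQ ?_
    intro z hz
    by_contra h
    exact hz (hs z (fun h' => h (subset_closure h')))
  obtain ⟨C, hC⟩ := hcs.exists_bound_of_continuous hP
  set φ : UnitAddTorus (Fin 2) → ℂ := fun t => P (rp t) with hφ
  have hm : Measurable φ := hP.measurable.comp measurable_rp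
  have hL : MemLp φ 2 (volume : Measure (UnitAddTorus (Fin 2))) :=
    MemLp.of_bound hm.aestronglyMeasurable C (ae_of_all _ fun t => hC _)
  have h := UnitAddTorus.hasSum_sq_mFourierCoeff (hL.toLp φ)
  have e1 : ∫ t, ‖(hL.toLp φ : UnitAddTorus (Fin 2) → ℂ) t‖ ^ 2 = ∫ z, ‖P z‖ ^ 2 := by
    rw [← int_torus (fun z => ‖P z‖ ^ 2) (fun z hz => by simp [hs z hz])]
    refine integral_congr_ae ?_
    filter_upwards [hL.coeFn_toLp] with t ht
    rw [ht]
  have e2 : ∀ n, UnitAddTorus.mFourierCoeff (hL.toLp φ : UnitAddTorus (Fin 2) → ℂ) n = cf P n := by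
    intro n
    have a1 : UnitAddTorus.mFourierCoeff (hL.toLp φ : UnitAddTorus (Fin 2) → ℂ) n =
        UnitAddTorus.mFourierCoeff φ n := by
      refine integral_congr_ae ?_
      filter_upwards [hL.coeFn_toLp] with t ht
      rw [ht]
    rw [a1, UnitAddTorus.mFourierCoeff_eq_integral φ n 0]
    have hms : MeasurableSet {x : Fin 2 → ℝ |
        ∀ i, x i ∈ Ioc ((0 : Fin 2 → ℝ) i) ((0 : Fin 2 → ℝ) i + 1)} :=
      MeasurableSet.univ_pi' (fun i => measurableSet_Ioc)
    have a2 : ∀ x ∈ {x : Fin 2 → ℝ | ∀ i, x i ∈ Ioc ((0 : Fin 2 → ℝ) i) ((0 : Fin 2 → ℝ) i + 1)},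
        UnitAddTorus.mFourier (-n) (fun i => (x i : UnitAddCircle)) •
          φ (fun i => (x i : UnitAddCircle)) =
        (fun z => ch n z * P z) (rp (fun i => (x i : UnitAddCircle))) := by
      intro x hx
      simp only [hφ, rp_coe hx, smul_eq_mul]
      congr 1
      simp only [UnitAddTorus.mFourier, ContinuousMap.coe_mk, Fin.prod_univ_two, Pi.neg_apply]
      have f1 : ∀ (m : ℤ) (y : ℝ), (fourier m) (y : UnitAddCircle) =
          exp (2 * Real.pi * I * m * y) := by
        intro m y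
        have := @fourier_coe_apply 1 m y
        simpa using this
      rw [f1, f1, ← exp_add, ch, measurableEquivPi_symm_apply]
      congr 1
      simp
      ring
    rw [setIntegral_congr_fun hms a2]
    have a3 := UnitAddTorus.integral_preimage (fun t => (fun z => ch n z * P z) (rp t)) 0
    rw [← a3, int_torus (fun z => ch n z * P z) (fun z hz => by simp [hs z hz])]
    rfl
  rw [e1] at h
  simpa only [e2] using h

end

end Pool.Agent.H486.QM
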