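import Pool.Agent.H486.QM.Shq

/-!
# Exact fourth order correlations of energies under equidistribution
-/

set_option autoImplicit false

open MeasureTheory Complex Filter Topology Set Metric
open scoped ContDiff ComplexConjugate InnerProductSpace ENNReal

namespace Pool.Agent.H486.QM

noncomputable section

attribute [local instance] instMeasureSpaceUnitAddCircle

local instance : IsProbabilityMeasure (volume : Measure UnitAddCircle) :=
  inferInstanceAs (IsProbabilityMeasure AddCircle.haarAddCircle)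

universe u

variable {ι : Type u} {D : Dat ι}

/-- equidistribution of all harmonics -/
def Dat.Que (D : Dat ι) (𝒰 : Filter ι) : Prop := ∀ L, D.Equi 𝒰 L

/-- coefficient of the fourth moment -/
def rc (p q : ℕ) : ℝ := if p = q then 1 else if Even (p + q) then 1 else 1 / 3

/-- constant coefficient -/
def rd (p q : ℕ) : ℝ := if p = q then (if p = 0 then 0 else -1) else if Even (p + q) then -2 else 0

/-- values of the basic sequence -/
def dv (m v : ℝ) (n : ℤ) : ℝ := if n = 0 then m else if Even n then m - 2 * v else m / 3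

theorem dv_avg (m v : ℝ) (p q : ℕ) :
    (dv m v ((p : ℤ) + q) + dv m v ((p : ℤ) - q)) / 2 = rc p q * m + rd p q * v := by
  have ev : Even ((p : ℤ) + q) ↔ Even (p + q) := by exact_mod_cast Int.even_coe_nat (p + q)
  have ev2 : Even ((p : ℤ) - q) ↔ Even (p + q) := by rw [Int.even_sub, ← Int.even_add, ev]
  simp only [dv, rc, rd, ev, ev2]
  by_cases hpq : p = q
  · subst hpq
    have e1 : Even (p + p) := ⟨p, rfl⟩
    have e2 : (p : ℤ) - p = 0 := by ring
    simp only [if_true, e1, e2]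
    by_cases hp : p = 0
    · simp [hp]
    · have e3 : ¬ ((p : ℤ) + p = 0) := by omega
      simp only [if_neg e3, if_neg hp]
      ring
  · have e3 : ¬ ((p : ℤ) + q = 0) := by omega
    have e4 : ¬ ((p : ℤ) - q = 0) := by omega
    simp only [if_neg e3, if_neg e4, if_neg hpq]
    by_cases he : Even (p + q)
    · simp only [if_pos he]; ring
    · simp only [if_neg he]; ring

namespace Fra

variable (F : Fra D)

theorem wk_zero {𝒰 : Filter ι} (hE : D.Que 𝒰) (h1 : MemLp (fun w => F.χ w * 1) 2 volume) (h : HT) :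
    Tendsto (fun i => ⟪h, F.vW 0 i⟫_ℂ) 𝒰 (𝓝 ⟪h, F.vX (fun _ => 1) h1⟫_ℂ) := by
  obtain ⟨C, hC⟩ := F.norm_vW_bd 0
  refine weak_up hC (fun n => ?_) h
  rw [F.basis_vX]
  simp only [mul_one]
  refine (((hE 0).zero _ (F.tst_te n)).const_smul ((F.k ^ 2)⁻¹ : ℝ)).congr fun i => ?_
  rw [vW, F.basis_vX]
  simp only [Dat.W, pow_zero, one_mul, Dat.G_zero]

theorem wk_pos {𝒰 : Filter ι} (hE : D.Que 𝒰) (l : ℕ) (hl : 1 ≤ l) (h : HT) :
    Tendsto (fun i => ⟪h, F.vW l i⟫_ℂ) 𝒰 (𝓝 ⟪h, (0 : HT)⟫_ℂ) := by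
  obtain ⟨C, hC⟩ := F.norm_vW_bd l
  refine weak_up hC (fun n => ?_) h
  rw [inner_zero_right]
  have h1 := ((hE l).pos l hl le_rfl _ ((F.tst_te n).mul (D.hγ.pow l))).const_smul
    ((F.k ^ 2)⁻¹ : ℝ)
  rw [smul_zero] at h1
  refine h1.congr fun i => ?_
  rw [vW, F.basis_vX]
  congr 1
  refine integral_congr_ae (ae_of_all _ fun w => ?_)
  simp only [Dat.W]
  ring

theorem rigid {𝒰 : Ultrafilter ι} (hκ : Tendsto D.κ 𝒰 (𝓝 0)) (hE : D.Que 𝒰)
    {m : ℝ} (hm : Tendsto (fun i => ∫ w, ‖F.χ w * (D.f i w * D.f i w)‖ ^ 2) 𝒰 (𝓝 m))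
    {M : ℤ → ℤ → ℤ → ℤ → ℂ}
    (hM : ∀ a b c d, Tendsto (q4 (fun w => F.χ w * F.χ w) (D.H a) (D.H b) (D.H c) (D.H d)) 𝒰
      (𝓝 (M a b c d))) (n : ℤ) :
    (-1 : ℂ) ^ n * DD M n = ((dv m (∫ w, ‖F.χ w‖ ^ 2) n : ℝ) : ℂ) := by
  have hψ : D.Te (fun w => F.χ w * F.χ w) := F.te.mul F.te.sm
  have hψr : ∀ w, conj (F.χ w * F.χ w) = F.χ w * F.χ w := fun w => by rw [map_mul, F.re]
  have hR := rh_of_lim hκ hψ hψr hM
  set v := ∫ w, ‖F.χ w‖ ^ 2 with hv
  have h1 : MemLp (fun w => F.χ w * 1) 2 volume := by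
    simpa using Sm.memLp F.te.sm F.te.cs
  set K := (F.k ^ 2)⁻¹ with hK
  have hK0 : 0 < K := by have := F.kpos; positivity
  have hu0 : ‖F.vX (fun _ => 1) h1‖ ^ 2 = K * v := by
    rw [F.norm_vX]
    simp only [mul_one]
    rfl
  -- the diagonal values
  have hdiag : ∀ l : ℕ, ∃ y : ℝ, M l (-l) l (-l) = (y : ℂ) ∧
      Tendsto (fun i => ‖F.vW l i‖ ^ 2) 𝒰 (𝓝 (K * y)) := by
    intro l
    refine ⟨(M l (-l) l (-l)).re, ?_, F.norm_W hM l⟩
    have h3 := (continuous_im.tendsto _).comp (hM l (-l) l (-l))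
    have h4 : Tendsto (fun _ : ι => (0 : ℝ)) 𝒰 (𝓝 (M l (-l) l (-l)).im) := by
      refine h3.congr fun i => ?_
      simp only [Function.comp]
      rw [← W_q4 F.re l i, ofReal_im]
    have h5 := tendsto_nhds_unique h4 tendsto_const_nhds
    apply Complex.ext
    · simp
    · simpa using h5
  choose y hy1 hy2 using hdiag
  have hy0 : y 0 = m := by
    have h2 := hy2 0
    have h3 : K * y 0 = K * m := by
      refine tendsto_nhds_unique h2 ((hm.const_mul K).congr fun i => ?_)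
      rw [vW, F.norm_vX]
      simp only [Dat.W, pow_zero, one_mul, Dat.G_zero]
      rfl
    exact mul_left_cancel₀ hK0.ne' h3
  have hyl : ∀ l : ℕ, y (l + 1) = m - v := by
    intro l
    induction l with
    | zero =>
      have h2 := F.chain 0 (F.wk_zero hE h1) (F.wk_pos hE 1 le_rfl) (hy2 0) (hy2 1)
      rw [hu0, norm_zero, hy0] at h2
      have h3 : K * y (0 + 1) = K * (m - v) := by
        have h4 := h2.1
        have h5 := h2.2
        simp only [zero_add]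
        nlinarith
      exact mul_left_cancel₀ hK0.ne' h3
    | succ l ih =>
      have h2 := F.chain (l + 1) (F.wk_pos hE (l + 1) (by omega)) (F.wk_pos hE (l + 1 + 1)
        (by omega)) (hy2 (l + 1)) (hy2 (l + 1 + 1))
      rw [norm_zero, ih] at h2
      have h3 : K * y (l + 1 + 1) = K * (m - v) := by
        have h4 := h2.1
        have h5 := h2.2
        nlinarith
      exact mul_left_cancel₀ hK0.ne' h3
  have hM0 : M 0 0 0 0 = (m : ℂ) := by
    have := hy1 0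
    simp only [Nat.cast_zero, neg_zero] at this
    rw [this, hy0]
  have hD0 : DD M 0 = (m : ℂ) := by rw [DD, neg_zero, hM0]
  have neg1 : ∀ n : ℤ, ((-1 : ℂ) ^ (-n)) = (-1) ^ n := by
    intro n
    rw [zpow_neg, ← inv_zpow]; norm_num
  have hN : ∀ n : ℕ, (-1 : ℂ) ^ (n : ℤ) * DD M n = ((dv m v n : ℝ) : ℂ) := by
    intro n
    rcases Nat.even_or_odd' n with ⟨l, rfl | rfl⟩
    · rcases Nat.eq_zero_or_pos l with hl | hl
      · subst hl
        simp [dv, hD0]
      · obtain ⟨k, rfl⟩ := Nat.exists_eq_succ_of_ne_zero hl.ne'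
        have h3 := hR.nn (k.succ : ℤ) (k.succ : ℤ)
        rw [hy1 k.succ, hyl k] at h3
        have e1 : ((k.succ : ℤ) + k.succ) = ((2 * k.succ : ℕ) : ℤ) := by push_cast; ring
        have e2 : ((k.succ : ℤ) - k.succ) = 0 := by ring
        rw [e1, e2, hD0] at h3
        have e3 : DD M ((2 * k.succ : ℕ) : ℤ) = 2 * ((m - v : ℝ) : ℂ) - m := by
          rw [h3]; ring
        have e4 : Even (((2 * k.succ : ℕ) : ℤ)) := by push_cast; exact even_two_mul _
        have e5 : ¬ (((2 * k.succ : ℕ) : ℤ) = 0) := by omega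
        rw [e3, dv, if_neg e5, if_pos e4, Even.neg_one_zpow e4]
        push_cast
        ring
    · have h3 := hR.odd l
      have e1 : ((2 * l + 1 : ℕ) : ℤ) = 2 * l + 1 := by push_cast; ring
      have e4 : ¬ Even ((2 * (l : ℤ) + 1)) := by
        rw [Int.not_even_iff_odd]
        exact ⟨l, rfl⟩
      have e5 : ¬ ((2 * (l : ℤ) + 1) = 0) := by omega
      rw [e1, h3, hD0, dv, if_neg e5, if_neg e4,
        Odd.neg_one_zpow (Int.not_even_iff_odd.1 e4)]
      push_cast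
      ring
  obtain ⟨k, rfl | rfl⟩ := n.eq_nat_or_neg
  · exact hN k
  · rw [neg1, hR.DD_neg, hN]
    simp only [dv, even_neg, neg_eq_zero]

theorem rigid_lim {𝒰 : Ultrafilter ι} (hκ : Tendsto D.κ 𝒰 (𝓝 0)) (hE : D.Que 𝒰)
    {m : ℝ} (hm : Tendsto (fun i => ∫ w, ‖F.χ w * (D.f i w * D.f i w)‖ ^ 2) 𝒰 (𝓝 m))
    (p q : ℕ) : Tendsto (fun i => ∫ w, F.χ w * F.χ w * (D.kk p i w * D.kk q i w)) 𝒰
      (𝓝 ((rc p q * m + rd p q * ∫ w, ‖F.χ w‖ ^ 2 : ℝ) : ℂ)) := by
  have hψ : D.Te (fun w => F.χ w * F.χ w) := F.te.mul F.te.sm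
  have hψr : ∀ w, conj (F.χ w * F.χ w) = F.χ w * F.χ w := fun w => by rw [map_mul, F.re]
  obtain ⟨M, hM⟩ := exists_M (D := D) 𝒰 hψ
  have hR := rh_of_lim hκ hψ hψr hM
  have h1 := (hM p (-p) q (-q)).const_mul ((-1 : ℂ) ^ (p : ℤ) * (-1) ^ (q : ℤ))
  have e : (-1 : ℂ) ^ (p : ℤ) * (-1) ^ (q : ℤ) * M p (-p) q (-q) =
      ((rc p q * m + rd p q * ∫ w, ‖F.χ w‖ ^ 2 : ℝ) : ℂ) := by
    rw [hR.nn, ← dv_avg]
    have z1 : (-1 : ℂ) ^ ((p : ℤ) + q) = (-1) ^ (p : ℤ) * (-1) ^ (q : ℤ) :=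
      zpow_add₀ (by norm_num) _ _
    have z2 : (-1 : ℂ) ^ ((p : ℤ) - q) = (-1) ^ (p : ℤ) * (-1) ^ (q : ℤ) := by
      rw [sub_eq_add_neg, zpow_add₀ (by norm_num), zpow_neg, ← inv_zpow]; norm_num
    have r1 := F.rigid hκ hE hm hM ((p : ℤ) + q)
    have r2 := F.rigid hκ hE hm hM ((p : ℤ) - q)
    rw [z1] at r1
    rw [z2] at r2
    push_cast
    rw [← r1, ← r2]
    ring
  rw [e] at h1
  refine h1.congr fun i => ?_
  rw [q4, ← integral_const_mul]
  refine integral_congr_ae (ae_of_all _ fun w => ?_)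
  simp only [Dat.kk]
  ring

end Fra

end

end Pool.Agent.H486.QM
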