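import Pool.Agent.H486.QM.Model
import Pool.Agent.H486.QM.Rig

/-!
# Exact fourth order correlations of energies for sequences
-/

set_option autoImplicit false

open MeasureTheory Complex Filter Topology Set Metric
open scoped ContDiff ComplexConjugate InnerProductSpace ENNReal Manifold Laplacian

namespace Pool.Agent.H486.QM

noncomputable section

theorem lint_harm (D : Dat ℕ) (l : ℕ) (i : ℕ) (O : Set ℂ) (hO : MeasurableSet O) :
    LocallyIntegrableOn (D.W l i) O :=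
  (D.W_sm l i).cont.continuousOn.locallyIntegrableOn hO

variable {V : Set ℂ} {ρ : ℂ → ℝ} {lam : ℕ → ℝ} {f : ℕ → ℂ → ℝ}

/-- Phase space equidistribution, tested against real functions -/
def QueRaw (V : Set ℂ) (ρ : ℂ → ℝ) (lam : ℕ → ℝ) (f : ℕ → ℂ → ℝ) : Prop :=
  (∀ θ : ℂ → ℝ, ContDiff ℝ ∞ θ → HasCompactSupport θ → tsupport θ ⊆ V →
    Tendsto (fun n => ∫ z, (θ z : ℂ) * harm ρ (lam n) (f n) 0 z) atTop
      (𝓝 (∫ z, (θ z : ℂ)))) ∧
  ∀ l : ℕ, ∀ θ : ℂ → ℝ, ContDiff ℝ ∞ θ → HasCompactSupport θ → tsupport θ ⊆ V →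
    Tendsto (fun n => ∫ z, (θ z : ℂ) * harm ρ (lam n) (f n) (l + 1) z) atTop (𝓝 0)

/-- equidistribution of the model -/
theorem que_model (hq : QueRaw V ρ lam f) {D : Dat ℕ} (hDV : D.V ⊆ V)
    (hW : ∀ l i, ∀ z ∈ D.V, D.W l i z = harm ρ (lam i) (f i) l z) {𝒰 : Filter ℕ}
    (h𝒰 : 𝒰 ≤ atTop) : D.Que 𝒰 := by
  have hO := D.hV.measurableSet
  have key : ∀ l (g : ℂ → ℂ), LocallyIntegrableOn g D.V →
      (∀ t : ℂ → ℝ, ContDiff ℝ ∞ t → HasCompactSupport t → tsupport t ⊆ D.V →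
        Tendsto (fun n => ∫ z, (t z : ℂ) * harm ρ (lam n) (f n) l z) atTop
          (𝓝 (∫ z, (t z : ℂ) * g z))) →
      ∀ θ : ℂ → ℂ, D.Te θ → Tendsto (fun i => ∫ z, θ z * D.W l i z) 𝒰 (𝓝 (∫ z, θ z * g z)) := by
    intro l g hg h θ hθ
    refine split_test (O := D.V) (fun i => lint_harm D l i D.V hO) hg
      (fun t ht htc hts => ?_) hθ.sm hθ.cs hθ.sub
    refine ((h t ht htc hts).mono_left h𝒰).congr fun i => ?_
    refine integral_congr_ae (ae_of_all _ fun z => ?_)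
    by_cases hz : z ∈ D.V
    · simp only [hW l i z hz]
    · simp only [image_eq_zero_of_notMem_tsupport fun h => hz (hts h), ofReal_zero, zero_mul]
  intro L
  refine ⟨fun θ hθ => ?_, fun l h1 _ θ hθ => ?_⟩
  · have h2 := key 0 (fun _ => 1) ((continuous_const).continuousOn.locallyIntegrableOn hO)
      (fun t ht htc hts => by simpa using hq.1 t ht htc (hts.trans hDV)) θ hθ
    simp only [mul_one] at h2
    refine h2.congr fun i => ?_
    simp only [Dat.W, pow_zero, one_mul, Dat.G_zero]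
  · obtain ⟨k, rfl⟩ := Nat.exists_eq_succ_of_ne_zero (by omega : l ≠ 0)
    have h2 := key (k + 1) (fun _ => 0) ((continuous_const).continuousOn.locallyIntegrableOn hO)
      (fun t ht htc hts => by simpa using hq.2 k t ht htc (hts.trans hDV))
      (fun z => θ z * D.β z ^ (k + 1)) (hθ.mul (D.hβ.pow _))
    simp only [mul_zero, integral_zero] at h2
    refine h2.congr fun i => ?_
    refine integral_congr_ae (ae_of_all _ fun z => ?_)
    simp only [Dat.W]
    have e : D.β z ^ (k + 1) * D.γ z ^ (k + 1) = 1 := by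
      rw [← mul_pow, D.βγ, one_pow]
    linear_combination (θ z * (D.G (k + 1) i z * D.G (k + 1) i z)) * e

theorem enr_zero (lam : ℝ) (f : ℂ → ℝ) (z : ℂ) : enr ρ lam f 0 z = f z ^ 2 := by
  simp [enr]

theorem corr_sq (hV : IsOpen V) (hρ : ContDiffOn ℝ ∞ ρ V) (hρ0 : ∀ z ∈ V, 0 < ρ z)
    (hl1 : ∀ n, 1 ≤ lam n) (hlam : Tendsto lam atTop atTop)
    (hf : ∀ n, ContDiffOn ℝ ∞ (f n) V)
    (heig : ∀ n, ∀ z ∈ V, -(Δ (f n)) z = lam n * ρ z * f n z) (hq : QueRaw V ρ lam f)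
    (hbd : ∀ K : Set ℂ, IsCompact K → K ⊆ V → ∃ C : ℝ, ∀ n, ∫ z in K, f n z ^ 4 ≤ C)
    {χ : ℂ → ℝ} (hχ : ContDiff ℝ ∞ χ) (hχc : HasCompactSupport χ) (hχV : tsupport χ ⊆ V)
    (hχ0 : ∀ z, 0 ≤ χ z) (p q : ℕ) :
    Tendsto (fun n => (∫ z, χ z ^ 2 * (enr ρ (lam n) (f n) p z * enr ρ (lam n) (f n) q z)) -
      rc p q * ∫ z, χ z ^ 2 * f n z ^ 4) atTop (𝓝 (rd p q * ∫ z, χ z ^ 2)) := by
  obtain ⟨D, hKD, hDV, hκ, hγ, -, hDf, -, -, hW, hkk⟩ :=
    exists_model hV hρ hρ0 hl1 hf heig (𝒰 := atTop) hlam hbd hχc.isCompact hχV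
  have te : D.Te (fun z => ((χ z : ℝ) : ℂ)) := by
    refine ⟨ofRealCLM.contDiff.comp hχ, hχc.comp_left (g := fun x : ℝ => (x : ℂ)) (by simp), ?_⟩
    refine (closure_mono ?_).trans hKD
    intro z hz h0
    exact hz (by simp [h0])
  obtain ⟨F, hF⟩ := exists_Fra te (fun z => conj_ofReal _) (fun z => by simpa using hχ0 z)
  have hχe : ∀ z, F.χ z = ((χ z : ℝ) : ℂ) := fun z => congrFun hF z
  have hχD : ∀ z, z ∉ D.V → χ z = 0 := fun z hz =>
    image_eq_zero_of_notMem_tsupport fun h => hz (hKD h)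
  have e1 : ∀ i, ∫ z, ‖F.χ z * (D.f i z * D.f i z)‖ ^ 2 = ∫ z, χ z ^ 2 * f i z ^ 4 := by
    intro i
    refine integral_congr_ae (ae_of_all _ fun z => ?_)
    simp only
    by_cases hz : z ∈ D.V
    · rw [hDf i z hz, hχe, norm_mul, norm_mul, norm_real, norm_real, Real.norm_eq_abs,
        Real.norm_eq_abs]
      have : |f i z| * |f i z| = f i z ^ 2 := by rw [← sq, sq_abs]
      rw [this, mul_pow, sq_abs]
      ring
    · rw [hχe, hχD z hz]
      simp
  have e2 : ∀ i, ∫ z, F.χ z * F.χ z * (D.kk p i z * D.kk q i z) =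
      ((∫ z, χ z ^ 2 * (enr ρ (lam i) (f i) p z * enr ρ (lam i) (f i) q z) : ℝ) : ℂ) := by
    intro i
    rw [← integral_complex_ofReal]
    refine integral_congr_ae (ae_of_all _ fun z => ?_)
    simp only
    by_cases hz : z ∈ D.V
    · rw [hkk p i z hz, hkk q i z hz, hχe]
      push_cast
      ring
    · rw [hχe, hχD z hz]
      simp
  have e3 : ∫ z, ‖F.χ z‖ ^ 2 = ∫ z, χ z ^ 2 := by
    refine integral_congr_ae (ae_of_all _ fun z => ?_)
    simp only [hχe, norm_real, Real.norm_eq_abs, sq_abs]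
  rw [tendsto_iff_ultrafilter]
  intro 𝒰 h𝒰
  have hb0' := Dat.Bd.G (D := D) 0
  obtain ⟨C, hC⟩ := l2_bd hb0' hb0' F.te.cs F.te.sub (g := F.χ) F.te.sm.cont (fun z hz =>
    image_eq_zero_of_notMem_tsupport hz)
  obtain ⟨m, hm⟩ : ∃ m : ℝ, Tendsto (fun i => ∫ z, ‖F.χ z * (D.f i z * D.f i z)‖ ^ 2) 𝒰
      (𝓝 m) := by
    have hc : IsCompact (Icc (0 : ℝ) C) := isCompact_Icc
    have he : ∀ᶠ i in (𝒰 : Filter ℕ), (∫ z, ‖F.χ z * (D.f i z * D.f i z)‖ ^ 2) ∈ Icc (0 : ℝ) C := by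
      refine Eventually.of_forall fun i => ⟨integral_nonneg fun z => sq_nonneg _, ?_⟩
      have h1 := hC i
      simp only [Dat.G_zero] at h1
      exact h1
    obtain ⟨y, -, hy⟩ := hc.ultrafilter_le_nhds
      (𝒰.map (fun i => ∫ z, ‖F.χ z * (D.f i z * D.f i z)‖ ^ 2)) (le_principal_iff.2 he)
    exact ⟨y, hy⟩
  have h1 := F.rigid_lim (hκ.mono_left h𝒰) (que_model hq hDV hW h𝒰) hm p q
  simp only [e2, e3] at h1
  have h2 := (continuous_re.tendsto _).comp h1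
  simp only [e1] at hm
  have h3 := h2.sub (hm.const_mul (rc p q))
  have e4 : (((rc p q * m + rd p q * ∫ z, χ z ^ 2 : ℝ) : ℂ)).re - rc p q * m =
      rd p q * ∫ z, χ z ^ 2 := by
    rw [ofReal_re]; ring
  rw [e4] at h3
  refine h3.congr fun i => ?_
  simp only [Function.comp, ofReal_re]

/-- correlations against general test functions -/
theorem corr_test (hV : IsOpen V) (hρ : ContDiffOn ℝ ∞ ρ V) (hρ0 : ∀ z ∈ V, 0 < ρ z)
    (hl1 : ∀ n, 1 ≤ lam n) (hlam : Tendsto lam atTop atTop)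
    (hf : ∀ n, ContDiffOn ℝ ∞ (f n) V)
    (heig : ∀ n, ∀ z ∈ V, -(Δ (f n)) z = lam n * ρ z * f n z) (hq : QueRaw V ρ lam f)
    (hbd : ∀ K : Set ℂ, IsCompact K → K ⊆ V → ∃ C : ℝ, ∀ n, ∫ z in K, f n z ^ 4 ≤ C)
    {ψ : ℂ → ℝ} (hψ : ContDiff ℝ ∞ ψ) (hψc : HasCompactSupport ψ) (hψV : tsupport ψ ⊆ V)
    (p q : ℕ) :
    Tendsto (fun n => (∫ z, ψ z * (enr ρ (lam n) (f n) p z * enr ρ (lam n) (f n) q z)) -
      rc p q * ∫ z, ψ z * f n z ^ 4) atTop (𝓝 (rd p q * ∫ z, ψ z)) := by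
  obtain ⟨η, hη, hηc, hηV, hη01, O, hO, hKO, hOV, hη1⟩ := exists_cutoff hψc.isCompact hV hψV
  obtain ⟨B, hB⟩ := hψc.exists_bound_of_continuous hψ.continuous
  set c : ℝ := 1 / (|B| + 1) with hc
  have hc0 : 0 < c := by positivity
  have hcB : ∀ z, |c * ψ z| ≤ 1 := by
    intro z
    rw [abs_mul, abs_of_pos hc0, hc, one_div, inv_mul_le_one₀ (by positivity)]
    have h1 := hB z
    rw [Real.norm_eq_abs] at h1
    exact h1.trans ((le_abs_self B).trans (by linarith))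
  set χ1 : ℂ → ℝ := fun z => η z * (1 + c * ψ z) with hχ1
  set χ2 : ℂ → ℝ := fun z => η z * (1 - c * ψ z) with hχ2
  have s1 : ContDiff ℝ ∞ χ1 := hη.mul (contDiff_const.add (contDiff_const.mul hψ))
  have s2 : ContDiff ℝ ∞ χ2 := hη.mul (contDiff_const.sub (contDiff_const.mul hψ))
  have c1 : HasCompactSupport χ1 := hηc.mul_right
  have c2 : HasCompactSupport χ2 := hηc.mul_right
  have t1 : tsupport χ1 ⊆ V := (closure_mono (Function.support_mul_subset_left _ _)).trans hηV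
  have t2 : tsupport χ2 ⊆ V := (closure_mono (Function.support_mul_subset_left _ _)).trans hηV
  have n1 : ∀ z, 0 ≤ χ1 z := fun z => mul_nonneg (hη01 z).1 (by
    have := (abs_le.1 (hcB z)).1; linarith)
  have n2 : ∀ z, 0 ≤ χ2 z := fun z => mul_nonneg (hη01 z).1 (by
    have := (abs_le.1 (hcB z)).2; linarith)
  have a1 := corr_sq hV hρ hρ0 hl1 hlam hf heig hq hbd s1 c1 t1 n1 p q
  have a2 := corr_sq hV hρ hρ0 hl1 hlam hf heig hq hbd s2 c2 t2 n2 p q
  have hdiff : ∀ z, χ1 z ^ 2 - χ2 z ^ 2 = 4 * c * ψ z := by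
    intro z
    by_cases hz : z ∈ O
    · simp only [hχ1, hχ2, hη1 z hz]; ring
    · have h0 : ψ z = 0 := image_eq_zero_of_notMem_tsupport fun h => hz (hKO h)
      simp only [hχ1, hχ2, h0]; ring
  -- integrals of products with continuous functions on V
  have key : ∀ X : ℂ → ℝ, ContinuousOn X V →
      (∫ z, χ1 z ^ 2 * X z) - (∫ z, χ2 z ^ 2 * X z) = 4 * c * ∫ z, ψ z * X z := by
    intro X hX
    have ii : ∀ χ : ℂ → ℝ, Continuous χ → HasCompactSupport χ → tsupport χ ⊆ V →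
        Integrable (fun z => χ z ^ 2 * X z) := by
      intro χ h1 h2 h3
      have h4 : IntegrableOn (fun z => χ z ^ 2 * X z) (tsupport χ) :=
        ((h1.continuousOn.pow 2).mul (hX.mono h3)).integrableOn_compact h2
      rw [← integrableOn_iff_integrable_of_support_subset (s := tsupport χ)]
      · exact h4
      · intro z hz
        by_contra hcon
        exact hz (by simp [image_eq_zero_of_notMem_tsupport hcon])
    rw [← integral_sub (ii χ1 s1.continuous c1 t1) (ii χ2 s2.continuous c2 t2),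
      ← integral_const_mul]
    refine integral_congr_ae (ae_of_all _ fun z => ?_)
    simp only
    rw [← sub_mul, hdiff]
    ring
  have hit : ∀ n p, ContinuousOn (fun z => enr ρ (lam n) (f n) p z) V := by
    intro n p z hz
    obtain ⟨K, hK, hzK, hKV⟩ := exists_compact_subset hV hz
    obtain ⟨D, hKD, hDV, -, -, -, -, -, -, -, hkk⟩ :=
      exists_model hV hρ hρ0 hl1 hf heig (𝒰 := atTop) hlam hbd hK hKV
    have h1 : ContinuousAt (fun z => (D.kk p n z).re) z :=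
      (continuous_re.comp (D.kk_sm p n).cont).continuousAt
    have h2 : (fun z => (D.kk p n z).re) =ᶠ[𝓝 z] fun z => enr ρ (lam n) (f n) p z := by
      filter_upwards [D.hV.mem_nhds (hKD (interior_subset hzK))] with u hu
      rw [hkk p n u hu, ofReal_re]
    exact (h1.congr h2).continuousWithinAt
  have a3 := (a1.sub a2).const_mul (1 / (4 * c))
  have hc4 : 4 * c ≠ 0 := by positivity
  have e1 : 1 / (4 * c) * (rd p q * (∫ z, χ1 z ^ 2) - rd p q * ∫ z, χ2 z ^ 2) =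
      rd p q * ∫ z, ψ z := by
    have h1 := key (fun _ => 1) continuousOn_const
    simp only [mul_one] at h1
    rw [← mul_sub, h1]
    field_simp
  rw [e1] at a3
  refine a3.congr fun n => ?_
  have h1 := key (fun z => enr ρ (lam n) (f n) p z * enr ρ (lam n) (f n) q z)
    ((hit n p).mul (hit n q))
  have h2 := key (fun z => f n z ^ 4) ((hf n).continuousOn.pow 4)
  have h3 : 1 / (4 * c) * (((∫ z, χ1 z ^ 2 * (enr ρ (lam n) (f n) p z *
      enr ρ (lam n) (f n) q z)) - rc p q * ∫ z, χ1 z ^ 2 * f n z ^ 4) -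
      ((∫ z, χ2 z ^ 2 * (enr ρ (lam n) (f n) p z * enr ρ (lam n) (f n) q z)) -
        rc p q * ∫ z, χ2 z ^ 2 * f n z ^ 4)) =
      1 / (4 * c) * (((∫ z, χ1 z ^ 2 * (enr ρ (lam n) (f n) p z *
      enr ρ (lam n) (f n) q z)) - ∫ z, χ2 z ^ 2 * (enr ρ (lam n) (f n) p z *
      enr ρ (lam n) (f n) q z)) - rc p q * ((∫ z, χ1 z ^ 2 * f n z ^ 4) -
        ∫ z, χ2 z ^ 2 * f n z ^ 4)) := by ring
  rw [h3, h1, h2]
  field_simp

end

end Pool.Agent.H486.QM
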