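import Pool.Agent.H486.QM.Third

/-!
# Final forms for sequences: fourth order correlations and third moments
-/

set_option autoImplicit false

open MeasureTheory Complex Filter Topology Set Metric
open scoped ContDiff ComplexConjugate InnerProductSpace ENNReal Manifold Laplacian

namespace Pool.Agent.H486.QM

noncomputable section

variable {V : Set ℂ} {ρ : ℂ → ℝ} {lam : ℕ → ℝ} {f : ℕ → ℂ → ℝ}

/-- local bounds for fourth moments -/
def LocFour (V : Set ℂ) (f : ℕ → ℂ → ℝ) : Prop :=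
  ∀ K : Set ℂ, IsCompact K → K ⊆ V → ∃ C : ℝ, ∀ n, ∫ z in K, f n z ^ 4 ≤ C

/-- replacing finitely many terms -/
theorem fix_seq (hlam : Tendsto lam atTop atTop)
    (hf : ∀ n, ContDiffOn ℝ ∞ (f n) V)
    (heig : ∀ n, ∀ z ∈ V, -(Δ (f n)) z = lam n * ρ z * f n z) (hq : QueRaw V ρ lam f)
    (hbd : LocFour V f) : ∃ (lam' : ℕ → ℝ) (f' : ℕ → ℂ → ℝ), (∀ n, 1 ≤ lam' n) ∧
      Tendsto lam' atTop atTop ∧ (∀ n, ContDiffOn ℝ ∞ (f' n) V) ∧
      (∀ n, ∀ z ∈ V, -(Δ (f' n)) z = lam' n * ρ z * f' n z) ∧ QueRaw V ρ lam' f' ∧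
      LocFour V f' ∧ ∀ᶠ n in atTop, lam' n = lam n ∧ f' n = f n := by
  classical
  set lam' : ℕ → ℝ := fun n => if 1 ≤ lam n then lam n else 1 with hl'
  set f' : ℕ → ℂ → ℝ := fun n => if 1 ≤ lam n then f n else fun _ => 0 with hf'
  have hev : ∀ᶠ n in atTop, lam' n = lam n ∧ f' n = f n := by
    filter_upwards [hlam.eventually_ge_atTop 1] with n hn
    simp only [hl', hf', if_pos hn, and_self]
  refine ⟨lam', f', fun n => ?_, ?_, fun n => ?_, fun n z hz => ?_, ?_, ?_, hev⟩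
  · by_cases h : 1 ≤ lam n
    · simp only [hl', if_pos h]; exact h
    · simp only [hl', if_neg h]; exact le_rfl
  · exact hlam.congr' (hev.mono fun n hn => hn.1.symm)
  · by_cases h : 1 ≤ lam n
    · simp only [hf', if_pos h]; exact hf n
    · simp only [hf', if_neg h]; exact contDiffOn_const
  · by_cases h : 1 ≤ lam n
    · simp only [hf', hl', if_pos h]; exact heig n z hz
    · simp only [hf', hl', if_neg h]
      rw [InnerProductSpace.laplacian_const]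
      simp
  · refine ⟨fun θ h1 h2 h3 => ?_, fun l θ h1 h2 h3 => ?_⟩
    · exact (hq.1 θ h1 h2 h3).congr' (hev.mono fun n hn => by simp only [hn.1, hn.2])
    · exact (hq.2 l θ h1 h2 h3).congr' (hev.mono fun n hn => by simp only [hn.1, hn.2])
  · intro K hK hKV
    obtain ⟨C, hC⟩ := hbd K hK hKV
    refine ⟨max C 0, fun n => ?_⟩
    by_cases h : 1 ≤ lam n
    · simp only [hf', if_pos h]
      exact (hC n).trans (le_max_left _ _)
    · simp only [hf', if_neg h]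
      simp

theorem corr_seq (hV : IsOpen V) (hρ : ContDiffOn ℝ ∞ ρ V) (hρ0 : ∀ z ∈ V, 0 < ρ z)
    (hlam : Tendsto lam atTop atTop) (hf : ∀ n, ContDiffOn ℝ ∞ (f n) V)
    (heig : ∀ n, ∀ z ∈ V, -(Δ (f n)) z = lam n * ρ z * f n z) (hq : QueRaw V ρ lam f)
    (hbd : LocFour V f)
    {ψ : ℂ → ℝ} (hψ : ContDiff ℝ ∞ ψ) (hψc : HasCompactSupport ψ) (hψV : tsupport ψ ⊆ V)
    (p q : ℕ) :
    Tendsto (fun n => (∫ z, ψ z * (enr ρ (lam n) (f n) p z * enr ρ (lam n) (f n) q z)) -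
      rc p q * ∫ z, ψ z * f n z ^ 4) atTop (𝓝 (rd p q * ∫ z, ψ z)) := by
  obtain ⟨lam', f', h1, h2, h3, h4, h5, h6, h7⟩ := fix_seq hlam hf heig hq hbd
  refine (corr_test hV hρ hρ0 h1 h2 h3 h4 h5 h6 hψ hψc hψV p q).congr' ?_
  filter_upwards [h7] with n hn
  rw [hn.1, hn.2]

/-- energies are continuous -/
theorem enr_cont (hV : IsOpen V) (hρ : ContDiffOn ℝ ∞ ρ V) (hρ0 : ∀ z ∈ V, 0 < ρ z)
    (hl1 : ∀ n, 1 ≤ lam n) (hlam : Tendsto lam atTop atTop)
    (hf : ∀ n, ContDiffOn ℝ ∞ (f n) V)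
    (heig : ∀ n, ∀ z ∈ V, -(Δ (f n)) z = lam n * ρ z * f n z)
    (hbd : LocFour V f) (n p : ℕ) : ContinuousOn (fun z => enr ρ (lam n) (f n) p z) V := by
  intro z hz
  obtain ⟨K, hK, hzK, hKV⟩ := exists_compact_subset hV hz
  obtain ⟨D, hKD, hDV, -, -, -, -, -, -, -, hkk⟩ :=
    exists_model hV hρ hρ0 hl1 hf heig (𝒰 := atTop) hlam hbd hK hKV
  have h1 : ContinuousAt (fun z => (D.kk p n z).re) z :=
    (continuous_re.comp (D.kk_sm p n).cont).continuousAt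
  have h2 : (fun z => (D.kk p n z).re) =ᶠ[𝓝 z] fun z => enr ρ (lam n) (f n) p z := by
    filter_upwards [D.hV.mem_nhds (hKD (interior_subset hzK))] with u hu
    rw [hkk p n u hu, ofReal_re]
  exact (h1.congr h2).continuousWithinAt

theorem enr_test (hV : IsOpen V) (hρ : ContDiffOn ℝ ∞ ρ V) (hρ0 : ∀ z ∈ V, 0 < ρ z)
    (hl1 : ∀ n, 1 ≤ lam n) (hlam : Tendsto lam atTop atTop)
    (hf : ∀ n, ContDiffOn ℝ ∞ (f n) V)
    (heig : ∀ n, ∀ z ∈ V, -(Δ (f n)) z = lam n * ρ z * f n z) (hq : QueRaw V ρ lam f)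
    (hbd : LocFour V f)
    {ψ : ℂ → ℝ} (hψ : ContDiff ℝ ∞ ψ) (hψc : HasCompactSupport ψ) (hψV : tsupport ψ ⊆ V)
    (p : ℕ) :
    Tendsto (fun n => ∫ z, ψ z * enr ρ (lam n) (f n) p z) atTop (𝓝 (∫ z, ψ z)) := by
  obtain ⟨D, hKD, hDV, hκ, hγ, -, hDf, -, -, hW, hkk⟩ :=
    exists_model hV hρ hρ0 hl1 hf heig (𝒰 := atTop) hlam hbd hψc.isCompact hψV
  have te : D.Te (fun z => ((ψ z : ℝ) : ℂ)) := by
    refine ⟨ofRealCLM.contDiff.comp hψ, hψc.comp_left (g := fun x : ℝ => (x : ℂ)) (by simp), ?_⟩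
    refine (closure_mono ?_).trans hKD
    intro z hz h0
    exact hz (by simp [h0])
  have h1 := kk_diff hκ te p
  have h2 := (que_model hq hDV hW le_rfl 0).zero _ te
  have h3 := h1.add h2
  rw [zero_add] at h3
  have h4 := (continuous_re.tendsto _).comp h3
  have e1 : (∫ z, ((ψ z : ℝ) : ℂ)).re = ∫ z, ψ z := by
    rw [integral_complex_ofReal, ofReal_re]
  rw [e1] at h4
  refine h4.congr fun i => ?_
  simp only [Function.comp]
  have e2 : ∫ z, ((ψ z : ℝ) : ℂ) * D.kk 0 i z = ∫ z, ((ψ z : ℝ) : ℂ) * (D.f i z * D.f i z) := by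
    refine integral_congr_ae (ae_of_all _ fun z => ?_)
    simp only
    rw [← W_zero]
    simp only [Dat.W, pow_zero, one_mul, Dat.G_zero]
  rw [e2, sub_add_cancel]
  have e3 : ∫ z, ((ψ z : ℝ) : ℂ) * D.kk p i z =
      ((∫ z, ψ z * enr ρ (lam i) (f i) p z : ℝ) : ℂ) := by
    rw [← integral_complex_ofReal]
    refine integral_congr_ae (ae_of_all _ fun z => ?_)
    simp only
    by_cases hz : z ∈ D.V
    · rw [hkk p i z hz]
      push_cast
      ring
    · rw [image_eq_zero_of_notMem_tsupport fun h => hz (hKD h)]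
      simp
  rw [e3, ofReal_re]

theorem rc_succ (i j : ℕ) : rc (i + 1) (j + 1) = 2 / 3 + 1 / 3 * ((-1) ^ i * (-1) ^ j) := by
  have e : ((-1 : ℝ) ^ i * (-1) ^ j) = if Even (i + j) then 1 else -1 := by
    rw [← pow_add]
    by_cases h : Even (i + j)
    · rw [h.neg_one_pow, if_pos h]
    · rw [(Nat.not_even_iff_odd.1 h).neg_one_pow, if_neg h]
  have e2 : Even (i + 1 + (j + 1)) ↔ Even (i + j) := by
    have : i + 1 + (j + 1) = i + j + 2 := by ring
    rw [this, Nat.even_add]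
    simp
  simp only [rc, e, e2, add_left_inj]
  by_cases h : i = j
  · subst h
    simp
    norm_num
  · simp only [if_neg h]
    by_cases h' : Even (i + j)
    · simp only [if_pos h']; norm_num
    · simp only [if_neg h']; norm_num

theorem rd_succ (i j : ℕ) : rd (i + 1) (j + 1) =
    -1 - ((-1) ^ i * (-1) ^ j) + (if i = j then 1 else 0) := by
  have e : ((-1 : ℝ) ^ i * (-1) ^ j) = if Even (i + j) then 1 else -1 := by
    rw [← pow_add]
    by_cases h : Even (i + j)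
    · rw [h.neg_one_pow, if_pos h]
    · rw [(Nat.not_even_iff_odd.1 h).neg_one_pow, if_neg h]
  have e2 : Even (i + 1 + (j + 1)) ↔ Even (i + j) := by
    have : i + 1 + (j + 1) = i + j + 2 := by ring
    rw [this, Nat.even_add]
    simp
  simp only [rd, e, e2, add_left_inj]
  by_cases h : i = j
  · subst h
    simp
  · simp only [if_neg h]
    by_cases h' : Even (i + j)
    · simp only [if_pos h']; norm_num
    · simp only [if_neg h']; norm_num

theorem alt_sum (J : ℕ) : ∑ i ∈ Finset.range (2 * J), (-1 : ℝ) ^ i = 0 := by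
  rw [neg_one_geom_sum, if_pos ⟨J, by ring⟩]

theorem sum_rc (J : ℕ) : ∑ i ∈ Finset.range (2 * J), ∑ j ∈ Finset.range (2 * J),
    rc (i + 1) (j + 1) = 8 / 3 * (J : ℝ) ^ 2 := by
  simp only [rc_succ, Finset.sum_add_distrib, ← Finset.mul_sum]
  rw [alt_sum]
  simp
  ring

theorem sum_rd (J : ℕ) : ∑ i ∈ Finset.range (2 * J), ∑ j ∈ Finset.range (2 * J),
    rd (i + 1) (j + 1) = -4 * (J : ℝ) ^ 2 + 2 * J := by
  simp only [rd_succ, Finset.sum_add_distrib, Finset.sum_sub_distrib, ← Finset.mul_sum]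
  rw [alt_sum]
  have e : ∑ i ∈ Finset.range (2 * J), ∑ j ∈ Finset.range (2 * J),
      (if i = j then (1 : ℝ) else 0) = 2 * J := by
    simp only [Finset.sum_ite_eq, Finset.mem_range]
    rw [Finset.sum_congr rfl (g := fun _ => (1 : ℝ)) (fun j hj => by
      rw [if_pos (Finset.mem_range.1 hj)])]
    simp
  rw [e]
  simp
  ring

/-- the average of the first `2 J` energies -/
def avg (ρ : ℂ → ℝ) (lam : ℝ) (f : ℂ → ℝ) (J : ℕ) (z : ℂ) : ℝ :=
  (∑ j ∈ Finset.range (2 * J), enr ρ lam f (j + 1) z) / (2 * J)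

theorem avg_test (hV : IsOpen V) (hρ : ContDiffOn ℝ ∞ ρ V) (hρ0 : ∀ z ∈ V, 0 < ρ z)
    (hl1 : ∀ n, 1 ≤ lam n) (hlam : Tendsto lam atTop atTop)
    (hf : ∀ n, ContDiffOn ℝ ∞ (f n) V)
    (heig : ∀ n, ∀ z ∈ V, -(Δ (f n)) z = lam n * ρ z * f n z) (hq : QueRaw V ρ lam f)
    (hbd : LocFour V f)
    {ψ : ℂ → ℝ} (hψ : ContDiff ℝ ∞ ψ) (hψc : HasCompactSupport ψ) (hψV : tsupport ψ ⊆ V)
    (J : ℕ) (hJ : 0 < J) :
    Tendsto (fun n => (∫ z, ψ z * (avg ρ (lam n) (f n) J z - 1) ^ 2) -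
      2 / 3 * ∫ z, ψ z * f n z ^ 4) atTop (𝓝 (-(2 - 1 / (2 * J)) * ∫ z, ψ z)) := by
  have hJ' : (0 : ℝ) < J := by exact_mod_cast hJ
  set c : ℝ := 1 / (2 * J) with hc
  have hcJ : c * (2 * J) = 1 := by rw [hc]; field_simp
  have ii : ∀ X : ℂ → ℝ, ContinuousOn X V → Integrable (fun z => ψ z * X z) := by
    intro X hX
    have h4 : IntegrableOn (fun z => ψ z * X z) (tsupport ψ) :=
      (hψ.continuous.continuousOn.mul (hX.mono hψV)).integrableOn_compact hψc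
    rw [← integrableOn_iff_integrable_of_support_subset (s := tsupport ψ)]
    · exact h4
    · intro z hz
      by_contra hcon
      exact hz (by simp [image_eq_zero_of_notMem_tsupport hcon])
  have hc1 := enr_cont hV hρ hρ0 hl1 hlam hf heig hbd
  have t1 : Tendsto (fun n => ∑ i ∈ Finset.range (2 * J), ∑ j ∈ Finset.range (2 * J),
      ((∫ z, ψ z * (enr ρ (lam n) (f n) (i + 1) z * enr ρ (lam n) (f n) (j + 1) z)) -
      rc (i + 1) (j + 1) * ∫ z, ψ z * f n z ^ 4)) atTop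
      (𝓝 (∑ i ∈ Finset.range (2 * J), ∑ j ∈ Finset.range (2 * J),
        rd (i + 1) (j + 1) * ∫ z, ψ z)) :=
    tendsto_finsetSum _ fun i _ => tendsto_finsetSum _ fun j _ =>
      corr_test hV hρ hρ0 hl1 hlam hf heig hq hbd hψ hψc hψV (i + 1) (j + 1)
  have t2 : Tendsto (fun n => ∑ i ∈ Finset.range (2 * J), ∫ z, ψ z * enr ρ (lam n) (f n) (i + 1) z)
      atTop (𝓝 (∑ i ∈ Finset.range (2 * J), ∫ z, ψ z)) :=
    tendsto_finsetSum _ fun i _ =>
      enr_test hV hρ hρ0 hl1 hlam hf heig hq hbd hψ hψc hψV (i + 1)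
  have t3 := ((t1.const_mul (c ^ 2)).sub (t2.const_mul (2 * c))).add_const (∫ z, ψ z)
  have e1 : c ^ 2 * (∑ i ∈ Finset.range (2 * J), ∑ j ∈ Finset.range (2 * J),
        rd (i + 1) (j + 1) * ∫ z, ψ z) - 2 * c * (∑ i ∈ Finset.range (2 * J), ∫ z, ψ z) +
        (∫ z, ψ z) = -(2 - 1 / (2 * J)) * ∫ z, ψ z := by
    simp only [← Finset.sum_mul]
    rw [sum_rd, Finset.sum_const, Finset.card_range, nsmul_eq_mul, ← hc]
    push_cast
    have : c ^ 2 * (-4 * (J : ℝ) ^ 2 + 2 * J) = -1 + c := by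
      have h1 : c ^ 2 * (-4 * (J : ℝ) ^ 2 + 2 * J) = -(c * (2 * J)) ^ 2 + c * (c * (2 * J)) := by
        ring
      rw [h1, hcJ]
      ring
    have h2 : 2 * c * (2 * (J : ℝ) * ∫ z, ψ z) = 2 * (c * (2 * J)) * ∫ z, ψ z := by ring
    rw [h2, hcJ, ← mul_assoc, this]
    ring
  rw [e1] at t3
  refine t3.congr fun n => ?_
  set E : ℕ → ℂ → ℝ := fun i z => enr ρ (lam n) (f n) (i + 1) z with hE
  have hEc : ∀ i, ContinuousOn (E i) V := fun i => hc1 n (i + 1)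
  have s1 : ∫ z, ψ z * (∑ i ∈ Finset.range (2 * J), E i z) =
      ∑ i ∈ Finset.range (2 * J), ∫ z, ψ z * E i z := by
    rw [← integral_finsetSum _ fun i _ => ii _ (hEc i)]
    refine integral_congr_ae (ae_of_all _ fun z => ?_)
    simp only [Finset.mul_sum]
  have s2 : ∫ z, ψ z * (∑ i ∈ Finset.range (2 * J), E i z) ^ 2 =
      ∑ i ∈ Finset.range (2 * J), ∑ j ∈ Finset.range (2 * J), ∫ z, ψ z * (E i z * E j z) := by
    have h1 : ∀ i, ∑ j ∈ Finset.range (2 * J), ∫ z, ψ z * (E i z * E j z) =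
        ∫ z, ∑ j ∈ Finset.range (2 * J), ψ z * (E i z * E j z) := fun i =>
      (integral_finsetSum _ fun j _ => ii _ ((hEc i).mul (hEc j))).symm
    simp only [h1]
    rw [← integral_finsetSum _ fun i _ => integrable_finsetSum _ fun j _ =>
      ii (fun z => E i z * E j z) ((hEc i).mul (hEc j))]
    refine integral_congr_ae (ae_of_all _ fun z => ?_)
    simp only
    rw [sq, Finset.sum_mul_sum, Finset.mul_sum]
    exact Finset.sum_congr rfl fun i _ => by rw [Finset.mul_sum]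
  have hsumc : ContinuousOn (fun z => ∑ i ∈ Finset.range (2 * J), E i z) V :=
    continuousOn_finsetSum _ fun i _ => hEc i
  have s3 : ∫ z, ψ z * (avg ρ (lam n) (f n) J z - 1) ^ 2 =
      c ^ 2 * (∫ z, ψ z * (∑ i ∈ Finset.range (2 * J), E i z) ^ 2) -
        2 * c * (∫ z, ψ z * (∑ i ∈ Finset.range (2 * J), E i z)) + ∫ z, ψ z := by
    have i1 := (ii (fun z => (∑ i ∈ Finset.range (2 * J), E i z) ^ 2)
      (hsumc.pow 2)).const_mul (c ^ 2)
    have i2 := (ii (fun z => ∑ i ∈ Finset.range (2 * J), E i z) hsumc).const_mul (2 * c)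
    have i3 : Integrable (fun z => ψ z) := by simpa using ii (fun _ => 1) continuousOn_const
    rw [← integral_const_mul, ← integral_const_mul, ← integral_sub i1 i2]
    have i12 : Integrable (fun a => c ^ 2 * (ψ a * (∑ i ∈ Finset.range (2 * J), E i a) ^ 2) -
        2 * c * (ψ a * ∑ i ∈ Finset.range (2 * J), E i a)) := i1.sub i2
    rw [← integral_add i12 i3]
    refine integral_congr_ae (ae_of_all _ fun z => ?_)
    simp only [avg, hE, hc]
    ring
  rw [s3, s2, s1]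
  have s4 : ∑ i ∈ Finset.range (2 * J), ∑ j ∈ Finset.range (2 * J),
      ((∫ z, ψ z * (E i z * E j z)) - rc (i + 1) (j + 1) * ∫ z, ψ z * f n z ^ 4) =
      (∑ i ∈ Finset.range (2 * J), ∑ j ∈ Finset.range (2 * J), ∫ z, ψ z * (E i z * E j z)) -
        8 / 3 * (J : ℝ) ^ 2 * ∫ z, ψ z * f n z ^ 4 := by
    rw [← sum_rc]
    simp only [Finset.sum_sub_distrib, ← Finset.sum_mul]
  simp only [hE] at s4 ⊢
  rw [s4]
  have s5 : c ^ 2 * (8 / 3 * (J : ℝ) ^ 2 * ∫ z, ψ z * f n z ^ 4) =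
      2 / 3 * ∫ z, ψ z * f n z ^ 4 := by
    have : c ^ 2 * (8 / 3 * (J : ℝ) ^ 2) = 2 / 3 * (c * (2 * J)) ^ 2 := by ring
    rw [← mul_assoc, this, hcJ]
    ring
  rw [mul_sub, s5]
  ring

theorem avg_seq (hV : IsOpen V) (hρ : ContDiffOn ℝ ∞ ρ V) (hρ0 : ∀ z ∈ V, 0 < ρ z)
    (hlam : Tendsto lam atTop atTop) (hf : ∀ n, ContDiffOn ℝ ∞ (f n) V)
    (heig : ∀ n, ∀ z ∈ V, -(Δ (f n)) z = lam n * ρ z * f n z) (hq : QueRaw V ρ lam f)
    (hbd : LocFour V f)
    {ψ : ℂ → ℝ} (hψ : ContDiff ℝ ∞ ψ) (hψc : HasCompactSupport ψ) (hψV : tsupport ψ ⊆ V)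
    (J : ℕ) (hJ : 0 < J) :
    Tendsto (fun n => (∫ z, ψ z * (avg ρ (lam n) (f n) J z - 1) ^ 2) -
      2 / 3 * ∫ z, ψ z * f n z ^ 4) atTop (𝓝 (-(2 - 1 / (2 * J)) * ∫ z, ψ z)) := by
  obtain ⟨lam', f', h1, h2, h3, h4, h5, h6, h7⟩ := fix_seq hlam hf heig hq hbd
  refine (avg_test hV hρ hρ0 h1 h2 h3 h4 h5 h6 hψ hψc hψV J hJ).congr' ?_
  filter_upwards [h7] with n hn
  rw [hn.1, hn.2]

/-- third moments against squares -/
theorem third_sq (hV : IsOpen V) (hρ : ContDiffOn ℝ ∞ ρ V) (hρ0 : ∀ z ∈ V, 0 < ρ z)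
    (hl1 : ∀ n, 1 ≤ lam n) (hlam : Tendsto lam atTop atTop)
    (hf : ∀ n, ContDiffOn ℝ ∞ (f n) V)
    (heig : ∀ n, ∀ z ∈ V, -(Δ (f n)) z = lam n * ρ z * f n z) (hq : QueRaw V ρ lam f)
    (hbd : LocFour V f)
    {χ : ℂ → ℝ} (hχ : ContDiff ℝ ∞ χ) (hχc : HasCompactSupport χ) (hχV : tsupport χ ⊆ V)
    (hχ0 : ∀ z, 0 ≤ χ z) :
    Tendsto (fun n => ∫ z, χ z ^ 2 * f n z ^ 3) atTop (𝓝 0) := by
  obtain ⟨D, hKD, hDV, hκ, hγ, -, hDf, -, -, hW, hkk⟩ :=
    exists_model hV hρ hρ0 hl1 hf heig (𝒰 := atTop) hlam hbd hχc.isCompact hχV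
  have te : D.Te (fun z => ((χ z : ℝ) : ℂ)) := by
    refine ⟨ofRealCLM.contDiff.comp hχ, hχc.comp_left (g := fun x : ℝ => (x : ℂ)) (by simp), ?_⟩
    refine (closure_mono ?_).trans hKD
    intro z hz h0
    exact hz (by simp [h0])
  obtain ⟨F, hF⟩ := exists_Fra te (fun z => conj_ofReal _) (fun z => by simpa using hχ0 z)
  have hχe : ∀ z, F.χ z = ((χ z : ℝ) : ℂ) := fun z => congrFun hF z
  have hχD : ∀ z, z ∉ D.V → χ z = 0 := fun z hz =>
    image_eq_zero_of_notMem_tsupport fun h => hz (hKD h)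
  rw [tendsto_iff_ultrafilter]
  intro 𝒰 h𝒰
  have h1 := F.third_zero (hκ.mono_left h𝒰) (que_model hq hDV hW h𝒰)
  have h2 := (continuous_re.tendsto _).comp h1
  rw [zero_re] at h2
  refine h2.congr fun i => ?_
  simp only [Function.comp]
  have e : ∫ z, F.χ z * F.χ z * (D.f i z) ^ 3 = ((∫ z, χ z ^ 2 * f i z ^ 3 : ℝ) : ℂ) := by
    rw [← integral_complex_ofReal]
    refine integral_congr_ae (ae_of_all _ fun z => ?_)
    simp only
    by_cases hz : z ∈ D.V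
    · rw [hDf i z hz, hχe]
      push_cast
      ring
    · rw [hχe, hχD z hz]
      simp
  rw [e, ofReal_re]

theorem third_seq (hV : IsOpen V) (hρ : ContDiffOn ℝ ∞ ρ V) (hρ0 : ∀ z ∈ V, 0 < ρ z)
    (hlam : Tendsto lam atTop atTop) (hf : ∀ n, ContDiffOn ℝ ∞ (f n) V)
    (heig : ∀ n, ∀ z ∈ V, -(Δ (f n)) z = lam n * ρ z * f n z) (hq : QueRaw V ρ lam f)
    (hbd : LocFour V f)
    {ψ : ℂ → ℝ} (hψ : ContDiff ℝ ∞ ψ) (hψc : HasCompactSupport ψ) (hψV : tsupport ψ ⊆ V) :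
    Tendsto (fun n => ∫ z, ψ z * f n z ^ 3) atTop (𝓝 0) := by
  obtain ⟨lam', f', h1, h2, h3, h4, h5, h6, h7⟩ := fix_seq hlam hf heig hq hbd
  suffices h : Tendsto (fun n => ∫ z, ψ z * f' n z ^ 3) atTop (𝓝 0) by
    refine h.congr' ?_
    filter_upwards [h7] with n hn
    rw [hn.2]
  obtain ⟨η, hη, hηc, hηV, hη01, O, hO, hKO, hOV, hη1⟩ := exists_cutoff hψc.isCompact hV hψV
  obtain ⟨B, hB⟩ := hψc.exists_bound_of_continuous hψ.continuous
  set c : ℝ := 1 / (|B| + 1) with hc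
  have hc0 : 0 < c := by positivity
  have hcB : ∀ z, |c * ψ z| ≤ 1 := by
    intro z
    rw [abs_mul, abs_of_pos hc0, hc, one_div, inv_mul_le_one₀ (by positivity)]
    have h1 := hB z
    rw [Real.norm_eq_abs] at h1
    exact h1.trans ((le_abs_self B).trans (by linarith))
  set χ1 : ℂ → ℝ := fun z => η z * (1 + c * ψ z) with hχ1
  set χ2 : ℂ → ℝ := fun z => η z * (1 - c * ψ z) with hχ2
  have s1 : ContDiff ℝ ∞ χ1 := hη.mul (contDiff_const.add (contDiff_const.mul hψ))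
  have s2 : ContDiff ℝ ∞ χ2 := hη.mul (contDiff_const.sub (contDiff_const.mul hψ))
  have c1 : HasCompactSupport χ1 := hηc.mul_right
  have c2 : HasCompactSupport χ2 := hηc.mul_right
  have t1 : tsupport χ1 ⊆ V := (closure_mono (Function.support_mul_subset_left _ _)).trans hηV
  have t2 : tsupport χ2 ⊆ V := (closure_mono (Function.support_mul_subset_left _ _)).trans hηV
  have n1 : ∀ z, 0 ≤ χ1 z := fun z => mul_nonneg (hη01 z).1 (by
    have := (abs_le.1 (hcB z)).1; linarith)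
  have n2 : ∀ z, 0 ≤ χ2 z := fun z => mul_nonneg (hη01 z).1 (by
    have := (abs_le.1 (hcB z)).2; linarith)
  have a1 := third_sq hV hρ hρ0 h1 h2 h3 h4 h5 h6 s1 c1 t1 n1
  have a2 := third_sq hV hρ hρ0 h1 h2 h3 h4 h5 h6 s2 c2 t2 n2
  have hdiff : ∀ z, χ1 z ^ 2 - χ2 z ^ 2 = 4 * c * ψ z := by
    intro z
    by_cases hz : z ∈ O
    · simp only [hχ1, hχ2, hη1 z hz]; ring
    · have h0 : ψ z = 0 := image_eq_zero_of_notMem_tsupport fun h => hz (hKO h)
      simp only [hχ1, hχ2, h0]; ring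
  have a3 := (a1.sub a2).const_mul (1 / (4 * c))
  rw [sub_zero, mul_zero] at a3
  refine a3.congr fun n => ?_
  have hX : ContinuousOn (fun z => f' n z ^ 3) V := (h3 n).continuousOn.pow 3
  have ii : ∀ χ : ℂ → ℝ, Continuous χ → HasCompactSupport χ → tsupport χ ⊆ V →
      Integrable (fun z => χ z ^ 2 * f' n z ^ 3) := by
    intro χ h1 h2 h3
    have h4 : IntegrableOn (fun z => χ z ^ 2 * f' n z ^ 3) (tsupport χ) :=
      ((h1.continuousOn.pow 2).mul (hX.mono h3)).integrableOn_compact h2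
    rw [← integrableOn_iff_integrable_of_support_subset (s := tsupport χ)]
    · exact h4
    · intro z hz
      by_contra hcon
      exact hz (by simp [image_eq_zero_of_notMem_tsupport hcon])
  rw [← integral_sub (ii χ1 s1.continuous c1 t1) (ii χ2 s2.continuous c2 t2),
    ← integral_const_mul]
  refine integral_congr_ae (ae_of_all _ fun z => ?_)
  simp only
  rw [← sub_mul, hdiff]
  field_simp

end

end Pool.Agent.H486.QM
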