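import Pool.Agent.H486.QM.Gen

/-!
# The sharp inequality along an ultrafilter
-/

set_option autoImplicit false

open MeasureTheory Complex Filter Topology Set Metric
open scoped ContDiff ComplexConjugate InnerProductSpace ENNReal

namespace Pool.Agent.H486.QM

noncomputable section

attribute [local instance] instMeasureSpaceUnitAddCircle

local instance : IsProbabilityMeasure (volume : Measure UnitAddCircle) :=
  inferInstanceAs (IsProbabilityMeasure AddCircle.haarAddCircle)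

universe u

variable {ι : Type u} {D : Dat ι}

theorem q4_kk {θ : ℂ → ℂ} (x : ℤ) (i : ι) : ∫ w, θ w * D.kk x i w =
    (-1) ^ x * q4 θ (D.H x) (D.H (-x)) (one1 ι) (one1 ι) i := by
  rw [q4, ← integral_const_mul]
  refine integral_congr_ae (ae_of_all _ fun w => ?_)
  simp only [Dat.kk, one1]
  ring

theorem kk_neg (x : ℤ) (i : ι) (w : ℂ) : D.kk (-x) i w = D.kk x i w := by
  have e : ((-1 : ℂ) ^ (-x)) = (-1) ^ x := by rw [zpow_neg, ← inv_zpow]; norm_num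
  rw [Dat.kk, Dat.kk, e, neg_neg]
  ring

theorem kk_step {𝒰 : Filter ι} [NeBot 𝒰] (hκ : Tendsto D.κ 𝒰 (𝓝 0)) {χ : ℂ → ℂ} (hχ : D.Te χ)
    (j : ℕ) : Tendsto (fun i => (∫ w, χ w * D.kk (j + 1 : ℤ) i w) - ∫ w, χ w * D.kk j i w) 𝒰
      (𝓝 0) := by
  have h1 := raise_lim hκ hχ (Dat.Bd.H (j : ℤ)) (Dat.Bd.H (-j - 1 : ℤ)) (Dat.Bd.const 1)
    (Dat.Bd.const 1) (Dat.Bd.H (j + 1 : ℤ)) (Dat.Bd.H (-j - 1 + 1 : ℤ)) (Dat.Bd.const 0)
    (Dat.Bd.const 0) (Dat.der_H (j : ℤ)) (Dat.der_H (-j - 1 : ℤ)) (Dat.der_const 1)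
    (Dat.der_const 1)
  have e1 : (-(j : ℤ) - 1 + 1) = -j := by ring
  rw [e1] at h1
  have h2 := h1.const_mul ((-1 : ℂ) ^ (j + 1 : ℤ))
  rw [mul_zero] at h2
  refine h2.congr fun i => ?_
  have e5 : q4 χ (D.H j) (D.H (-j - 1)) (fun _ _ => 0) (fun _ _ => 1) i = 0 := by
    rw [q4]; simp
  have e6 : q4 χ (D.H j) (D.H (-j - 1)) (fun _ _ => 1) (fun _ _ => 0) i = 0 := by
    rw [q4]; simp
  have e7 : -((j : ℤ) + 1) = -j - 1 := by ring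
  have e8 : ((-1 : ℂ) ^ (j + 1 : ℤ)) = - (-1) ^ (j : ℤ) := by
    rw [zpow_add₀ (by norm_num)]; norm_num
  rw [e5, e6, q4_kk, q4_kk, e7, e8]
  change -(-1) ^ (j : ℤ) * (q4 χ (D.H (j + 1)) (D.H (-j - 1)) (one1 ι) (one1 ι) i +
      q4 χ (D.H j) (D.H (-j)) (one1 ι) (one1 ι) i + 0 + 0) = _
  ring

/-- all energies have the same weak limits -/
theorem kk_diff {𝒰 : Filter ι} [NeBot 𝒰] (hκ : Tendsto D.κ 𝒰 (𝓝 0)) {χ : ℂ → ℂ} (hχ : D.Te χ)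
    (x : ℤ) : Tendsto (fun i => (∫ w, χ w * D.kk x i w) - ∫ w, χ w * D.kk 0 i w) 𝒰 (𝓝 0) := by
  have h : ∀ j : ℕ, Tendsto (fun i => (∫ w, χ w * D.kk j i w) - ∫ w, χ w * D.kk 0 i w) 𝒰
      (𝓝 0) := by
    intro j
    induction j with
    | zero => simp
    | succ j ih =>
      have h1 := (kk_step hκ hχ j).add ih
      rw [add_zero] at h1
      refine h1.congr fun i => ?_
      push_cast
      ring
  obtain ⟨j, rfl | rfl⟩ := x.eq_nat_or_neg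
  · exact h j
  · simpa only [kk_neg] using h j

theorem W_zero (i : ι) (w : ℂ) : D.W 0 i w = D.kk 0 i w := by
  have e : D.H 0 = D.G 0 := Dat.H_nat 0
  have e' : D.H (-0) = D.G 0 := by rw [neg_zero]; exact Dat.H_nat 0
  rw [Dat.W, Dat.kk, e, e']
  simp

theorem kk_W (l : ℕ) (i : ι) (w : ℂ) (hγ : 0 ≤ (D.γ w).re) :
    D.kk l i w = ((‖D.W l i w‖ : ℝ) : ℂ) := by
  have hg : D.γ w = (((D.γ w).re : ℝ) : ℂ) := (conj_eq_iff_re.1 (D.γreal w)).symm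
  rw [Dat.kk, Dat.W, Dat.H_nat, Dat.H_neg, Dat.Hn, norm_mul, norm_mul, norm_pow, hg,
    norm_real, Real.norm_of_nonneg hγ]
  push_cast
  have e : ((-1 : ℂ) ^ (l : ℤ)) * (-1) ^ l = 1 := by
    rw [zpow_natCast, ← mul_pow]; simp
  have e2 := sq_eq (D.G l i w)
  push_cast at e2
  have e3 : D.G l i w * conj (D.G l i w) = (‖D.G l i w‖ : ℂ) * ‖D.G l i w‖ := by
    rw [← e2]; ring
  linear_combination (((D.γ w).re : ℂ) ^ l * (D.G l i w * conj (D.G l i w))) * e +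
    ((D.γ w).re : ℂ) ^ l * e3

namespace Fra

variable (F : Fra D)

theorem vK_weak {𝒰 : Filter ι} [NeBot 𝒰] (hκ : Tendsto D.κ 𝒰 (𝓝 0)) {u : HT}
    (hu : ∀ h, Tendsto (fun i => ⟪h, F.vW 0 i⟫_ℂ) 𝒰 (𝓝 ⟪h, u⟫_ℂ)) (x : ℤ) (h : HT) :
    Tendsto (fun i => ⟪h, F.vK x i⟫_ℂ) 𝒰 (𝓝 ⟪h, u⟫_ℂ) := by
  obtain ⟨C, hC⟩ := F.norm_vK_bd x
  refine weak_up hC (fun n => ?_) h
  have h1 := hu (UnitAddTorus.mFourierBasis n)
  have h2 := (kk_diff hκ (F.tst_te n) x).const_smul ((F.k ^ 2)⁻¹ : ℝ)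
  rw [smul_zero] at h2
  have h3 := h1.add h2
  rw [add_zero] at h3
  refine h3.congr fun i => ?_
  rw [vW, vK, F.basis_vX, F.basis_vX, smul_sub]
  simp only [W_zero]
  ring

/-- absolute values -/
theorem abs_le (h : HT) : ∃ g : HT, ‖g‖ = ‖h‖ ∧ ∀ (l : ℕ) (i : ι), (∀ w, 0 ≤ (D.γ w).re) →
    ‖⟪h, F.vW l i⟫_ℂ‖ ≤ (⟪g, F.vK l i⟫_ℂ).re := by
  have hm : MemLp (fun t => ((‖(h : UnitAddTorus (Fin 2) → ℂ) t‖ : ℝ) : ℂ)) 2
      (volume : Measure (UnitAddTorus (Fin 2))) := (Lp.memLp h).norm.ofReal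
  refine ⟨hm.toLp _, ?_, fun l i hγ => ?_⟩
  · rw [Lp.norm_toLp, Lp.norm_def]
    congr 1
    refine eLpNorm_congr_norm_ae (ae_of_all _ fun t => ?_)
    simp
  · rw [L2.inner_def, L2.inner_def]
    set X : UnitAddTorus (Fin 2) → ℂ := fun t => aff F.c F.k (fun w => F.χ w * D.W l i w) (rp t)
      with hX
    set Y : UnitAddTorus (Fin 2) → ℂ := fun t => aff F.c F.k (fun w => F.χ w * D.kk l i w) (rp t)
      with hY
    have aX : (F.vW l i : UnitAddTorus (Fin 2) → ℂ) =ᵐ[volume] X :=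
      (memLp_rp (memLp_aff (Sm.mulL F (D.W_sm l i)) F.kpos F.c)).coeFn_toLp
    have aY : (F.vK l i : UnitAddTorus (Fin 2) → ℂ) =ᵐ[volume] Y :=
      (memLp_rp (memLp_aff (Sm.mulL F (D.kk_sm l i)) F.kpos F.c)).coeFn_toLp
    have hXY : ∀ t, Y t = ((‖X t‖ : ℝ) : ℂ) := by
      intro t
      simp only [hX, hY, aff]
      set z := F.c + F.k * rp t
      have hχ : F.χ z = (((F.χ z).re : ℝ) : ℂ) := (conj_eq_iff_re.1 (F.re z)).symm
      rw [kk_W l i z (hγ z), norm_mul, hχ, norm_real, Real.norm_of_nonneg (F.nn z)]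
      push_cast
      rfl
    have e1 : ∫ t, ⟪(hm.toLp _ : UnitAddTorus (Fin 2) → ℂ) t,
        (F.vK l i : UnitAddTorus (Fin 2) → ℂ) t⟫_ℂ =
        ((∫ t, ‖⟪(h : UnitAddTorus (Fin 2) → ℂ) t,
          (F.vW l i : UnitAddTorus (Fin 2) → ℂ) t⟫_ℂ‖ : ℝ) : ℂ) := by
      rw [← integral_complex_ofReal]
      refine integral_congr_ae ?_
      filter_upwards [aX, aY, hm.coeFn_toLp] with t h1 h2 h3
      rw [h1, h2, h3, hXY]
      simp only [RCLike.inner_apply, norm_mul, RCLike.norm_conj, conj_ofReal]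
      push_cast
      ring
    have e1' : (∫ t, ⟪(hm.toLp (fun t => ((‖(h : UnitAddTorus (Fin 2) → ℂ) t‖ : ℝ) : ℂ)) :
        UnitAddTorus (Fin 2) → ℂ) t, (F.vK l i : UnitAddTorus (Fin 2) → ℂ) t⟫_ℂ).re =
        ∫ t, ‖⟪(h : UnitAddTorus (Fin 2) → ℂ) t,
          (F.vW l i : UnitAddTorus (Fin 2) → ℂ) t⟫_ℂ‖ := by
      rw [e1, ofReal_re]
    refine le_of_le_of_eq (norm_integral_le_integral_norm _) e1'.symm

/-- the weak limits of the harmonics are dominated by the weak limit of the squares -/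
theorem norm_le_zero {𝒰 : Filter ι} [NeBot 𝒰] (hκ : Tendsto D.κ 𝒰 (𝓝 0))
    (hγ : ∀ w, 0 ≤ (D.γ w).re) {u : ℕ → HT}
    (hu : ∀ l h, Tendsto (fun i => ⟪h, F.vW l i⟫_ℂ) 𝒰 (𝓝 ⟪h, u l⟫_ℂ)) (l : ℕ) :
    ‖u l‖ ≤ ‖u 0‖ := by
  obtain ⟨g, hg, hle⟩ := F.abs_le (u l)
  have h1 := (hu l (u l)).norm
  have h2 := (continuous_re.tendsto _).comp (F.vK_weak hκ (hu 0) l g)
  have h3 : ‖⟪u l, u l⟫_ℂ‖ ≤ (⟪g, u 0⟫_ℂ).re :=
    le_of_tendsto_of_tendsto' h1 h2 fun i => hle l i hγ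
  have h4 : (⟪g, u 0⟫_ℂ).re ≤ ‖g‖ * ‖u 0‖ :=
    (Complex.re_le_norm _).trans (norm_inner_le_norm _ _)
  have h5 : ‖⟪u l, u l⟫_ℂ‖ = ‖u l‖ * ‖u l‖ := by
    have := inner_self_eq_norm_sq_to_K (𝕜 := ℂ) (u l)
    rw [this, norm_pow]
    simp
    ring
  rw [h5] at h3
  rw [hg] at h4
  rcases (norm_nonneg (u l)).eq_or_lt with h6 | h6
  · rw [← h6]; exact norm_nonneg _
  · exact le_of_mul_le_mul_left (h3.trans h4) h6

end Fra

end

end Pool.Agent.H486.QM
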