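import Pool.Agent.H486.QM.Shp

/-!
# The sharp inequality along an ultrafilter, assembly
-/

set_option autoImplicit false

open MeasureTheory Complex Filter Topology Set Metric
open scoped ContDiff ComplexConjugate InnerProductSpace ENNReal

namespace Pool.Agent.H486.QM

noncomputable section

attribute [local instance] instMeasureSpaceUnitAddCircle

local instance : IsProbabilityMeasure (volume : Measure UnitAddCircle) :=
  inferInstanceAs (IsProbabilityMeasure AddCircle.haarAddCircle)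

theorem toep (g : ℕ → ℝ) (n : ℕ) :
    ∑ j ∈ Finset.range n, ∑ k ∈ Finset.range n, g ((j : ℤ) - (k : ℤ)).natAbs =
      n * g 0 + 2 * ∑ l ∈ Finset.range n, ((n : ℝ) - 1 - l) * g (l + 1) := by
  induction n with
  | zero => simp
  | succ n ih =>
    rw [Finset.sum_range_succ]
    have e1 : ∑ j ∈ Finset.range n, ∑ k ∈ Finset.range (n + 1), g ((j : ℤ) - (k : ℤ)).natAbs =
        ∑ j ∈ Finset.range n, ∑ k ∈ Finset.range n, g ((j : ℤ) - (k : ℤ)).natAbs +
          ∑ j ∈ Finset.range n, g ((j : ℤ) - (n : ℤ)).natAbs := by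
      rw [← Finset.sum_add_distrib]
      exact Finset.sum_congr rfl fun j _ => Finset.sum_range_succ _ _
    have r : ∀ f : ℕ → ℝ, (∀ j ∈ Finset.range n, f j = g (n - j)) →
        ∑ j ∈ Finset.range n, f j = ∑ l ∈ Finset.range n, g (l + 1) := by
      intro f hf
      rw [← Finset.sum_range_reflect (fun l => g (l + 1)) n]
      refine Finset.sum_congr rfl fun j hj => ?_
      have := Finset.mem_range.1 hj
      rw [hf j hj]
      congr 1
      omega
    have e2 : ∑ j ∈ Finset.range n, g ((j : ℤ) - (n : ℤ)).natAbs =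
        ∑ l ∈ Finset.range n, g (l + 1) := r _ fun j hj => by
      have := Finset.mem_range.1 hj
      congr 1
      omega
    have e3 : ∑ k ∈ Finset.range n, g ((n : ℤ) - (k : ℤ)).natAbs =
        ∑ l ∈ Finset.range n, g (l + 1) := r _ fun j hj => by
      have := Finset.mem_range.1 hj
      congr 1
      omega
    have e4 : ((n : ℤ) - (n : ℤ)).natAbs = 0 := by omega
    rw [e1, ih, e2, Finset.sum_range_succ (fun k => g ((n : ℤ) - (k : ℤ)).natAbs), e3, e4,
      Finset.sum_range_succ (fun l => (((n + 1 : ℕ) : ℝ) - 1 - l) * g (l + 1))]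
    have e5 : ∑ l ∈ Finset.range n, (((n + 1 : ℕ) : ℝ) - 1 - l) * g (l + 1) =
        ∑ l ∈ Finset.range n, ((n : ℝ) - 1 - l) * g (l + 1) +
          ∑ l ∈ Finset.range n, g (l + 1) := by
      rw [← Finset.sum_add_distrib]
      refine Finset.sum_congr rfl fun l _ => ?_
      push_cast
      ring
    rw [e5]
    push_cast
    ring

universe u

variable {ι : Type u} {D : Dat ι}

namespace Fra

variable (F : Fra D)

theorem gram {𝒰 : Filter ι} {M : ℤ → ℤ → ℤ → ℤ → ℂ}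
    (hM : ∀ a b c d, Tendsto (q4 (fun w => F.χ w * F.χ w) (D.H a) (D.H b) (D.H c) (D.H d)) 𝒰
      (𝓝 (M a b c d))) (x y : ℤ) :
    Tendsto (fun i => ⟪F.vK x i, F.vK y i⟫_ℂ) 𝒰
      (𝓝 (((F.k ^ 2)⁻¹ : ℝ) * ((-1) ^ x * (-1) ^ y * M x (-x) y (-y)))) := by
  have h1 := ((hM x (-x) y (-y)).const_mul ((-1 : ℂ) ^ x * (-1) ^ y)).const_mul
    (((F.k ^ 2)⁻¹ : ℝ) : ℂ)
  refine h1.congr fun i => ?_
  rw [vK, vK, F.inner_vX]
  congr 1
  rw [q4, ← integral_const_mul]
  refine integral_congr_ae (ae_of_all _ fun w => ?_)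
  simp only [map_mul, F.re, Dat.kk_real]
  simp only [Dat.kk]
  ring

theorem norm_W {𝒰 : Filter ι} {M : ℤ → ℤ → ℤ → ℤ → ℂ}
    (hM : ∀ a b c d, Tendsto (q4 (fun w => F.χ w * F.χ w) (D.H a) (D.H b) (D.H c) (D.H d)) 𝒰
      (𝓝 (M a b c d))) (l : ℕ) :
    Tendsto (fun i => ‖F.vW l i‖ ^ 2) 𝒰 (𝓝 ((F.k ^ 2)⁻¹ * (M l (-l) l (-l)).re)) := by
  have h3 := (continuous_re.tendsto _).comp (hM l (-l) l (-l))
  have h4 := h3.const_mul ((F.k ^ 2)⁻¹)
  refine h4.congr fun i => ?_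
  simp only [Function.comp]
  rw [← W_q4 F.re l i, ofReal_re, vW, F.norm_vX]

/-- the sharp inequality with abstract weak limits -/
theorem sharp_u {𝒰 : Ultrafilter ι} (hκ : Tendsto D.κ 𝒰 (𝓝 0)) (hγ : ∀ w, 0 ≤ (D.γ w).re)
    {m : ℝ} (hm : Tendsto (fun i => ∫ w, ‖F.χ w * (D.f i w * D.f i w)‖ ^ 2) 𝒰 (𝓝 m)) :
    ∃ u : ℕ → HT, (∀ l h, Tendsto (fun i => ⟪h, F.vW l i⟫_ℂ) 𝒰 (𝓝 ⟪h, u l⟫_ℂ)) ∧
      ∀ L : ℕ, 3 * ((L : ℝ) + 1) * (2 * L + 1) * ‖u 0‖ ^ 2 ≤
        2 * ((L : ℝ) + 1) ^ 2 * ((F.k ^ 2)⁻¹ * m) +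
          6 * ∑ l ∈ Finset.range L, ((L : ℝ) - l) * ‖u (l + 1)‖ ^ 2 := by
  have hψ : D.Te (fun w => F.χ w * F.χ w) := F.te.mul F.te.sm
  have hψr : ∀ w, conj (F.χ w * F.χ w) = F.χ w * F.χ w := fun w => by rw [map_mul, F.re]
  obtain ⟨M, hM⟩ := exists_M (D := D) 𝒰 hψ
  have hR := rh_of_lim hκ hψ hψr hM
  have hex : ∀ l : ℕ, ∃ u : HT, ∀ h, Tendsto (fun i => ⟪h, F.vW l i⟫_ℂ) 𝒰 (𝓝 ⟪h, u⟫_ℂ) := by
    intro l
    obtain ⟨C, hC⟩ := F.norm_vW_bd l
    exact exists_weak 𝒰 _ hC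
  choose u hu using hex
  refine ⟨u, hu, fun L => ?_⟩
  set K := (F.k ^ 2)⁻¹ with hK
  have hK0 : 0 < K := by have := F.kpos; positivity
  set x : ℕ → ℝ := fun l => K * (M l (-l) l (-l)).re with hx
  have hxl : ∀ l, Tendsto (fun i => ‖F.vW l i‖ ^ 2) 𝒰 (𝓝 (x l)) := fun l => F.norm_W hM l
  have hx0 : ∀ l, 0 ≤ x l := fun l => ge_of_tendsto' (hxl l) fun i => by positivity
  have hm0 : x 0 = K * m := by
    have h3 := hxl 0
    refine tendsto_nhds_unique h3 ((hm.const_mul K).congr fun i => ?_)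
    rw [vW, F.norm_vX]
    simp only [Dat.W, pow_zero, one_mul, Dat.G_zero]
    rfl
  have hchain : ∀ l, x l - ‖u l‖ ^ 2 ≤ x 0 - ‖u 0‖ ^ 2 := by
    intro l
    induction l with
    | zero => exact le_rfl
    | succ l ih => exact (F.chain l (hu l) (hu (l + 1)) (hxl l) (hxl (l + 1))).1.trans ih
  have hun : ∀ l, ‖u l‖ ^ 2 ≤ ‖u 0‖ ^ 2 := fun l =>
    pow_le_pow_left₀ (norm_nonneg _) (F.norm_le_zero hκ hγ hu l) 2
  set v := ‖u 0‖ ^ 2 with hv
  set Dn : ℤ → ℝ := fun n => K * ((-1 : ℂ) ^ n * DD M n).re with hDn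
  have neg1 : ∀ n : ℤ, ((-1 : ℂ) ^ (-n)) = (-1) ^ n := by
    intro n
    rw [zpow_neg, ← inv_zpow]; norm_num
  have hev : ∀ n, Dn (-n) = Dn n := by
    intro n
    simp only [hDn]
    rw [neg1, hR.DD_neg]
  have hD0 : Dn 0 = x 0 := by
    simp only [hDn, hx, zpow_zero, one_mul]
    rw [DD]
    norm_num
  have hoddN : ∀ k : ℕ, Dn (2 * k + 1) = Dn 0 / 3 := by
    intro k
    simp only [hDn]
    rw [hR.odd k, zpow_add₀ (by norm_num), zpow_mul]
    have hd0 : (M 0 0 0 0 / 3).re = (M 0 0 0 0).re / 3 := Complex.div_ofNat_re (M 0 0 0 0) 3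
    have e3 : DD M 0 = M 0 0 0 0 := by rw [DD, neg_zero]
    rw [e3]
    have e2 : (((-1 : ℂ) ^ (2 : ℤ)) ^ (k : ℤ) * (-1) ^ (1 : ℤ) * (-M 0 0 0 0 / 3)).re =
        (M 0 0 0 0).re / 3 := by
      rw [← hd0]
      congr 1
      norm_num
      ring
    rw [e2, zpow_zero, one_mul]
    ring
  have hodd : ∀ k : ℤ, Dn (2 * k + 1) = Dn 0 / 3 := by
    intro k
    rcases le_total 0 k with hk | hk
    · obtain ⟨n, rfl⟩ := Int.eq_ofNat_of_zero_le hk
      exact hoddN n
    · obtain ⟨n, hn⟩ := Int.eq_ofNat_of_zero_le (show 0 ≤ -k by omega)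
      rcases Nat.eq_zero_or_pos n with h0 | h0
      · have : k = 0 := by omega
        subst this
        exact hoddN 0
      · obtain ⟨n', rfl⟩ := Nat.exists_eq_succ_of_ne_zero h0.ne'
        rw [← hev]
        have e : -(2 * k + 1) = 2 * ((n' : ℕ) : ℤ) + 1 := by
          push_cast at hn
          omega
        rw [e]
        exact hoddN n'
  have hnn : ∀ a b : ℤ, K * ((-1 : ℂ) ^ a * (-1) ^ b * M a (-a) b (-b)).re =
      (Dn (a + b) + Dn (a - b)) / 2 := by
    intro a b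
    have z1 : (-1 : ℂ) ^ (a + b) = (-1) ^ a * (-1) ^ b := zpow_add₀ (by norm_num) _ _
    have z2 : (-1 : ℂ) ^ (a - b) = (-1) ^ a * (-1) ^ b := by
      rw [sub_eq_add_neg, zpow_add₀ (by norm_num), neg1]
    simp only [hDn]
    rw [hR.nn a b, z1, z2]
    have e1 : ((-1 : ℂ) ^ a * (-1) ^ b * ((DD M (a + b) + DD M (a - b)) / 2)).re =
        (((-1 : ℂ) ^ a * (-1) ^ b * DD M (a + b)).re +
          ((-1 : ℂ) ^ a * (-1) ^ b * DD M (a - b)).re) / 2 := by
      rw [← add_re, ← Complex.div_ofNat_re]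
      congr 1
      push_cast
      ring
    rw [e1]
    ring
  have hD2 : ∀ l : ℕ, Dn (2 * l) = 2 * x l - x 0 := by
    intro l
    have h1 := hnn l l
    have e1 : (l : ℤ) + l = 2 * l := by ring
    have e2 : (l : ℤ) - l = 0 := by ring
    rw [e1, e2, hD0] at h1
    have e3 : ((-1 : ℂ) ^ (l : ℤ)) * (-1) ^ (l : ℤ) = 1 := by
      rw [← mul_zpow]; norm_num
    rw [e3, one_mul] at h1
    have e4 : K * (M l (-l) l (-l)).re = x l := rfl
    rw [e4] at h1
    linarith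
  have hbd : ∀ n, |Dn n| ≤ 3 * x 0 := by
    have hN : ∀ n : ℕ, |Dn n| ≤ 3 * x 0 := by
      intro n
      have hx00 := hx0 0
      rcases Nat.even_or_odd' n with ⟨l, rfl | rfl⟩
      · push_cast
        rw [hD2, _root_.abs_le]
        have h1 := hchain l
        have h2 := hun l
        have h3 := hx0 l
        constructor <;> linarith
      · push_cast
        rw [hodd, hD0, _root_.abs_le]
        constructor <;> linarith
    intro n
    obtain ⟨k, rfl | rfl⟩ := n.eq_nat_or_neg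
    · exact hN k
    · rw [hev]; exact hN k
  have pos : ∀ (n : ℕ) (p : Fin n → ℤ) (a : Fin n → ℝ),
      0 ≤ ∑ i, ∑ j, a i * a j * ((Dn (p i + p j) + Dn (p i - p j)) / 2 - v) := by
    intro n p a
    have hlim : Tendsto (fun i => ∑ r, ∑ s, a r * a s *
        (⟪F.vK (p r) i - u 0, F.vK (p s) i - u 0⟫_ℂ).re) 𝒰
        (𝓝 (∑ i, ∑ j, a i * a j * ((Dn (p i + p j) + Dn (p i - p j)) / 2 - v))) := by
      refine tendsto_finsetSum _ fun r _ => tendsto_finsetSum _ fun s _ => ?_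
      refine Tendsto.const_mul _ ?_
      have g1 := (continuous_re.tendsto _).comp (F.gram hM (p r) (p s))
      have g2 := (continuous_re.tendsto _).comp (F.vK_weak hκ (hu 0) (p s) (u 0))
      have g3 := (continuous_re.tendsto _).comp (F.vK_weak hκ (hu 0) (p r) (u 0))
      rw [re_ofReal_mul, hnn] at g1
      have e0 : (⟪u 0, u 0⟫_ℂ).re = v := by
        have := inner_self_eq_norm_sq (𝕜 := ℂ) (u 0)
        simpa using this
      rw [e0] at g2 g3
      have g4 := ((g1.sub g2).sub g3).add_const v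
      have e1 : (Dn (p r + p s) + Dn (p r - p s)) / 2 - v - v + v =
          (Dn (p r + p s) + Dn (p r - p s)) / 2 - v := by ring
      rw [e1] at g4
      refine g4.congr fun i => ?_
      simp only [Function.comp]
      rw [inner_sub_left, inner_sub_right, inner_sub_right, sub_re, sub_re, sub_re, e0]
      have e2 : (⟪F.vK (p r) i, u 0⟫_ℂ).re = (⟪u 0, F.vK (p r) i⟫_ℂ).re := by
        rw [← inner_conj_symm, conj_re]
      rw [e2]
      ring
    refine ge_of_tendsto' hlim fun i => ?_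
    have e1 : ∑ r, ∑ s, a r * a s * (⟪F.vK (p r) i - u 0, F.vK (p s) i - u 0⟫_ℂ).re =
        ‖∑ r, (a r : ℂ) • (F.vK (p r) i - u 0)‖ ^ 2 := by
      have h1 := inner_self_eq_norm_sq (𝕜 := ℂ) (∑ r, (a r : ℂ) • (F.vK (p r) i - u 0))
      rw [sum_inner] at h1
      simp only [inner_sum, inner_smul_left, inner_smul_right, conj_ofReal] at h1
      rw [← h1]
      simp only [RCLike.re_to_complex, re_sum, re_ofReal_mul]
      refine Finset.sum_congr rfl fun r _ => Finset.sum_congr rfl fun s _ => ?_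
      ring
    rw [e1]
    positivity
  have hfin := sharp_alg v L hev hbd hodd pos
  -- bound of the double sum
  obtain ⟨g, hgd⟩ : ∃ g : ℕ → ℝ, ∀ l, g l =
      if l = 0 then x 0 - v else x 0 - 3 * v + 2 * ‖u l‖ ^ 2 := ⟨_, fun _ => rfl⟩
  have hg : ∀ j k : ℕ, Dn (2 * (j : ℤ) - 2 * (k : ℤ)) - v ≤ g ((j : ℤ) - (k : ℤ)).natAbs := by
    intro j k
    rw [hgd]
    set n := ((j : ℤ) - (k : ℤ)).natAbs with hn
    have e : Dn (2 * (j : ℤ) - 2 * (k : ℤ)) = Dn (2 * n) := by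
      rcases Int.natAbs_eq ((j : ℤ) - k) with h | h
      · rw [← hn] at h
        congr 1
        omega
      · rw [← hn] at h
        rw [← hev]
        congr 1
        omega
    rw [e, hD2]
    by_cases h0 : n = 0
    · simp only [h0, if_true]
      linarith
    · simp only [if_neg h0]
      have := hchain n
      linarith
  have hsum : ∑ j : Fin (L + 1), ∑ k : Fin (L + 1),
      (Dn (2 * ((j : ℕ) : ℤ) - 2 * ((k : ℕ) : ℤ)) - v) ≤
      ∑ j ∈ Finset.range (L + 1), ∑ k ∈ Finset.range (L + 1), g ((j : ℤ) - (k : ℤ)).natAbs := by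
    rw [← Fin.sum_univ_eq_sum_range (fun j => ∑ k ∈ Finset.range (L + 1),
        g ((j : ℤ) - (k : ℤ)).natAbs)]
    refine Finset.sum_le_sum fun j _ => ?_
    rw [← Fin.sum_univ_eq_sum_range (fun k => g (((j : ℕ) : ℤ) - (k : ℤ)).natAbs)]
    exact Finset.sum_le_sum fun k _ => hg j k
  rw [toep] at hsum
  simp only [hgd, if_true, Nat.succ_ne_zero, if_false] at hsum
  have e6 : ∑ l ∈ Finset.range (L + 1), (((L + 1 : ℕ) : ℝ) - 1 - l) *
      (x 0 - 3 * v + 2 * ‖u (l + 1)‖ ^ 2) =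
      (x 0 - 3 * v) * (((L : ℝ) + 1) * L / 2) +
        2 * ∑ l ∈ Finset.range L, ((L : ℝ) - l) * ‖u (l + 1)‖ ^ 2 := by
    rw [Finset.sum_range_succ]
    have e7 : (((L + 1 : ℕ) : ℝ) - 1 - L) = 0 := by push_cast; ring
    rw [e7, zero_mul, add_zero]
    have e8 : ∑ l ∈ Finset.range L, ((L : ℝ) - l) = ((L : ℝ) + 1) * L / 2 := by
      have := Finset.sum_range_id_mul_two L
      rw [Finset.sum_sub_distrib, Finset.sum_const, Finset.card_range, nsmul_eq_mul]
      have h9 : (∑ i ∈ Finset.range L, (i : ℝ)) * 2 = L * (L - 1) := by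
        rcases Nat.eq_zero_or_pos L with h | h
        · subst h; simp
        · have h10 : ((∑ i ∈ Finset.range L, i : ℕ) : ℝ) * 2 = ((L * (L - 1) : ℕ) : ℝ) := by
            exact_mod_cast this
          push_cast [Nat.cast_sub h] at h10
          exact h10
      linarith
    rw [← e8, Finset.mul_sum, Finset.mul_sum, ← Finset.sum_add_distrib]
    refine Finset.sum_congr rfl fun l _ => ?_
    push_cast
    ring
  rw [e6] at hsum
  rw [hD0] at hfin
  rw [← hm0]
  push_cast at hsum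
  nlinarith

end Fra

end

end Pool.Agent.H486.QM
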