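import Pool.Agent.H486.QM.RigB

/-!
# Third moments vanish
-/

set_option autoImplicit false

open MeasureTheory Complex Filter Topology Set Metric
open scoped ContDiff ComplexConjugate InnerProductSpace ENNReal

namespace Pool.Agent.H486.QM

noncomputable section

attribute [local instance] instMeasureSpaceUnitAddCircle

local instance : IsProbabilityMeasure (volume : Measure UnitAddCircle) :=
  inferInstanceAs (IsProbabilityMeasure AddCircle.haarAddCircle)

universe u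

variable {ι : Type u} {D : Dat ι}

theorem conj_q3 {χ : ℂ → ℂ} (hr : ∀ w, conj (χ w) = χ w) {a b c : ℤ} (h : a + b + c = 0)
    (i : ι) : conj (q4 χ (D.H a) (D.H b) (D.H c) (one1 ι) i) =
      q4 χ (D.H (-a)) (D.H (-b)) (D.H (-c)) (one1 ι) i := by
  rw [q4, q4, ← integral_conj]
  refine integral_congr_ae (ae_of_all _ fun w => ?_)
  simp only [map_mul, hr, Dat.conj_H, one1, map_one]
  have h1 : (-D.β w) ≠ 0 := by
    intro h
    have h2 := D.βγ w
    rw [neg_eq_zero.1 h, zero_mul] at h2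
    exact zero_ne_one h2
  have e : (-D.β w) ^ a * (-D.β w) ^ b * (-D.β w) ^ c = 1 := by
    rw [← zpow_add₀ h1, ← zpow_add₀ h1, h, zpow_zero]
  linear_combination (χ w * (D.H (-a) i w * D.H (-b) i w * D.H (-c) i w)) * e

/-- the recurrence of third order correlations -/
theorem third_rec {𝒰 : Ultrafilter ι} (hκ : Tendsto D.κ 𝒰 (𝓝 0)) {χ : ℂ → ℂ} (hχ : D.Te χ)
    (hr : ∀ w, conj (χ w) = χ w) : ∃ S : ℤ → ℂ,
      (∀ p, Tendsto (q4 χ (D.H p) (D.H (-p)) (D.H 0) (one1 ι)) 𝒰 (𝓝 (S p))) ∧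
      (∀ p, S (-p) = S p) ∧ ∀ p, S (p + 1) + S p + S (p - 1) = 0 := by
  have hex : ∀ a b c : ℤ, ∃ y, Tendsto (q4 χ (D.H a) (D.H b) (D.H c) (one1 ι)) 𝒰 (𝓝 y) := by
    intro a b c
    obtain ⟨C, hC⟩ := hχ.bd (Dat.Bd.H a) (Dat.Bd.H b) (Dat.Bd.H c) (Dat.Bd.const 1)
    exact ulim 𝒰 hC
  choose M hM using hex
  have up : ∀ a b c, M (a + 1) b c + M a (b + 1) c + M a b (c + 1) = 0 := by
    intro a b c
    have h1 := raise_lim hκ hχ (Dat.Bd.H a) (Dat.Bd.H b) (Dat.Bd.H c) (Dat.Bd.const 1)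
      (Dat.Bd.H (a + 1)) (Dat.Bd.H (b + 1)) (Dat.Bd.H (c + 1)) (Dat.Bd.const 0)
      (Dat.der_H a) (Dat.der_H b) (Dat.der_H c) (Dat.der_const 1)
    have h2 := ((hM (a + 1) b c).add (hM a (b + 1) c)).add (hM a b (c + 1))
    refine tendsto_nhds_unique h2 (h1.congr fun i => ?_)
    have e5 : q4 χ (D.H a) (D.H b) (D.H c) (fun _ _ => 0) i = 0 := by
      rw [q4]; simp
    rw [e5, add_zero]
    rfl
  have cj : ∀ a b c, a + b + c = 0 → M a b c = conj (M (-a) (-b) (-c)) := by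
    intro a b c h
    have h1 := (continuous_conj.tendsto _).comp (hM (-a) (-b) (-c))
    refine tendsto_nhds_unique (hM a b c) (h1.congr fun i => ?_)
    have h2 := conj_q3 (D := D) hr (a := -a) (b := -b) (c := -c) (by omega) i
    simp only [neg_neg] at h2
    exact h2
  have down : ∀ a b c, a + b + c = 1 → M (a - 1) b c + M a (b - 1) c + M a b (c - 1) = 0 := by
    intro a b c h
    rw [cj (a - 1) b c (by omega), cj a (b - 1) c (by omega), cj a b (c - 1) (by omega),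
      ← map_add, ← map_add]
    have h1 := up (-a) (-b) (-c)
    have e1 : -(a - 1) = -a + 1 := by ring
    have e2 : -(b - 1) = -b + 1 := by ring
    have e3 : -(c - 1) = -c + 1 := by ring
    rw [e1, e2, e3, h1, map_zero]
  have s12 : ∀ a b c, M a b c = M b a c := by
    intro a b c
    refine tendsto_nhds_unique (hM a b c) ((hM b a c).congr fun i => ?_)
    rw [q4, q4]
    exact integral_congr_ae (ae_of_all _ fun w => by simp only; ring)
  refine ⟨fun p => M p (-p) 0, fun p => hM p (-p) 0, fun p => ?_, fun p => ?_⟩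
  · simp only [neg_neg]
    exact s12 _ _ _
  · have h1 := up p (-p - 1) 0
    have h2 := down p (-p) 1 (by ring)
    have h3 := up (p - 1) (-p) 0
    have e1 : -p - 1 + 1 = -p := by ring
    have e2 : (0 : ℤ) + 1 = 1 := by ring
    have e3 : (1 : ℤ) - 1 = 0 := by ring
    have e4 : p - 1 + 1 = p := by ring
    have e5 : -(p + 1) = -p - 1 := by ring
    have e6 : -(p - 1) = -p + 1 := by ring
    rw [e1, e2] at h1
    rw [e3] at h2
    rw [e4, e2] at h3
    simp only [e5, e6]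
    linear_combination h1 + h3 - h2

theorem rec_per {S : ℤ → ℂ} (h : ∀ p, S (p + 1) + S p + S (p - 1) = 0) (hev : S (-1) = S 1) :
    ∀ j : ℕ, S (6 * (j + 1)) - S (6 * (j + 1) + 2) = 3 / 2 * S 0 := by
  have h3 : ∀ p, S (p + 3) = S p := by
    intro p
    have h1 := h (p + 2)
    have h2 := h (p + 1)
    have e1 : p + 2 + 1 = p + 3 := by ring
    have e2 : p + 2 - 1 = p + 1 := by ring
    have e3 : p + 1 + 1 = p + 2 := by ring
    have e4 : p + 1 - 1 = p := by ring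
    rw [e1, e2] at h1
    rw [e3, e4] at h2
    linear_combination h1 - h2
  have h3k : ∀ (k : ℕ) p, S (p + 3 * k) = S p := by
    intro k
    induction k with
    | zero => intro p; simp
    | succ k ih =>
      intro p
      have e : p + 3 * ((k + 1 : ℕ) : ℤ) = (p + 3 * k) + 3 := by push_cast; ring
      rw [e, h3, ih]
  have h0 := h 0
  have h1 := h 1
  norm_num at h0 h1
  rw [hev] at h0
  intro j
  have e1 : (6 * ((j : ℤ) + 1)) = 0 + 3 * ((2 * (j + 1) : ℕ) : ℤ) := by push_cast; ring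
  have e2 : (6 * ((j : ℤ) + 1) + 2) = 2 + 3 * ((2 * (j + 1) : ℕ) : ℤ) := by push_cast; ring
  rw [e2, h3k]
  rw [e1, h3k]
  linear_combination -(1 : ℂ) * h1 + h0 / 2

namespace Fra

variable (F : Fra D)

theorem gramR {𝒰 : Ultrafilter ι} (hκ : Tendsto D.κ 𝒰 (𝓝 0)) (hE : D.Que 𝒰)
    {m : ℝ} (hm : Tendsto (fun i => ∫ w, ‖F.χ w * (D.f i w * D.f i w)‖ ^ 2) 𝒰 (𝓝 m))
    (p q : ℕ) : Tendsto (fun i => ⟪F.vK p i, F.vK q i⟫_ℂ) 𝒰
      (𝓝 (((F.k ^ 2)⁻¹ * (rc p q * m + rd p q * ∫ w, ‖F.χ w‖ ^ 2) : ℝ) : ℂ)) := by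
  have h1 := (F.rigid_lim hκ hE hm p q).const_mul (((F.k ^ 2)⁻¹ : ℝ) : ℂ)
  rw [← ofReal_mul] at h1
  refine h1.congr fun i => ?_
  rw [vK, vK, F.inner_vX]
  congr 1
  refine integral_congr_ae (ae_of_all _ fun w => ?_)
  simp only [map_mul, F.re, Dat.kk_real]
  ring

theorem third_zero {𝒰 : Ultrafilter ι} (hκ : Tendsto D.κ 𝒰 (𝓝 0)) (hE : D.Que 𝒰) :
    Tendsto (fun i => ∫ w, F.χ w * F.χ w * (D.f i w) ^ 3) 𝒰 (𝓝 0) := by
  have hψ : D.Te (fun w => F.χ w * F.χ w) := F.te.mul F.te.sm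
  have hψr : ∀ w, conj (F.χ w * F.χ w) = F.χ w * F.χ w := fun w => by rw [map_mul, F.re]
  obtain ⟨S, hS, hev, hrec⟩ := third_rec hκ hψ hψr
  have hper := rec_per hrec (hev 1)
  -- the limit is `S 0`
  have hH0 : D.H 0 = D.G 0 := Dat.H_nat 0
  have h0 : Tendsto (fun i => ∫ w, F.χ w * F.χ w * (D.f i w) ^ 3) 𝒰 (𝓝 (S 0)) := by
    refine (hS 0).congr fun i => ?_
    rw [q4, neg_zero, hH0]
    refine integral_congr_ae (ae_of_all _ fun w => ?_)
    simp only [one1, Dat.G_zero]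
    ring
  suffices hz : S 0 = 0 by rwa [hz] at h0
  -- bounded fourth moments
  have hb0' := Dat.Bd.G (D := D) 0
  obtain ⟨C, hC⟩ := l2_bd hb0' hb0' F.te.cs F.te.sub (g := F.χ) F.te.sm.cont (fun z hz =>
    image_eq_zero_of_notMem_tsupport hz)
  obtain ⟨m, hm⟩ : ∃ m : ℝ, Tendsto (fun i => ∫ z, ‖F.χ z * (D.f i z * D.f i z)‖ ^ 2) 𝒰
      (𝓝 m) := by
    have hc : IsCompact (Icc (0 : ℝ) C) := isCompact_Icc
    have he : ∀ᶠ i in (𝒰 : Filter ι), (∫ z, ‖F.χ z * (D.f i z * D.f i z)‖ ^ 2) ∈ Icc (0 : ℝ) C := by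
      refine Eventually.of_forall fun i => ⟨integral_nonneg fun z => sq_nonneg _, ?_⟩
      have h1 := hC i
      simp only [Dat.G_zero] at h1
      exact h1
    obtain ⟨y, -, hy⟩ := hc.ultrafilter_le_nhds
      (𝒰.map (fun i => ∫ z, ‖F.χ z * (D.f i z * D.f i z)‖ ^ 2)) (le_principal_iff.2 he)
    exact ⟨y, hy⟩
  set v := ∫ w, ‖F.χ w‖ ^ 2 with hv
  set K := (F.k ^ 2)⁻¹ with hK
  have hK0 : 0 < K := by have := F.kpos; positivity
  have hv0 : 0 ≤ v := integral_nonneg fun w => by positivity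
  -- the vector of `f`
  set g : ι → HT := fun i => F.vX (D.f i) (Sm.mulL F (D.hf i)) with hg
  have hgn : Tendsto (fun i => ‖g i‖ ^ 2) 𝒰 (𝓝 (K * v)) := by
    have h1 := (continuous_re.tendsto _).comp ((hE 0).zero _ hψ)
    have e1 : (∫ w, F.χ w * F.χ w).re = v := by
      rw [← int_norm_sq F.re, ofReal_re]
    rw [e1] at h1
    refine (h1.const_mul K).congr fun i => ?_
    simp only [hg, F.norm_vX, Function.comp]
    rw [← hK]
    congr 1
    have e2 : ∫ w, F.χ w * F.χ w * (D.f i w * D.f i w) =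
        ((∫ w, ‖F.χ w * D.f i w‖ ^ 2 : ℝ) : ℂ) := by
      rw [← integral_complex_ofReal]
      refine integral_congr_ae (ae_of_all _ fun w => ?_)
      simp only [sq_eq, map_mul, F.re, D.freal]
      ring
    rw [e2, ofReal_re]
  have hgk : ∀ p : ℕ, Tendsto (fun i => ⟪g i, F.vK p i⟫_ℂ) 𝒰
      (𝓝 ((K : ℂ) * ((-1) ^ (p : ℤ) * S p))) := by
    intro p
    refine (((hS p).const_mul ((-1 : ℂ) ^ (p : ℤ))).const_mul (K : ℂ)).congr fun i => ?_
    simp only [hg, vK, F.inner_vX]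
    congr 1
    rw [q4, ← integral_const_mul]
    refine integral_congr_ae (ae_of_all _ fun w => ?_)
    simp only [map_mul, F.re, D.freal, Dat.kk, one1, hH0, Dat.G_zero]
    ring
  -- test vectors
  set X : ℕ → ι → HT := fun j i => F.vK ((6 * (j + 1) : ℕ)) i - F.vK ((6 * (j + 1) + 2 : ℕ)) i
    with hX
  have hXX : ∀ j k, Tendsto (fun i => ⟪X j i, X k i⟫_ℂ) 𝒰
      (𝓝 (if j = k then ((2 * K * v : ℝ) : ℂ) else 0)) := by
    intro j k
    have g1 := F.gramR hκ hE hm (6 * (j + 1)) (6 * (k + 1))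
    have g2 := F.gramR hκ hE hm (6 * (j + 1)) (6 * (k + 1) + 2)
    have g3 := F.gramR hκ hE hm (6 * (j + 1) + 2) (6 * (k + 1))
    have g4 := F.gramR hκ hE hm (6 * (j + 1) + 2) (6 * (k + 1) + 2)
    have h1 := (g1.sub g2).sub (g3.sub g4)
    have c12 : ∀ a b : ℕ, 6 * (a + 1) ≠ 6 * (b + 1) + 2 := by intro a b; omega
    have v1 : ∀ p q : ℕ, p = q → p ≠ 0 → rc p q * m + rd p q * v = m - v := by
      intro p q h h'
      subst h
      simp [rc, rd, h']
      ring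
    have v2 : ∀ p q : ℕ, p ≠ q → Even (p + q) → rc p q * m + rd p q * v = m - 2 * v := by
      intro p q h h'
      simp [rc, rd, h, h']
      ring
    have e2 : rc (6 * (j + 1)) (6 * (k + 1) + 2) * m + rd (6 * (j + 1)) (6 * (k + 1) + 2) * v =
        m - 2 * v := v2 _ _ (c12 j k) ⟨3 * (j + 1) + 3 * (k + 1) + 1, by ring⟩
    have e3 : rc (6 * (j + 1) + 2) (6 * (k + 1)) * m + rd (6 * (j + 1) + 2) (6 * (k + 1)) * v =
        m - 2 * v := v2 _ _ (fun h => c12 k j h.symm) ⟨3 * (j + 1) + 3 * (k + 1) + 1, by ring⟩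
    have hval : ((((K * (rc (6 * (j + 1)) (6 * (k + 1)) * m +
        rd (6 * (j + 1)) (6 * (k + 1)) * v) : ℝ) : ℂ) -
        ((K * (rc (6 * (j + 1)) (6 * (k + 1) + 2) * m +
        rd (6 * (j + 1)) (6 * (k + 1) + 2) * v) : ℝ) : ℂ)) -
        (((K * (rc (6 * (j + 1) + 2) (6 * (k + 1)) * m +
        rd (6 * (j + 1) + 2) (6 * (k + 1)) * v) : ℝ) : ℂ) -
        ((K * (rc (6 * (j + 1) + 2) (6 * (k + 1) + 2) * m +
        rd (6 * (j + 1) + 2) (6 * (k + 1) + 2) * v) : ℝ) : ℂ))) =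
        (if j = k then ((2 * K * v : ℝ) : ℂ) else 0) := by
      rw [e2, e3]
      by_cases hjk : j = k
      · rw [v1 _ _ (by rw [hjk]) (by omega), v1 _ _ (by rw [hjk]) (by omega), if_pos hjk]
        push_cast
        ring
      · rw [v2 _ _ (by omega) ⟨3 * (j + 1) + 3 * (k + 1), by ring⟩,
          v2 _ _ (by omega) ⟨3 * (j + 1) + 3 * (k + 1) + 2, by ring⟩, if_neg hjk]
        push_cast
        ring
    rw [hval] at h1
    refine h1.congr fun i => ?_
    simp only [hX]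
    rw [inner_sub_left, inner_sub_right, inner_sub_right]
  have hgX : ∀ j, Tendsto (fun i => ⟪g i, X j i⟫_ℂ) 𝒰 (𝓝 ((K : ℂ) * (3 / 2 * S 0))) := by
    intro j
    have h1 := (hgk (6 * (j + 1))).sub (hgk (6 * (j + 1) + 2))
    have e1 : Even (((6 * (j + 1) : ℕ) : ℤ)) := ⟨3 * (j + 1), by push_cast; ring⟩
    have e2 : Even (((6 * (j + 1) + 2 : ℕ) : ℤ)) := ⟨3 * (j + 1) + 1, by push_cast; ring⟩
    rw [e1.neg_one_zpow, e2.neg_one_zpow] at h1
    have e3 : (K : ℂ) * (1 * S ((6 * (j + 1) : ℕ) : ℤ)) -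
        (K : ℂ) * (1 * S ((6 * (j + 1) + 2 : ℕ) : ℤ)) = (K : ℂ) * (3 / 2 * S 0) := by
      rw [← hper j]
      push_cast
      ring
    rw [e3] at h1
    refine h1.congr fun i => ?_
    simp only [hX]
    rw [inner_sub_right]
  -- Cauchy-Schwarz
  have hCS : ∀ J : ℕ, (K * (3 / 2) * ‖S 0‖ * J) ^ 2 ≤ (K * v) * (2 * K * v * J) := by
    intro J
    have l1 : Tendsto (fun i => ‖⟪g i, ∑ j ∈ Finset.range J, X j i⟫_ℂ‖ ^ 2) 𝒰
        (𝓝 ((K * (3 / 2) * ‖S 0‖ * J) ^ 2)) := by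
      have h1 : Tendsto (fun i => ∑ j ∈ Finset.range J, ⟪g i, X j i⟫_ℂ) 𝒰
          (𝓝 (∑ j ∈ Finset.range J, (K : ℂ) * (3 / 2 * S 0))) :=
        tendsto_finsetSum _ fun j _ => hgX j
      have h2 := h1.norm.pow 2
      have e1 : ‖∑ j ∈ Finset.range J, (K : ℂ) * (3 / 2 * S 0)‖ ^ 2 =
          (K * (3 / 2) * ‖S 0‖ * J) ^ 2 := by
        rw [Finset.sum_const, Finset.card_range, nsmul_eq_mul, norm_mul, norm_mul, norm_mul,
          norm_real, Real.norm_of_nonneg hK0.le]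
        norm_num
        ring
      rw [e1] at h2
      refine h2.congr fun i => ?_
      rw [inner_sum]
    have l2 : Tendsto (fun i => ‖g i‖ ^ 2 * ‖∑ j ∈ Finset.range J, X j i‖ ^ 2) 𝒰
        (𝓝 ((K * v) * (2 * K * v * J))) := by
      refine hgn.mul ?_
      have h1 : Tendsto (fun i => ∑ j ∈ Finset.range J, ∑ k ∈ Finset.range J, ⟪X j i, X k i⟫_ℂ) 𝒰
          (𝓝 (∑ j ∈ Finset.range J, ∑ k ∈ Finset.range J,
            (if j = k then ((2 * K * v : ℝ) : ℂ) else 0))) :=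
        tendsto_finsetSum _ fun j _ => tendsto_finsetSum _ fun k _ => hXX j k
      have h2 := (continuous_re.tendsto _).comp h1
      have e1 : (∑ j ∈ Finset.range J, ∑ k ∈ Finset.range J,
            (if j = k then ((2 * K * v : ℝ) : ℂ) else 0)).re = 2 * K * v * J := by
        simp only [Finset.sum_ite_eq, Finset.mem_range]
        rw [Finset.sum_congr rfl (g := fun _ => ((2 * K * v : ℝ) : ℂ)) (fun j hj => by
          rw [if_pos (Finset.mem_range.1 hj)])]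
        rw [Finset.sum_const, Finset.card_range, nsmul_eq_mul]
        have : ((J : ℂ) * ((2 * K * v : ℝ) : ℂ)) = ((J * (2 * K * v) : ℝ) : ℂ) := by push_cast; ring
        rw [this, ofReal_re]
        ring
      rw [e1] at h2
      refine h2.congr fun i => ?_
      simp only [Function.comp]
      have h3 := inner_self_eq_norm_sq (𝕜 := ℂ) (∑ j ∈ Finset.range J, X j i)
      rw [sum_inner] at h3
      simp only [inner_sum] at h3
      exact h3
    refine le_of_tendsto_of_tendsto' l1 l2 fun i => ?_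
    rw [← mul_pow]
    exact pow_le_pow_left₀ (norm_nonneg _) (norm_inner_le_norm _ _) 2
  by_contra hne
  have hpos : 0 < ‖S 0‖ := norm_pos_iff.2 hne
  obtain ⟨J, hJ⟩ := exists_nat_gt (2 * v ^ 2 / ((3 / 2) ^ 2 * ‖S 0‖ ^ 2))
  have h1 := hCS J
  rw [div_lt_iff₀ (by positivity)] at hJ
  have hJ0 : (0 : ℝ) < J := by
    rcases Nat.eq_zero_or_pos J with h | h
    · subst h
      simp only [Nat.cast_zero, zero_mul] at hJ
      nlinarith [sq_nonneg v]
    · exact_mod_cast h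
  have h2 : K ^ 2 * J * (J * ((3 / 2) ^ 2 * ‖S 0‖ ^ 2)) ≤ K ^ 2 * J * (2 * v ^ 2) := by
    calc _ = (K * (3 / 2) * ‖S 0‖ * J) ^ 2 := by ring
      _ ≤ _ := h1
      _ = _ := by ring
  have h3 := le_of_mul_le_mul_left h2 (by positivity)
  linarith

end Fra

end

end Pool.Agent.H486.QM
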