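import Pool.Agent.H486.QM.FullC

/-!
# Third order correlations of all weights vanish
-/

set_option autoImplicit false

open MeasureTheory Complex Filter Topology Set Metric
open scoped ContDiff ComplexConjugate InnerProductSpace ENNReal Manifold Laplacian

namespace Pool.Agent.H486.QM

noncomputable section

universe u

/-- A symmetric function of three integer indices killed by the raising and the lowering sums. -/
structure R3 (N : ℤ → ℤ → ℤ → ℂ) : Prop where
  s12 : ∀ a b c, N a b c = N b a c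
  up : ∀ a b c, N (a + 1) b c + N a (b + 1) c + N a b (c + 1) = 0
  down : ∀ a b c, N (a - 1) b c + N a (b - 1) c + N a b (c - 1) = 0

theorem R3.rr3 {N : ℤ → ℤ → ℤ → ℂ} (h : R3 N) (K p : ℤ) :
    N (p + 1) (-p - 1) K + N p (-p) K + N (p - 1) (-p + 1) K = 0 := by
  have h1 := h.up p (-p - 1) K
  have h2 := h.down p (-p) (K + 1)
  have h3 := h.up (p - 1) (-p) K
  have e1 : -p - 1 + 1 = -p := by ring
  have e3 : K + 1 - 1 = K := by ring
  have e4 : p - 1 + 1 = p := by ring
  rw [e1] at h1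
  rw [e3] at h2
  rw [e4] at h3
  linear_combination h1 + h3 - h2

theorem R3.line {N : ℤ → ℤ → ℤ → ℂ} (h : R3 N) (K : ℤ) (h0 : N 0 0 K = 0) (p : ℤ) :
    N p (-p) K = 0 := by
  have r0 := h.rr3 K 0
  have s1 : N (0 - 1) (-0 + 1) K = N 1 (-1) K := by
    rw [h.s12]; norm_num
  have e1 : N (0 + 1) (-0 - 1) K = N 1 (-1) K := by norm_num
  have e0 : N 0 (-0) K = 0 := by rw [neg_zero]; exact h0
  rw [s1, e1, e0] at r0
  have h1 : N 1 (-1) K = 0 := by linear_combination r0 / 2
  have key : ∀ n : ℕ, N n (-n) K = 0 ∧ N (n + 1 : ℤ) (-(n + 1 : ℤ)) K = 0 := by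
    intro n
    induction n with
    | zero =>
      refine ⟨by simpa using h0, ?_⟩
      simpa using h1
    | succ n ih =>
      refine ⟨by push_cast; exact ih.2, ?_⟩
      have r := h.rr3 K (n + 1 : ℤ)
      have e2 : ((n : ℤ) + 1 - 1) = n := by ring
      have e3 : (-((n : ℤ) + 1) + 1) = -n := by ring
      rw [e2, e3, ih.1, ih.2] at r
      push_cast
      have e4 : -((n : ℤ) + 1 + 1) = -((n : ℤ) + 1) - 1 := by ring
      rw [e4]
      linear_combination r
  obtain ⟨n, rfl | rfl⟩ := p.eq_nat_or_neg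
  · exact (key n).1
  · rw [neg_neg, h.s12]
    exact (key n).1

theorem R3.zero {N : ℤ → ℤ → ℤ → ℂ} (h : R3 N) (h0 : ∀ K, N 0 0 K = 0) (a b c : ℤ) :
    N a b c = 0 := by
  have key : ∀ s : ℤ, ∀ a b c : ℤ, a + b = s → N a b c = 0 := by
    intro s
    induction s using Int.induction_on with
    | zero =>
      intro a b c hab
      have : b = -a := by linarith
      rw [this]
      exact h.line c (h0 c) a
    | succ s ih =>
      intro a b c hab
      have r := h.down a b (c + 1)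
      have e : c + 1 - 1 = c := by ring
      rw [e, ih (a - 1) b (c + 1) (by linarith), ih a (b - 1) (c + 1) (by linarith)] at r
      linear_combination r
    | pred s ih =>
      intro a b c hab
      have r := h.up a b (c - 1)
      have e : c - 1 + 1 = c := by ring
      rw [e, ih (a + 1) b (c - 1) (by linarith), ih a (b + 1) (c - 1) (by linarith)] at r
      linear_combination r
  exact key (a + b) a b c rfl

/-- values of a symmetric solution along the line -/
theorem rec_per' {S : ℤ → ℂ} (h : ∀ p, S (p + 1) + S p + S (p - 1) = 0) (hev : S (-1) = S 1)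
    (j : ℕ) : S (6 * (j + 1) : ℕ) - S (6 * (j + 1) + 2 : ℕ) = 3 / 2 * S 0 := by
  have := rec_per h hev j
  push_cast
  exact this

variable {ι : Type u} {D : Dat ι}

/-- third order integrals -/
def q3 (D : Dat ι) (χ : ℂ → ℂ) (a b c : ℤ) (i : ι) : ℂ :=
  q4 χ (D.H a) (D.H b) (D.H c) (one1 ι) i

theorem conj_q3g {χ : ℂ → ℂ} {a b c : ℤ} (i : ι) : conj (q3 D χ a b c i) =
      q3 D (fun w => conj (χ w) * (-D.β w) ^ (a + b + c)) (-a) (-b) (-c) i := by
  rw [q3, q3, q4, q4, ← integral_conj]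
  refine integral_congr_ae (ae_of_all _ fun w => ?_)
  simp only [map_mul, Dat.conj_H, one1, map_one]
  have h1 : (-D.β w) ≠ 0 := neg_ne_zero.2 (D.nb w)
  have e : (-D.β w) ^ a * (-D.β w) ^ b * (-D.β w) ^ c = (-D.β w) ^ (a + b + c) := by
    rw [← zpow_add₀ h1, ← zpow_add₀ h1]
  linear_combination (conj (χ w) * (D.H (-a) i w * D.H (-b) i w * D.H (-c) i w)) * e

theorem exists_N (𝒰 : Ultrafilter ι) {χ : ℂ → ℂ} (hχ : D.Te χ) :
    ∃ N : ℤ → ℤ → ℤ → ℂ, ∀ a b c, Tendsto (q3 D χ a b c) 𝒰 (𝓝 (N a b c)) := by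
  have hex : ∀ a b c : ℤ, ∃ y, Tendsto (q3 D χ a b c) 𝒰 (𝓝 y) := by
    intro a b c
    obtain ⟨C, hC⟩ := hχ.bd (Dat.Bd.H a) (Dat.Bd.H b) (Dat.Bd.H c) (Dat.Bd.const 1)
    exact ulim 𝒰 hC
  choose N hN using hex
  exact ⟨N, hN⟩

theorem r3_of_lim {𝒰 : Ultrafilter ι} (hκ : Tendsto D.κ 𝒰 (𝓝 0)) {χ : ℂ → ℂ} (hχ : D.Te χ)
    {N : ℤ → ℤ → ℤ → ℂ} (hN : ∀ a b c, Tendsto (q3 D χ a b c) 𝒰 (𝓝 (N a b c))) : R3 N := by
  have up : ∀ {θ : ℂ → ℂ}, D.Te θ → ∀ {M : ℤ → ℤ → ℤ → ℂ},
      (∀ a b c, Tendsto (q3 D θ a b c) 𝒰 (𝓝 (M a b c))) →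
      ∀ a b c, M (a + 1) b c + M a (b + 1) c + M a b (c + 1) = 0 := by
    intro θ hθ M hM a b c
    have h1 := raise_lim hκ hθ (Dat.Bd.H a) (Dat.Bd.H b) (Dat.Bd.H c) (Dat.Bd.const 1)
      (Dat.Bd.H (a + 1)) (Dat.Bd.H (b + 1)) (Dat.Bd.H (c + 1)) (Dat.Bd.const 0)
      (Dat.der_H a) (Dat.der_H b) (Dat.der_H c) (Dat.der_const 1)
    have h2 := ((hM (a + 1) b c).add (hM a (b + 1) c)).add (hM a b (c + 1))
    refine tendsto_nhds_unique h2 (h1.congr fun i => ?_)
    have e5 : q4 θ (D.H a) (D.H b) (D.H c) (fun _ _ => 0) i = 0 := by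
      rw [q4]; simp
    rw [e5, add_zero]
    rfl
  refine ⟨fun a b c => ?_, fun a b c => up hχ hN a b c, fun a b c => ?_⟩
  · refine tendsto_nhds_unique (hN a b c) ((hN b a c).congr fun i => ?_)
    rw [q3, q3, q4, q4]
    exact integral_congr_ae (ae_of_all _ fun w => by simp only; ring)
  · set K : ℤ := a + b + c - 1 with hK
    have hθ : D.Te (fun w => conj (χ w) * (-D.β w) ^ K) := hχ.cj.mul (D.sm_nb K)
    obtain ⟨M, hM⟩ := exists_N (D := D) 𝒰 hθ
    have cj : ∀ x y z : ℤ, x + y + z = K → N x y z = conj (M (-x) (-y) (-z)) := by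
      intro x y z h
      have h1 := (continuous_conj.tendsto _).comp (hN x y z)
      have h2 : Tendsto (fun i => conj (q3 D χ x y z i)) 𝒰 (𝓝 (M (-x) (-y) (-z))) := by
        refine (hM (-x) (-y) (-z)).congr fun i => ?_
        rw [conj_q3g, h]
      have h3 := tendsto_nhds_unique h1 h2
      rw [← h3, conj_conj]
    rw [cj (a - 1) b c (by omega), cj a (b - 1) c (by omega), cj a b (c - 1) (by omega),
      ← map_add, ← map_add]
    have h1 := up hθ hM (-a) (-b) (-c)
    have e1 : -(a - 1) = -a + 1 := by ring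
    have e2 : -(b - 1) = -b + 1 := by ring
    have e3 : -(c - 1) = -c + 1 := by ring
    rw [e1, e2, e3, h1, map_zero]

theorem sg_even {k : ℤ} (h : Even k) : sg k = 1 := h.neg_one_zpow

/-- correlations of even energies -/
theorem kk_corr {𝒰 : Ultrafilter ι} (hκ : Tendsto D.κ 𝒰 (𝓝 0)) (hE : D.Que 𝒰) {ψ : ℂ → ℂ}
    (hψ : D.Te ψ) : ∃ v c : ℂ, v = ∫ z, ψ z ∧ ∀ p q : ℕ, Even p → Even q → 0 < p → 0 < q →
      Tendsto (fun i => ∫ z, ψ z * (D.kk p i z * D.kk q i z)) 𝒰
        (𝓝 (v * (if p = q then 2 else 1) + c)) := by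
  obtain ⟨M, hM⟩ := exists_M (D := D) 𝒰 hψ
  obtain ⟨C, -, hC⟩ := full hκ hE hψ hM
  refine ⟨_, C 0, rfl, fun p q hp hq hp0 hq0 => ?_⟩
  have hpe : Even (p : ℤ) := by exact_mod_cast hp
  have hqe : Even (q : ℤ) := by exact_mod_cast hq
  have h1 := hM p (-p) q (-q)
  have e : M p (-p) q (-q) = (∫ z, ψ z) * (if p = q then 2 else 1) + C 0 := by
    have s1 := sg_even hpe
    have s2 := sg_even hqe
    have e0 : (p : ℤ) + -p + q + -q = 0 := by ring
    have w1 : pr (p : ℤ) (-p) = 1 := by rw [pr, if_pos (by ring), s1]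
    have w2 : pr (q : ℤ) (-q) = 1 := by rw [pr, if_pos (by ring), s2]
    have w3 : pr (p : ℤ) q = 0 := by rw [pr, if_neg (by omega)]
    have w4 : pr (p : ℤ) (-q) * pr (-p) (q : ℤ) = if p = q then 1 else 0 := by
      by_cases h : p = q
      · subst h
        rw [pr, pr, if_pos (by ring), if_pos (by ring), sg_neg, s1, if_pos rfl, one_mul]
      · rw [pr, if_neg (by omega), zero_mul, if_neg h]
    rw [hC, mdl, e0, ee, sg_neg, sg_neg, s1, s2, Wk, w1, w2, w3, w4]
    by_cases h : p = q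
    · rw [if_pos h, if_pos h]; ring
    · rw [if_neg h, if_neg h]; ring
  rw [e] at h1
  refine h1.congr fun i => ?_
  rw [q4]
  refine integral_congr_ae (ae_of_all _ fun z => ?_)
  simp only [Dat.kk, hpe.neg_one_zpow, hqe.neg_one_zpow]
  ring

theorem third_top {𝒰 : Ultrafilter ι} (hκ : Tendsto D.κ 𝒰 (𝓝 0)) (hE : D.Que 𝒰) {χ : ℂ → ℂ}
    (hχ : D.Te χ) {N : ℤ → ℤ → ℤ → ℂ} (hN : ∀ a b c, Tendsto (q3 D χ a b c) 𝒰 (𝓝 (N a b c)))
    (K : ℤ) : N 0 0 K = 0 := by
  have hR := r3_of_lim hκ hχ hN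
  set S : ℤ → ℂ := fun p => N p (-p) K with hS
  have hrec : ∀ p, S (p + 1) + S p + S (p - 1) = 0 := by
    intro p
    have h := hR.rr3 K p
    have e1 : -(p + 1) = -p - 1 := by ring
    have e2 : -(p - 1) = -p + 1 := by ring
    simp only [hS, e1, e2]
    exact h
  have hev : S (-1) = S 1 := by
    simp only [hS, neg_neg]
    exact hR.s12 _ _ _
  have hper := rec_per' hrec hev
  have hS0 : S 0 = N 0 0 K := by simp only [hS, neg_zero]
  rw [← hS0]
  obtain ⟨η, hη, hηc, hηV, hη01, O, hO, hKO, hOV, hη1⟩ := exists_cutoff hχ.cs D.hV hχ.sub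
  set θ : ℂ → ℂ := fun z => ((η z : ℝ) : ℂ) with hθ
  have teθ : D.Te θ := by
    refine ⟨ofRealCLM.contDiff.comp hη, hηc.comp_left (g := fun x : ℝ => (x : ℂ)) (by simp), ?_⟩
    refine (closure_mono ?_).trans hηV
    intro z hz h0
    exact hz (by simp [hθ, h0])
  have hcj : ∀ z, conj (θ z) = θ z := fun z => conj_ofReal _
  have teθ2 : D.Te (fun z => θ z * θ z) := teθ.mul teθ.sm
  obtain ⟨v, c, hv, hcorr⟩ := kk_corr hκ hE teθ2
  -- energies
  set pj : ℕ → ℕ := fun j => 6 * (j + 1) with hpj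
  set qj : ℕ → ℕ := fun j => 6 * (j + 1) + 2 with hqj
  have pe : ∀ j, Even (pj j) := fun j => ⟨3 * (j + 1), by simp only [hpj]; ring⟩
  have qe : ∀ j, Even (qj j) := fun j => ⟨3 * (j + 1) + 1, by simp only [hqj]; ring⟩
  have p0 : ∀ j, 0 < pj j := fun j => by simp only [hpj]; omega
  have q0 : ∀ j, 0 < qj j := fun j => by simp only [hqj]; omega
  have pq : ∀ j k, pj j ≠ qj k := fun j k => by simp only [hpj, hqj]; omega
  set X : ℕ → ι → ℂ → ℂ := fun j i z => D.kk (pj j) i z - D.kk (qj j) i z with hX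
  have sX : ∀ j i, Sm (X j i) := fun j i => (D.kk_sm _ i).sub (D.kk_sm _ i)
  have rX : ∀ j i z, conj (X j i z) = X j i z := fun j i z => by
    simp only [hX, map_sub, D.kk_real]
  have hXX : ∀ j k, Tendsto (fun i => ∫ z, θ z * θ z * (X j i z * X k i z)) 𝒰
      (𝓝 (if j = k then 2 * v else 0)) := by
    intro j k
    have g1 := hcorr (pj j) (pj k) (pe j) (pe k) (p0 j) (p0 k)
    have g2 := hcorr (pj j) (qj k) (pe j) (qe k) (p0 j) (q0 k)
    have g3 := hcorr (qj j) (pj k) (qe j) (pe k) (q0 j) (p0 k)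
    have g4 := hcorr (qj j) (qj k) (qe j) (qe k) (q0 j) (q0 k)
    have h1 := ((g1.sub g2).sub g3).add g4
    have e : v * (if pj j = pj k then 2 else 1) + c - (v * (if pj j = qj k then 2 else 1) + c) -
        (v * (if qj j = pj k then 2 else 1) + c) + (v * (if qj j = qj k then 2 else 1) + c) =
        if j = k then 2 * v else 0 := by
      rw [if_neg (pq j k), if_neg (pq k j).symm]
      by_cases h : j = k
      · subst h
        simp only [if_true]
        ring
      · have h1 : pj j ≠ pj k := fun h' => h (by simp only [hpj] at h'; omega)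
        have h2 : qj j ≠ qj k := fun h' => h (by simp only [hqj] at h'; omega)
        rw [if_neg h1, if_neg h2, if_neg h]
        ring
    rw [e] at h1
    refine h1.congr fun i => ?_
    have ii : ∀ a b : ℤ, Integrable (fun z => θ z * θ z * (D.kk a i z * D.kk b i z)) :=
      fun a b => (teθ2.sm.mul ((D.kk_sm a i).mul (D.kk_sm b i))).int teθ2.cs.mul_right
    have i12 : Integrable (fun z => θ z * θ z * (D.kk (pj j) i z * D.kk (pj k) i z) -
        θ z * θ z * (D.kk (pj j) i z * D.kk (qj k) i z)) := (ii _ _).sub (ii _ _)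
    have i123 : Integrable (fun z => θ z * θ z * (D.kk (pj j) i z * D.kk (pj k) i z) -
        θ z * θ z * (D.kk (pj j) i z * D.kk (qj k) i z) -
        θ z * θ z * (D.kk (qj j) i z * D.kk (pj k) i z)) := i12.sub (ii _ _)
    rw [← integral_sub (ii _ _) (ii _ _), ← integral_sub i12 (ii _ _),
      ← integral_add i123 (ii _ _)]
    refine integral_congr_ae (ae_of_all _ fun z => ?_)
    simp only [hX]
    ring
  have hgX : ∀ j, Tendsto (fun i => ∫ z, χ z * (X j i z * D.H K i z)) 𝒰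
      (𝓝 (3 / 2 * S 0)) := by
    intro j
    have h1 := (hN (pj j) (-(pj j : ℤ)) K).sub (hN (qj j) (-(qj j : ℤ)) K)
    have e : N (pj j) (-(pj j : ℤ)) K - N (qj j) (-(qj j : ℤ)) K = 3 / 2 * S 0 := hper j
    rw [e] at h1
    refine h1.congr fun i => ?_
    have ii : ∀ a : ℤ, Integrable (fun z => χ z * (D.H a i z * D.H (-a) i z * (D.H K i z * 1))) :=
      fun a => (hχ.sm.mul ((((Dat.Bd.H a).1 i).mul ((Dat.Bd.H (-a)).1 i)).mul
        (((Dat.Bd.H K).1 i).mul (Sm.const 1)))).int hχ.cs.mul_right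
    rw [q3, q3, q4, q4]
    simp only [one1]
    rw [← integral_sub (ii _) (ii _)]
    refine integral_congr_ae (ae_of_all _ fun z => ?_)
    have pe' : Even ((pj j : ℕ) : ℤ) := by exact_mod_cast pe j
    have qe' : Even ((qj j : ℕ) : ℤ) := by exact_mod_cast qe j
    simp only [hX, Dat.kk, pe'.neg_one_zpow, qe'.neg_one_zpow]
    ring
  -- the bound of `∫ |χ H_K|^2`
  obtain ⟨B, hB⟩ := l2_bd (Dat.Bd.H (D := D) K) (Dat.Bd.const (D := D) 1) hχ.cs hχ.sub (g := χ)
    hχ.sm.cont (fun w hw => image_eq_zero_of_notMem_tsupport hw)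
  have hest : ∀ m : ℕ, 0 < m → 3 / 2 * ‖S 0‖ ≤ (‖v‖ + |B| / 2) / m := by
    intro m hm
    have hm' : (0 : ℝ) < m := by exact_mod_cast hm
    set J := m ^ 2 with hJ
    have hJm : (J : ℝ) = (m : ℝ) ^ 2 := by rw [hJ]; push_cast; rfl
    have hJ' : (0 : ℝ) < J := by rw [hJm]; positivity
    have hJc : (J : ℂ) ≠ 0 := by exact_mod_cast hJ'.ne'
    set Y : ι → ℂ → ℂ := fun i z => (1 / (J : ℂ)) * ∑ j ∈ Finset.range J, X j i z with hY
    have sY : ∀ i, Sm (Y i) := fun i =>
      Sm.cmul _ (ContDiff.sum fun j _ => sX j i)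
    have rY : ∀ i z, conj (Y i z) = Y i z := by
      intro i z
      simp only [hY, map_mul, map_sum, rX, map_div₀, map_one, map_natCast]
    have l1 : Tendsto (fun i => ∫ z, χ z * (Y i z * D.H K i z)) 𝒰 (𝓝 (3 / 2 * S 0)) := by
      have h1 : Tendsto (fun i => 1 / (J : ℂ) * ∑ j ∈ Finset.range J,
          ∫ z, χ z * (X j i z * D.H K i z)) 𝒰
          (𝓝 (1 / (J : ℂ) * ∑ j ∈ Finset.range J, 3 / 2 * S 0)) :=
        (tendsto_finsetSum _ fun j _ => hgX j).const_mul _
      have e : 1 / (J : ℂ) * ∑ j ∈ Finset.range J, 3 / 2 * S 0 = 3 / 2 * S 0 := by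
        rw [Finset.sum_const, Finset.card_range, nsmul_eq_mul]
        field_simp
      rw [e] at h1
      refine h1.congr fun i => ?_
      have ii : ∀ j, Integrable (fun z => χ z * (X j i z * D.H K i z)) := fun j =>
        (hχ.sm.mul ((sX j i).mul ((Dat.Bd.H K).1 i))).int hχ.cs.mul_right
      rw [← integral_finsetSum _ fun j _ => ii j, ← integral_const_mul]
      refine integral_congr_ae (ae_of_all _ fun z => ?_)
      simp only [hY]
      rw [← Finset.mul_sum, ← Finset.sum_mul]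
      ring
    have l2 : Tendsto (fun i => ∫ z, ‖θ z * Y i z‖ ^ 2) 𝒰 (𝓝 (2 / J * v).re) := by
      have h1 : Tendsto (fun i => (1 / (J : ℂ)) ^ 2 * ∑ j ∈ Finset.range J,
          ∑ k ∈ Finset.range J, ∫ z, θ z * θ z * (X j i z * X k i z)) 𝒰
          (𝓝 ((1 / (J : ℂ)) ^ 2 * ∑ j ∈ Finset.range J, ∑ k ∈ Finset.range J,
            (if j = k then 2 * v else 0))) :=
        (tendsto_finsetSum _ fun j _ => tendsto_finsetSum _ fun k _ => hXX j k).const_mul _
      have e : (1 / (J : ℂ)) ^ 2 * ∑ j ∈ Finset.range J, ∑ k ∈ Finset.range J,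
            (if j = k then 2 * v else 0) = 2 / J * v := by
        simp only [Finset.sum_ite_eq, Finset.mem_range]
        rw [Finset.sum_congr rfl (g := fun _ => 2 * v) (fun j hj => by
          rw [if_pos (Finset.mem_range.1 hj)])]
        rw [Finset.sum_const, Finset.card_range, nsmul_eq_mul]
        field_simp
      rw [e] at h1
      refine ((continuous_re.tendsto _).comp h1).congr fun i => ?_
      simp only [Function.comp]
      have ii : ∀ j k, Integrable (fun z => θ z * θ z * (X j i z * X k i z)) := fun j k =>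
        (teθ2.sm.mul ((sX j i).mul (sX k i))).int teθ2.cs.mul_right
      have h2 : ∀ j, ∑ k ∈ Finset.range J, ∫ z, θ z * θ z * (X j i z * X k i z) =
          ∫ z, ∑ k ∈ Finset.range J, θ z * θ z * (X j i z * X k i z) := fun j =>
        (integral_finsetSum _ fun k _ => ii j k).symm
      simp only [h2]
      rw [← integral_finsetSum _ fun j _ => integrable_finsetSum _ fun k _ => ii j k,
        ← integral_const_mul]
      have e3 : ∫ z, (1 / (J : ℂ)) ^ 2 * ∑ j ∈ Finset.range J, ∑ k ∈ Finset.range J,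
          θ z * θ z * (X j i z * X k i z) = ((∫ z, ‖θ z * Y i z‖ ^ 2 : ℝ) : ℂ) := by
        rw [← integral_complex_ofReal]
        refine integral_congr_ae (ae_of_all _ fun z => ?_)
        simp only [sq_eq, map_mul, hcj, rY]
        simp only [hY]
        have h3 : ∑ j ∈ Finset.range J, ∑ k ∈ Finset.range J, θ z * θ z * (X j i z * X k i z) =
            θ z * θ z * ((∑ j ∈ Finset.range J, X j i z) * ∑ j ∈ Finset.range J, X j i z) := by
          rw [Finset.sum_mul_sum, Finset.mul_sum]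
          exact Finset.sum_congr rfl fun j _ => by rw [Finset.mul_sum]
        rw [h3]
        ring
      rw [e3, ofReal_re]
    have l3 : ∀ i, ‖∫ z, χ z * (Y i z * D.H K i z)‖ ≤
        (m / 2) * (∫ z, ‖θ z * Y i z‖ ^ 2) + 1 / (2 * m) * |B| := by
      intro i
      have i1 := int_sq (teθ.sm.mul (sY i)) (teθ.cs.mul_right (f' := Y i))
      have sH := (Dat.Bd.H (D := D) K).1 i
      have i2 := int_sq (hχ.sm.mul (sH.mul (Sm.const 1)))
        (hχ.cs.mul_right (f' := fun w => D.H K i w * 1))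
      have h2 : ∫ z, ‖χ z * (D.H K i z * 1)‖ ^ 2 ≤ |B| := (hB i).trans (le_abs_self _)
      calc ‖∫ z, χ z * (Y i z * D.H K i z)‖ ≤ ∫ z, ‖χ z * (Y i z * D.H K i z)‖ :=
            norm_integral_le_integral_norm _
        _ ≤ ∫ z, ((m / 2) * ‖θ z * Y i z‖ ^ 2 + 1 / (2 * m) * ‖χ z * (D.H K i z * 1)‖ ^ 2) := by
            refine integral_mono_of_nonneg (ae_of_all _ fun z => norm_nonneg _)
              ((i1.const_mul _).add (i2.const_mul _)) (ae_of_all _ fun z => ?_)
            simp only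
            by_cases hz : z ∈ tsupport χ
            · have h1 : θ z = 1 := by simp only [hθ, hη1 z (hKO hz), ofReal_one]
              have e4 : ‖χ z * (Y i z * D.H K i z)‖ = ‖Y i z‖ * ‖χ z * D.H K i z‖ := by
                rw [norm_mul (χ z), norm_mul (Y i z), norm_mul (χ z)]
                ring
              rw [h1, one_mul, mul_one, e4]
              generalize ‖Y i z‖ = x
              generalize ‖χ z * D.H K i z‖ = y
              have h5 : 0 ≤ (m * x - y) ^ 2 / (2 * m) := by positivity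
              have h6 : (m * x - y) ^ 2 / (2 * m) =
                  m / 2 * x ^ 2 - x * y + 1 / (2 * m) * y ^ 2 := by
                field_simp
                ring
              rw [h6] at h5
              linarith
            · rw [image_eq_zero_of_notMem_tsupport hz, zero_mul, norm_zero]
              positivity
        _ = (m / 2) * (∫ z, ‖θ z * Y i z‖ ^ 2) + 1 / (2 * m) *
              ∫ z, ‖χ z * (D.H K i z * 1)‖ ^ 2 := by
            rw [integral_add (i1.const_mul _) (i2.const_mul _), integral_const_mul,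
              integral_const_mul]
        _ ≤ _ := by
            have : 0 ≤ 1 / (2 * (m : ℝ)) := by positivity
            linarith [mul_le_mul_of_nonneg_left h2 this]
    have h7 := le_of_tendsto_of_tendsto' l1.norm ((l2.const_mul ((m : ℝ) / 2)).add_const
      (1 / (2 * (m : ℝ)) * |B|)) l3
    have h8 : ‖3 / 2 * S 0‖ = 3 / 2 * ‖S 0‖ := by
      rw [norm_mul]; norm_num
    have h9 : (2 / (J : ℂ) * v).re ≤ 2 / J * ‖v‖ := by
      refine (re_le_norm _).trans ?_
      rw [norm_mul, norm_div]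
      norm_num
    rw [h8] at h7
    have h10 : (m : ℝ) / 2 * (2 / (J : ℂ) * v).re ≤ (m : ℝ) / 2 * (2 / J * ‖v‖) :=
      mul_le_mul_of_nonneg_left h9 (by positivity)
    have h11 : (m : ℝ) / 2 * (2 / J * ‖v‖) + 1 / (2 * m) * |B| = (‖v‖ + |B| / 2) / m := by
      rw [hJm]
      field_simp
    linarith
  by_contra hne
  have hpos : 0 < ‖S 0‖ := norm_pos_iff.2 hne
  obtain ⟨m, hm⟩ := exists_nat_gt ((‖v‖ + |B| / 2) / (3 / 2 * ‖S 0‖))
  have hm0 : (0 : ℝ) < m := lt_of_le_of_lt (by positivity) hm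
  have h3 := hest m (by exact_mod_cast hm0)
  rw [div_lt_iff₀ (by positivity)] at hm
  rw [le_div_iff₀ hm0] at h3
  linarith

/-- third order correlations vanish -/
theorem third_all {𝒰 : Ultrafilter ι} (hκ : Tendsto D.κ 𝒰 (𝓝 0)) (hE : D.Que 𝒰) {χ : ℂ → ℂ}
    (hχ : D.Te χ) (a b c : ℤ) : Tendsto (q3 D χ a b c) 𝒰 (𝓝 0) := by
  obtain ⟨N, hN⟩ := exists_N (D := D) 𝒰 hχ
  have h := (r3_of_lim hκ hχ hN).zero (fun K => third_top hκ hE hχ hN K) a b c
  have h1 := hN a b c
  rw [h] at h1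
  exact h1

variable {V : Set ℂ} {ρ : ℂ → ℝ} {lam : ℕ → ℝ} {f : ℕ → ℂ → ℝ}

theorem third_jets (hV : IsOpen V) (hρ : ContDiffOn ℝ ∞ ρ V) (hρ0 : ∀ z ∈ V, 0 < ρ z)
    (hl1 : ∀ n, 1 ≤ lam n) (hlam : Tendsto lam atTop atTop)
    (hf : ∀ n, ContDiffOn ℝ ∞ (f n) V)
    (heig : ∀ n, ∀ z ∈ V, -(Δ (f n)) z = lam n * ρ z * f n z) (hq : QueRaw V ρ lam f)
    (hbd : LocFour V f)
    {ψ : ℂ → ℝ} (hψ : ContDiff ℝ ∞ ψ) (hψc : HasCompactSupport ψ) (hψV : tsupport ψ ⊆ V)
    (a b c : ℤ) :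
    Tendsto (fun n => ∫ z, (ψ z : ℂ) * (jet ρ (lam n) (f n) a z * jet ρ (lam n) (f n) b z *
      jet ρ (lam n) (f n) c z)) atTop (𝓝 0) := by
  obtain ⟨D, hKD, hDV, hκ, hγ, -, hDf, hβ, hG, hW, -⟩ :=
    exists_model hV hρ hρ0 hl1 hf heig (𝒰 := atTop) hlam hbd hψc.isCompact hψV
  set χ : ℂ → ℂ := fun z => (ψ z : ℂ) * rr D z ^ (-(a + b + c)) with hχ
  have te0 : D.Te (fun z => ((ψ z : ℝ) : ℂ)) := by
    refine ⟨ofRealCLM.contDiff.comp hψ, hψc.comp_left (g := fun x : ℝ => (x : ℂ)) (by simp), ?_⟩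
    refine (closure_mono ?_).trans hKD
    intro z hz h0
    exact hz (by simp [h0])
  have te : D.Te χ := te0.mul (sm_rr D hγ _)
  rw [tendsto_iff_ultrafilter]
  intro 𝒰 h𝒰
  have h1 := (third_all (hκ.mono_left h𝒰) (que_model hq hDV hW h𝒰) te a b c).const_mul
    (eps a * eps b * eps c)
  rw [mul_zero] at h1
  refine h1.congr fun n => ?_
  rw [q3, q4, ← integral_const_mul]
  refine integral_congr_ae (ae_of_all _ fun z => ?_)
  simp only [one1]
  by_cases hz : z ∈ D.V
  · rw [jet_model hρ0 hl1 hDV hγ hβ hG a n z hz, jet_model hρ0 hl1 hDV hγ hβ hG b n z hz,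
      jet_model hρ0 hl1 hDV hγ hβ hG c n z hz]
    have e2 : rr D z ^ (-(a + b + c)) = rr D z ^ (-a) * rr D z ^ (-b) * rr D z ^ (-c) := by
      have h0 := rr_ne D hγ z
      rw [← zpow_add₀ h0, ← zpow_add₀ h0]
      congr 1
      ring
    simp only [hχ, e2]
    ring
  · have h0 : ψ z = 0 := image_eq_zero_of_notMem_tsupport fun h => hz (hKD h)
    simp only [hχ, h0, ofReal_zero, zero_mul, mul_zero]

end

end Pool.Agent.H486.QM
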