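import Mathlib

/-!
# Complex first order operators on smooth functions of the plane
-/

set_option autoImplicit false

open MeasureTheory Complex Filter Topology Set
open scoped ContDiff ComplexConjugate

namespace Pool.Agent.H486.QM

noncomputable section

/-- the holomorphic derivative -/
def dz (F : ℂ → ℂ) (w : ℂ) : ℂ := (fderiv ℝ F w 1 - I * fderiv ℝ F w I) / 2

/-- the antiholomorphic derivative -/
def dzb (F : ℂ → ℂ) (w : ℂ) : ℂ := (fderiv ℝ F w 1 + I * fderiv ℝ F w I) / 2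

/-- smooth functions -/
def Sm (F : ℂ → ℂ) : Prop := ContDiff ℝ ∞ F

theorem Sm.diff {F : ℂ → ℂ} (h : Sm F) : Differentiable ℝ F :=
  ContDiff.differentiable h (by simp)

theorem Sm.cont {F : ℂ → ℂ} (h : Sm F) : Continuous F := ContDiff.continuous h

theorem Sm.fd {F : ℂ → ℂ} (h : Sm F) (v : ℂ) : Sm (fun w => fderiv ℝ F w v) := by
  have h1 : ContDiff ℝ ∞ (fderiv ℝ F) := ContDiff.fderiv_right (m := ∞) h (by simp)
  exact h1.clm_apply contDiff_const

theorem Sm.const (c : ℂ) : Sm (fun _ => c) := contDiff_const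

theorem Sm.add {F G : ℂ → ℂ} (hF : Sm F) (hG : Sm G) : Sm (fun w => F w + G w) :=
  ContDiff.add hF hG

theorem Sm.sub {F G : ℂ → ℂ} (hF : Sm F) (hG : Sm G) : Sm (fun w => F w - G w) :=
  ContDiff.sub hF hG

theorem Sm.mul {F G : ℂ → ℂ} (hF : Sm F) (hG : Sm G) : Sm (fun w => F w * G w) :=
  ContDiff.mul hF hG

theorem Sm.neg {F : ℂ → ℂ} (hF : Sm F) : Sm (fun w => - F w) := ContDiff.neg hF

theorem Sm.pow {F : ℂ → ℂ} (hF : Sm F) (n : ℕ) : Sm (fun w => F w ^ n) := ContDiff.pow hF n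

theorem Sm.cmul {F : ℂ → ℂ} (c : ℂ) (hF : Sm F) : Sm (fun w => c * F w) :=
  (Sm.const c).mul hF

theorem Sm.cj {F : ℂ → ℂ} (hF : Sm F) : Sm (fun w => conj (F w)) :=
  (conjCLE : ℂ ≃L[ℝ] ℂ).contDiff.comp hF

theorem Sm.d {F : ℂ → ℂ} (h : Sm F) : Sm (dz F) :=
  (ContDiff.div_const (ContDiff.sub (h.fd 1) ((h.fd I).cmul I)) 2)

theorem Sm.db {F : ℂ → ℂ} (h : Sm F) : Sm (dzb F) :=
  (ContDiff.div_const (ContDiff.add (h.fd 1) ((h.fd I).cmul I)) 2)

theorem Sm.iter {F : ℂ → ℂ} (h : Sm F) (k : ℕ) : Sm ((QM.dz)^[k] F) := by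
  induction k with
  | zero => exact h
  | succ k ih => rw [Function.iterate_succ_apply']; exact ih.d

theorem dz_congr {F G : ℂ → ℂ} {w : ℂ} (h : F =ᶠ[𝓝 w] G) : dz F w = dz G w := by
  rw [dz, dz, h.fderiv_eq]

theorem dzb_congr {F G : ℂ → ℂ} {w : ℂ} (h : F =ᶠ[𝓝 w] G) : dzb F w = dzb G w := by
  rw [dzb, dzb, h.fderiv_eq]

theorem dz_add {F G : ℂ → ℂ} (hF : Sm F) (hG : Sm G) (w : ℂ) :
    dz (fun w => F w + G w) w = dz F w + dz G w := by
  simp only [dz]
  rw [fderiv_fun_add (hF.diff w) (hG.diff w)]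
  simp only [add_apply]
  ring

theorem dzb_add {F G : ℂ → ℂ} (hF : Sm F) (hG : Sm G) (w : ℂ) :
    dzb (fun w => F w + G w) w = dzb F w + dzb G w := by
  simp only [dzb]
  rw [fderiv_fun_add (hF.diff w) (hG.diff w)]
  simp only [add_apply]
  ring

theorem dz_sub {F G : ℂ → ℂ} (hF : Sm F) (hG : Sm G) (w : ℂ) :
    dz (fun w => F w - G w) w = dz F w - dz G w := by
  simp only [dz]
  rw [fderiv_fun_sub (hF.diff w) (hG.diff w)]
  simp only [sub_apply]
  ring

theorem dz_mul {F G : ℂ → ℂ} (hF : Sm F) (hG : Sm G) (w : ℂ) :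
    dz (fun w => F w * G w) w = dz F w * G w + F w * dz G w := by
  simp only [dz]
  rw [fderiv_fun_mul (hF.diff w) (hG.diff w)]
  simp only [add_apply, smul_apply, smul_eq_mul]
  ring

theorem dzb_mul {F G : ℂ → ℂ} (hF : Sm F) (hG : Sm G) (w : ℂ) :
    dzb (fun w => F w * G w) w = dzb F w * G w + F w * dzb G w := by
  simp only [dzb]
  rw [fderiv_fun_mul (hF.diff w) (hG.diff w)]
  simp only [add_apply, smul_apply, smul_eq_mul]
  ring

theorem dz_const (c : ℂ) (w : ℂ) : dz (fun _ => c) w = 0 := by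
  simp [dz]

theorem dzb_const (c : ℂ) (w : ℂ) : dzb (fun _ => c) w = 0 := by
  simp [dzb]

theorem dz_cmul {F : ℂ → ℂ} (c : ℂ) (hF : Sm F) (w : ℂ) :
    dz (fun w => c * F w) w = c * dz F w := by
  rw [dz_mul (Sm.const c) hF, dz_const, zero_mul, zero_add]

theorem dzb_cmul {F : ℂ → ℂ} (c : ℂ) (hF : Sm F) (w : ℂ) :
    dzb (fun w => c * F w) w = c * dzb F w := by
  rw [dzb_mul (Sm.const c) hF, dzb_const, zero_mul, zero_add]

theorem fderiv_conj {F : ℂ → ℂ} (hF : Sm F) (w v : ℂ) :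
    fderiv ℝ (fun w => conj (F w)) w v = conj (fderiv ℝ F w v) := by
  have h := ((conjCLE : ℂ ≃L[ℝ] ℂ).hasFDerivAt.comp w (hF.diff w).hasFDerivAt).fderiv
  have h2 : fderiv ℝ (fun w => conj (F w)) w = _ := h
  rw [h2]
  rfl

theorem dz_conj {F : ℂ → ℂ} (hF : Sm F) (w : ℂ) :
    dz (fun w => conj (F w)) w = conj (dzb F w) := by
  simp only [dz, dzb, fderiv_conj hF]
  simp [map_div₀, map_ofNat]
  ring

theorem dzb_conj {F : ℂ → ℂ} (hF : Sm F) (w : ℂ) :
    dzb (fun w => conj (F w)) w = conj (dz F w) := by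
  simp only [dz, dzb, fderiv_conj hF]
  simp [map_div₀, map_ofNat]

theorem fderiv_symm {F : ℂ → ℂ} (hF : Sm F) (w u v : ℂ) :
    fderiv ℝ (fun z => fderiv ℝ F z u) w v = fderiv ℝ (fun z => fderiv ℝ F z v) w u := by
  have h1 : ContDiff ℝ ∞ (fderiv ℝ F) := ContDiff.fderiv_right (m := ∞) hF (by simp)
  have h2 : DifferentiableAt ℝ (fderiv ℝ F) w := (h1.differentiable (by simp)) w
  have e : ∀ u v : ℂ, fderiv ℝ (fun z => fderiv ℝ F z u) w v = fderiv ℝ (fderiv ℝ F) w v u := by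
    intro u v
    have := (h2.hasFDerivAt.clm_apply (hasFDerivAt_const u w)).fderiv
    rw [this]
    simp
  rw [e, e]
  have hs : IsSymmSndFDerivAt ℝ F w :=
    (ContDiff.contDiffAt hF).isSymmSndFDerivAt (by
      simp only [minSmoothness_of_isRCLikeNormedField]
      exact ENat.LEInfty.out)
  exact hs v u

theorem dz_dzb {F : ℂ → ℂ} (hF : Sm F) (w : ℂ) : dz (dzb F) w = dzb (dz F) w := by
  have e1 : ∀ v, fderiv ℝ (dzb F) w v =
      (fderiv ℝ (fun z => fderiv ℝ F z 1) w v + I * fderiv ℝ (fun z => fderiv ℝ F z I) w v) / 2 := by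
    intro v
    have h1 := ((hF.fd 1).diff w).hasFDerivAt
    have h2 := ((hF.fd I).diff w).hasFDerivAt
    have h3 := ((h1.add (h2.const_mul I)).mul_const (2⁻¹ : ℂ)).fderiv
    have h4 : fderiv ℝ (dzb F) w = fderiv ℝ (fun y => ((fun w => (fderiv ℝ F w) 1) +
        fun y => I * (fderiv ℝ F y) I) y * 2⁻¹) w := by
      congr 1
    rw [h4, h3]
    simp [div_eq_mul_inv]
    ring
  have e2 : ∀ v, fderiv ℝ (dz F) w v =
      (fderiv ℝ (fun z => fderiv ℝ F z 1) w v - I * fderiv ℝ (fun z => fderiv ℝ F z I) w v) / 2 := by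
    intro v
    have h1 := ((hF.fd 1).diff w).hasFDerivAt
    have h2 := ((hF.fd I).diff w).hasFDerivAt
    have h3 := ((h1.sub (h2.const_mul I)).mul_const (2⁻¹ : ℂ)).fderiv
    have h4 : fderiv ℝ (dz F) w = fderiv ℝ (fun y => ((fun w => (fderiv ℝ F w) 1) -
        fun y => I * (fderiv ℝ F y) I) y * 2⁻¹) w := by
      congr 1
    rw [h4, h3]
    simp [div_eq_mul_inv]
    ring
  rw [dz, dzb, e1, e1, e2, e2, fderiv_symm hF w 1 I]
  ring

end

end Pool.Agent.H486.QM
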